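import Pool.Agent.Lib.MP_ae5b4e_an_N3.BootA

/-! # Section N3, window level: one place for a whole conical interval -/

noncomputable section

namespace Pool.Agent.MP_ae5b4e_an_N3

open Complex Set Filter Topology Metric
open PorTR (Hm)
open Pool.Agent.MP_ae5b4e_an_NBT (St Mer MerAt EqM)
open Pool.Agent.MP_ae5b4e_an_NB2 (Sys)
open Pool.Agent.MP_ae5b4e_an_N5 (NV Con)
open Pool.Agent.MP_ae5b4e_an_PB
open Pool.Agent.MP_ae5b4e_an_M
open Pool.Agent.MP_ae5b4e_an_N4 (Hyp Sg Gz)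

variable {Y : Sys} {h R C0 : ℝ} {v : ℂ → ℝ} {G L : ℂ × ℂ → ℂ}

private theorem boot_con {v : ℂ → ℝ} {η η' κ r : ℝ} (h : Con v η κ r) (hη : η ≤ η')
    (hκ : 0 ≤ κ) (hr : 0 ≤ r) : Con v η' κ r := by
  refine ⟨fun ρ h1 h2 => (h.1 ρ h1 h2).trans ?_, h.2.trans ?_⟩
  · apply mul_le_mul_of_nonneg_left _ hκ
    have h3 : η * |ρ.im| ≤ η' * |ρ.im| := mul_le_mul_of_nonneg_right hη (abs_nonneg _)
    have h4 : η * r ≤ η' * r := mul_le_mul_of_nonneg_right hη hr
    linarith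
  · exact mul_le_mul_of_nonneg_right hη hκ

/-- A long conical interval has one place which works at all scales (away from the ends).

Proof. Suppose not: for every `n` (with `η₀ = 1 / (n + 1)`, `Λ₀ = exp (n + 1)`, `M₀ = n + 1`) there are
`rf, re, κ` (depending on `n`) with `Λ₀² rf ≤ re ≤ R / 8`, `κ ≥ n + 1`, all scales in `[rf, re]`
`(1 / (n + 1), κ)`-conical, and for every real `x0` a scale `r ∈ [rf Λ₀, re / Λ₀]` without `ConeAt`.
`U := Filter.hyperfilter ℕ`. `c n := rf exp ((n + 1) / 2)`. `c n ≤ re exp (- 3 (n + 1) / 2) → 0`, so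
`CW v U c κ` (for fixed `Λ`: `rf ≤ c / Λ`, `c Λ ≤ re` for large `n`). `exists_place`: `x`, `g`; `not_extB`,
`CW.cl`, `exact_of_nonext`: `qI = cq 1`; `coneAt_of_exact` (constants `η`, `min lam 1`, `a`):
(*) for every `Λ ≥ 1` and almost all `n`: `ConeAt` at `x n` for `r ∈ [c / Λ, c Λ]`.
Let `B n := {r | c n ≤ r, r ≤ re / Λ₀, ¬ ConeAt .. r (x n)}`, nonempty (`c n ≤ rf Λ₀`), bounded below;
`c' n := sInf (B n)`; `c n ≤ c' n ≤ re / Λ₀`; `ConeAt` for `c n ≤ r < c' n`; there is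
`r' ∈ [c' n, 2 c' n)` without `ConeAt`. By (*) `c' n ≥ c n Λ` for almost all `n`, every `Λ`: `c' / c → ∞`.
`c' n ≤ re exp (- (n + 1)) → 0`: `CW v U c' κ`, and the hypothesis `hcon` of `coarse_not_ext`.
`coarse_not_ext`, `CW.cl`, `exact_of_zooms`: `qI = cq 1` at the scale `c'`, places `x`;
`coneAt_of_exact` with `Λ = 2`: `ConeAt` for `r ∈ [c' / 2, 2 c']`, contradiction to `r'`. -/
theorem boot (hB : Base Y h R C0 v G L) {η lam a A C M : ℝ} (hη : 0 < η)
    (hl : 0 < lam) (ha : 0 < a) (hA : 10 ^ 10 ≤ A) (hC : 1 ≤ C)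
    (hcore : CoreP Y h R v G η lam a A C M) :
    ∃ η₀ > 0, ∃ Λ₀ : ℝ, 1 ≤ Λ₀ ∧ ∃ M₀ : ℝ, ∀ rf re κ : ℝ, 0 < rf → Λ₀ ^ 2 * rf ≤ re →
      re ≤ R / 8 → M₀ ≤ κ → (∀ r, rf ≤ r → r ≤ re → Con v η₀ κ r) →
      ∃ x0 : ℝ, ∀ r, Λ₀ * rf ≤ r → r ≤ re / Λ₀ → ConeAt Y h η (min lam 1) a κ r x0 := by
  by_contra hcontra
  push Not at hcontra
  have hpos : ∀ n : ℕ, 0 < 1 / ((n : ℝ) + 1) := fun n => by positivity
  have hex : ∀ n : ℕ, 1 ≤ Real.exp (((n : ℝ) + 1) / 2) ^ 2 := fun n =>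
    one_le_pow₀ (Real.one_le_exp (by positivity))
  choose rf re κ h1 h2 h3 h4 h5 h6 using fun n : ℕ =>
    hcontra (1 / ((n : ℝ) + 1)) (hpos n) (Real.exp (((n : ℝ) + 1) / 2) ^ 2) (hex n) ((n : ℝ) + 1)
  have hR := hB.R_pos
  set U : Ultrafilter ℕ := hyperfilter ℕ with hU
  set E : ℕ → ℝ := fun n => Real.exp (((n : ℝ) + 1) / 2) with hE
  have hE1 : ∀ n, 1 ≤ E n := fun n => Real.one_le_exp (by positivity)
  have hE0 : ∀ n, 0 < E n := fun n => Real.exp_pos _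
  have hElim : Tendsto E U atTop := by
    have h7 : Tendsto (fun n : ℕ => ((n : ℝ) + 1) / 2) atTop atTop :=
      (tendsto_atTop_add_const_right _ 1 tendsto_natCast_atTop_atTop).atTop_div_const (by norm_num)
    exact (Real.tendsto_exp_atTop.comp h7).mono_left Nat.hyperfilter_le_atTop
  have hκ0 : ∀ n, 0 < κ n := fun n => lt_of_lt_of_le (by positivity) (h4 n)
  have hκlim : Tendsto κ U atTop := by
    have h7 : Tendsto (fun n : ℕ => (n : ℝ) + 1) atTop atTop :=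
      tendsto_atTop_add_const_right _ 1 tendsto_natCast_atTop_atTop
    exact (tendsto_atTop_mono h4 h7).mono_left Nat.hyperfilter_le_atTop
  have hηlim : ∀ δ : ℝ, 0 < δ → ∀ᶠ n : ℕ in (U : Filter ℕ), 1 / ((n : ℝ) + 1) < δ :=
    fun δ hδ => (tendsto_one_div_add_atTop_nhds_zero_nat.eventually (gt_mem_nhds hδ)).filter_mono
      Nat.hyperfilter_le_atTop
  set c : ℕ → ℝ := fun n => rf n * E n with hc
  have hc0 : ∀ n, 0 < c n := fun n => mul_pos (h1 n) (hE0 n)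
  have hcE : ∀ n, c n ≤ E n ^ 2 * rf n := by
    intro n
    have h7 := hE1 n
    have h8 := h1 n
    show rf n * E n ≤ _
    nlinarith [mul_nonneg (mul_nonneg h8.le (hE0 n).le) (sub_nonneg.2 h7)]
  -- the general conical statement
  have hgen : ∀ c' : ℕ → ℝ, (∀ n, c' n ≤ re n / E n ^ 2) → ∀ K : ℝ, 1 ≤ K → ∀ δ : ℝ, 0 < δ →
      ∀ᶠ n in (U : Filter ℕ), ∀ r : ℝ, c n / K ≤ r → r ≤ c' n * K → Con v δ (κ n) r := by
    intro c' hc' K hK δ hδ
    have hK0 : 0 < K := by linarith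
    filter_upwards [hElim.eventually_ge_atTop K, hηlim δ hδ] with n hn1 hn2 r hr1 hr2
    have hre : 0 < re n := lt_of_lt_of_le (by have := h1 n; positivity) (h2 n)
    have h7 : rf n ≤ r := by
      refine le_trans ?_ hr1
      rw [le_div_iff₀ hK0]
      exact mul_le_mul_of_nonneg_left hn1 (h1 n).le
    have h8 : r ≤ re n := by
      refine hr2.trans ?_
      have h9 : c' n * K ≤ re n / E n ^ 2 * K := mul_le_mul_of_nonneg_right (hc' n) hK0.le
      refine h9.trans ?_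
      rw [div_mul_eq_mul_div, div_le_iff₀ (by have := hE0 n; positivity)]
      apply mul_le_mul_of_nonneg_left _ hre.le
      have := hE1 n
      nlinarith
    exact boot_con (h5 n r h7 h8) hn2.le (hκ0 n).le ((h1 n).le.trans h7)
  have hlim : ∀ c' : ℕ → ℝ, (∀ n, 0 < c' n) → (∀ n, c' n ≤ re n / E n ^ 2) →
      Tendsto c' U (𝓝 0) := by
    intro c' hc'0 hc'
    have h7 : Tendsto (fun n => R / 8 / E n) U (𝓝 0) := hElim.const_div_atTop _
    refine squeeze_zero (fun n => (hc'0 n).le) (fun n => (hc' n).trans ?_) h7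
    have h8 := hE1 n
    have h9 := hE0 n
    have h10 : re n / E n ^ 2 ≤ R / 8 / E n ^ 2 :=
      div_le_div_of_nonneg_right (h3 n) (by positivity)
    refine h10.trans (div_le_div_of_nonneg_left (by positivity) h9 ?_)
    nlinarith
  have hcre : ∀ n, c n ≤ re n / E n ^ 2 := by
    intro n
    have h9 := hE0 n
    rw [le_div_iff₀ (by positivity)]
    calc c n * E n ^ 2 ≤ (E n ^ 2 * rf n) * E n ^ 2 :=
          mul_le_mul_of_nonneg_right (hcE n) (by positivity)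
      _ = (E n ^ 2) ^ 2 * rf n := by ring
      _ ≤ re n := h2 n
  have HW : CW v U c κ := ⟨hc0, hκ0, hlim c hc0 hcre, hκlim, hgen c hcre⟩
  obtain ⟨x, g, hg, hv, hs⟩ := exists_place hB HW
  obtain ⟨C₁, G₁, hCL⟩ := HW.cl hB x
  have hq := exact_of_nonext hCL (fun ε hε => not_extB hB HW hg hv hs hε)
  have hm : 0 < min lam 1 := lt_min hl one_pos
  have hstar : ∀ Λ : ℝ, 1 ≤ Λ → ∀ᶠ n in (U : Filter ℕ), ∀ r : ℝ, c n / Λ ≤ r → r ≤ c n * Λ →
      ConeAt Y h η (min lam 1) a (κ n) r (x n) := fun Λ hΛ =>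
    coneAt_of_exact hB HW hq hη hm ha hΛ
  set B : ℕ → Set ℝ := fun n => {r | c n ≤ r ∧ r ≤ re n / E n ^ 2 ∧
    ¬ ConeAt Y h η (min lam 1) a (κ n) r (x n)} with hBd
  have hBne : ∀ n, (B n).Nonempty := by
    intro n
    obtain ⟨r, hr1, hr2, hr3⟩ := h6 n (x n)
    exact ⟨r, (hcE n).trans hr1, hr2, hr3⟩
  have hBbd : ∀ n, BddBelow (B n) := fun n => ⟨c n, fun r hr => hr.1⟩
  set c' : ℕ → ℝ := fun n => sInf (B n) with hc'
  have hcc' : ∀ n, c n ≤ c' n := fun n => le_csInf (hBne n) (fun r hr => hr.1)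
  have hc'0 : ∀ n, 0 < c' n := fun n => (hc0 n).trans_le (hcc' n)
  have hc're : ∀ n, c' n ≤ re n / E n ^ 2 := by
    intro n
    obtain ⟨r, hr⟩ := hBne n
    exact (csInf_le (hBbd n) hr).trans hr.2.1
  have hc2 : ∀ n, ∀ r : ℝ, c n ≤ r → r < c' n →
      ConeAt Y h η (min lam 1) a (κ n) r (x n) := by
    intro n r hr1 hr2
    by_contra hr3
    exact absurd (csInf_le (hBbd n) (show r ∈ B n from ⟨hr1, hr2.le.trans (hc're n), hr3⟩))
      (not_le.2 hr2)
  have HW' : CW v U c' κ := by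
    refine ⟨hc'0, hκ0, hlim c' hc'0 hc're, hκlim, fun Λ hΛ δ hδ => ?_⟩
    filter_upwards [hgen c' hc're Λ hΛ δ hδ] with n hn r hr1 hr2
    exact hn r ((div_le_div_of_nonneg_right (hcc' n) (by linarith)).trans hr1) hr2
  have hcc : Tendsto (fun n => c' n / c n) U atTop := by
    rw [Filter.tendsto_atTop]
    intro Λ
    filter_upwards [hstar (max Λ 1) (le_max_right _ _)] with n hn
    have h7 : c n * max Λ 1 ≤ c' n := by
      apply le_csInf (hBne n)
      intro r hr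
      by_contra hr4
      refine hr.2.2 (hn r ?_ (not_le.1 hr4).le)
      exact (div_le_self (hc0 n).le (le_max_right _ _)).trans hr.1
    rw [le_div_iff₀ (hc0 n)]
    have h8 : Λ * c n ≤ max Λ 1 * c n := mul_le_mul_of_nonneg_right (le_max_left _ _) (hc0 n).le
    linarith
  obtain ⟨C₂, G₂, hCL'⟩ := HW'.cl hB x
  have hq' := exact_of_zooms hCL' (fun ε hε => coarse_not_ext hB hη hl hA hC hcore HW HW' hcc
    (hgen c' hc're) hg hv hs (fun K hK => by
      filter_upwards [hstar K hK] with n hn r hr1 hr2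
      refine hn r hr1 (hr2.trans ?_)
      have := hc0 n
      nlinarith) (Eventually.of_forall hc2) hε)
  obtain ⟨n, hn⟩ := (coneAt_of_exact hB HW' hq' hη hm ha (Λ := 2) (by norm_num)).exists
  obtain ⟨r, hr1, hr2⟩ := exists_lt_of_csInf_lt (hBne n)
    (show sInf (B n) < c' n * 2 by
      have := hc'0 n
      show c' n < _
      linarith)
  have h7 : c' n ≤ r := csInf_le (hBbd n) hr1
  refine hr1.2.2 (hn r ?_ hr2.le)
  have := hc'0 n
  linarith

end Pool.Agent.MP_ae5b4e_an_N3
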