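import Pool.Agent.Lib.MP_ae5b4e_an_N3.Coord

/-! # Section N3, window level: consequences of the output `Sg` of section N4 -/

noncomputable section

namespace Pool.Agent.MP_ae5b4e_an_N3

open Complex Set Filter Topology Metric
open Pool.Agent.MP_ae5b4e_an_NBT (St Mer MerAt EqM)
open Pool.Agent.MP_ae5b4e_an_NB2 (Sys)
open Pool.Agent.MP_ae5b4e_an_PB
open Pool.Agent.MP_ae5b4e_an_N4 (Sg Gz)

variable {Y : Sys} {h R C0 : ℝ} {v : ℂ → ℝ} {G L : ℂ × ℂ → ℂ} {x0 A κ κ1 e r : ℝ} {ρ : ℂ}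

/-- the standing assumptions on the numbers -/
structure Num (v : ℂ → ℝ) (h R A κ κ1 e r : ℝ) (ρ : ℂ) : Prop where
  A1 : 10 ^ 10 ≤ A
  κ0 : 0 < κ
  κ1 : |κ1 - κ| ≤ κ / 10
  e0 : 0 < e
  e1 : e ≤ 1 / 100
  r0 : 0 < r
  hρ : ‖ρ - r * I‖ ≤ r / 10
  hR : 2 * r < R
  hh : 4 * (A * κ * r) < h
  hv : v ρ ≤ 2 * κ * r

private lemma sgt_im (hN : Num v h R A κ κ1 e r ρ) :
    9 / 10 * r ≤ ρ.im ∧ ρ.im ≤ 11 / 10 * r ∧ |ρ.re| ≤ r / 10 := by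
  have h1 := (Complex.abs_im_le_norm (ρ - r * I)).trans hN.hρ
  have h2 := (Complex.abs_re_le_norm (ρ - r * I)).trans hN.hρ
  have h3 : (ρ - r * I).im = ρ.im - r := by simp
  have h4 : (ρ - r * I).re = ρ.re := by simp
  rw [h3, abs_le] at h1
  rw [h4] at h2
  exact ⟨by linarith [h1.1], by linarith [h1.2], h2⟩

private lemma sgt_pos (hN : Num v h R A κ κ1 e r ρ) : 0 < ρ.im := by
  have := (sgt_im hN).1
  linarith [hN.r0]

private lemma sgt_ne (hN : Num v h R A κ κ1 e r ρ) : ρ ≠ 0 := by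
  intro h1
  have := sgt_pos hN
  rw [h1] at this
  simp at this

private lemma sgt_norm (hN : Num v h R A κ κ1 e r ρ) : ‖ρ‖ ≤ 11 / 10 * r := by
  have h1 : ‖ρ‖ ≤ ‖ρ - r * I‖ + ‖(r : ℂ) * I‖ := by
    have := norm_add_le (ρ - r * I) ((r : ℂ) * I)
    rwa [sub_add_cancel] at this
  rw [norm_mul, Complex.norm_I, mul_one, Complex.norm_real, Real.norm_of_nonneg hN.r0.le] at h1
  linarith [hN.hρ]

private lemma sgt_lt (hN : Num v h R A κ κ1 e r ρ) : ‖ρ‖ < R := by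
  linarith [sgt_norm hN, hN.hR, hN.r0]

private lemma sgt_small (hN : Num v h R A κ κ1 e r ρ) {z : ℂ} (hz : ‖z‖ ≤ A * κ + κ) :
    ‖ρ * z‖ < h := by
  have hκ := hN.κ0
  have hr := hN.r0
  have hA := hN.A1
  have h1 : κ ≤ A * κ := by nlinarith
  have h2 : ‖ρ * z‖ ≤ 11 / 10 * r * (2 * (A * κ)) := by
    rw [norm_mul]
    exact mul_le_mul (sgt_norm hN) (by linarith) (norm_nonneg _) (by positivity)
  have h3 : 0 < A * κ * r := by positivity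
  have h4 := hN.hh
  nlinarith

private lemma sgt_strip (hN : Num v h R A κ κ1 e r ρ) {z : ℂ} (h1 : -(A * κ) ≤ z.re)
    (h2 : z.re ≤ -κ1 - e * κ) (h3 : |z.im| ≤ κ / 10 ^ 10) : ‖z‖ ≤ A * κ + κ := by
  have hκ := hN.κ0
  have he := hN.e0
  have h4 := (abs_le.1 hN.κ1).1
  have h5 : z.re ≤ 0 := by nlinarith
  have h6 := Complex.norm_le_abs_re_add_abs_im z
  rw [abs_of_nonpos h5] at h6
  have h7 : κ / 10 ^ 10 ≤ κ := div_le_self hκ.le (by norm_num)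
  linarith

/-- `G` is meromorphic in the coordinates `(z, ρ)` below the line -/
private lemma sgt_mer (hB : Base Y h R C0 v G L) {x0 : ℝ} {z ρ : ℂ} (h0 : ρ ≠ 0) (h1 : ‖ρ‖ < R)
    (h2 : ‖ρ * z‖ < h) (h3 : (ρ * z).im < -v ρ) : MerAt (Gz G x0 h) (z, ρ) := by
  rw [Gz_eq]
  exact merAt_tz x0 h h0 (hB.merG _ ((tz_mem_DFU h1 h2).2 h3))

/-- The function `E` of `Sg` agrees with `G` on the whole part of the left strip below the line.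

Proof. Let `z` be as in the last clause of the conclusion. The segment `z - s`, `0 ≤ s ≤ s₁`, where
`Re z - s₁ = - (3 / 4) A κ` (if `Re z ≥ - A κ / 2`, otherwise nothing to prove), lies in the strip; at
its points `Im (ρ (z - s)) = Im (ρ z) - s Im ρ < - v ρ` (`Im ρ > 0`), so `Gz` is `MerAt` there
(`tz_mem_DFU`: `‖ρ z‖ ≤ 2 r (A κ + κ) < h`; `hB.merG`, `merAt_tz`). The set
`{(z - s, ρ) | 0 ≤ s ≤ s₁}` is preconnected, both functions are `Mer` on it, and they agree at the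
end `s = s₁`: `Mer.eqM`. -/
theorem sg_spec (hB : Base Y h R C0 v G L) (hN : Num v h R A κ κ1 e r ρ)
    (hS : Sg G x0 h A κ κ1 e ρ) : ∃ E : ℂ × ℂ → ℂ,
      (∀ z : ℂ, -(A * κ) ≤ z.re → z.re ≤ -κ1 - e * κ → |z.im| ≤ κ / 10 ^ 10 → MerAt E (z, ρ)) ∧
      (∀ z : ℂ, -(A * κ) ≤ z.re → z.re ≤ -κ1 - e * κ → |z.im| ≤ κ / 10 ^ 10 →
        (ρ * z).im < -v ρ → EqM E (Gz G x0 h) (z, ρ)) ∧
      ¬ ∃ E' : ℂ × ℂ → ℂ, (∀ z ∈ closedBall (-κ1 : ℂ) (2 * e * κ), MerAt E' (z, ρ)) ∧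
        EqM E' E ((-κ1 - 3 / 2 * e * κ : ℝ), ρ) := by
  obtain ⟨E, hE1, hE2, hE3⟩ := hS
  refine ⟨E, hE1, fun z h1 h2 h3 h4 => ?_, hE3⟩
  have hκ := hN.κ0
  have hA := hN.A1
  have hAκ : 0 < A * κ := by positivity
  rcases le_or_gt z.re (-(A * κ / 2)) with h5 | h5
  · exact hE2 z h1 h5 h3
  obtain ⟨s₁, hs₁⟩ : ∃ s₁ : ℝ, s₁ = z.re + 3 / 4 * (A * κ) := ⟨_, rfl⟩
  have hs0 : 0 ≤ s₁ := by rw [hs₁]; linarith
  have hcont : Continuous (fun s : ℝ => ((z - s, ρ) : ℂ × ℂ)) := by fun_prop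
  have hpre : IsPreconnected ((fun s : ℝ => ((z - s, ρ) : ℂ × ℂ)) '' Icc 0 s₁) :=
    isPreconnected_Icc.image _ hcont.continuousOn
  have hre : ∀ s : ℝ, (z - s).re = z.re - s := fun s => by simp
  have him : ∀ s : ℝ, (z - s).im = z.im := fun s => by simp
  have hm1 : Mer E ((fun s : ℝ => ((z - s, ρ) : ℂ × ℂ)) '' Icc 0 s₁) := by
    rintro _ ⟨s, hs, rfl⟩
    refine hE1 (z - s) ?_ ?_ ?_
    · rw [hre]
      linarith [hs.2]
    · rw [hre]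
      linarith [hs.1]
    · rw [him]
      exact h3
  have hm2 : Mer (Gz G x0 h) ((fun s : ℝ => ((z - s, ρ) : ℂ × ℂ)) '' Icc 0 s₁) := by
    rintro _ ⟨s, hs, rfl⟩
    refine sgt_mer hB (sgt_ne hN) (sgt_lt hN) (sgt_small hN (sgt_strip hN ?_ ?_ ?_)) ?_
    · rw [hre]
      linarith [hs.2]
    · rw [hre]
      linarith [hs.1]
    · rw [him]
      exact h3
    · have h6 : (ρ * (z - s)).im = (ρ * z).im - s * ρ.im := by
        simp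
        ring
      rw [h6]
      have h7 := mul_nonneg hs.1 (sgt_pos hN).le
      linarith
  have hend : EqM E (Gz G x0 h) ((fun s : ℝ => ((z - s, ρ) : ℂ × ℂ)) s₁) := by
    refine hE2 (z - s₁) ?_ ?_ ?_
    · rw [hre]
      linarith
    · rw [hre]
      linarith
    · rw [him]
      exact h3
  have h8 := Mer.eqM hpre hm1 hm2 (mem_image_of_mem _ (right_mem_Icc.2 hs0)) hend
    ((fun s : ℝ => ((z - s, ρ) : ℂ × ℂ)) 0) (mem_image_of_mem _ (left_mem_Icc.2 hs0))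
  simpa using h8

/-- REGULARITY at the line to the left of `- κ₁`.

Proof. `z₀ := - i v ρ / ρ`, `tz (z₀, ρ) = (x0 + (h - v ρ) i, ρ) =: p`. `E` is `MerAt` at `(z₀, ρ)`, so `Mer` on
`W := ball z₀ δ ×ˢ ball ρ δ` for a small `δ` (with `W` in the open strip, `ρ' ≠ 0`, `Im ρ' > 0`,
`‖ρ' z'‖ < h`, `‖ρ'‖ < R` for `(z', ρ') ∈ W`). `z₁ := z₀ - δ / 2`: `Im (ρ z₁) < - v ρ`, so `EqM E Gz` at
`(z₁, ρ)` by `sg_spec`, hence at `(z₁, ρ')` for `ρ'` near `ρ` (`EqM.eventually`), and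
`Im (ρ' z₁) < - v ρ'` there (`v` is upper semicontinuous). Let `δ' ≤ δ` be such that both hold for
`ρ' ∈ ball ρ δ'`. For `(z', ρ') ∈ ball z₀ δ ×ˢ ball ρ δ'` with `Im (ρ' z') < - v ρ'` the segment from
`(z', ρ')` to `(z₁, ρ')` lies in `W` and in the half plane: `Mer.eqM` gives `EqM E Gz (z', ρ')`.
`N := zt⁻¹ (ball z₀ δ ×ˢ ball ρ δ')` (near `p`), `g := E ∘ zt` (`merAt_zt`, `eqM_zt`). -/
theorem regF_of_sg (hB : Base Y h R C0 v G L) (hN : Num v h R A κ κ1 e r ρ)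
    (hS : Sg G x0 h A κ κ1 e ρ) (h1 : (-(v ρ * I) / ρ).re < -κ1 - e * κ)
    (h2 : |(-(v ρ * I) / ρ).im| < κ / 10 ^ 10) (h3 : -(A * κ) < (-(v ρ * I) / ρ).re) :
    RegF v h R G ((x0:ℂ) + ((h - v ρ : ℝ) : ℂ) * I, ρ) := by
  obtain ⟨E, hE1, hE2, -⟩ := sg_spec hB hN hS
  have hκ := hN.κ0
  have hρ0 := sgt_ne hN
  have hρi := sgt_pos hN
  obtain ⟨z₀, hz₀⟩ : ∃ z₀ : ℂ, z₀ = -(v ρ * I) / ρ := ⟨_, rfl⟩
  rw [← hz₀] at h1 h2 h3
  have hρz : ρ * z₀ = -(v ρ * I) := by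
    rw [hz₀]
    exact mul_div_cancel₀ _ hρ0
  have hρzi : (ρ * z₀).im = -v ρ := by
    rw [hρz]
    simp
  have htz : tz x0 h (z₀, ρ) = ((x0:ℂ) + ((h - v ρ : ℝ) : ℂ) * I, ρ) := by
    refine Prod.ext ?_ rfl
    change (x0:ℂ) + (h:ℂ) * I + ρ * z₀ = _
    rw [hρz]
    push_cast
    ring
  -- the neighbourhood `V` of `(z₀, ρ)`
  have hsm : ‖ρ * z₀‖ < h := sgt_small hN (sgt_strip hN h3.le h1.le h2.le)
  have hV : ∀ᶠ q in 𝓝 ((z₀, ρ) : ℂ × ℂ), MerAt E q ∧ 0 < q.2.im ∧ ‖q.2‖ < R ∧ ‖q.2 * q.1‖ < h := by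
    refine (hE1 z₀ h3.le h1.le h2.le).eventually.and (Filter.Eventually.and ?_
      (Filter.Eventually.and ?_ ?_))
    · have hc : ContinuousAt (fun q : ℂ × ℂ => q.2.im) (z₀, ρ) := by fun_prop
      exact hc.eventually_const_lt hρi
    · have hc : ContinuousAt (fun q : ℂ × ℂ => ‖q.2‖) (z₀, ρ) := by fun_prop
      exact hc.eventually_lt_const (sgt_lt hN)
    · have hc : ContinuousAt (fun q : ℂ × ℂ => ‖q.2 * q.1‖) (z₀, ρ) := by fun_prop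
      exact hc.eventually_lt_const hsm
  obtain ⟨δ₀, hδ₀, hV⟩ := Metric.eventually_nhds_iff_ball.1 hV
  obtain ⟨δ, hδ⟩ : ∃ δ : ℝ, δ = min δ₀ (z₀.re + A * κ) := ⟨_, rfl⟩
  have hδ0 : 0 < δ := by
    rw [hδ]
    exact lt_min hδ₀ (by linarith)
  have hδ1 : δ ≤ δ₀ := by
    rw [hδ]
    exact min_le_left _ _
  have hδ2 : δ ≤ z₀.re + A * κ := by
    rw [hδ]
    exact min_le_right _ _
  obtain ⟨z₁, hz₁⟩ : ∃ z₁ : ℂ, z₁ = z₀ - ((δ / 2 : ℝ) : ℂ) := ⟨_, rfl⟩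
  have hz₁r : z₁.re = z₀.re - δ / 2 := by rw [hz₁, Complex.sub_re, Complex.ofReal_re]
  have hz₁i : z₁.im = z₀.im := by rw [hz₁, Complex.sub_im, Complex.ofReal_im, sub_zero]
  have hz₁m : (ρ * z₁).im < -v ρ := by
    have h4 : (ρ * z₁).im = (ρ * z₀).im - δ / 2 * ρ.im := by
      rw [Complex.mul_im, Complex.mul_im, hz₁r, hz₁i]
      ring
    rw [h4, hρzi]
    have := mul_pos hδ0 hρi
    linarith
  have hz₁b : z₁ ∈ ball z₀ δ := by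
    rw [mem_ball, dist_eq_norm, hz₁]
    have h4 : z₀ - ((δ / 2 : ℝ) : ℂ) - z₀ = -((δ / 2 : ℝ) : ℂ) := by ring
    rw [h4, norm_neg, Complex.norm_real, Real.norm_of_nonneg (by positivity)]
    linarith
  have hEG : EqM E (Gz G x0 h) (z₁, ρ) := by
    refine hE2 z₁ ?_ ?_ ?_ hz₁m
    · rw [hz₁r]
      linarith
    · rw [hz₁r]
      linarith
    · rw [hz₁i]
      exact h2.le
  -- the choice of `δ'`
  have hc1 : ∀ᶠ ρ' in 𝓝 ρ, EqM E (Gz G x0 h) (z₁, ρ') := by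
    have hc : ContinuousAt (fun ρ' : ℂ => ((z₁, ρ') : ℂ × ℂ)) ρ := by fun_prop
    exact hc.eventually hEG.eventually
  have hc2 : ∀ᶠ ρ' in 𝓝 ρ, (ρ' * z₁).im < -v ρ' := by
    have hR : ρ ∈ ball (0:ℂ) R := by
      rw [mem_ball_zero_iff]
      exact sgt_lt hN
    have h4 : v ρ < (v ρ + -(ρ * z₁).im) / 2 := by linarith
    have h5 := hB.nv.sub.usc ρ hR _ h4
    rw [isOpen_ball.nhdsWithin_eq hR] at h5
    have hc : ContinuousAt (fun ρ' : ℂ => (ρ' * z₁).im) ρ := by fun_prop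
    have h6 := hc.eventually_lt_const (show (ρ * z₁).im < -((v ρ + -(ρ * z₁).im) / 2) by linarith)
    filter_upwards [h5, h6] with ρ' h7 h8
    linarith
  obtain ⟨δ₁, hδ₁, hc⟩ := Metric.eventually_nhds_iff_ball.1 (hc1.and hc2)
  obtain ⟨δ', hδ'⟩ : ∃ δ' : ℝ, δ' = min δ δ₁ := ⟨_, rfl⟩
  have hδ'0 : 0 < δ' := by
    rw [hδ']
    exact lt_min hδ0 hδ₁
  have hδ'1 : δ' ≤ δ := by
    rw [hδ']
    exact min_le_left _ _
  have hδ'2 : δ' ≤ δ₁ := by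
    rw [hδ']
    exact min_le_right _ _
  -- the properties on `W`
  have hW : ∀ z' ∈ ball z₀ δ, ∀ ρ' ∈ ball ρ δ', MerAt E (z', ρ') ∧ 0 < ρ'.im ∧ ‖ρ'‖ < R ∧
      ‖ρ' * z'‖ < h := by
    intro z' hz' ρ' hρ'
    refine hV (z', ρ') ?_
    rw [← ball_prod_same]
    exact ⟨ball_subset_ball hδ1 hz', ball_subset_ball (hδ'1.trans hδ1) hρ'⟩
  have hne : ∀ ρ' ∈ ball ρ δ', ρ' ≠ 0 := by
    intro ρ' hρ' h4
    have h5 := (hW z₀ (mem_ball_self hδ0) ρ' hρ').2.1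
    rw [h4] at h5
    simp at h5
  have key : ∀ z' ∈ ball z₀ δ, ∀ ρ' ∈ ball ρ δ', (ρ' * z').im < -v ρ' →
      EqM E (Gz G x0 h) (z', ρ') := by
    intro z' hz' ρ' hρ' hi
    have hpre : IsPreconnected ((fun w : ℂ => ((w, ρ') : ℂ × ℂ)) '' segment ℝ z' z₁) := by
      refine (convex_segment _ _).isPreconnected.image _ ?_
      have : Continuous (fun w : ℂ => ((w, ρ') : ℂ × ℂ)) := by fun_prop
      exact this.continuousOn
    have hsub : segment ℝ z' z₁ ⊆ ball z₀ δ := (convex_ball z₀ δ).segment_subset hz' hz₁b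
    have hhp : Convex ℝ {w : ℂ | (ρ' * w).im < -v ρ'} := by
      have hl : IsLinearMap ℝ (fun w : ℂ => (ρ' * w).im) :=
        ⟨fun a b => by rw [mul_add, Complex.add_im], fun a b => by
          rw [mul_smul_comm, Complex.smul_im]⟩
      exact convex_halfSpace_lt hl _
    have hsub2 : segment ℝ z' z₁ ⊆ {w : ℂ | (ρ' * w).im < -v ρ'} :=
      hhp.segment_subset hi (hc ρ' (ball_subset_ball hδ'2 hρ')).2
    have hm1 : Mer E ((fun w : ℂ => ((w, ρ') : ℂ × ℂ)) '' segment ℝ z' z₁) := by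
      rintro _ ⟨w, hw, rfl⟩
      exact (hW w (hsub hw) ρ' hρ').1
    have hm2 : Mer (Gz G x0 h) ((fun w : ℂ => ((w, ρ') : ℂ × ℂ)) '' segment ℝ z' z₁) := by
      rintro _ ⟨w, hw, rfl⟩
      have h5 := hW w (hsub hw) ρ' hρ'
      exact sgt_mer hB (hne ρ' hρ') h5.2.2.1 h5.2.2.2 (hsub2 hw)
    exact Mer.eqM hpre hm1 hm2 (mem_image_of_mem _ (right_mem_segment ℝ z' z₁))
      (hc ρ' (ball_subset_ball hδ'2 hρ')).1 (z', ρ') (mem_image_of_mem _ (left_mem_segment ℝ z' z₁))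
  -- the neighbourhood `N`
  have hzt : ContinuousAt (zt x0 h) ((x0:ℂ) + ((h - v ρ : ℝ) : ℂ) * I, ρ) := by
    unfold zt
    refine ContinuousAt.prodMk ?_ continuousAt_snd
    exact ContinuousAt.div (by fun_prop) continuousAt_snd hρ0
  have hztp : zt x0 h ((x0:ℂ) + ((h - v ρ : ℝ) : ℂ) * I, ρ) = (z₀, ρ) := by
    rw [← htz]
    exact zt_tz x0 h (p := (z₀, ρ)) hρ0
  refine ⟨zt x0 h ⁻¹' (ball z₀ δ ×ˢ ball ρ δ'), ?_, fun q => E (zt x0 h q), ?_, ?_⟩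
  · refine hzt.preimage_mem_nhds ?_
    rw [hztp]
    exact prod_mem_nhds (ball_mem_nhds _ hδ0) (ball_mem_nhds _ hδ'0)
  · intro q hq
    have hq2 : q.2 ∈ ball ρ δ' := hq.2
    exact merAt_zt x0 h (hne q.2 hq2) (hW _ hq.1 _ hq2).1
  · rintro q ⟨hq, hqD⟩
    have hq2 : q.2 ∈ ball ρ δ' := hq.2
    have h5 := hW _ hq.1 _ hq2
    have h6 := tz_zt x0 h (hne q.2 hq2)
    refine eqM_zt x0 h (hne q.2 hq2) ?_
    refine key _ hq.1 _ hq2 ?_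
    refine (tz_mem_DFU (x0 := x0) h5.2.2.1 h5.2.2.2).1 ?_
    change tz x0 h (zt x0 h q) ∈ DFU v h R
    rw [h6]
    exact hqD

/-- NO EXTENSION near `- κ₁`.

Proof. Suppose `g` is given. `E' := g ∘ tz`, `MerAt` at `(z, ρ)` for `‖z + κ₁‖ < ε₀ κ`, in particular on
`closedBall (- κ₁) (2 e κ)`. The set `T := {z | ‖z + κ₁‖ < ε₀ κ, Re z ≤ - κ₁ - e κ, |Im z| ≤ κ / 10 ^ 10}` is
convex and contains `z₁` and `- κ₁ - (3/2) e κ`; `E` and `E'` are `Mer` on `T ×ˢ {ρ}` (`Re z ≥ - A κ` there),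
and at `(z₁, ρ)` both agree with `Gz` (`sg_spec`, `hg2` with `tz_mem_DFU`). `Mer.eqM`: they agree at
`(- κ₁ - (3/2) e κ, ρ)`: contradiction to the last clause of `Sg`. -/
theorem no_ext_of_sg (hB : Base Y h R C0 v G L) (hN : Num v h R A κ κ1 e r ρ)
    (hS : Sg G x0 h A κ κ1 e ρ) {ε₀ : ℝ} (h0 : 2 * e < ε₀) (h0' : ε₀ ≤ 1) {g : ℂ × ℂ → ℂ}
    (hg1 : ∀ z : ℂ, ‖z + κ1‖ < ε₀ * κ → MerAt g (tz x0 h (z, ρ)))
    (hg2 : ∀ z : ℂ, ‖z + κ1‖ < ε₀ * κ → tz x0 h (z, ρ) ∈ DFU v h R → EqM g G (tz x0 h (z, ρ)))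
    {z₁ : ℂ} (hz1 : ‖z₁ + κ1‖ < ε₀ * κ) (hz2 : z₁.re ≤ -κ1 - e * κ)
    (hz3 : |z₁.im| ≤ κ / 10 ^ 10) (hz4 : (ρ * z₁).im < -v ρ) : False := by
  obtain ⟨E, hE1, hE2, hE3⟩ := sg_spec hB hN hS
  have hκ := hN.κ0
  have hA := hN.A1
  have he := hN.e0
  have hκ1 := abs_le.1 hN.κ1
  have hlow : ∀ z : ℂ, ‖z + κ1‖ < ε₀ * κ → -(A * κ) ≤ z.re := by
    intro z hz
    have h1 := (Complex.abs_re_le_norm (z + κ1)).trans_lt hz
    rw [Complex.add_re, Complex.ofReal_re, abs_lt] at h1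
    have h2 : ε₀ * κ ≤ 1 * κ := mul_le_mul_of_nonneg_right h0' hκ.le
    have h3 : 10 * κ ≤ A * κ := mul_le_mul_of_nonneg_right (by linarith) hκ.le
    linarith [h1.1, hκ1.2]
  refine hE3 ⟨fun q => g (tz x0 h q), fun z hz => ?_, ?_⟩
  · refine merAt_tz x0 h (sgt_ne hN) (hg1 z ?_)
    rw [mem_closedBall, dist_eq_norm, sub_neg_eq_add] at hz
    refine hz.trans_lt ?_
    exact mul_lt_mul_of_pos_right h0 hκ
  · -- the convex set
    have hTc : Convex ℝ ({z : ℂ | ‖z + κ1‖ < ε₀ * κ} ∩ ({z : ℂ | z.re ≤ -κ1 - e * κ} ∩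
        ({z : ℂ | z.im ≤ κ / 10 ^ 10} ∩ {z : ℂ | -(κ / 10 ^ 10) ≤ z.im}))) := by
      refine Convex.inter ?_ ((convex_halfSpace_re_le _).inter
        ((convex_halfSpace_im_le _).inter (convex_halfSpace_im_ge _)))
      have h1 : {z : ℂ | ‖z + κ1‖ < ε₀ * κ} = ball (-κ1 : ℂ) (ε₀ * κ) := by
        ext z
        rw [mem_ball, dist_eq_norm, sub_neg_eq_add]
        rfl
      rw [h1]
      exact convex_ball _ _
    have hpre : IsPreconnected ((fun w : ℂ => ((w, ρ) : ℂ × ℂ)) ''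
        ({z : ℂ | ‖z + κ1‖ < ε₀ * κ} ∩ ({z : ℂ | z.re ≤ -κ1 - e * κ} ∩
        ({z : ℂ | z.im ≤ κ / 10 ^ 10} ∩ {z : ℂ | -(κ / 10 ^ 10) ≤ z.im})))) := by
      refine hTc.isPreconnected.image _ ?_
      have : Continuous (fun w : ℂ => ((w, ρ) : ℂ × ℂ)) := by fun_prop
      exact this.continuousOn
    have hm1 : Mer (fun q => g (tz x0 h q)) ((fun w : ℂ => ((w, ρ) : ℂ × ℂ)) ''
        ({z : ℂ | ‖z + κ1‖ < ε₀ * κ} ∩ ({z : ℂ | z.re ≤ -κ1 - e * κ} ∩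
        ({z : ℂ | z.im ≤ κ / 10 ^ 10} ∩ {z : ℂ | -(κ / 10 ^ 10) ≤ z.im})))) := by
      rintro _ ⟨w, hw, rfl⟩
      exact merAt_tz x0 h (sgt_ne hN) (hg1 w hw.1)
    have hm2 : Mer E ((fun w : ℂ => ((w, ρ) : ℂ × ℂ)) ''
        ({z : ℂ | ‖z + κ1‖ < ε₀ * κ} ∩ ({z : ℂ | z.re ≤ -κ1 - e * κ} ∩
        ({z : ℂ | z.im ≤ κ / 10 ^ 10} ∩ {z : ℂ | -(κ / 10 ^ 10) ≤ z.im})))) := by
      rintro _ ⟨w, hw, rfl⟩
      exact hE1 w (hlow w hw.1) hw.2.1 (abs_le.2 ⟨hw.2.2.2, hw.2.2.1⟩)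
    have hz1m : z₁ ∈ ({z : ℂ | ‖z + κ1‖ < ε₀ * κ} ∩ ({z : ℂ | z.re ≤ -κ1 - e * κ} ∩
        ({z : ℂ | z.im ≤ κ / 10 ^ 10} ∩ {z : ℂ | -(κ / 10 ^ 10) ≤ z.im}))) :=
      ⟨hz1, hz2, (abs_le.1 hz3).2, (abs_le.1 hz3).1⟩
    have heq : EqM (fun q => g (tz x0 h q)) E (z₁, ρ) := by
      have h1 := hE2 z₁ (hlow z₁ hz1) hz2 hz3 hz4
      have h2 : tz x0 h (z₁, ρ) ∈ DFU v h R :=
        (tz_mem_DFU (sgt_lt hN) (sgt_small hN (sgt_strip hN (hlow z₁ hz1) hz2 hz3))).2 hz4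
      have h3 : EqM (fun q => g (tz x0 h q)) (Gz G x0 h) (z₁, ρ) := by
        rw [Gz_eq]
        exact eqM_tz x0 h (sgt_ne hN) (hg2 z₁ hz1 h2)
      exact h3.trans h1.symm
    refine Mer.eqM hpre hm1 hm2 (mem_image_of_mem _ hz1m) heq _ (mem_image_of_mem _ ?_)
    have hek : 0 < e * κ := mul_pos he hκ
    refine ⟨?_, ?_, ?_, ?_⟩
    · change ‖(((-κ1 - 3 / 2 * e * κ : ℝ) : ℂ)) + κ1‖ < ε₀ * κ
      have h1 : (((-κ1 - 3 / 2 * e * κ : ℝ) : ℂ)) + κ1 = ((-(3 / 2 * e * κ) : ℝ) : ℂ) := by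
        push_cast
        ring
      rw [h1, Complex.norm_real, norm_neg, Real.norm_of_nonneg (by positivity)]
      nlinarith
    · change (((-κ1 - 3 / 2 * e * κ : ℝ) : ℂ)).re ≤ -κ1 - e * κ
      rw [Complex.ofReal_re]
      nlinarith
    · change (((-κ1 - 3 / 2 * e * κ : ℝ) : ℂ)).im ≤ κ / 10 ^ 10
      rw [Complex.ofReal_im]
      positivity
    · change -(κ / 10 ^ 10) ≤ (((-κ1 - 3 / 2 * e * κ : ℝ) : ℂ)).im
      rw [Complex.ofReal_im]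
      have : 0 ≤ κ / 10 ^ 10 := by positivity
      linarith

/-- LOWER BOUND for `κ₁` from a singular point of the line.

Proof. `ρ = i r (1 + ω)`, `‖ω‖ ≤ θ`: `z₀ = - i v ρ / ρ = - (v ρ / r) / (1 + ω)`, `‖1 / (1 + ω) - 1‖ ≤ 2 θ`, so
`Re z₀ ≤ - (v ρ / r) (1 - 2 θ) ≤ - (1 - 3 θ) κ`, `|Im z₀| ≤ (v ρ / r) 2 θ ≤ 4 θ κ < κ / 10 ^ 10`,
`Re z₀ ≥ - 4 κ > - A κ`. If `κ₁ < (1 - 3 θ - e) κ` then `regF_of_sg` applies: contradiction. -/
theorem kap1_ge (hB : Base Y h R C0 v G L) (hN : Num v h R A κ κ1 e r ρ)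
    (hS : Sg G x0 h A κ κ1 e ρ) {θ : ℝ} (hθ : 0 ≤ θ) (hθ1 : θ ≤ 1 / 10 ^ 12)
    (hρ : ‖ρ - r * I‖ ≤ θ * r) (hv : (1 - θ) * (κ * r) ≤ v ρ)
    (hs : ¬ RegF v h R G ((x0:ℂ) + ((h - v ρ : ℝ) : ℂ) * I, ρ)) : (1 - 3 * θ - e) * κ ≤ κ1 := by
  by_contra hcon
  push Not at hcon
  apply hs
  have hκ := hN.κ0
  have hr := hN.r0
  have hA := hN.A1
  have hvu := hN.hv
  have hθ2 : θ ≤ 1 / 100 := by
    refine hθ1.trans ?_
    norm_num
  -- `a² + (b - r)² ≤ (θ r)²`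
  have hab : ρ.re ^ 2 + (ρ.im - r) ^ 2 ≤ (θ * r) ^ 2 := by
    have h1 : ‖ρ - r * I‖ ^ 2 ≤ (θ * r) ^ 2 := pow_le_pow_left₀ (norm_nonneg _) hρ 2
    have h2 : ‖ρ - r * I‖ ^ 2 = ρ.re ^ 2 + (ρ.im - r) ^ 2 := by
      rw [← Complex.normSq_eq_norm_sq, Complex.normSq_apply]
      simp
      ring
    linarith
  obtain ⟨a, ha⟩ : ∃ a : ℝ, a = ρ.re := ⟨_, rfl⟩
  obtain ⟨b, hb⟩ : ∃ b : ℝ, b = ρ.im := ⟨_, rfl⟩
  rw [← ha, ← hb] at hab
  have hθr : 0 ≤ θ * r := mul_nonneg hθ hr.le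
  have hbr : |b - r| ≤ θ * r := abs_le_of_sq_le_sq (by nlinarith [sq_nonneg a]) hθr
  have har : |a| ≤ θ * r := abs_le_of_sq_le_sq (by nlinarith [sq_nonneg (b - r)]) hθr
  have hb1 := (abs_le.1 hbr).1
  have hb2 := (abs_le.1 hbr).2
  have hθr1 : θ * r ≤ 1 / 100 * r := mul_le_mul_of_nonneg_right hθ2 hr.le
  have hb0 : 0 < b := by linarith
  have hD : 0 < a ^ 2 + b ^ 2 := by positivity
  have hv0 : 0 < v ρ := by
    refine lt_of_lt_of_le ?_ hv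
    have : 0 < κ * r := mul_pos hκ hr
    exact mul_pos (by linarith) this
  have hns : Complex.normSq ρ = a ^ 2 + b ^ 2 := by
    rw [Complex.normSq_apply, ha, hb]
    ring
  have hre : (-(v ρ * I) / ρ).re = -(v ρ * b / (a ^ 2 + b ^ 2)) := by
    rw [Complex.div_re, hns]
    simp [← ha, ← hb]
    ring
  have him : (-(v ρ * I) / ρ).im = -(v ρ * a / (a ^ 2 + b ^ 2)) := by
    rw [Complex.div_im, hns]
    simp [← ha, ← hb]
    ring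
  -- `1 / (r (1 + θ)) ≤ b / (a² + b²)`
  have hlow : a ^ 2 + b ^ 2 ≤ (1 + θ) * r * b := by nlinarith
  have hD2 : (1 - 2 * θ) * r ^ 2 ≤ a ^ 2 + b ^ 2 := by nlinarith [sq_nonneg a, sq_nonneg (b - (1 - θ) * r)]
  refine regF_of_sg hB hN hS ?_ ?_ ?_
  · rw [hre]
    have h1 : (1 - 3 * θ) * κ ≤ v ρ * b / (a ^ 2 + b ^ 2) := by
      rw [le_div_iff₀ hD]
      have h2 : (1 - 3 * θ) * κ * (a ^ 2 + b ^ 2) ≤ (1 - 3 * θ) * κ * ((1 + θ) * r * b) :=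
        mul_le_mul_of_nonneg_left hlow (mul_nonneg (by linarith) hκ.le)
      have h3 : (1 - 3 * θ) * κ * ((1 + θ) * r * b) ≤ (1 - θ) * (κ * r) * b := by
        have h4 : (1 - 3 * θ) * (1 + θ) ≤ 1 - θ := by nlinarith
        have h5 : 0 ≤ κ * r * b := by positivity
        nlinarith [mul_le_mul_of_nonneg_right h4 h5]
      have h6 : (1 - θ) * (κ * r) * b ≤ v ρ * b := mul_le_mul_of_nonneg_right hv hb0.le
      linarith
    nlinarith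
  · rw [him, abs_neg, abs_div, abs_mul, abs_of_pos hv0, abs_of_pos hD]
    rw [div_lt_iff₀ hD]
    have h1 : v ρ * |a| ≤ 2 * κ * r * (θ * r) :=
      mul_le_mul hvu har (abs_nonneg _) (by positivity)
    have h2 : 2 * κ * r * (θ * r) ≤ 2 * κ * r * (1 / 10 ^ 12 * r) :=
      mul_le_mul_of_nonneg_left (mul_le_mul_of_nonneg_right hθ1 hr.le) (by positivity)
    have h3 : κ / 10 ^ 10 * ((1 - 2 * θ) * r ^ 2) ≤ κ / 10 ^ 10 * (a ^ 2 + b ^ 2) :=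
      mul_le_mul_of_nonneg_left hD2 (by positivity)
    have h4 : 2 * κ * r * (1 / 10 ^ 12 * r) < κ / 10 ^ 10 * ((1 - 2 * θ) * r ^ 2) := by
      have h5 : 0 < κ * r ^ 2 := by positivity
      have h6 : κ / 10 ^ 10 * ((1 - 2 * θ) * r ^ 2) = (1 - 2 * θ) / 10 ^ 10 * (κ * r ^ 2) := by
        ring
      have h7 : 2 * κ * r * (1 / 10 ^ 12 * r) = 2 / 10 ^ 12 * (κ * r ^ 2) := by ring
      rw [h6, h7]
      refine mul_lt_mul_of_pos_right ?_ h5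
      rw [div_lt_div_iff₀ (by positivity) (by positivity)]
      nlinarith
    linarith
  · rw [hre]
    have h1 : v ρ * b / (a ^ 2 + b ^ 2) < A * κ := by
      rw [div_lt_iff₀ hD]
      have h2 : v ρ * b ≤ 2 * κ * r * (2 * r) :=
        mul_le_mul hvu (by linarith) hb0.le (by positivity)
      have h3 : A * κ * ((1 - 2 * θ) * r ^ 2) ≤ A * κ * (a ^ 2 + b ^ 2) :=
        mul_le_mul_of_nonneg_left hD2 (by positivity)
      have h4 : 10 * κ * ((1 / 2) * r ^ 2) ≤ A * κ * ((1 - 2 * θ) * r ^ 2) := by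
        refine mul_le_mul ?_ ?_ (by positivity) (by positivity)
        · exact mul_le_mul_of_nonneg_right (by linarith) hκ.le
        · exact mul_le_mul_of_nonneg_right (by linarith) (by positivity)
      have h5 : 0 < κ * r ^ 2 := by positivity
      nlinarith
    linarith

/-- UPPER BOUND for `κ₁`. Proof. `ρ = r i`. Suppose `κ₁ > (1 + θ + 3 e) κ`. `no_ext_of_sg` with `g := G`,
`ε₀ := 5 e / 2`: for `‖z + κ₁‖ < ε₀ κ`: `Im (ρ z) = r Re z < r (- κ₁ + (5/2) e κ) < - (1 + θ) κ r ≤ - v ρ`, so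
`tz (z, ρ) ∈ DFU` and `G` is `MerAt` there (`hB.merG`); `z₁ := - κ₁ - (3/2) e κ`. -/
theorem kap1_le (hB : Base Y h R C0 v G L) (hN : Num v h R A κ κ1 e r (r * I))
    (hS : Sg G x0 h A κ κ1 e (r * I)) {θ : ℝ} (hθ : 0 ≤ θ)
    (hv : v (r * I) ≤ (1 + θ) * (κ * r)) : κ1 ≤ (1 + θ + 3 * e) * κ := by
  have _ := hθ
  by_contra hcon
  push Not at hcon
  have hκ := hN.κ0
  have hr := hN.r0
  have hA := hN.A1
  have he := hN.e0
  have he1 := hN.e1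
  have hκ1 := abs_le.1 hN.κ1
  have hek : 0 < e * κ := mul_pos he hκ
  have him : ∀ z : ℂ, ((r : ℂ) * I * z).im = r * z.re := fun z => by simp
  have hbelow : ∀ z : ℂ, ‖z + κ1‖ < 5 * e / 2 * κ → ((r : ℂ) * I * z).im < -v (r * I) := by
    intro z hz
    have h1 := (Complex.abs_re_le_norm (z + κ1)).trans_lt hz
    rw [Complex.add_re, Complex.ofReal_re, abs_lt] at h1
    rw [him]
    have h2 : z.re < -((1 + θ) * κ) := by
      have := h1.2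
      nlinarith
    have h3 : r * z.re < r * (-((1 + θ) * κ)) := mul_lt_mul_of_pos_left h2 hr
    nlinarith
  have hDFU : ∀ z : ℂ, ‖z + κ1‖ < 5 * e / 2 * κ → tz x0 h (z, (r : ℂ) * I) ∈ DFU v h R := by
    intro z hz
    refine (tz_mem_DFU (sgt_lt hN) (sgt_small hN ?_)).2 (hbelow z hz)
    have h1 : ‖z‖ ≤ ‖z + κ1‖ + ‖(κ1 : ℂ)‖ := by
      have := norm_sub_le (z + κ1) (κ1 : ℂ)
      rwa [add_sub_cancel_right] at this
    rw [Complex.norm_real, Real.norm_of_nonneg (by linarith [hκ1.1])] at h1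
    have h2 : 5 * e / 2 * κ ≤ κ := by nlinarith
    have h3 : 10 * κ ≤ A * κ := mul_le_mul_of_nonneg_right (by linarith) hκ.le
    linarith [hκ1.2]
  have hz : ‖(((-κ1 - 3 / 2 * e * κ : ℝ) : ℂ)) + κ1‖ < 5 * e / 2 * κ := by
    have h1 : (((-κ1 - 3 / 2 * e * κ : ℝ) : ℂ)) + κ1 = ((-(3 / 2 * e * κ) : ℝ) : ℂ) := by
      push_cast
      ring
    rw [h1, Complex.norm_real, norm_neg, Real.norm_of_nonneg (by positivity)]
    nlinarith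
  refine no_ext_of_sg hB hN hS (ε₀ := 5 * e / 2) (by linarith) (by linarith) (g := G)
    (fun z hz => hB.merG _ (hDFU z hz)) (fun z hz _ => EqM.refl _ _)
    (z₁ := ((-κ1 - 3 / 2 * e * κ : ℝ) : ℂ)) hz ?_ ?_ (hbelow _ hz)
  · rw [Complex.ofReal_re]
    nlinarith
  · rw [Complex.ofReal_im, abs_zero]
    positivity

end Pool.Agent.MP_ae5b4e_an_N3
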