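import Pool.Agent.Lib.MP_ae5b4e_an_N3.Place
import Pool.Agent.Lib.MP_ae5b4e_an_N3.SgT

/-! # Section N3, window level: section N4 on a long interval makes the coarse end exact -/

noncomputable section

namespace Pool.Agent.MP_ae5b4e_an_N3

open Complex Set Filter Topology Metric
open PorTR (Hm)
open Pool.Agent.MP_ae5b4e_an_NBT (St Mer MerAt EqM)
open Pool.Agent.MP_ae5b4e_an_NB2 (Sys)
open Pool.Agent.MP_ae5b4e_an_N5 (NV Con)
open Pool.Agent.MP_ae5b4e_an_PB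
open Pool.Agent.MP_ae5b4e_an_M
open Pool.Agent.MP_ae5b4e_an_N4 (Hyp Sg Gz)

variable {Y : Sys} {h R C0 : ℝ} {v : ℂ → ℝ} {G L : ℂ × ℂ → ℂ} {U : Ultrafilter ℕ}
  {c c' κ : ℕ → ℝ}

/-- The hypothesis of section N4 on the interval `[c / Λ, c' / 2]`, for almost all `n`.

Proof. `rf0`, `rle`: `c' / c → ∞` (`hcc`). `reR`: `c' → 0`. `sm`: `κ c' → 0` (`CW.V_lim` for `c'`).
`con`: for `c / (4 Λ) ≤ ‖ρ‖ ≤ 2 c'` the scale `‖ρ‖` is `(η, κ)`-conical (`hcon` with `4 Λ`). `cone`: let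
`lam κ c / Λ ≤ ‖z‖`, `lam ‖z‖ ≤ κ c' / 2`, `a ‖z‖ ≤ - Im z`. `r := ` the point of `[c / Λ, c' / 2]` closest to
`‖z‖ / κ`; with `lam₀ = min lam 1`: `lam₀ κ r ≤ ‖z‖` and `lam₀ ‖z‖ ≤ κ r` in the three cases. For
`r ∈ [c / Λ, c]` use `hc1`, for `r ∈ [c, c' / 2]` use `hc2`. -/
theorem exists_hyp (hB : Base Y h R C0 v G L) (HW : CW v U c κ) (HW' : CW v U c' κ)
    (hcc : Tendsto (fun n => c' n / c n) U atTop)
    (hcon : ∀ K : ℝ, 1 ≤ K → ∀ η : ℝ, 0 < η → ∀ᶠ n in (U : Filter ℕ), ∀ r : ℝ,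
      c n / K ≤ r → r ≤ c' n * K → Con v η (κ n) r) {x : ℕ → ℝ} {η lam a : ℝ} (hη : 0 < η)
    (hl : 0 < lam)
    (hc1 : ∀ K : ℝ, 1 ≤ K → ∀ᶠ n in (U : Filter ℕ), ∀ r : ℝ, c n / K ≤ r → r ≤ c n →
      ConeAt Y h η (min lam 1) a (κ n) r (x n))
    (hc2 : ∀ᶠ n in (U : Filter ℕ), ∀ r : ℝ, c n ≤ r → r < c' n →
      ConeAt Y h η (min lam 1) a (κ n) r (x n)) {Λ : ℝ} (hΛ : 1 ≤ Λ) :
    ∀ᶠ n in (U : Filter ℕ), Hyp Y h R v η lam a (c n / Λ) (c' n / 2) (κ n) (x n) := by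
  have hh := hB.h_pos
  have hR := hB.R_pos
  have hΛ0 : 0 < Λ := by linarith
  have e1 : ∀ᶠ n in (U : Filter ℕ), c' n < R / 4 :=
    HW'.c_lim.eventually (gt_mem_nhds (by positivity))
  have e2 : ∀ᶠ n in (U : Filter ℕ), Vc c' κ n < lam ^ 2 * h :=
    (HW'.V_lim hB.nv hR).eventually (gt_mem_nhds (by positivity))
  have e3 : ∀ᶠ n in (U : Filter ℕ), 2 ≤ c' n / c n := hcc.eventually_ge_atTop 2
  filter_upwards [e1, e2, e3, hcon (4 * Λ) (by linarith) η hη, hc1 Λ hΛ, hc2] with n e1 e2 e3 e4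
    e5 e6
  have hc := HW.c_pos n
  have hc' := HW'.c_pos n
  have hκ := HW.κ_pos n
  have h1 : 2 * c n ≤ c' n := (le_div_iff₀ hc).1 e3
  have h2 : c n / Λ ≤ c n := div_le_self hc.le hΛ
  have h3 : 0 < c n / Λ := div_pos hc hΛ0
  have e2' : κ n * c' n < lam ^ 2 * h := e2
  refine ⟨h3, by linarith, by linarith, ?_, ?_, ?_⟩
  · nlinarith [mul_pos hκ hc']
  · intro ρ h4 h5
    have h6 : c n / (4 * Λ) = c n / Λ / 4 := by
      field_simp
    have h7 : c' n * 2 ≤ c' n * (4 * Λ) := mul_le_mul_of_nonneg_left (by linarith) hc'.le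
    exact (e4 ‖ρ‖ (by rw [h6]; exact h4) (by linarith)).1 ρ
      (by linarith [norm_nonneg ρ]) (by linarith [norm_nonneg ρ])
  · intro z h4 h5 h6
    have hz := norm_nonneg z
    have hm1 : min lam 1 ≤ 1 := min_le_right _ _
    have hm2 : min lam 1 ≤ lam := min_le_left _ _
    have hm0 : 0 < min lam 1 := lt_min hl one_pos
    have key : ∀ r : ℝ, c n / Λ ≤ r → r ≤ c' n / 2 → min lam 1 * (κ n * r) ≤ ‖z‖ →
        min lam 1 * ‖z‖ ≤ κ n * r →
        ‖z ^ 2 * Y.Q ((x n : ℂ) + (h:ℂ) * I + z) + (κ n : ℂ) ^ 2‖ ≤ η * κ n ^ 2 := by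
      intro r hr1 hr2 hr3 hr4
      rcases le_total r (c n) with hr5 | hr5
      · exact e5 r hr1 hr5 z hr3 hr4 h6
      · exact e6 r hr5 (by linarith) z hr3 hr4 h6
    rcases lt_or_ge (‖z‖ / κ n) (c n / Λ) with hca | hca
    · have h7 : ‖z‖ < c n / Λ * κ n := (div_lt_iff₀ hκ).1 hca
      have h8 : 0 ≤ κ n * (c n / Λ) := by positivity
      have h9 : min lam 1 * (κ n * (c n / Λ)) ≤ lam * (κ n * (c n / Λ)) :=
        mul_le_mul_of_nonneg_right hm2 h8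
      have h10 : min lam 1 * ‖z‖ ≤ 1 * ‖z‖ := mul_le_mul_of_nonneg_right hm1 hz
      exact key _ le_rfl (by linarith) (by linarith) (by linarith)
    · have h7 : c n / Λ * κ n ≤ ‖z‖ := (le_div_iff₀ hκ).1 hca
      rcases lt_or_ge (c' n / 2) (‖z‖ / κ n) with hcb | hcb
      · have h8 : c' n / 2 * κ n < ‖z‖ := (lt_div_iff₀ hκ).1 hcb
        have h9 : min lam 1 * ‖z‖ ≤ lam * ‖z‖ := mul_le_mul_of_nonneg_right hm2 hz
        have h10 : min lam 1 * (κ n * (c' n / 2)) ≤ 1 * (κ n * (c' n / 2)) :=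
          mul_le_mul_of_nonneg_right hm1 (by positivity)
        exact key _ (by linarith) le_rfl (by linarith) (by linarith)
      · have h8 : κ n * (‖z‖ / κ n) = ‖z‖ := mul_div_cancel₀ _ hκ.ne'
        have h10 : min lam 1 * ‖z‖ ≤ 1 * ‖z‖ := mul_le_mul_of_nonneg_right hm1 hz
        exact key _ hca hcb (by rw [h8]; linarith) (by rw [h8]; linarith)

/-- The numbers: for almost all `n`, for all scales `r` between `c / K` and `c' K` and all `ρ` with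
`‖ρ - r i‖ ≤ r / 10`, if `|κ1 - κ| ≤ κ / 10` and `0 < e ≤ 1 / 100`.

Proof. `r ≤ c' K → 0`, `κ r ≤ K κ c' → 0` (`CW.V_lim`), so `hR`, `hh`; `hv`: the scale `‖ρ‖` is
`(1 / 10, κ)`-conical: `v ρ ≤ κ (1.1 |Im ρ| + 0.1 ‖ρ‖) ≤ 1.2 κ ‖ρ‖ ≤ 2 κ r`. -/
theorem exists_num (hB : Base Y h R C0 v G L) (HW' : CW v U c' κ)
    (hcon : ∀ K : ℝ, 1 ≤ K → ∀ η : ℝ, 0 < η → ∀ᶠ n in (U : Filter ℕ), ∀ r : ℝ,
      c n / K ≤ r → r ≤ c' n * K → Con v η (κ n) r) (hc : ∀ n, 0 < c n) {A : ℝ}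
    (hA : 10 ^ 10 ≤ A) {K : ℝ} (hK : 1 ≤ K) :
    ∀ᶠ n in (U : Filter ℕ), ∀ r : ℝ, c n / K ≤ r → r ≤ c' n * K → ∀ ρ : ℂ,
      ‖ρ - r * I‖ ≤ r / 10 → ∀ κ1 e : ℝ, |κ1 - κ n| ≤ κ n / 10 → 0 < e → e ≤ 1 / 100 →
      Num v h R A (κ n) κ1 e r ρ := by
  have hh := hB.h_pos
  have hR := hB.R_pos
  have hK0 : 0 < K := by linarith
  have hA0 : 0 < A := lt_of_lt_of_le (by norm_num) hA
  have e1 : ∀ᶠ n in (U : Filter ℕ), c' n < R / (2 * K) :=
    HW'.c_lim.eventually (gt_mem_nhds (by positivity))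
  have e2 : ∀ᶠ n in (U : Filter ℕ), Vc c' κ n < h / (4 * (A * K)) :=
    (HW'.V_lim hB.nv hR).eventually (gt_mem_nhds (by positivity))
  filter_upwards [e1, e2, hcon (2 * K) (by linarith) (1 / 10) (by norm_num)] with n e1 e2 e4 r
    hr1 hr2 ρ hρ κ1 e hκ1 he0 he1
  have hc := hc n
  have hc' := HW'.c_pos n
  have hκ := HW'.κ_pos n
  have hr0 : 0 < r := lt_of_lt_of_le (by positivity) hr1
  have e1' : c' n * (2 * K) < R := (lt_div_iff₀ (by positivity)).1 e1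
  have e2' : κ n * c' n * (4 * (A * K)) < h := (lt_div_iff₀ (by positivity)).1 e2
  have hrI : ‖(r:ℂ) * I‖ = r := by
    rw [norm_mul, norm_I, mul_one, norm_real, Real.norm_eq_abs, abs_of_pos hr0]
  have hρ1 : ‖ρ‖ ≤ 11 / 10 * r := by
    have h1 := norm_add_le (ρ - r * I) (r * I)
    rw [sub_add_cancel, hrI] at h1
    linarith
  have hρ2 : 9 / 10 * r ≤ ‖ρ‖ := by
    have h1 := norm_sub_le ρ (ρ - r * I)
    rw [sub_sub_cancel, hrI] at h1
    linarith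
  refine ⟨hA, hκ, hκ1, he0, he1, hr0, hρ, by linarith, ?_, ?_⟩
  · have h1 : A * κ n * r ≤ A * κ n * (c' n * K) := mul_le_mul_of_nonneg_left hr2 (by positivity)
    linarith
  · have h2 : c n / (2 * K) = c n / K / 2 := by
      field_simp
    have h3 : 0 < ‖ρ‖ := by linarith
    have h4 := (e4 ‖ρ‖ (by rw [h2]; linarith) (by linarith)).1 ρ (by linarith) (by linarith)
    have h5 := abs_im_le_norm ρ
    have h6 : κ n * ((1 + 1 / 10) * |ρ.im| + 1 / 10 * ‖ρ‖) ≤ κ n * (2 * r) :=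
      mul_le_mul_of_nonneg_left (by linarith) hκ.le
    linarith

private theorem boota_wmap {h : ℝ} {x c V : ℕ → ℝ} {n : ℕ} {r κ : ℝ} (hκ : κ ≠ 0)
    (hc : c n = r) (hV : V n = κ * r) (z : ℂ) :
    tz (x n) h (z, r * I) = wmap h x c V n (I * z / κ, I) := by
  have hκ' : (κ : ℂ) ≠ 0 := ofReal_ne_zero.2 hκ
  refine Prod.ext ?_ ?_
  · simp only [tz, wmap, pt, hV]
    push_cast
    field_simp
  · simp only [tz, wmap, hc]

/-- THE COARSE END IS NOT EXTENDABLE. Situation: conical scales `c` (fine) and `c'` (coarse),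
`c' / c → ∞`, all scales between are conical, the places `x n` are singular at the scale `c`, the
potential is close to the cone on `[c / K, c')`. Conclusion: for every `ε > 0` some zoom
`s ∈ (0, ε)` of the limit label at the scale `c'` does not extend to the bidisc of radius `ε` about
`(- i, i)`.

Proof. Let `ε ≤ 1 / 4` (`ExtB.mono`). Choose `l ≥ C` so large that `C exp (- l / 4) ≤ ε / 1000` and
`s := exp (- l) / 2 < ε`. `Λ := exp l`. For almost all `n`: `Hyp` on `[c / Λ, c' / 2]` (`exists_hyp`),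
`M ≤ κ n`, `e n := C (exp (- l / 4) + log κ / κ) ≤ ε / 500` (`log κ / κ → 0`); `CoreP` gives `κ1`.
(1) `r = c n`: `(c / Λ) exp l = c ≤ (c' / 2) exp (- l)`; `ρ := c n g n`; `Sg` there, `exists_num`,
`kap1_ge` with `θ := ε / 10 ^ 13` (`‖g n - i‖ ≤ θ`, `vn (g n) ≥ 1 - θ` for almost all `n`):
`κ1 ≥ (1 - ε / 400) κ`.
(2) `r = c n`, `ρ = r i`: `kap1_le` with `θ = ε / 1000` (the scale `r` is `(θ / 2, κ)`-conical):
`κ1 ≤ (1 + ε / 100) κ`.
(3) Suppose `ExtB (zL s L') (-I, I) ε`, `L'` the limit label at the scale `c'`. By `CW.zL_eq` the limit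
label of the scale `s c'` extends (`ExtB.congr`), and `reg_of_ext` for the conical scale `s c'`
(`CW.scale`) gives, for almost all `n`, a function `g` on the image of `ball (-I, I) (ε / 16)` under
`wmap` (scale `s c'`, unit `κ s c'`). Take `r := s c' n = (c' / 2) exp (- l)`, `ρ := r i`; `Sg` at `ρ`
(`(c / Λ) exp l = c ≤ r`). `no_ext_of_sg` with `ε₀ := ε / 40`: for `‖z + κ1‖ < ε₀ κ` the point
`tz (z, ρ) = wmap (i z / κ, i)` and `|i z / κ + i| ≤ ‖z + κ1‖ / κ + |κ1 / κ - 1| < ε / 40 + ε / 100 < ε / 16`.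
`z₁ := - κ1 - (ε / 50) κ`: `‖z₁ + κ1‖ < ε κ / 40`, `Re z₁ ≤ - κ1 - e κ` (`e ≤ ε / 500`),
`Im (ρ z₁) = - r (κ1 + ε κ / 50) ≤ - r κ (1 - ε / 400 + ε / 50) < - v ρ`, since the scale `r` is
`(ε / 1000, κ)`-conical: `v (r i) ≤ κ r (1 + ε / 500)`. Contradiction. -/
theorem coarse_not_ext (hB : Base Y h R C0 v G L) {η lam a A C M : ℝ} (hη : 0 < η)
    (hl : 0 < lam) (hA : 10 ^ 10 ≤ A) (hC : 1 ≤ C) (hcore : CoreP Y h R v G η lam a A C M)
    (HW : CW v U c κ) (HW' : CW v U c' κ) (hcc : Tendsto (fun n => c' n / c n) U atTop)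
    (hcon : ∀ K : ℝ, 1 ≤ K → ∀ η : ℝ, 0 < η → ∀ᶠ n in (U : Filter ℕ), ∀ r : ℝ,
      c n / K ≤ r → r ≤ c' n * K → Con v η (κ n) r) {x : ℕ → ℝ} {g : ℕ → ℂ}
    (hg : Tendsto g U (𝓝 I)) (hv : Tendsto (fun n => vn v c (Vc c κ) n (g n)) U (𝓝 1))
    (hs : ∀ᶠ n in (U : Filter ℕ), ¬ RegF v h R G
        ((x n : ℂ) + ((h - v ((c n : ℂ) * g n) : ℝ) : ℂ) * I, (c n : ℂ) * g n))
    (hc1 : ∀ K : ℝ, 1 ≤ K → ∀ᶠ n in (U : Filter ℕ), ∀ r : ℝ, c n / K ≤ r → r ≤ c n →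
      ConeAt Y h η (min lam 1) a (κ n) r (x n))
    (hc2 : ∀ᶠ n in (U : Filter ℕ), ∀ r : ℝ, c n ≤ r → r < c' n →
      ConeAt Y h η (min lam 1) a (κ n) r (x n)) {ε : ℝ} (hε : 0 < ε) :
    ∃ s : ℝ, 0 < s ∧ s < ε ∧ ¬ ExtB (zL s (LI L h U x c' (Vc c' κ))) (-I, I) ε := by
  suffices H : ∀ ε : ℝ, 0 < ε → ε ≤ 1 / 4 →
      ∃ s : ℝ, 0 < s ∧ s < ε ∧ ¬ ExtB (zL s (LI L h U x c' (Vc c' κ))) (-I, I) ε by
    obtain ⟨s, h1, h2, h3⟩ := H (min ε (1 / 4)) (lt_min hε (by norm_num)) (min_le_right _ _)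
    exact ⟨s, h1, h2.trans_le (min_le_left _ _), fun h4 => h3 (h4.mono (min_le_left _ _))⟩
  clear hε ε
  intro ε hε hε1
  have hC0 : 0 < C := by linarith
  obtain ⟨l, hlC, hl1, hl2⟩ : ∃ l : ℝ, C ≤ l ∧ C * Real.exp (-(l / 4)) ≤ ε / 1000 ∧
      Real.exp (-l) / 2 < ε := by
    have h2 : Tendsto (fun l : ℝ => Real.exp (-l)) atTop (𝓝 0) :=
      Real.tendsto_exp_neg_atTop_nhds_zero
    have h1 : Tendsto (fun l : ℝ => Real.exp (-(l / 4))) atTop (𝓝 0) :=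
      h2.comp (tendsto_id.atTop_div_const (by norm_num))
    have e1 := h1.eventually (gt_mem_nhds (show 0 < ε / 1000 / C by positivity))
    have e2 := h2.eventually (gt_mem_nhds hε)
    obtain ⟨l, h3, h4, h5⟩ := (e1.and (e2.and (eventually_ge_atTop C))).exists
    refine ⟨l, h5, ?_, ?_⟩
    · have h6 := (lt_div_iff₀ hC0).1 h3
      linarith
    · have h6 := Real.exp_pos (-l)
      linarith
  have hl0 : 0 < l := by linarith
  set Λ : ℝ := Real.exp l with hΛ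
  have hΛ0 : 0 < Λ := Real.exp_pos l
  have hΛ1 : 1 ≤ Λ := Real.one_le_exp hl0.le
  set s : ℝ := Real.exp (-l) / 2 with hsd
  have hs0 : 0 < s := by positivity
  have hsΛ : s * (2 * Λ) = 1 := by
    rw [hsd, hΛ, Real.exp_neg]
    field_simp
  refine ⟨s, hs0, hl2, fun hext => ?_⟩
  have hext' : ExtB (LI L h U x (fun n => s * c' n) (Vc (fun n => s * c' n) κ)) (-I, I) ε :=
    hext.congr (fun p hp => (HW'.zL_eq hB x hs0 hp).symm)
  have hreg := reg_of_ext hB (HW'.scale hs0) x hε hε1 hext'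
  have hnum := exists_num hB HW' hcon HW.c_pos hA (K := Λ) hΛ1
  have hhyp := exists_hyp hB HW HW' hcc hcon hη hl hc1 hc2 (Λ := Λ) hΛ1
  have e1 : ∀ᶠ n in (U : Filter ℕ), max M 1 ≤ κ n := HW.κ_lim.eventually_ge_atTop _
  have e2 : ∀ᶠ n in (U : Filter ℕ), Real.log (κ n) / κ n < ε / 1000 / C := by
    have h1 : Tendsto (fun t : ℝ => Real.log t / t) atTop (𝓝 0) :=
      Real.isLittleO_log_id_atTop.tendsto_div_nhds_zero
    exact (h1.comp HW.κ_lim).eventually (gt_mem_nhds (by positivity))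
  have e3 : ∀ᶠ n in (U : Filter ℕ), 2 * Λ ≤ c' n / c n := hcc.eventually_ge_atTop _
  have e4 : ∀ᶠ n in (U : Filter ℕ), ‖g n - I‖ < ε / 10 ^ 13 := by
    have h1 : Tendsto (fun n => ‖g n - I‖) U (𝓝 0) := tendsto_iff_norm_sub_tendsto_zero.1 hg
    exact h1.eventually (gt_mem_nhds (by positivity))
  have e5 : ∀ᶠ n in (U : Filter ℕ), 1 - ε / 10 ^ 13 < vn v c (Vc c κ) n (g n) :=
    hv.eventually (lt_mem_nhds (by linarith [show 0 < ε / 10 ^ 13 by positivity]))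
  have e6 := hcon Λ hΛ1 (ε / 2000) (by positivity)
  obtain ⟨n, hreg, hnum, hhyp, e1, e2, e3, e4, e5, e6, e7⟩ := (hreg.and (hnum.and (hhyp.and
    (e1.and (e2.and (e3.and (e4.and (e5.and (e6.and hs))))))))).exists
  have hc := HW.c_pos n
  have hc' := HW'.c_pos n
  have hκ := HW.κ_pos n
  have hM : M ≤ κ n := (le_max_left _ _).trans e1
  have hκ1 : 1 ≤ κ n := (le_max_right _ _).trans e1
  have hlog : 0 ≤ Real.log (κ n) / κ n := div_nonneg (Real.log_nonneg hκ1) hκ.le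
  have e2' := (lt_div_iff₀ hC0).1 e2
  obtain ⟨-, -, κ1, hk, hsg⟩ := hcore _ _ _ _ hM hhyp
  have hsg := hsg l hlC
  set e : ℝ := C * (Real.exp (-(l / 4)) + Real.log (κ n) / κ n) with he
  have hexp := Real.exp_pos (-(l / 4))
  have he0 : 0 < e := mul_pos hC0 (by linarith)
  have he1 : e ≤ ε / 500 := by
    rw [he]
    linarith
  have he2 : e ≤ 1 / 100 := by linarith
  have e3' : 2 * Λ * c n ≤ c' n := (le_div_iff₀ hc).1 e3
  -- the scales
  have hrf : c n / Λ * Λ = c n := div_mul_cancel₀ _ hΛ0.ne'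
  have hre : c' n / 2 * Real.exp (-l) = s * c' n := by
    rw [hsd]
    ring
  have hcs : c n ≤ s * c' n := by
    have h1 : s * (2 * Λ * c n) ≤ s * c' n := mul_le_mul_of_nonneg_left e3' hs0.le
    have h2 : s * (2 * Λ * c n) = c n := by
      rw [← mul_assoc, hsΛ, one_mul]
    linarith
  have hs1 : s ≤ 1 := by nlinarith only [hsΛ, hΛ1, hs0]
  have hsc : s * c' n ≤ c' n := mul_le_of_le_one_left hc'.le hs1
  have hcΛ : c n / Λ ≤ c n := div_le_self hc.le hΛ1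
  have hc'Λ : c' n ≤ c' n * Λ := le_mul_of_one_le_right hc'.le hΛ1
  -- (1) lower bound
  have hθ0 : 0 < ε / 10 ^ 13 := by positivity
  have hrc : ‖(c n : ℂ) * g n - c n * I‖ ≤ ε / 10 ^ 13 * c n := by
    rw [← mul_sub, norm_mul, norm_real, Real.norm_eq_abs, abs_of_pos hc, mul_comm]
    exact mul_le_mul_of_nonneg_right e4.le hc.le
  have hrc' : ‖(c n : ℂ) * g n - c n * I‖ ≤ c n / 10 := by
    refine hrc.trans ?_
    have h1 : ε / 10 ^ 13 ≤ 1 / 10 := by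
      rw [div_le_div_iff₀ (by positivity) (by norm_num)]
      linarith
    exact (mul_le_mul_of_nonneg_right h1 hc.le).trans (le_of_eq (by ring))
  have hN1 := hnum (c n) hcΛ (by linarith) _ hrc' κ1 e hk he0 he2
  have hS1 := hsg (c n) (by rw [hrf]) (by rw [hre]; exact hcs) _ hrc'
  have hv1 : (1 - ε / 10 ^ 13) * (κ n * c n) ≤ v ((c n : ℂ) * g n) := by
    have h1 : 1 - ε / 10 ^ 13 < v ((c n : ℂ) * g n) / (κ n * c n) := e5
    exact ((lt_div_iff₀ (mul_pos hκ hc)).1 h1).le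
  have hθ1 : ε / 10 ^ 13 ≤ 1 / 10 ^ 12 := by
    rw [div_le_div_iff₀ (by positivity) (by positivity)]
    norm_num
    linarith
  have hlow := kap1_ge hB hN1 hS1 hθ0.le hθ1 hrc hv1 e7
  have hlow' : (1 - ε / 400) * κ n ≤ κ1 := by
    refine le_trans (mul_le_mul_of_nonneg_right ?_ hκ.le) hlow
    have h1 : ε / 10 ^ 13 * 3 ≤ ε / 2000 := by
      have : (10:ℝ) ^ 13 = 10000000000000 := by norm_num
      rw [this]
      linarith
    linarith
  -- (2) upper bound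
  have hvI : ∀ r : ℝ, 0 < r → c n / Λ ≤ r → r ≤ c' n * Λ →
      v ((r:ℂ) * I) ≤ (1 + ε / 1000) * (κ n * r) := by
    intro r hr0 hr1 hr2
    have hn : ‖(r:ℂ) * I‖ = r := by
      rw [norm_mul, norm_I, mul_one, norm_real, Real.norm_eq_abs, abs_of_pos hr0]
    have hi : |((r:ℂ) * I).im| = r := by
      rw [im_ofReal_mul, I_im, mul_one, abs_of_pos hr0]
    have h1 := (e6 r hr1 hr2).1 ((r:ℂ) * I) (by rw [hn]; linarith) (by rw [hn]; linarith)
    rw [hi] at h1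
    linarith
  have hN2 := hnum (c n) hcΛ (by linarith) ((c n : ℂ) * I) (by simp; positivity) κ1 e hk he0 he2
  have hS2 := hsg (c n) (by rw [hrf]) (by rw [hre]; exact hcs) ((c n : ℂ) * I)
    (by simp; positivity)
  have hup := kap1_le hB hN2 hS2 (show 0 ≤ ε / 1000 by positivity)
    (hvI (c n) hc hcΛ (by linarith))
  have hup' : κ1 ≤ (1 + ε / 100) * κ n := by
    refine hup.trans (mul_le_mul_of_nonneg_right (by linarith) hκ.le)
  have hkk : |κ1 - κ n| ≤ ε / 100 * κ n := by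
    rw [abs_le]
    constructor
    · linarith only [hlow', mul_pos hε hκ]
    · linarith only [hup']
  -- (3) the scale `s c'`
  obtain ⟨gg, hg1, hg2⟩ := hreg
  set r : ℝ := s * c' n with hr
  have hr0 : 0 < r := by positivity
  have hr1 : c n / Λ ≤ r := by linarith
  have hr2 : r ≤ c' n * Λ := by linarith
  have hN3 := hnum r hr1 hr2 ((r : ℂ) * I) (by simp; positivity) κ1 e hk he0 he2
  have hS3 := hsg r (by rw [hrf]; exact hcs) (by rw [hre]) ((r : ℂ) * I) (by simp; positivity)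
  have hmem : ∀ z : ℂ, ‖z + κ1‖ < ε / 40 * κ n → tz (x n) h (z, (r:ℂ) * I) ∈
      wmap h x (fun n => s * c' n) (Vc (fun n => s * c' n) κ) n '' ball (-I, I) (ε / 16) := by
    intro z hz
    rw [boota_wmap hκ.ne' (c := fun n => s * c' n) (V := Vc (fun n => s * c' n) κ) rfl rfl z]
    refine mem_image_of_mem _ ?_
    rw [mem_ball, dist_eq_norm, Prod.norm_def]
    refine max_lt ?_ ?_
    · have h1 : (I * z / κ n, I).1 - (-I, I).1 = I * ((z + κ n) / κ n) := by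
        have hκ' : (κ n : ℂ) ≠ 0 := ofReal_ne_zero.2 hκ.ne'
        show I * z / κ n - -I = _
        field_simp
        ring
      rw [Prod.fst_sub, h1, norm_mul, norm_I, one_mul, norm_div, norm_real, Real.norm_eq_abs,
        abs_of_pos hκ, div_lt_iff₀ hκ]
      have h2 : ‖z + κ n‖ ≤ ‖z + κ1‖ + |κ1 - κ n| := by
        have h3 := norm_sub_le (z + κ1) ((κ1 - κ n : ℝ) : ℂ)
        rw [norm_real, Real.norm_eq_abs] at h3
        have h4 : z + κ1 - ((κ1 - κ n : ℝ) : ℂ) = z + κ n := by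
          push_cast
          ring
        rwa [h4] at h3
      linarith only [h2, hz, hkk, mul_pos hε hκ]
    · simp
      positivity
  have hkey : ‖(((-κ1 - ε / 50 * κ n : ℝ) : ℂ)) + κ1‖ = ε / 50 * κ n := by
    have h1 : (((-κ1 - ε / 50 * κ n : ℝ) : ℂ)) + κ1 = ((-(ε / 50 * κ n) : ℝ) : ℂ) := by
      push_cast
      ring
    rw [h1, norm_real, Real.norm_eq_abs, abs_neg, abs_of_nonneg (by positivity)]
  refine no_ext_of_sg hB hN3 hS3 (ε₀ := ε / 40) (by linarith) (by linarith) (g := gg)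
    (fun z hz => hg1 _ (hmem z hz)) (fun z hz hz' => hg2 _ ⟨hmem z hz, hz'⟩)
    (z₁ := ((-κ1 - ε / 50 * κ n : ℝ) : ℂ)) ?_ ?_ ?_ ?_
  · rw [hkey]
    linarith only [mul_pos hε hκ]
  · rw [ofReal_re]
    linarith only [mul_pos hε hκ, mul_le_mul_of_nonneg_right he1 hκ.le]
  · rw [ofReal_im, abs_zero]
    positivity
  · have h1 : ((r:ℂ) * I * ((-κ1 - ε / 50 * κ n : ℝ) : ℂ)).im = r * (-κ1 - ε / 50 * κ n) := by
      rw [mul_assoc, im_ofReal_mul, mul_comm, mul_comm I, im_ofReal_mul, I_im, mul_one, mul_comm]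
    rw [h1]
    have h2 := hvI r hr0 hr1 hr2
    have h3 := mul_le_mul_of_nonneg_right hlow' hr0.le
    linarith only [h2, h3, mul_pos (mul_pos hε hκ) hr0]

end Pool.Agent.MP_ae5b4e_an_N3
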