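import Pool.Agent.Lib.MP_ae5b4e_an_N3.Zoom

/-! # Section N3: the label deep below the line -/

noncomputable section

namespace Pool.Agent.MP_ae5b4e_an_N3

open Complex Set Filter Topology Metric
open PorTR (Hm)

variable {C : ℝ} {q G : ℂ → ℂ} {L : ℂ × ℂ → ℂ}

private theorem coneA_im (y : ℝ) : (-((y:ℂ) * I)).im = -y := by simp

/-- the point `(s, γ)` is in `DC` if `- Im s` is large -/
private theorem coneA_mem (hC : 2 ≤ C) {s γ : ℂ} (hs : s.im < 0) (h : C * ‖γ‖ ≤ -s.im) :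
    (s, γ) ∈ DC := by
  show s.im < -|γ.im|
  have h1 : |γ.im| ≤ ‖γ‖ := Complex.abs_im_le_norm γ
  have h2 : 0 ≤ ‖γ‖ := norm_nonneg γ
  rcases h2.eq_or_lt with h3 | h3
  · have h4 : |γ.im| = 0 := le_antisymm (by rw [h3]; exact h1) (abs_nonneg _)
    rw [h4]
    linarith
  · have h4 : 2 * ‖γ‖ ≤ C * ‖γ‖ := mul_le_mul_of_nonneg_right hC h2
    linarith

private theorem coneA_diff (h : CL C q G L) {s γ : ℂ} (hs : (s, γ) ∈ DC) :
    DifferentiableAt ℂ (fun w => L (w, γ)) s := by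
  have h1 : DifferentiableAt ℂ L (s, γ) := (h.an (s, γ) hs).differentiableAt
  have h2 : DifferentiableAt ℂ (fun w : ℂ => (w, γ)) s :=
    differentiableAt_id.prodMk (differentiableAt_const _)
  exact DifferentiableAt.comp s h1 h2

/-- `2 C |γ| ≤ - Im τ` puts `(τ, γ)` into `DC`, and
`|∂τ L - 1| ≤ 4 C |γ|² / (Im τ)²`. Proof. Cauchy's estimate on the disc of radius `- Im τ / 2` about
`τ` for `L (·, γ) - id`, which is `≤ 2 C |γ|² / (- Im τ)` there by `base`. -/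
theorem CL.dbase (h : CL C q G L) {τ γ : ℂ} (hτ : τ.im < 0) (hγ : 2 * C * ‖γ‖ ≤ -τ.im) :
    (τ, γ) ∈ DC ∧ ‖deriv (fun s => L (s, γ)) τ - 1‖ ≤ 4 * C * ‖γ‖ ^ 2 / τ.im ^ 2 := by
  have hC := h.C_two
  have hγ0 : 0 ≤ ‖γ‖ := norm_nonneg γ
  have hCγ : 0 ≤ C * ‖γ‖ := mul_nonneg (by linarith) hγ0
  have hmem : (τ, γ) ∈ DC := coneA_mem hC hτ (by linarith)
  refine ⟨hmem, ?_⟩
  set ρ : ℝ := -τ.im / 2 with hρ
  have hρ0 : 0 < ρ := by linarith
  have hball : ∀ s ∈ closedBall τ ρ, s.im < 0 ∧ ρ ≤ -s.im := by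
    intro s hs
    have h1 : |(s - τ).im| ≤ ‖s - τ‖ := Complex.abs_im_le_norm _
    have h2 : ‖s - τ‖ ≤ ρ := by
      rw [← dist_eq_norm]
      exact hs
    have h3 := (abs_le.mp (h1.trans h2)).2
    rw [Complex.sub_im] at h3
    constructor <;> linarith
  have hin : ∀ s ∈ closedBall τ ρ, (s, γ) ∈ DC := by
    intro s hs
    obtain ⟨h1, h2⟩ := hball s hs
    exact coneA_mem hC h1 (by linarith)
  have hd : DifferentiableOn ℂ (fun s => L (s, γ) - s) (closedBall τ ρ) := by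
    intro s hs
    exact ((coneA_diff h (hin s hs)).sub differentiableAt_id).differentiableWithinAt
  have hbd : ∀ s ∈ sphere τ ρ, ‖L (s, γ) - s‖ ≤ C * ‖γ‖ ^ 2 / ρ := by
    intro s hs
    obtain ⟨h1, h2⟩ := hball s (sphere_subset_closedBall hs)
    refine (h.base s γ h1 (by linarith)).trans ?_
    exact div_le_div_of_nonneg_left (mul_nonneg (by linarith) (sq_nonneg _)) hρ0 h2
  have hc := Complex.norm_deriv_le_of_forall_mem_sphere_norm_le hρ0
    (hd.diffContOnCl_ball (Subset.refl _)) hbd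
  have hderiv : deriv (fun s => L (s, γ) - s) τ = deriv (fun s => L (s, γ)) τ - 1 := by
    have h1 := (coneA_diff h hmem).hasDerivAt.sub (hasDerivAt_id τ)
    exact h1.deriv
  rw [hderiv] at hc
  refine hc.trans (le_of_eq ?_)
  rw [hρ]
  have : τ.im ≠ 0 := hτ.ne
  field_simp
  ring

/-- On the imaginary axis, as `y → ∞` (`τ = - i y`): `L - τ → 0`. -/
theorem CL.tendsto_sub (h : CL C q G L) (γ : ℂ) :
    Tendsto (fun y : ℝ => L (-(y * I), γ) - -(y * I)) atTop (𝓝 0) := by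
  have h0 : Tendsto (fun y : ℝ => C * ‖γ‖ ^ 2 / y) atTop (𝓝 0) :=
    tendsto_const_nhds.div_atTop tendsto_id
  refine squeeze_zero_norm' ?_ h0
  filter_upwards [eventually_gt_atTop 0, eventually_ge_atTop (C * ‖γ‖)] with y hy1 hy2
  have h1 := h.base (-((y:ℂ) * I)) γ (by rw [coneA_im]; linarith)
    (by rw [coneA_im]; linarith)
  rw [coneA_im, neg_neg] at h1
  exact h1

/-- `y (∂τ L - 1) → 0` -/
theorem CL.tendsto_deriv (h : CL C q G L) (γ : ℂ) :
    Tendsto (fun y : ℝ => (y:ℂ) * (deriv (fun s => L (s, γ)) (-(y * I)) - 1)) atTop (𝓝 0) := by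
  have h0 : Tendsto (fun y : ℝ => 4 * C * ‖γ‖ ^ 2 / y) atTop (𝓝 0) :=
    tendsto_const_nhds.div_atTop tendsto_id
  refine squeeze_zero_norm' ?_ h0
  filter_upwards [eventually_gt_atTop 0, eventually_ge_atTop (2 * C * ‖γ‖)] with y hy1 hy2
  have h1 := (h.dbase (τ := -((y:ℂ) * I)) (γ := γ) (by rw [coneA_im]; linarith)
    (by rw [coneA_im]; linarith)).2
  rw [coneA_im, neg_sq] at h1
  rw [norm_mul, Complex.norm_real, Real.norm_of_nonneg hy1.le]
  refine (mul_le_mul_of_nonneg_left h1 hy1.le).trans (le_of_eq ?_)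
  field_simp

/-- the logarithmic derivative `γ ∂τ L / L` -/
def pf (L : ℂ × ℂ → ℂ) (p : ℂ × ℂ) : ℂ := p.2 * deriv (fun s => L (s, p.2)) p.1 / L p

/-- `pf` is analytic on `DC` (`L` has no zeros: values in `Hm`). -/
theorem CL.pf_an (h : CL C q G L) : AnalyticOnNhd ℂ (pf L) DC := by
  intro p hp
  have h1 : AnalyticAt ℂ (fun r : ℂ × ℂ => r.2 * fderiv ℂ L r (1, 0) / L r) p := by
    have e1 : AnalyticAt ℂ (fderiv ℂ L) p := (h.an p hp).fderiv
    have e2 : AnalyticAt ℂ (fun r : ℂ × ℂ => fderiv ℂ L r (1, 0)) p :=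
      ((ContinuousLinearMap.apply ℂ ℂ ((1 : ℂ), (0 : ℂ))).analyticAt (fderiv ℂ L p)).comp e1
    have e3 : L p ≠ 0 := by
      intro h0
      have := h.maps hp
      rw [h0] at this
      exact lt_irrefl _ (show (0 : ℂ).im < 0 from this)
    exact (analyticAt_snd.mul e2).div (h.an p hp) e3
  refine h1.congr ?_
  filter_upwards [isOpen_DC.mem_nhds hp] with r hr
  have e4 : HasFDerivAt L (fderiv ℂ L r) (r.1, r.2) := (h.an r hr).differentiableAt.hasFDerivAt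
  have e5 : HasDerivAt (fun w : ℂ => (w, r.2)) ((1 : ℂ), (0 : ℂ)) r.1 :=
    (hasDerivAt_id r.1).prodMk (hasDerivAt_const r.1 r.2)
  have e6 : HasDerivAt (fun w : ℂ => L (w, r.2)) (fderiv ℂ L r (1, 0)) r.1 :=
    HasFDerivAt.comp_hasDerivAt r.1 e4 e5
  unfold pf
  rw [e6.deriv]

private theorem coneA_inv : Tendsto (fun y : ℝ => (y:ℂ)⁻¹) atTop (𝓝 0) := by
  have h1 : Tendsto (fun y : ℝ => ((y⁻¹ : ℝ) : ℂ)) atTop (𝓝 ((0 : ℝ) : ℂ)) :=
    (Complex.continuous_ofReal.tendsto 0).comp tendsto_inv_atTop_zero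
  simpa using h1

/-- `y / L → i` -/
private theorem coneA_ratio (h : CL C q G L) (γ : ℂ) :
    Tendsto (fun y : ℝ => (y:ℂ) / L (-(y * I), γ)) atTop (𝓝 I) := by
  have h1 : Tendsto (fun y : ℝ => (L (-(y * I), γ) - -(y * I)) * (y:ℂ)⁻¹ + -I) atTop
      (𝓝 (0 * 0 + -I)) := ((h.tendsto_sub γ).mul coneA_inv).add_const _
  rw [mul_zero, zero_add] at h1
  have h2 := h1.inv₀ (neg_ne_zero.mpr I_ne_zero)
  have h3 : (-I)⁻¹ = I := by
    rw [inv_neg, Complex.inv_I, neg_neg]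
  rw [h3] at h2
  refine h2.congr' ?_
  filter_upwards [eventually_gt_atTop 0] with y hy
  have hy' : (y:ℂ) ≠ 0 := by exact_mod_cast hy.ne'
  have h4 : (L (-(y * I), γ) - -(y * I)) * (y:ℂ)⁻¹ + -I = L (-(y * I), γ) / y := by
    field_simp
    ring
  rw [h4, inv_div]

/-- `pf → 0` on the imaginary axis, and `pf = (γ / τ) (1 + o (1 / y))`:
`y (τ pf - γ) → 0` where `τ = - i y`. Proof. `τ pf - γ = γ (τ L_τ - L) / L`,
`τ L_τ - L = τ (L_τ - 1) - (L - τ) → 0` and `|L| ≥ y / 2`. -/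
theorem CL.tendsto_pf (h : CL C q G L) (γ : ℂ) :
    Tendsto (fun y : ℝ => pf L (-(y * I), γ)) atTop (𝓝 0) ∧
    Tendsto (fun y : ℝ => (y:ℂ) * (-(y * I) * pf L (-(y * I), γ) - γ)) atTop (𝓝 0) := by
  have hr := coneA_ratio h γ
  have hd := h.tendsto_deriv γ
  have hs := h.tendsto_sub γ
  constructor
  · have h1 : Tendsto (fun y : ℝ => γ * (((y:ℂ) * (deriv (fun s => L (s, γ)) (-(y * I)) - 1)) *
        (y:ℂ)⁻¹ + 1) * ((y:ℂ) / L (-(y * I), γ)) * (y:ℂ)⁻¹) atTop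
        (𝓝 (γ * (0 * 0 + 1) * I * 0)) :=
      ((((hd.mul coneA_inv).add_const 1).const_mul γ).mul hr).mul coneA_inv
    rw [mul_zero] at h1
    refine h1.congr' ?_
    filter_upwards [eventually_gt_atTop 0] with y hy
    have hy' : (y:ℂ) ≠ 0 := by exact_mod_cast hy.ne'
    show _ = γ * deriv (fun s => L (s, γ)) (-(y * I)) / L (-(y * I), γ)
    field_simp
    ring
  · have h1 : Tendsto (fun y : ℝ => γ * (-I * ((y:ℂ) *
        (deriv (fun s => L (s, γ)) (-(y * I)) - 1)) - (L (-(y * I), γ) - -(y * I))) *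
        ((y:ℂ) / L (-(y * I), γ))) atTop (𝓝 (γ * (-I * 0 - 0) * I)) :=
      (((hd.const_mul (-I)).sub hs).const_mul γ).mul hr
    have h2 : γ * (-I * 0 - 0) * I = 0 := by ring
    rw [h2] at h1
    refine h1.congr' ?_
    filter_upwards [eventually_gt_atTop 0, eventually_ge_atTop (C * ‖γ‖)] with y hy hy2
    have hL : L (-(y * I), γ) ≠ 0 := by
      intro h0
      have h3 : ((-((y:ℂ) * I)), γ) ∈ DC := coneA_mem h.C_two (by rw [coneA_im]; linarith)
        (by rw [coneA_im]; linarith)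
      have := h.maps h3
      rw [h0] at this
      exact lt_irrefl _ (show (0 : ℂ).im < 0 from this)
    have h4 : pf L (-(y * I), γ) =
        γ * deriv (fun s => L (s, γ)) (-(y * I)) / L (-(y * I), γ) := rfl
    rw [h4]
    generalize L (-(y * I), γ) = l at hL ⊢
    generalize deriv (fun s => L (s, γ)) (-(y * I)) = d
    field_simp
    ring

end Pool.Agent.MP_ae5b4e_an_N3
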