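import Pool.Agent.Lib.MP_ae5b4e_an_N3.ConeF

/-! # Section N3: an exact cone of mass `< 1` near the point `(- i, i)` -/

noncomputable section

namespace Pool.Agent.MP_ae5b4e_an_N3

open Complex Set Filter Topology Metric
open PorTR (Hm)

variable {C k : ℝ} {G : ℂ → ℂ} {L : ℂ × ℂ → ℂ}

private theorem ConeC_mem {y : ℝ} (hy : 1 < y) : ((-(y * I) : ℂ), (I : ℂ)) ∈ DC := by
  change (-(y * I) : ℂ).im < -|I.im|
  simp only [neg_im, mul_im, ofReal_re, I_im, mul_one, ofReal_im, I_re, mul_zero, add_zero,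
    abs_one]
  linarith

private theorem ConeC_log (hk : 0 < k) (hk1 : k < 1) (h : CL C (cq (k ^ 2)) G L) {y : ℝ}
    (hy : 1 < y) : ∃ n : ℤ, (k:ℂ) * pf L (-(y * I), I) =
      (Real.log ((y - k) / (y + k)) / 2 : ℝ) + n * (Real.pi * I) := by
  have h1 := cone_rel hk h (ConeC_mem hy)
  set P : ℂ := (k:ℂ) * pf L (-(y * I), I) with hP
  dsimp only at h1
  have h2 : (k:ℂ) * Complex.cosh P = -(y:ℂ) * Complex.sinh P := by
    have h3 : I * ((k:ℂ) * Complex.cosh P) = I * (-(y:ℂ) * Complex.sinh P) := by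
      linear_combination h1
    exact mul_left_cancel₀ I_ne_zero h3
  have hyk : 0 < y - k := by linarith
  have hyk' : 0 < y + k := by linarith
  have hR : 0 < (y - k) / (y + k) := div_pos hyk hyk'
  have h4 : (y + k : ℂ) * cexp P = (y - k : ℂ) * cexp (-P) := by
    rw [Complex.cosh, Complex.sinh] at h2
    linear_combination 2 * h2
  have h5 : cexp (2 * P) = cexp ((Real.log ((y - k) / (y + k)) : ℝ)) := by
    rw [← ofReal_exp, Real.exp_log hR]
    have h6 : cexp (2 * P) = cexp P * cexp P := by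
      rw [← Complex.exp_add]
      congr 1
      ring
    have h7 : cexp P * cexp (-P) = 1 := by
      rw [← Complex.exp_add, add_neg_cancel, Complex.exp_zero]
    have h8 : (y + k : ℂ) ≠ 0 := by exact_mod_cast hyk'.ne'
    rw [h6]
    push_cast
    rw [eq_div_iff h8]
    linear_combination cexp P * h4 + (y - k : ℂ) * h7
  obtain ⟨n, hn⟩ := Complex.exp_eq_exp_iff_exists_int.1 h5
  refine ⟨n, ?_⟩
  push_cast
  linear_combination hn / 2

private theorem ConeC_cont (h : CL C (cq (k ^ 2)) G L) :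
    ContinuousOn (fun y : ℝ => (k:ℂ) * pf L (-(y * I), I)) (Ioi 1) := by
  refine continuousOn_const.mul ?_
  refine h.pf_an.continuousOn.comp (f := fun y : ℝ => ((-(y * I) : ℂ), (I : ℂ))) ?_
    (fun y hy => ConeC_mem hy)
  fun_prop

/-- Let `0 < k < 1`, `P (y) := k pf L (- i y, i)`, `y > 1`. `P (y)` is real and
`0 ≤ - P (y) ≤ P0 := log ((1 + k) / (1 - k)) / 2`.

Proof. `cone_rel` at `(- i y, i)`: `k i cosh P = - i y sinh P`, i.e. `(y + k) exp P = (y - k) exp (- P)`,
`exp (2 P) = (y - k) / (y + k) ∈ (0, 1)`. So `Im (2 P) ∈ 2 π ℤ`; `P` is continuous on `(1, ∞)`, so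
`Im P` is constant on the preconnected `Ioi 1` (continuous with values in the discrete set `π ℤ`), and
`P → 0` as `y → ∞` (`tendsto_pf`): `Im P = 0`. `2 Re P = log ((y - k) / (y + k)) ≥
log ((1 - k) / (1 + k))`. -/
theorem cone_real (hk : 0 < k) (hk1 : k < 1) (h : CL C (cq (k ^ 2)) G L) {y : ℝ} (hy : 1 < y) :
    ((k:ℂ) * pf L (-(y * I), I)).im = 0 ∧ ((k:ℂ) * pf L (-(y * I), I)).re ≤ 0 ∧
      -(Real.log ((1 + k) / (1 - k)) / 2) ≤ ((k:ℂ) * pf L (-(y * I), I)).re := by
  have him : ∀ y : ℝ, 1 < y → ∃ n : ℤ, ((k:ℂ) * pf L (-(y * I), I)).im = n * Real.pi ∧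
      ((k:ℂ) * pf L (-(y * I), I)).re = Real.log ((y - k) / (y + k)) / 2 := by
    intro y hy
    obtain ⟨n, hn⟩ := ConeC_log hk hk1 h hy
    refine ⟨n, ?_, ?_⟩
    · rw [hn]
      simp
    · rw [hn]
      simp
  have h0 : ((k:ℂ) * pf L (-(y * I), I)).im = 0 := by
    obtain ⟨n, hn, -⟩ := him y hy
    by_contra hne
    have hn0 : n ≠ 0 := by
      rintro rfl
      rw [Int.cast_zero, zero_mul] at hn
      exact hne hn
    have hbig : 1 ≤ |((k:ℂ) * pf L (-(y * I), I)).im| := by
      rw [hn, abs_mul, abs_of_pos Real.pi_pos]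
      have h1 : (1 : ℝ) ≤ |(n : ℝ)| := by
        rw [← Int.cast_abs]
        exact_mod_cast Int.one_le_abs hn0
      nlinarith [Real.pi_gt_three]
    have hlim : Tendsto (fun y : ℝ => |((k:ℂ) * pf L (-(y * I), I)).im|) atTop (𝓝 0) := by
      have h1 := ((h.tendsto_pf I).1.const_mul (k:ℂ))
      rw [mul_zero] at h1
      have h2 : Tendsto (fun y : ℝ => |((k:ℂ) * pf L (-(y * I), I)).im|) atTop
          (𝓝 |(0 : ℂ).im|) :=
        ((continuous_abs.comp continuous_im).tendsto (0 : ℂ)).comp h1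
      rwa [zero_im, abs_zero] at h2
    obtain ⟨Y, hY1, hY2⟩ := ((hlim.eventually_lt_const one_pos).and
      (eventually_ge_atTop y)).exists
    have hc : ContinuousOn (fun y : ℝ => |((k:ℂ) * pf L (-(y * I), I)).im|) (Icc y Y) := by
      have h1 := (ConeC_cont (k := k) h).mono (fun z (hz : z ∈ Icc y Y) =>
        (show z ∈ Ioi (1:ℝ) from hy.trans_le hz.1))
      exact (continuous_abs.comp continuous_im).comp_continuousOn h1
    obtain ⟨z, hz, hz1⟩ := intermediate_value_Icc' hY2 hc ⟨hY1.le, hbig⟩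
    obtain ⟨m, hm, -⟩ := him z (hy.trans_le hz.1)
    dsimp only at hz1
    rw [hm, abs_mul, abs_of_pos Real.pi_pos] at hz1
    by_cases hm0 : m = 0
    · rw [hm0, Int.cast_zero, abs_zero, zero_mul] at hz1
      exact zero_ne_one hz1
    · have h1 : (1 : ℝ) ≤ |(m : ℝ)| := by
        rw [← Int.cast_abs]
        exact_mod_cast Int.one_le_abs hm0
      nlinarith [Real.pi_gt_three]
  obtain ⟨n, -, hre⟩ := him y hy
  have hyk : 0 < y - k := by linarith
  have hyk' : 0 < y + k := by linarith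
  refine ⟨h0, ?_, ?_⟩
  · rw [hre]
    have h1 : Real.log ((y - k) / (y + k)) ≤ 0 := by
      refine Real.log_nonpos (div_nonneg hyk.le hyk'.le) ?_
      rw [div_le_one hyk']
      linarith
    linarith
  · rw [hre]
    have h1 : Real.log ((1 + k) / (1 - k)) = -Real.log ((1 - k) / (1 + k)) := by
      rw [← Real.log_inv, inv_div]
    have h2 : Real.log ((1 - k) / (1 + k)) ≤ Real.log ((y - k) / (y + k)) := by
      refine Real.log_le_log (div_pos (by linarith) (by linarith)) ?_
      rw [div_le_div_iff₀ (by linarith) hyk']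
      nlinarith
    rw [h1]
    linarith

private theorem ConeC_dL (h : CL C (cq (k ^ 2)) G L) {y : ℝ} (hy : 1 < y) :
    DifferentiableAt ℂ (fun s => L (s, I)) (-(y * I)) := by
  have h1 : AnalyticAt ℂ L ((-(y * I) : ℂ), (I : ℂ)) := h.an _ (ConeC_mem hy)
  exact h1.differentiableAt.comp (-(y * I) : ℂ)
    (f := fun s : ℂ => (s, (I : ℂ))) (by fun_prop)

private theorem ConeC_eq (h : CL C (cq (k ^ 2)) G L) {y : ℝ} (hy : 1 < y) :
    deriv (fun s => L (s, I)) (-(y * I)) =
      -I * (pf L (-(y * I), I) * L (-(y * I), I)) := by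
  have h1 : L ((-(y * I) : ℂ), (I : ℂ)) ≠ 0 := by
    intro h0
    have h2 : L ((-(y * I) : ℂ), (I : ℂ)) ∈ Hm := h.maps (ConeC_mem hy)
    rw [h0] at h2
    exact lt_irrefl _ (show (0 : ℂ).im < 0 from h2)
  unfold pf
  dsimp only
  rw [div_mul_cancel₀ _ h1, ← mul_assoc]
  have h3 : -I * I = 1 := by
    rw [neg_mul, I_mul_I, neg_neg]
  rw [h3, one_mul]

private theorem ConeC_der (hk : 0 < k) (hk1 : k < 1) (h : CL C (cq (k ^ 2)) G L) {y : ℝ}
    (hy : 1 < y) :
    HasDerivAt (fun y : ℝ => L (-(y * I), I))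
      (-((pf L (-(y * I), I)).re : ℂ) * L (-(y * I), I)) y ∧
      (pf L (-(y * I), I)).re ≤ 0 ∧
      -(Real.log ((1 + k) / (1 - k)) / 2 / k) ≤ (pf L (-(y * I), I)).re ∧
      (pf L (-(y * I), I)).im = 0 := by
  obtain ⟨h1, h2, h3⟩ := cone_real hk hk1 h hy
  rw [im_ofReal_mul] at h1
  rw [re_ofReal_mul] at h2 h3
  have h4 : (pf L (-(y * I), I)).im = 0 := by
    rcases mul_eq_zero.1 h1 with h5 | h5
    · exact absurd h5 hk.ne'
    · exact h5
  refine ⟨?_, ?_, ?_, h4⟩
  · have h5 : pf L (-(y * I), I) = ((pf L (-(y * I), I)).re : ℂ) := by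
      apply Complex.ext
      · rw [ofReal_re]
      · rw [ofReal_im, h4]
    have h6 := (ConeC_dL h hy).hasDerivAt
    have h7 : HasDerivAt (fun y : ℝ => -((y:ℂ) * I)) (-I) y := by
      have h8 : HasDerivAt (fun y : ℝ => (y:ℂ)) 1 y := ofRealCLM.hasDerivAt
      have h9 := (h8.mul_const I).neg
      rwa [one_mul] at h9
    have h8 := HasDerivAt.scomp y h6 h7
    have h9 : -I • deriv (fun s => L (s, I)) (-(y * I)) =
        -((pf L (-(y * I), I)).re : ℂ) * L (-(y * I), I) := by
      rw [ConeC_eq h hy, ← h5, smul_eq_mul]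
      linear_combination (pf L (-(y * I), I) * L (-(y * I), I)) * I_mul_I
    rw [h9] at h8
    exact h8
  · by_contra h5
    push Not at h5
    have := mul_pos hk h5
    linarith
  · rw [div_div, ← neg_div, div_le_iff₀ (by positivity)]
    linarith

/-- Compactness up to the boundary point, `0 ≤ k < 1`.

Proof. `k = 0`: `cone_zero`, `L (- i y, i) = - i y`, derivative `1`. `k > 0`: let `g (y) := L (- i y, i)`,
`g' (y) = - i L_τ = - (P / k) g` (`pf = i L_τ / L`, `L_τ = - i pf L`), where `- P / k ≥ 0` is real and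
`≤ P0 / k`. So `g (y) = r g (2)`, `r = exp (- ∫_y^2 (- P / k)) ∈ [exp (- P0 / k), 1]` for `1 < y ≤ 2`
(e.g. `g (y) exp (∫)` has derivative `0`; or: `g / g (2)` is real and positive: `Im log`; any
way). `Im g (2) ≤ - 1` (`CL.depth`: not needed here, `L (- 2 i, i) ∈ Hm` is enough: put
`δ := exp (- P0 / k) |Im g (2)|`). `L_τ = - i pf L` is bounded. -/
theorem cone_cpt (hk : 0 ≤ k) (hk1 : k < 1) (h : CL C (cq (k ^ 2)) G L) :
    ∃ δ > 0, ∃ M : ℝ, ∀ y : ℝ, 1 < y → y ≤ 2 → (L (-(y * I), I)).im ≤ -δ ∧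
      ‖L (-(y * I), I)‖ ≤ M ∧ ‖deriv (fun s => L (s, I)) (-(y * I))‖ ≤ M := by
  rcases hk.eq_or_lt with h0 | hk0
  · subst h0
    have h' : CL C (cq 0) G L := by
      have e : (0 : ℝ) ^ 2 = 0 := by norm_num
      rwa [e] at h
    refine ⟨1, one_pos, 2, fun y hy hy2 => ?_⟩
    have e1 : L (-(y * I), I) = -(y * I) := cone_zero h' (ConeC_mem hy)
    refine ⟨?_, ?_, ?_⟩
    · rw [e1]
      simp only [neg_im, mul_im, ofReal_re, I_im, mul_one, ofReal_im, I_re, mul_zero, add_zero]
      linarith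
    · rw [e1, norm_neg, norm_mul, norm_I, mul_one, norm_real, Real.norm_of_nonneg (by linarith)]
      exact hy2
    · have e2 : (fun s => L (s, I)) =ᶠ[𝓝 (-(y * I) : ℂ)] fun s => s := by
        have h1 : IsOpen {s : ℂ | s.im < -1} := isOpen_lt continuous_im continuous_const
        have h2 : (-(y * I) : ℂ) ∈ {s : ℂ | s.im < -1} := by
          change (-(y * I) : ℂ).im < -1
          simp only [neg_im, mul_im, ofReal_re, I_im, mul_one, ofReal_im, I_re, mul_zero,
            add_zero]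
          linarith
        filter_upwards [h1.mem_nhds h2] with s hs
        refine cone_zero h' ?_
        change s.im < -|I.im|
        rw [I_im, abs_one]
        exact hs
      rw [e2.deriv_eq, deriv_id'', norm_one]
      norm_num
  · set p0 : ℝ := Real.log ((1 + k) / (1 - k)) / 2 / k with hp0
    have hp0' : 0 ≤ p0 := by
      rw [hp0]
      have h1 : 0 ≤ Real.log ((1 + k) / (1 - k)) := by
        refine Real.log_nonneg ?_
        rw [le_div_iff₀ (by linarith)]
        linarith
      positivity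
    have hIm : ∀ y : ℝ, 1 < y → HasDerivAt (fun y : ℝ => (L (-(y * I), I)).im)
        (-(pf L (-(y * I), I)).re * (L (-(y * I), I)).im) y := by
      intro y hy
      have h1 := imCLM.hasFDerivAt.comp_hasDerivAt y (ConeC_der hk0 hk1 h hy).1
      have h2 : imCLM (-((pf L (-(y * I), I)).re : ℂ) * L (-(y * I), I)) =
          -(pf L (-(y * I), I)).re * (L (-(y * I), I)).im := by
        rw [imCLM_apply, ← ofReal_neg, im_ofReal_mul]
      rw [h2] at h1
      exact h1
    have hRe : ∀ y : ℝ, 1 < y → HasDerivAt (fun y : ℝ => (L (-(y * I), I)).re)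
        (-(pf L (-(y * I), I)).re * (L (-(y * I), I)).re) y := by
      intro y hy
      have h1 := reCLM.hasFDerivAt.comp_hasDerivAt y (ConeC_der hk0 hk1 h hy).1
      have h2 : reCLM (-((pf L (-(y * I), I)).re : ℂ) * L (-(y * I), I)) =
          -(pf L (-(y * I), I)).re * (L (-(y * I), I)).re := by
        rw [reCLM_apply, ← ofReal_neg, re_ofReal_mul]
      rw [h2] at h1
      exact h1
    have hneg : ∀ y : ℝ, 1 < y → (L (-(y * I), I)).im < 0 := fun y hy => h.maps (ConeC_mem hy)
    have mono : ∀ (u a : ℝ → ℝ), (∀ y : ℝ, 1 < y → HasDerivAt u (a y) y) →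
        (∀ y : ℝ, 1 < y → 0 ≤ a y) → ∀ y : ℝ, 1 < y → y ≤ 2 → u y ≤ u 2 := by
      intro u a hu ha y hy hy2
      have h1 : MonotoneOn u (Ioi (1:ℝ)) := by
        refine monotoneOn_of_deriv_nonneg (convex_Ioi 1)
          (fun z hz => (hu z hz).continuousAt.continuousWithinAt) ?_ ?_
        · rw [interior_Ioi]
          exact fun z hz => (hu z hz).differentiableAt.differentiableWithinAt
        · rw [interior_Ioi]
          intro z hz
          rw [(hu z hz).deriv]
          exact ha z hz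
      exact h1 hy (show (2:ℝ) ∈ Ioi (1:ℝ) by norm_num) hy2
    have m1 := mono (fun y => (L (-(y * I), I)).im * Real.exp (-(p0 * y)))
      (fun y => -(pf L (-(y * I), I)).re * (L (-(y * I), I)).im * Real.exp (-(p0 * y)) +
        (L (-(y * I), I)).im * (Real.exp (-(p0 * y)) * (-(p0 * 1)))) (fun y hy => by
          have h1 : HasDerivAt (fun y : ℝ => Real.exp (-(p0 * y)))
            (Real.exp (-(p0 * y)) * (-(p0 * 1))) y := (((hasDerivAt_id y).const_mul p0).neg).exp
          exact (hIm y hy).mul h1) (fun y hy => by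
          obtain ⟨-, h1, h2, -⟩ := ConeC_der hk0 hk1 h hy
          have h3 := hneg y hy
          have h4 := Real.exp_pos (-(p0 * y))
          have h5 : 0 ≤ (-(L (-(y * I), I)).im) * Real.exp (-(p0 * y)) *
              (p0 + (pf L (-(y * I), I)).re) := by
            refine mul_nonneg (mul_nonneg (by linarith) h4.le) ?_
            rw [← hp0] at h2
            linarith
          nlinarith [h5])
    have m2 := mono (fun y => (L (-(y * I), I)).im ^ 2)
      (fun y => 2 * (L (-(y * I), I)).im ^ 1 *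
        (-(pf L (-(y * I), I)).re * (L (-(y * I), I)).im))
      (fun y hy => by
        have h1 := (hIm y hy).pow 2
        exact h1) (fun y hy => by
        obtain ⟨-, h1, h2, -⟩ := ConeC_der hk0 hk1 h hy
        have h3 : 0 ≤ (-(pf L (-(y * I), I)).re) * (L (-(y * I), I)).im ^ 2 :=
          mul_nonneg (by linarith) (sq_nonneg _)
        nlinarith [h3])
    have m3 := mono (fun y => (L (-(y * I), I)).re ^ 2)
      (fun y => 2 * (L (-(y * I), I)).re ^ 1 *
        (-(pf L (-(y * I), I)).re * (L (-(y * I), I)).re))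
      (fun y hy => by
        have h1 := (hRe y hy).pow 2
        exact h1) (fun y hy => by
        obtain ⟨-, h1, h2, -⟩ := ConeC_der hk0 hk1 h hy
        have h3 : 0 ≤ (-(pf L (-(y * I), I)).re) * (L (-(y * I), I)).re ^ 2 :=
          mul_nonneg (by linarith) (sq_nonneg _)
        nlinarith [h3])
    have hu2 : (L (-(((2:ℝ):ℂ) * I), I)).im < 0 := hneg 2 (by norm_num)
    set A : ℝ := |(L (-(((2:ℝ):ℂ) * I), I)).re| + |(L (-(((2:ℝ):ℂ) * I), I)).im| with hA
    have hA0 : 0 ≤ A := by positivity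
    refine ⟨-(L (-(((2:ℝ):ℂ) * I), I)).im * Real.exp (-p0), by
      exact mul_pos (by linarith) (Real.exp_pos _), max A (p0 * A), fun y hy hy2 => ?_⟩
    have hn : ‖L (-(y * I), I)‖ ≤ A := by
      have h1 := m2 y hy hy2
      have h2 := m3 y hy hy2
      have h3 := norm_le_abs_re_add_abs_im (L (-(y * I), I))
      have h4 := sq_le_sq.1 h1
      have h5 := sq_le_sq.1 h2
      linarith
    refine ⟨?_, hn.trans (le_max_left _ _), ?_⟩
    · have h1 := m1 y hy hy2
      have h2 : (L (-(y * I), I)).im ≤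
          (L (-(((2:ℝ):ℂ) * I), I)).im * Real.exp (-(p0 * 2)) * Real.exp (p0 * y) := by
        have h3 := mul_le_mul_of_nonneg_right h1 (Real.exp_pos (p0 * y)).le
        rw [mul_assoc, ← Real.exp_add, neg_add_cancel, Real.exp_zero, mul_one] at h3
        exact h3
      refine h2.trans ?_
      rw [mul_assoc, ← Real.exp_add, neg_mul, neg_neg]
      have h4 : Real.exp (-p0) ≤ Real.exp (-(p0 * 2) + p0 * y) := by
        refine Real.exp_le_exp.2 ?_
        nlinarith
      nlinarith
    · rw [ConeC_eq h hy, norm_mul, norm_neg, norm_I, one_mul, norm_mul]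
      obtain ⟨-, h1, h2, h3⟩ := ConeC_der hk0 hk1 h hy
      have h4 : ‖pf L (-(y * I), I)‖ ≤ p0 := by
        have h5 : pf L (-(y * I), I) = ((pf L (-(y * I), I)).re : ℂ) := by
          apply Complex.ext
          · rw [ofReal_re]
          · rw [ofReal_im, h3]
        rw [h5, norm_real, Real.norm_eq_abs, abs_of_nonpos h1]
        rw [← hp0] at h2
        linarith
      exact (mul_le_mul h4 hn (norm_nonneg _) hp0').trans (le_max_right _ _)

end Pool.Agent.MP_ae5b4e_an_N3
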