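import Pool.Agent.Lib.MP_ae5b4e_an_N3.ConeA
import Pool.Agent.Lib.MP_ae5b4e_an_M.FnA

/-! # Section N3: the label of an exact cone -/

noncomputable section

namespace Pool.Agent.MP_ae5b4e_an_N3

open Complex Set Filter Topology Metric
open PorTR (Hm)
open Pool.Agent.MP_ae5b4e_an_M (bb)

variable {C k : ℝ} {q G : ℂ → ℂ} {L : ℂ × ℂ → ℂ}

private theorem coneF_an (h : CL C q G L) {s γ : ℂ} (hs : (s, γ) ∈ DC) :
    AnalyticAt ℂ (fun w => L (w, γ)) s := by
  have h1 : AnalyticAt ℂ L ((fun w : ℂ => (w, γ)) s) := h.an (s, γ) hs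
  have h2 : AnalyticAt ℂ (fun w : ℂ => (w, γ)) s := analyticAt_id.prod analyticAt_const
  exact AnalyticAt.comp (g := L) (f := fun w : ℂ => (w, γ)) (x := s) h1 h2

private theorem coneF_ne (h : CL C q G L) {p : ℂ × ℂ} (hp : p ∈ DC) : L p ≠ 0 := by
  intro h0
  have := h.maps hp
  rw [h0] at this
  exact lt_irrefl _ (show (0 : ℂ).im < 0 from this)

private theorem coneF_cq (m : ℝ) {l : ℂ} (hl : l ≠ 0) : deriv (cq m) l = 2 * (m : ℂ) / l ^ 3 := by
  have h1 : HasDerivAt (cq m) (-(m : ℂ) * (-(((2 : ℕ) : ℂ) * l ^ (2 - 1)) / (l ^ 2) ^ 2)) l := by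
    have h2 : HasDerivAt (fun z : ℂ => (z ^ 2)⁻¹) (-(((2 : ℕ) : ℂ) * l ^ (2 - 1)) / (l ^ 2) ^ 2) l :=
      (hasDerivAt_pow 2 l).inv (pow_ne_zero 2 hl)
    have h3 := h2.const_mul (-(m : ℂ))
    have h4 : cq m = fun z : ℂ => -(m : ℂ) * (z ^ 2)⁻¹ := by
      funext z
      rw [cq, div_eq_mul_inv]
    rw [h4]
    exact h3
  rw [h1.deriv]
  field_simp
  norm_num
  ring

/-- The equation for `p = γ L_τ / L` in an exact cone: `γ p_τ = - sinh (k p) ^ 2 / k ^ 2`.

Proof. Let `a := γ L_τ = p L`. `γ a_τ = γ² L_ττ = bb (cq (k²)) L a` and `γ a_τ = γ p_τ L + p a =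
γ p_τ L + p² L`. With `q = - k² / l²`, `q' = 2 k² / l³`, `q a² = - k² p² =: x = w²`, `w := i k p`:
`bb = - (q'/2) a⁴ E2 (x) = - k² p⁴ L E2 (w²)`, and `w⁴ E2 (w²) = w² - sin² w` (`E2_sq`), `w⁴ = k⁴ p⁴`,
`sin² w = - sinh² (k p)`: `k² p⁴ E2 = (- k² p² + sinh² (k p)) / k²`. So
`γ p_τ = - p² - k² p⁴ E2 = - p² + p² - sinh² (k p) / k²`. -/
theorem pf_deriv (hk : 0 < k) (h : CL C (cq (k ^ 2)) G L) {p : ℂ × ℂ} (hp : p ∈ DC) :
    p.2 * deriv (fun s => pf L (s, p.2)) p.1 = -(Complex.sinh (k * pf L p) ^ 2) / k ^ 2 := by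
  obtain ⟨τ, γ⟩ := p
  have hL0 : L (τ, γ) ≠ 0 := coneF_ne h hp
  have hkC : (k : ℂ) ≠ 0 := by exact_mod_cast hk.ne'
  have han := coneF_an h hp
  have hd1 : HasDerivAt (fun w => L (w, γ)) (deriv (fun w => L (w, γ)) τ) τ :=
    han.differentiableAt.hasDerivAt
  have hd2 : HasDerivAt (deriv fun w => L (w, γ)) (deriv (deriv fun w => L (w, γ)) τ) τ :=
    han.deriv.differentiableAt.hasDerivAt
  have hode : γ ^ 2 * deriv (deriv fun s => L (s, γ)) τ =
      bb (cq (k ^ 2)) (L (τ, γ)) (γ * deriv (fun s => L (s, γ)) τ) := h.ode (τ, γ) hp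
  have hpd : HasDerivAt (fun s => pf L (s, γ))
      ((γ * deriv (deriv fun w => L (w, γ)) τ * L (τ, γ) -
        γ * deriv (fun w => L (w, γ)) τ * deriv (fun w => L (w, γ)) τ) / L (τ, γ) ^ 2) τ :=
    (hd2.const_mul γ).div hd1 hL0
  have hpf : pf L (τ, γ) = γ * deriv (fun s => L (s, γ)) τ / L (τ, γ) := rfl
  show γ * deriv (fun s => pf L (s, γ)) τ = -(Complex.sinh (k * pf L (τ, γ)) ^ 2) / k ^ 2
  rw [hpd.deriv]
  have hE := Pool.Agent.MP_ae5b4e_an_M.E2_sq (k * pf L (τ, γ) * I)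
  rw [Complex.sin_mul_I] at hE
  have hx : cq (k ^ 2) (L (τ, γ)) * (γ * deriv (fun s => L (s, γ)) τ) ^ 2 =
      (k * pf L (τ, γ) * I) ^ 2 := by
    rw [hpf, cq, mul_pow (k * (γ * deriv (fun s => L (s, γ)) τ / L (τ, γ)) : ℂ) I, Complex.I_sq]
    push_cast
    field_simp
  unfold bb at hode
  rw [hx, coneF_cq _ hL0] at hode
  rw [hpf] at hE hode ⊢
  generalize deriv (deriv fun w => L (w, γ)) τ = L2 at *
  generalize deriv (fun w => L (w, γ)) τ = L1 at *
  generalize Complex.sinh (k * (γ * L1 / L (τ, γ))) = S at *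
  generalize Pool.Agent.MP_ae5b4e_an_M.E2 ((k * (γ * L1 / L (τ, γ)) * I) ^ 2) = E at *
  generalize L (τ, γ) = l at *
  have hI4 : (I : ℂ) ^ 4 = 1 := by rw [show (4:ℕ) = 2 * 2 by norm_num, pow_mul, Complex.I_sq]; norm_num
  have hE2 : k ^ 4 * (γ * L1 / l) ^ 4 * E = -(k ^ 2 * (γ * L1 / l) ^ 2) + S ^ 2 := by
    have e1 : (k * (γ * L1 / l) * I) ^ 4 = k ^ 4 * (γ * L1 / l) ^ 4 := by
      rw [mul_pow, mul_pow, hI4, mul_one]
    have e2 : (k * (γ * L1 / l) * I) ^ 2 = -(k ^ 2 * (γ * L1 / l) ^ 2) := by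
      rw [mul_pow, mul_pow, Complex.I_sq]; ring
    have e3 : (S * I) ^ 2 = - S ^ 2 := by
      rw [mul_pow, Complex.I_sq]; ring
    rw [e1, e2, e3] at hE
    linear_combination hE
  push_cast at hode
  have h3 : γ * ((γ * L2 * l - γ * L1 * L1) / l ^ 2) =
      (γ ^ 2 * L2) / l - (γ * L1 / l) ^ 2 := by
    field_simp
  rw [h3, hode]
  have h4 : -(2 * (k : ℂ) ^ 2 / l ^ 3 / 2) * (γ * L1) ^ 4 * E / l =
      -(k ^ 4 * (γ * L1 / l) ^ 4 * E) / k ^ 2 := by
    field_simp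
  rw [h4, hE2]
  field_simp
  ring

private theorem coneF_pts {f : ℂ → ℂ} {γ : ℂ} (hf : DifferentiableOn ℂ f {z | z.im < -|γ.im|})
    (h0 : ∀ᶠ y : ℝ in atTop, f (-((y:ℂ) * I)) = 0) : ∀ z : ℂ, z.im < -|γ.im| → f z = 0 := by
  have hopen : IsOpen {z : ℂ | z.im < -|γ.im|} := isOpen_lt Complex.continuous_im continuous_const
  have hconv : Convex ℝ {z : ℂ | z.im < -|γ.im|} := convex_halfSpace_im_lt _
  have han : AnalyticOnNhd ℂ f {z | z.im < -|γ.im|} := hf.analyticOnNhd hopen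
  obtain ⟨Y, hY⟩ := (h0.and (eventually_gt_atTop |γ.im|)).exists_forall_of_atTop
  have hY1 : |γ.im| < Y := (hY Y le_rfl).2
  have hmem : (-(((Y + 1 : ℝ) : ℂ) * I)) ∈ {z : ℂ | z.im < -|γ.im|} := by
    show (-(((Y + 1 : ℝ) : ℂ) * I)).im < -|γ.im|
    simp
    linarith
  have hfr : ∃ᶠ z in 𝓝[≠] (-(((Y + 1 : ℝ) : ℂ) * I)), f z = 0 := by
    have ht : Tendsto (fun y : ℝ => -((y:ℂ) * I)) (𝓝[≠] (Y + 1 : ℝ))
        (𝓝[≠] (-(((Y + 1 : ℝ) : ℂ) * I))) := by
      apply tendsto_nhdsWithin_of_tendsto_nhds_of_eventually_within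
      · have hc : Continuous (fun y : ℝ => -((y:ℂ) * I)) := by fun_prop
        exact (hc.tendsto (Y + 1)).mono_left nhdsWithin_le_nhds
      · filter_upwards [self_mem_nhdsWithin] with y hy
        intro he
        apply hy
        have h1 : (-((y:ℂ) * I)).im = (-(((Y + 1 : ℝ) : ℂ) * I)).im := by
          rw [show -((y:ℂ) * I) = -(((Y + 1 : ℝ) : ℂ) * I) from he]
        simp at h1
        show y = Y + 1
        linarith
    have hev : ∀ᶠ y : ℝ in 𝓝[≠] (Y + 1 : ℝ), f (-((y:ℂ) * I)) = 0 := by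
      have : ∀ᶠ y : ℝ in 𝓝 (Y + 1 : ℝ), Y ≤ y := eventually_ge_nhds (by linarith)
      filter_upwards [nhdsWithin_le_nhds this] with y hy using (hY y hy).1
    exact ht.frequently hev.frequently
  have := han.eqOn_zero_of_preconnected_of_frequently_eq_zero hconv.isPreconnected hmem hfr
  intro z hz
  exact this hz

private theorem coneF_exp {x : ℂ} (hx : ‖x‖ ≤ 1) :
    ‖sinh x - x‖ ≤ 3 * ‖x‖ ^ 3 ∧ ‖cosh x - 1‖ ≤ 3 * ‖x‖ ^ 2 := by
  have hexp : Real.exp ‖x‖ ≤ 3 := by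
    have h1 := Real.exp_le_exp.2 hx
    have h2 := Real.exp_one_lt_d9
    linarith
  have hexp' : Real.exp ‖-x‖ ≤ 3 := by rwa [norm_neg]
  have a3 := Complex.norm_exp_sub_sum_le_norm_mul_exp x 3
  have b3 := Complex.norm_exp_sub_sum_le_norm_mul_exp (-x) 3
  have a2 := Complex.norm_exp_sub_sum_le_norm_mul_exp x 2
  have b2 := Complex.norm_exp_sub_sum_le_norm_mul_exp (-x) 2
  rw [norm_neg] at b3 b2
  have n3 : ‖x‖ ^ 3 * Real.exp ‖x‖ ≤ ‖x‖ ^ 3 * 3 := by gcongr
  have n2 : ‖x‖ ^ 2 * Real.exp ‖x‖ ≤ ‖x‖ ^ 2 * 3 := by gcongr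
  constructor
  · have e : sinh x - x = ((cexp x - ∑ m ∈ Finset.range 3, x ^ m / (m.factorial : ℂ)) -
        (cexp (-x) - ∑ m ∈ Finset.range 3, (-x) ^ m / (m.factorial : ℂ))) / 2 := by
      rw [Complex.sinh]
      simp only [Finset.sum_range_succ, Finset.sum_range_zero]
      norm_num [Nat.factorial]
      ring
    rw [e, norm_div]
    have h1 := norm_sub_le (cexp x - ∑ m ∈ Finset.range 3, x ^ m / (m.factorial : ℂ))
      (cexp (-x) - ∑ m ∈ Finset.range 3, (-x) ^ m / (m.factorial : ℂ))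
    have h2 : ‖(2 : ℂ)‖ = 2 := by simp
    rw [h2]
    linarith
  · have e : cosh x - 1 = ((cexp x - ∑ m ∈ Finset.range 2, x ^ m / (m.factorial : ℂ)) +
        (cexp (-x) - ∑ m ∈ Finset.range 2, (-x) ^ m / (m.factorial : ℂ))) / 2 := by
      rw [Complex.cosh]
      simp only [Finset.sum_range_succ, Finset.sum_range_zero]
      norm_num [Nat.factorial]
      ring
    rw [e, norm_div]
    have h1 := norm_add_le (cexp x - ∑ m ∈ Finset.range 2, x ^ m / (m.factorial : ℂ))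
      (cexp (-x) - ∑ m ∈ Finset.range 2, (-x) ^ m / (m.factorial : ℂ))
    have h2 : ‖(2 : ℂ)‖ = 2 := by simp
    rw [h2]
    linarith

/-- the relation far out on the imaginary axis -/
private theorem coneF_axis (hk : 0 < k) (h : CL C (cq (k ^ 2)) G L) {γ : ℂ} (hγ : γ ≠ 0) :
    ∀ᶠ y : ℝ in atTop, k * γ * Complex.cosh (k * pf L (-((y:ℂ) * I), γ)) -
      (-((y:ℂ) * I)) * Complex.sinh (k * pf L (-((y:ℂ) * I), γ)) = 0 := by
  have hkC : (k : ℂ) ≠ 0 := by exact_mod_cast hk.ne'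
  obtain ⟨t1, t2⟩ := h.tendsto_pf γ
  set x : ℝ → ℂ := fun y => k * pf L (-((y:ℂ) * I), γ) with hxdef
  have hx0 : Tendsto x atTop (𝓝 0) := by
    have := t1.const_mul (k : ℂ)
    rwa [mul_zero] at this
  -- y x → i k γ
  have hinv : Tendsto (fun y : ℝ => (y:ℂ)⁻¹) atTop (𝓝 0) := by
    have h1 : Tendsto (fun y : ℝ => ((y⁻¹ : ℝ) : ℂ)) atTop (𝓝 ((0 : ℝ) : ℂ)) :=
      (Complex.continuous_ofReal.tendsto 0).comp tendsto_inv_atTop_zero
    simpa using h1
  have hyx : Tendsto (fun y : ℝ => (y:ℂ) * x y) atTop (𝓝 (k * γ * I)) := by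
    have h1 : Tendsto (fun y : ℝ => ((y:ℂ) * (-(y * I) * pf L (-(y * I), γ) - γ) * (y:ℂ)⁻¹ + γ) *
        (k * I)) atTop (𝓝 ((0 * 0 + γ) * (k * I))) := ((t2.mul hinv).add_const γ).mul_const _
    have h2 : (0 * 0 + γ) * ((k : ℂ) * I) = k * γ * I := by ring
    rw [h2] at h1
    refine h1.congr' ?_
    filter_upwards [eventually_gt_atTop 0] with y hy
    have hy' : (y:ℂ) ≠ 0 := by exact_mod_cast hy.ne'
    show _ = (y:ℂ) * (k * pf L (-((y:ℂ) * I), γ))
    generalize pf L (-((y:ℂ) * I), γ) = P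
    have e1 : (y:ℂ) * (-(y * I) * P - γ) * (y:ℂ)⁻¹ = -(y * I) * P - γ := by
      field_simp
    rw [e1]
    have hI : I * I = -1 := Complex.I_mul_I
    linear_combination (-(y:ℂ) * P * k) * hI
  have hnum1 : Tendsto (fun y : ℝ => (y:ℂ) * (-(y * I) * x y - k * γ)) atTop (𝓝 0) := by
    have h1 := t2.const_mul (k : ℂ)
    rw [mul_zero] at h1
    refine h1.congr fun y => ?_
    show _ = (y:ℂ) * (-(y * I) * (k * pf L (-((y:ℂ) * I), γ)) - k * γ)
    ring
  have hsmall : ∀ᶠ y : ℝ in atTop, ‖x y‖ ≤ 1 := by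
    have := hx0.norm
    rw [norm_zero] at this
    exact this.eventually_le_const (by norm_num)
  have hnx : Tendsto (fun y : ℝ => ‖x y‖) atTop (𝓝 0) := by
    have := hx0.norm
    rwa [norm_zero] at this
  -- y² (sinh x - x) → 0
  have hs3 : Tendsto (fun y : ℝ => (y:ℂ) ^ 2 * (sinh (x y) - x y)) atTop (𝓝 0) := by
    have hb : Tendsto (fun y : ℝ => 3 * ‖(y:ℂ) * x y‖ ^ 2 * ‖x y‖) atTop
        (𝓝 (3 * ‖(k * γ * I : ℂ)‖ ^ 2 * 0)) := ((hyx.norm.pow 2).const_mul 3).mul hnx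
    rw [mul_zero] at hb
    refine squeeze_zero_norm' ?_ hb
    filter_upwards [hsmall] with y hy
    rw [norm_mul, norm_pow]
    calc ‖(y:ℂ)‖ ^ 2 * ‖sinh (x y) - x y‖ ≤ ‖(y:ℂ)‖ ^ 2 * (3 * ‖x y‖ ^ 3) := by
          gcongr
          exact (coneF_exp hy).1
      _ = 3 * ‖(y:ℂ) * x y‖ ^ 2 * ‖x y‖ := by rw [norm_mul (y:ℂ) (x y)]; ring
  -- y (cosh x - 1) → 0
  have hc2 : Tendsto (fun y : ℝ => (y:ℂ) * (cosh (x y) - 1)) atTop (𝓝 0) := by
    have hb : Tendsto (fun y : ℝ => 3 * ‖(y:ℂ) * x y‖ * ‖x y‖) atTop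
        (𝓝 (3 * ‖(k * γ * I : ℂ)‖ * 0)) := (hyx.norm.const_mul 3).mul hnx
    rw [mul_zero] at hb
    refine squeeze_zero_norm' ?_ hb
    filter_upwards [hsmall] with y hy
    rw [norm_mul]
    calc ‖(y:ℂ)‖ * ‖cosh (x y) - 1‖ ≤ ‖(y:ℂ)‖ * (3 * ‖x y‖ ^ 2) := by
          gcongr
          exact (coneF_exp hy).2
      _ = 3 * ‖(y:ℂ) * x y‖ * ‖x y‖ := by rw [norm_mul (y:ℂ) (x y)]; ring
  -- y (τ sinh x - k γ cosh x) → 0
  have hW : Tendsto (fun y : ℝ => (y:ℂ) * (-(y * I) * sinh (x y) - k * γ * cosh (x y))) atTop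
      (𝓝 0) := by
    have h1 : Tendsto (fun y : ℝ => (y:ℂ) * (-(y * I) * x y - k * γ) +
        -I * ((y:ℂ) ^ 2 * (sinh (x y) - x y)) - k * γ * ((y:ℂ) * (cosh (x y) - 1))) atTop
        (𝓝 (0 + -I * 0 - k * γ * 0)) := (hnum1.add (hs3.const_mul (-I))).sub (hc2.const_mul (k * γ))
    have e : (0 + -I * 0 - k * γ * 0 : ℂ) = 0 := by ring
    rw [e] at h1
    refine h1.congr fun y => ?_
    ring
  -- y sinh x → i k γ
  have hys : Tendsto (fun y : ℝ => (y:ℂ) * sinh (x y)) atTop (𝓝 (k * γ * I)) := by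
    have h1 : Tendsto (fun y : ℝ => (y:ℂ) ^ 2 * (sinh (x y) - x y) * (y:ℂ)⁻¹ + (y:ℂ) * x y) atTop
        (𝓝 (0 * 0 + k * γ * I)) := (hs3.mul hinv).add hyx
    rw [zero_mul, zero_add] at h1
    refine h1.congr' ?_
    filter_upwards [eventually_gt_atTop 0] with y hy
    have hy' : (y:ℂ) ≠ 0 := by exact_mod_cast hy.ne'
    field_simp
    ring
  have hne0 : (k * γ * I : ℂ) ≠ 0 := mul_ne_zero (mul_ne_zero hkC hγ) I_ne_zero
  have hsne : ∀ᶠ y : ℝ in atTop, sinh (x y) ≠ 0 := by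
    filter_upwards [hys.eventually_ne hne0] with y hy h0
    exact hy (by rw [h0, mul_zero])
  -- the function T on the axis
  have hT : Tendsto (fun y : ℝ => -((y:ℂ) * I) - k * γ * cosh (x y) / sinh (x y)) atTop (𝓝 0) := by
    have h1 := hW.div hys hne0
    rw [zero_div] at h1
    refine h1.congr' ?_
    filter_upwards [eventually_gt_atTop 0, hsne] with y hy hy2
    have hy' : (y:ℂ) ≠ 0 := by exact_mod_cast hy.ne'
    show (y:ℂ) * (-(y * I) * sinh (x y) - k * γ * cosh (x y)) / ((y:ℂ) * sinh (x y)) = _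
    field_simp
  obtain ⟨Y, hY⟩ := (hsne.and (eventually_gt_atTop |γ.im|)).exists_forall_of_atTop
  have hconst : ∀ y₁ ∈ Ici Y, ∀ y₂ ∈ Ici Y,
      -((y₂:ℂ) * I) - k * γ * cosh (x y₂) / sinh (x y₂) =
        -((y₁:ℂ) * I) - k * γ * cosh (x y₁) / sinh (x y₁) := by
    intro y₁ hy₁ y₂ hy₂
    have hder : ∀ y ∈ Ici Y, HasDerivWithinAt
        (fun y : ℝ => -((y:ℂ) * I) - k * γ * cosh (x y) / sinh (x y)) ((fun _ => (0:ℂ)) y) (Ici Y) y := by
      intro y hy
      have hym := (hY y hy).2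
      have hsy := (hY y hy).1
      have hdc : (-((y:ℂ) * I), γ) ∈ DC := by
        show (-((y:ℂ) * I)).im < -|γ.im|
        simp
        exact hym
      have hP : HasDerivAt (fun s => pf L (s, γ)) (deriv (fun s => pf L (s, γ)) (-((y:ℂ) * I)))
          (-((y:ℂ) * I)) := by
        have h1 : AnalyticAt ℂ (pf L) ((fun w : ℂ => (w, γ)) (-((y:ℂ) * I))) := h.pf_an _ hdc
        have h2 : AnalyticAt ℂ (fun w : ℂ => (w, γ)) (-((y:ℂ) * I)) :=
          analyticAt_id.prod analyticAt_const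
        exact (AnalyticAt.comp (g := pf L) (f := fun w : ℂ => (w, γ)) h1 h2).differentiableAt.hasDerivAt
      have hode := pf_deriv hk h hdc
      have hkP := hP.const_mul (k : ℂ)
      have hch := hkP.ccosh
      have hsh := hkP.csinh
      have hquot := (hch.const_mul (k * γ : ℂ)).div hsh hsy
      have hT' := (hasDerivAt_id (-((y:ℂ) * I))).sub hquot
      have hphi : HasDerivAt (fun y : ℝ => -((y:ℂ) * I)) (-(1 * I)) y :=
        ((Complex.ofRealCLM.hasDerivAt (x := y)).mul_const I).neg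
      have hfin := HasDerivAt.comp y hT' hphi
      refine HasDerivAt.hasDerivWithinAt (HasDerivAt.congr_deriv hfin ?_)
      show _ = (0 : ℂ)
      have hode' : γ * deriv (fun s => pf L (s, γ)) (-((y:ℂ) * I)) =
        -(Complex.sinh (k * pf L (-((y:ℂ) * I), γ)) ^ 2) / k ^ 2 := hode
      have hsy' : sinh (k * pf L (-((y:ℂ) * I), γ)) ≠ 0 := hsy
      have hcs := Complex.cosh_sq (k * pf L (-((y:ℂ) * I), γ))
      generalize deriv (fun s => pf L (s, γ)) (-((y:ℂ) * I)) = P' at *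
      generalize cosh (k * pf L (-((y:ℂ) * I), γ)) = c at *
      generalize sinh (k * pf L (-((y:ℂ) * I), γ)) = s at *
      have key : 1 - (k * γ * (s * (k * P')) * s - k * γ * c * (c * (k * P'))) / s ^ 2 = 0 := by
        have e1 : k * γ * (s * (k * P')) * s - k * γ * c * (c * (k * P')) =
            k ^ 2 * (γ * P') * (s ^ 2 - c ^ 2) := by ring
        rw [e1, hode', hcs]
        field_simp
        ring
      rw [key, zero_mul]
    have := (convex_Ici Y).norm_image_sub_le_of_norm_hasDerivWithin_le (C := 0) hder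
      (fun y _ => by simp) hy₁ hy₂
    rw [zero_mul] at this
    exact sub_eq_zero.1 (norm_eq_zero.1 (le_antisymm this (norm_nonneg _)))
  have hval : -((Y:ℂ) * I) - k * γ * cosh (x Y) / sinh (x Y) = 0 := by
    have h1 : Tendsto (fun y : ℝ => -((y:ℂ) * I) - k * γ * cosh (x y) / sinh (x y)) atTop
        (𝓝 (-((Y:ℂ) * I) - k * γ * cosh (x Y) / sinh (x Y))) := by
      refine tendsto_const_nhds.congr' ?_
      filter_upwards [eventually_ge_atTop Y] with y hy
      exact (hconst Y self_mem_Ici y hy).symm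
    exact tendsto_nhds_unique h1 hT
  filter_upwards [eventually_ge_atTop Y] with y hy
  have h1 := hconst Y self_mem_Ici y hy
  rw [hval] at h1
  have hsy := (hY y hy).1
  have h2 : k * γ * cosh (x y) / sinh (x y) = -((y:ℂ) * I) := (sub_eq_zero.1 h1).symm
  rw [div_eq_iff hsy] at h2
  show k * γ * cosh (x y) - (-((y:ℂ) * I)) * sinh (x y) = 0
  rw [h2]
  ring

/-- THE RELATION `k γ cosh (k p) = τ sinh (k p)`.

Proof. `γ = 0`: `pf = 0`. Let `γ ≠ 0`. Deep below (`τ ∈ H' := {Im τ < - Y}`, `Y` large): `pf ≠ 0` is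
small, more precisely `pf L (τ, γ) ≠ 0` and `‖k pf‖ < π` so `sinh (k pf) ≠ 0` (from `dbase`:
`|L_τ - 1| ≤ 1/2`, `|L| ≥ |τ| / 2`, so `0 < |pf| ≤ 4 |γ| / Y`). There
`T := τ - k γ cosh (k pf) / sinh (k pf)` has `T' = 1 + k γ · k pf_τ / sinh² (k pf) = 0`
(`(cosh / sinh)' = - 1 / sinh²` and `pf_deriv`), so `T` is constant on the convex `H'`; on the
imaginary axis `T → 0`: with `x := k pf`, `τ - k γ cosh x / sinh x = (1 / sinh x)
(τ sinh x - k γ cosh x)`, `|sinh x - x| ≤ |x|³`, `|cosh x - 1| ≤ |x|²`, `|sinh x| ≥ |x| / 2`,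
`τ x - k γ = o (1 / y)` (`tendsto_pf`), `x = O (1 / y)`: the bracket is `o (1/y) + O (1 / y²)` and
`1 / |sinh x| ≤ 2 / |x| = O (y)`. So `τ sinh (k pf) = k γ cosh (k pf)` on `H'`; both sides are
analytic in `τ` on the half plane `{Im τ < - |Im γ|}` (`pf_an`), identity theorem. -/
theorem cone_rel (hk : 0 < k) (h : CL C (cq (k ^ 2)) G L) {p : ℂ × ℂ} (hp : p ∈ DC) :
    k * p.2 * Complex.cosh (k * pf L p) = p.1 * Complex.sinh (k * pf L p) := by
  obtain ⟨τ, γ⟩ := p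
  show k * γ * Complex.cosh (k * pf L (τ, γ)) = τ * Complex.sinh (k * pf L (τ, γ))
  by_cases hγ : γ = 0
  · subst hγ
    have : pf L (τ, 0) = 0 := by
      show (0 : ℂ) * _ / _ = 0
      rw [zero_mul, zero_div]
    rw [this]
    simp
  · have hd : DifferentiableOn ℂ (fun s => k * γ * Complex.cosh (k * pf L (s, γ)) -
        s * Complex.sinh (k * pf L (s, γ))) {z | z.im < -|γ.im|} := by
      intro s hs
      have h1 : AnalyticAt ℂ (pf L) ((fun w : ℂ => (w, γ)) s) := h.pf_an _ hs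
      have h2 : AnalyticAt ℂ (fun w : ℂ => (w, γ)) s := analyticAt_id.prod analyticAt_const
      have hP : DifferentiableAt ℂ (fun w => pf L (w, γ)) s :=
        (AnalyticAt.comp (g := pf L) (f := fun w : ℂ => (w, γ)) h1 h2).differentiableAt
      have hkP := hP.const_mul (k : ℂ)
      exact ((hkP.ccosh.const_mul (k * γ : ℂ)).sub
        (differentiableAt_id.mul hkP.csinh)).differentiableWithinAt
    have h0 := coneF_pts (γ := γ) hd (coneF_axis hk h hγ) τ hp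
    exact sub_eq_zero.1 h0

/-- Mass `0`: the label is trivial. Proof. `bb (cq 0) = 0` (`cq 0 = 0`, `deriv = 0`), so for `γ ≠ 0`
`L_ττ = 0` on the half plane `{Im τ < - |Im γ|}`: `L_τ` is constant, `= 1` by `tendsto_deriv`; `L - τ` is
constant, `= 0` by `tendsto_sub`. For `γ = 0`: `base` gives `L = τ`. -/
theorem cone_zero (h : CL C (cq 0) G L) {p : ℂ × ℂ} (hp : p ∈ DC) : L p = p.1 := by
  obtain ⟨τ, γ⟩ := p
  show L (τ, γ) = τ
  by_cases hγ : γ = 0
  · subst hγ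
    have hτ : τ.im < 0 := by
      have : τ.im < -|(0 : ℂ).im| := hp
      simpa using this
    have h1 := h.base τ 0 hτ (by rw [norm_zero, mul_zero]; linarith)
    have h2 : C * ‖(0 : ℂ)‖ ^ 2 / (-τ.im) = 0 := by
      rw [norm_zero]; simp
    rw [h2] at h1
    exact sub_eq_zero.1 (norm_eq_zero.1 (le_antisymm h1 (norm_nonneg _)))
  · have hcq : cq 0 = fun _ => (0 : ℂ) := by
      funext z
      rw [cq]
      simp
    have hopen : IsOpen {z : ℂ | z.im < -|γ.im|} := isOpen_lt Complex.continuous_im continuous_const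
    have hconv : Convex ℝ {z : ℂ | z.im < -|γ.im|} := convex_halfSpace_im_lt _
    have h2 : ∀ s ∈ {z : ℂ | z.im < -|γ.im|}, deriv (deriv fun s => L (s, γ)) s = 0 := by
      intro s hs
      have h3 := h.ode (s, γ) hs
      rw [hcq] at h3
      unfold bb at h3
      simp only [deriv_const', neg_zero, zero_div, zero_mul] at h3
      rcases mul_eq_zero.1 h3 with h4 | h4
      · exact absurd h4 (pow_ne_zero 2 hγ)
      · exact h4
    have hmemY : ∀ᶠ y : ℝ in atTop, -((y:ℂ) * I) ∈ {z : ℂ | z.im < -|γ.im|} := by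
      filter_upwards [eventually_gt_atTop |γ.im|] with y hy
      show (-((y:ℂ) * I)).im < -|γ.im|
      simp
      exact hy
    have hinv : Tendsto (fun y : ℝ => (y:ℂ)⁻¹) atTop (𝓝 0) := by
      have h1 : Tendsto (fun y : ℝ => ((y⁻¹ : ℝ) : ℂ)) atTop (𝓝 ((0 : ℝ) : ℂ)) :=
        (Complex.continuous_ofReal.tendsto 0).comp tendsto_inv_atTop_zero
      simpa using h1
    have hd1 : Tendsto (fun y : ℝ => deriv (fun s => L (s, γ)) (-((y:ℂ) * I))) atTop (𝓝 1) := by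
      have h3 := ((h.tendsto_deriv γ).mul hinv).add_const (1 : ℂ)
      rw [mul_zero, zero_add] at h3
      refine h3.congr' ?_
      filter_upwards [eventually_gt_atTop 0] with y hy
      have hy' : (y:ℂ) ≠ 0 := by exact_mod_cast hy.ne'
      field_simp
      ring
    have hDan : ∀ s ∈ {z : ℂ | z.im < -|γ.im|}, AnalyticAt ℂ (fun w => L (w, γ)) s :=
      fun s hs => coneF_an h hs
    have hone : ∀ s ∈ {z : ℂ | z.im < -|γ.im|}, deriv (fun s => L (s, γ)) s = 1 := by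
      intro s hs
      have hc : Tendsto (fun y : ℝ => deriv (fun s => L (s, γ)) (-((y:ℂ) * I))) atTop
          (𝓝 (deriv (fun s => L (s, γ)) s)) := by
        refine tendsto_const_nhds.congr' ?_
        filter_upwards [hmemY] with y hy
        exact hopen.is_const_of_deriv_eq_zero hconv.isPreconnected
          (fun z hz => (hDan z hz).deriv.differentiableAt.differentiableWithinAt)
          (fun z hz => h2 z hz) hs hy
      exact tendsto_nhds_unique hc hd1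
    have hsub : Tendsto (fun y : ℝ => L (-((y:ℂ) * I), γ) - -((y:ℂ) * I)) atTop
        (𝓝 (L (τ, γ) - τ)) := by
      refine tendsto_const_nhds.congr' ?_
      filter_upwards [hmemY] with y hy
      have := hopen.is_const_of_deriv_eq_zero (f := fun s => L (s, γ) - s) hconv.isPreconnected
          (fun z hz => ((hDan z hz).differentiableAt.sub
            differentiableAt_id).differentiableWithinAt)
          (fun z hz => by
            have h3 := ((hDan z hz).differentiableAt.hasDerivAt).sub (hasDerivAt_id z)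
            have h4 : deriv (fun s => L (s, γ) - s) z = deriv (fun w => L (w, γ)) z - 1 := h3.deriv
            rw [h4, hone z hz]
            simp) hp hy
      exact this
    have := tendsto_nhds_unique hsub (h.tendsto_sub γ)
    exact sub_eq_zero.1 this

/-- THE MASS IS AT MOST ONE. Proof. Suppose `m > 1`, `k := √m > 1`. The point `(- k i, i)` is in `DC`;
`cone_rel` there: `k i cosh P = - k i sinh P`, so `exp P = cosh P + sinh P = 0`: contradiction. -/
theorem mass_le {m : ℝ} (h : CL C (cq m) G L) : m ≤ 1 := by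
  by_contra hm
  push Not at hm
  set k : ℝ := Real.sqrt m with hkdef
  have hk1 : 1 < k := by
    rw [hkdef, ← Real.sqrt_one]
    exact Real.sqrt_lt_sqrt (by norm_num) hm
  have hk : 0 < k := by linarith
  have hm2 : m = k ^ 2 := (Real.sq_sqrt (by linarith)).symm
  rw [hm2] at h
  have hp : ((-((k:ℂ) * I), I) : ℂ × ℂ) ∈ DC := by
    show (-((k:ℂ) * I)).im < -|I.im|
    simp
    exact hk1
  have h1 := cone_rel hk h hp
  have hkC : (k : ℂ) ≠ 0 := by exact_mod_cast hk.ne'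
  have h2 : (k:ℂ) * I * (Complex.cosh (k * pf L (-((k:ℂ) * I), I)) +
      Complex.sinh (k * pf L (-((k:ℂ) * I), I))) = 0 := by
    have h3 : (k:ℂ) * I * Complex.cosh (k * pf L (-((k:ℂ) * I), I)) =
      -((k:ℂ) * I) * Complex.sinh (k * pf L (-((k:ℂ) * I), I)) := h1
    linear_combination h3
  rw [Complex.cosh_add_sinh] at h2
  rcases mul_eq_zero.1 h2 with h3 | h3
  · exact (mul_ne_zero hkC I_ne_zero) h3
  · exact Complex.exp_ne_zero _ h3

end Pool.Agent.MP_ae5b4e_an_N3
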