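import Pool.Agent.Lib.MP_ae5b4e_an_N3.WDefs

/-! # Section N3, window level: the coordinates `(z, ρ)`, `t = x0 + i h + ρ z` -/

noncomputable section

namespace Pool.Agent.MP_ae5b4e_an_N3

open Complex Set Filter Topology Metric
open Pool.Agent.MP_ae5b4e_an_NBT (St Mer MerAt EqM)
open Pool.Agent.MP_ae5b4e_an_NB2 (Sys)
open Pool.Agent.MP_ae5b4e_an_PB
open Pool.Agent.MP_ae5b4e_an_N4 (Sg Gz)

/-- from `(z, ρ)` to `(t, ρ)` -/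
def tz (x0 h : ℝ) (p : ℂ × ℂ) : ℂ × ℂ := ((x0:ℂ) + (h:ℂ) * I + p.2 * p.1, p.2)

/-- from `(t, ρ)` to `(z, ρ)` -/
def zt (x0 h : ℝ) (p : ℂ × ℂ) : ℂ × ℂ := ((p.1 - ((x0:ℂ) + (h:ℂ) * I)) / p.2, p.2)

theorem Gz_eq (G : ℂ × ℂ → ℂ) (x0 h : ℝ) : Gz G x0 h = fun p => G (tz x0 h p) := rfl

theorem tz_zt (x0 h : ℝ) {p : ℂ × ℂ} (hp : p.2 ≠ 0) : tz x0 h (zt x0 h p) = p := by
  unfold tz zt
  refine Prod.ext ?_ rfl
  show (x0:ℂ) + (h:ℂ) * I + p.2 * ((p.1 - ((x0:ℂ) + (h:ℂ) * I)) / p.2) = p.1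
  rw [mul_div_cancel₀ _ hp]
  ring

theorem zt_tz (x0 h : ℝ) {p : ℂ × ℂ} (hp : p.2 ≠ 0) : zt x0 h (tz x0 h p) = p := by
  unfold tz zt
  refine Prod.ext ?_ rfl
  show ((x0:ℂ) + (h:ℂ) * I + p.2 * p.1 - ((x0:ℂ) + (h:ℂ) * I)) / p.2 = p.1
  rw [add_sub_cancel_left, mul_div_cancel_left₀ _ hp]

private theorem Coord_den {φ ψ : ℂ × ℂ → ℂ × ℂ} {p : ℂ × ℂ} (hφ : AnalyticAt ℂ φ p)
    (hψ : ContinuousAt ψ (φ p)) (h1 : ψ (φ p) = p) (h2 : ∀ᶠ q in 𝓝 (φ p), φ (ψ q) = q)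
    {B : ℂ × ℂ → ℂ} (hB : Pool.Agent.MP_ae5b4e_an_NBT.Den B (φ p)) :
    Pool.Agent.MP_ae5b4e_an_NBT.Den (fun q => B (φ q)) p := by
  refine ⟨AnalyticAt.fun_comp (g := B) (f := φ) hB.an hφ, fun h => hB.ne ?_⟩
  have h3 : Tendsto ψ (𝓝 (φ p)) (𝓝 p) := by
    have := hψ.tendsto
    rwa [h1] at this
  filter_upwards [h3.eventually h, h2] with x hx1 hx2
  rwa [hx2] at hx1

/-- Composition with a local homeomorphism: `MerAt f (φ p)`, `φ` analytic at `p`, `ψ` continuous at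
`φ p` with `φ (ψ q) = q` near `φ p` and `ψ (φ p) = p` (so that `φ` maps every neighbourhood of `p`
onto a neighbourhood of `φ p`: `Den (B ∘ φ) p`). Write `f = A / B` near `φ p` off `B = 0`. -/
theorem merAt_comp {f : ℂ × ℂ → ℂ} {φ ψ : ℂ × ℂ → ℂ × ℂ} {p : ℂ × ℂ} (hφ : AnalyticAt ℂ φ p)
    (hψ : ContinuousAt ψ (φ p)) (h1 : ψ (φ p) = p) (h2 : ∀ᶠ q in 𝓝 (φ p), φ (ψ q) = q)
    (h : MerAt f (φ p)) : MerAt (fun q => f (φ q)) p := by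
  obtain ⟨A, B, hA, hB, hAB⟩ := h
  exact ⟨fun q => A (φ q), fun q => B (φ q), AnalyticAt.fun_comp (g := A) (f := φ) hA hφ,
    Coord_den hφ hψ h1 h2 hB, hφ.continuousAt.eventually hAB⟩

theorem eqM_comp {f g : ℂ × ℂ → ℂ} {φ ψ : ℂ × ℂ → ℂ × ℂ} {p : ℂ × ℂ} (hφ : AnalyticAt ℂ φ p)
    (hψ : ContinuousAt ψ (φ p)) (h1 : ψ (φ p) = p) (h2 : ∀ᶠ q in 𝓝 (φ p), φ (ψ q) = q)
    (h : EqM f g (φ p)) : EqM (fun q => f (φ q)) (fun q => g (φ q)) p := by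
  obtain ⟨B, hB, hAB⟩ := h
  exact ⟨fun q => B (φ q), Coord_den hφ hψ h1 h2 hB, hφ.continuousAt.eventually hAB⟩

private theorem Coord_tz_an (x0 h : ℝ) (p : ℂ × ℂ) : AnalyticAt ℂ (tz x0 h) p := by
  unfold tz
  exact (analyticAt_const.add (analyticAt_snd.mul analyticAt_fst)).prod analyticAt_snd

private theorem Coord_zt_an (x0 h : ℝ) {p : ℂ × ℂ} (hp : p.2 ≠ 0) :
    AnalyticAt ℂ (zt x0 h) p := by
  unfold zt
  exact ((analyticAt_fst.sub analyticAt_const).div analyticAt_snd hp).prod analyticAt_snd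

private theorem Coord_ne {p : ℂ × ℂ} (hp : p.2 ≠ 0) : ∀ᶠ q : ℂ × ℂ in 𝓝 p, q.2 ≠ 0 :=
  continuousAt_snd.eventually_ne hp

theorem merAt_tz {f : ℂ × ℂ → ℂ} (x0 h : ℝ) {p : ℂ × ℂ} (hp : p.2 ≠ 0)
    (hf : MerAt f (tz x0 h p)) : MerAt (fun q => f (tz x0 h q)) p := by
  exact merAt_comp (ψ := zt x0 h) (Coord_tz_an x0 h p)
    (Coord_zt_an x0 h (p := tz x0 h p) hp).continuousAt
    (zt_tz x0 h hp) ((Coord_ne (p := tz x0 h p) hp).mono fun q hq => tz_zt x0 h hq) hf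

theorem eqM_tz {f g : ℂ × ℂ → ℂ} (x0 h : ℝ) {p : ℂ × ℂ} (hp : p.2 ≠ 0)
    (hf : EqM f g (tz x0 h p)) : EqM (fun q => f (tz x0 h q)) (fun q => g (tz x0 h q)) p := by
  exact eqM_comp (ψ := zt x0 h) (Coord_tz_an x0 h p)
    (Coord_zt_an x0 h (p := tz x0 h p) hp).continuousAt
    (zt_tz x0 h hp) ((Coord_ne (p := tz x0 h p) hp).mono fun q hq => tz_zt x0 h hq) hf

theorem merAt_zt {f : ℂ × ℂ → ℂ} (x0 h : ℝ) {p : ℂ × ℂ} (hp : p.2 ≠ 0)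
    (hf : MerAt f (zt x0 h p)) : MerAt (fun q => f (zt x0 h q)) p := by
  exact merAt_comp (ψ := tz x0 h) (Coord_zt_an x0 h hp) (Coord_tz_an x0 h _).continuousAt
    (tz_zt x0 h hp) ((Coord_ne (p := zt x0 h p) hp).mono fun q hq => zt_tz x0 h hq) hf

/-- from `E = G ∘ tz` near `zt p` to `E ∘ zt = G` near `p` -/
theorem eqM_zt {E G : ℂ × ℂ → ℂ} (x0 h : ℝ) {p : ℂ × ℂ} (hp : p.2 ≠ 0)
    (hf : EqM E (Gz G x0 h) (zt x0 h p)) : EqM (fun q => E (zt x0 h q)) G p := by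
  have h1 := eqM_comp (ψ := tz x0 h) (Coord_zt_an x0 h hp) (Coord_tz_an x0 h _).continuousAt
    (tz_zt x0 h hp) ((Coord_ne (p := zt x0 h p) hp).mono fun q hq => zt_tz x0 h hq) hf
  refine h1.trans (EqM.of_eventuallyEq ?_)
  filter_upwards [Coord_ne hp] with q hq
  show G (tz x0 h (zt x0 h q)) = G q
  rw [tz_zt x0 h hq]

/-- `tz (z, ρ) ∈ DFU` iff `Im (ρ z) < - v ρ` (for `z`, `ρ` small) -/
theorem tz_mem_DFU {v : ℂ → ℝ} {x0 h R : ℝ} {z ρ : ℂ} (hρ : ‖ρ‖ < R) (hz : ‖ρ * z‖ < h) :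
    tz x0 h (z, ρ) ∈ DFU v h R ↔ (ρ * z).im < -v ρ := by
  have him : (tz x0 h (z, ρ)).1.im = h + (ρ * z).im := by
    unfold tz
    simp
  have habs := (abs_le.1 (abs_im_le_norm (ρ * z))).1
  constructor
  · rintro ⟨-, -, h3⟩
    have h4 : (tz x0 h (z, ρ)).1.im < h - v ρ := h3
    rw [him] at h4
    linarith
  · intro h3
    refine ⟨hρ, ?_, ?_⟩
    · rw [him]
      linarith
    · show (tz x0 h (z, ρ)).1.im < h - v ρ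
      rw [him]
      linarith

end Pool.Agent.MP_ae5b4e_an_N3
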