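import Pool.Agent.Lib.MP_ae5b4e_an_M.Defs

/-!
# MP_ae5b4e_an, unbounded case, section N3 (conical windows): definitions

`CL C q G L`: the triple (limit potential, its primitive, limit label) of a conical window; the
limit domain is `DC = {Im τ < - |Im γ|}`.  Everything in the modules `Zoom` ... `Exact` is about
such triples (no windows, no sequences of scales): the result is `Exact.lean`: if `L` does not
extend (with values in the lower half plane) near `(-i, i)` then `q = - 1 / z ^ 2`.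
-/

noncomputable section

namespace Pool.Agent.MP_ae5b4e_an_N3

open Complex Set Filter Topology Metric
open PorTR (Hm)
open Pool.Agent.MP_ae5b4e_an_M (bb)

/-- the domain of the limit label of a conical window -/
def DC : Set (ℂ × ℂ) := {p | p.1.im < -|p.2.im|}

/-- conical limits: `q` the potential, `G` its primitive (a Pick function, up to sign), `L` the
label; `C` is the constant in the estimates -/
structure CL (C : ℝ) (q G : ℂ → ℂ) (L : ℂ × ℂ → ℂ) : Prop where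
  C_two : 2 ≤ C
  gd : DifferentiableOn ℂ G Hm
  gq : ∀ z ∈ Hm, deriv G z = q z
  gpos : ∀ z ∈ Hm, 0 ≤ (G z).im
  gbd : ∀ z ∈ Hm, ‖G z‖ ≤ C / (-z.im)
  an : AnalyticOnNhd ℂ L DC
  maps : MapsTo L DC Hm
  base : ∀ τ γ : ℂ, τ.im < 0 → C * ‖γ‖ ≤ -τ.im → ‖L (τ, γ) - τ‖ ≤ C * ‖γ‖ ^ 2 / (-τ.im)
  ode : ∀ p ∈ DC, p.2 ^ 2 * deriv (deriv fun s => L (s, p.2)) p.1 =
    bb q (L p) (p.2 * deriv (fun s => L (s, p.2)) p.1)

/-- zooms -/
def zq (s : ℝ) (q : ℂ → ℂ) (z : ℂ) : ℂ := (s:ℂ) ^ 2 * q ((s:ℂ) * z)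

def zG (s : ℝ) (G : ℂ → ℂ) (z : ℂ) : ℂ := (s:ℂ) * G ((s:ℂ) * z)

def zL (s : ℝ) (L : ℂ × ℂ → ℂ) (p : ℂ × ℂ) : ℂ := L ((s:ℂ) * p.1, (s:ℂ) * p.2) / (s:ℂ)

/-- the potential of the cone of mass `m` -/
def cq (m : ℝ) (z : ℂ) : ℂ := -(m:ℂ) / z ^ 2

/-- `L` extends, with values in `Hm`, to the bidisc of radius `ε` about `p` -/
def ExtB (L : ℂ × ℂ → ℂ) (p : ℂ × ℂ) (ε : ℝ) : Prop :=
  ∃ g : ℂ × ℂ → ℂ, AnalyticOnNhd ℂ g (ball p ε) ∧ MapsTo g (ball p ε) Hm ∧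
    ∀ r ∈ ball p ε ∩ DC, g r = L r

/-- `phi (y) = y Im G (- i y)` -/
def phi (G : ℂ → ℂ) (y : ℝ) : ℝ := y * (G (-(y * I))).im

end Pool.Agent.MP_ae5b4e_an_N3
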