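import Pool.Agent.Lib.MP_ae5b4e_an_N3.Zoom
import Pool.Agent.Lib.MP_ae5b4e_an_LL.Rad

/-! # Section N3: leaf saturation -/

noncomputable section

namespace Pool.Agent.MP_ae5b4e_an_N3

open Complex Set Filter Topology Metric
open PorTR (Hm)
open Pool.Agent.Lib.MP_ae5b4e_an_LL (ExtH hrad)

private theorem dcL {t η : ℂ} (ht : 0 < t.im) (hη : η.im < 0) : (η - t, t) ∈ DC := by
  show (η - t).im < -|t.im|
  rw [abs_of_pos ht, sub_im]
  linarith

private theorem im_lt {e : ℝ} {η : ℂ} (h : η ∈ ball (-(e * I) : ℂ) e) : η.im < 0 := by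
  rw [mem_ball, dist_eq_norm] at h
  have h1 := abs_im_le_norm (η - -((e : ℂ) * I))
  have h2 : (η - -((e : ℂ) * I)).im = η.im + e := by simp
  rw [h2] at h1
  have h3 := le_abs_self (η.im + e)
  linarith

private theorem anPhi {L : ℂ × ℂ → ℂ} (ha : AnalyticOnNhd ℂ L DC) {p : ℂ × ℂ}
    (ht : 0 < p.1.im) (hη : p.2.im < 0) :
    AnalyticAt ℂ (fun p : ℂ × ℂ => L (p.2 - p.1, p.1)) p := by
  have h1 : AnalyticAt ℂ (fun p : ℂ × ℂ => (p.2 - p.1, p.1)) p :=
    (analyticAt_snd.sub analyticAt_fst).prod analyticAt_fst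
  exact AnalyticAt.comp (g := L) (f := fun p : ℂ × ℂ => (p.2 - p.1, p.1)) (x := p)
    (ha (p.2 - p.1, p.1) (dcL ht hη)) h1

/-- LEAF SATURATION: if `L` extends near one point `(- γ₁, γ₁)` of the leaf then it extends near all
of them.

Proof. `Φ (t, η) := L (η - t, t)` is analytic for `t ∈ UP = {0 < im}`, `η ∈ Hm`, with values in `Hm`
(`Im (η - t) < - Im t`). Fix `e > 0` small, `η₀ := - e i`, `Y := 2 e`, `V := UP`, `u t := - log (hrad Φ η₀ Hm Y t)`.
(1) For all `t ∈ V`: `ExtH Φ η₀ Hm e t` (`ball (- e i) e ⊆ Hm`), so `hrad ≥ e`, `u ≤ - log e`, and `u` is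
`SubH` on `V` (`subH_neg_log_hrad`).
(2) Let `L` extend to the bidisc of radius `ε` about `(- γ₁, γ₁)` by `g`. Let `e < ε / 4`. Near `t = γ₁` the
function `g (η - t, t)` extends `Φ` to `|η| < ε / 2`. The two functions `Φ` (on `η ∈ Hm`) and
`g (η - t, t)` (on `|η| < ε / 2`) agree on the overlap, so they define an analytic function on
`ball γ₁ (min (ε / 4) γ₁.im) × (Hm ∪ ball 0 (ε / 2))`, and `ball (- e i) (e + d) ⊆ Hm ∪ ball 0 (ε / 2)` for small
`d > 0` (a point of the disc with `Im η ≥ 0` has `|η|² < 2 e d + d²`). So `ExtH Φ η₀ Hm (e + d) γ₁`,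
`hrad γ₁ > e`, `u γ₁ < - log e`.
(3) Strong maximum principle (`SubH.eq_of_isMax`, `V` convex): `u < - log e` on `V`.
(4) So `hrad γ₂ > e`: there are `d > 0` and an extension `G` of `Φ` near `{γ₂} × ball (- e i) (e + d)` with
values in `Hm` (`extH_of_lt`), which agrees with `Φ` near `(t', η₀)`, hence for all `η ∈ Hm` in the disc
(identity theorem on the convex set `ball (- e i) (e + d) ∩ Hm`). `0` is in the disc; put
`g (τ, γ) := G (γ, τ + γ)` on a small bidisc about `(- γ₂, γ₂)`; on `DC` near it `Im γ > 0`,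
`Im (τ + γ) < 0`, so `g = L`. -/
theorem leaf {L : ℂ × ℂ → ℂ} (ha : AnalyticOnNhd ℂ L DC) (hm : MapsTo L DC Hm) {γ₁ γ₂ : ℂ}
    (h1 : 0 < γ₁.im) (h2 : 0 < γ₂.im) (h : ∃ ε > 0, ExtB L (-γ₁, γ₁) ε) :
    ∃ ε > 0, ExtB L (-γ₂, γ₂) ε := by
  classical
  obtain ⟨ε, hε, g, hg1, hg2, hg3⟩ := h
  set e : ℝ := ε / 8 with he
  have he0 : 0 < e := by positivity
  set η₀ : ℂ := -(e * I) with hη₀
  have hη₀im : η₀.im < 0 := by
    have : η₀.im = -e := by simp [hη₀]
    rw [this]; linarith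
  set Φ : ℂ × ℂ → ℂ := fun p => L (p.2 - p.1, p.1) with hΦ
  set V : Set ℂ := {t | 0 < t.im} with hV
  have hVo : IsOpen V := isOpen_lt continuous_const Complex.continuous_im
  have hVc : Convex ℝ V := convex_halfSpace_im_gt 0
  have hHo : IsOpen Hm := isOpen_lt Complex.continuous_im continuous_const
  have hHc : Convex ℝ Hm := convex_halfSpace_im_lt 0
  -- step 1
  have hE1 : ∀ t ∈ V, ExtH Φ η₀ Hm e t := by
    intro t ht
    have hsub : ball t t.im ⊆ V := by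
      intro w hw
      rw [mem_ball, dist_eq_norm] at hw
      have h3 := abs_im_le_norm (w - t)
      have h4 := neg_abs_le (w - t).im
      rw [sub_im] at h3 h4
      show 0 < w.im
      linarith
    refine ⟨t.im, ht, Φ, fun p hp => anPhi ha (hsub hp.1) (im_lt hp.2), fun p hp =>
      hm (dcL (hsub hp.1) (im_lt hp.2)), fun t' _ => Eventually.of_forall fun _ => rfl⟩
  -- step 2
  have hsq : ∀ η ∈ ball η₀ (2 * e), 0 ≤ η.im → ‖η‖ < ε / 2 := by
    intro η hη him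
    rw [mem_ball, dist_eq_norm] at hη
    have h3 : ‖η - η₀‖ ^ 2 = ‖η‖ ^ 2 + 2 * e * η.im + e ^ 2 := by
      rw [← Complex.normSq_eq_norm_sq, ← Complex.normSq_eq_norm_sq, Complex.normSq_apply,
        Complex.normSq_apply]
      simp [hη₀]
      ring
    have h4 : ‖η - η₀‖ ^ 2 < (2 * e) ^ 2 := by
      have := norm_nonneg (η - η₀)
      nlinarith
    have h5 : ‖η‖ ^ 2 < (ε / 2) ^ 2 := by
      have h6 : 0 ≤ 2 * e * η.im := by positivity
      have h7 : ε = 8 * e := by rw [he]; ring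
      rw [h7]
      nlinarith
    exact lt_of_pow_lt_pow_left₀ 2 (by positivity) h5
  have hE2 : ExtH Φ η₀ Hm (2 * e) γ₁ := by
    set δ : ℝ := min (ε / 4) γ₁.im with hδ
    have hδ0 : 0 < δ := lt_min (by positivity) h1
    have hball : ∀ t ∈ ball γ₁ δ, t ∈ V := by
      intro w hw
      rw [mem_ball, dist_eq_norm] at hw
      have h3 := abs_im_le_norm (w - γ₁)
      have h4 := neg_abs_le (w - γ₁).im
      rw [sub_im] at h3 h4
      have h5 := min_le_right (ε / 4) γ₁.im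
      show 0 < w.im
      linarith
    have hin : ∀ p : ℂ × ℂ, p.1 ∈ ball γ₁ δ → ‖p.2‖ < ε / 2 →
        (p.2 - p.1, p.1) ∈ ball ((-γ₁, γ₁) : ℂ × ℂ) ε := by
      intro p hp1 hp2
      rw [mem_ball, dist_eq_norm] at hp1
      have h5 := min_le_left (ε / 4) γ₁.im
      rw [← ball_prod_same]
      refine ⟨?_, ?_⟩
      · rw [mem_ball, dist_eq_norm]
        have h6 : p.2 - p.1 - -γ₁ = p.2 - (p.1 - γ₁) := by ring
        show ‖p.2 - p.1 - -γ₁‖ < ε
        rw [h6]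
        have := norm_sub_le p.2 (p.1 - γ₁)
        linarith
      · rw [mem_ball, dist_eq_norm]
        show ‖p.1 - γ₁‖ < ε
        linarith
    have hagree : ∀ p : ℂ × ℂ, p.1 ∈ ball γ₁ δ → ‖p.2‖ < ε / 2 → p.2.im < 0 →
        g (p.2 - p.1, p.1) = Φ p := by
      intro p hp1 hp2 hp3
      exact hg3 _ ⟨hin p hp1 hp2, dcL (hball _ hp1) hp3⟩
    refine ⟨δ, hδ0, fun p => if p.2.im < 0 then Φ p else g (p.2 - p.1, p.1), ?_, ?_, ?_⟩
    · rintro p ⟨hp1, hp2⟩
      by_cases hp3 : p.2.im < 0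
      · have hcon : ContinuousAt (fun q : ℂ × ℂ => q.2.im) p := by fun_prop
        refine (anPhi ha (hball _ hp1) hp3).congr ?_
        filter_upwards [hcon.eventually (gt_mem_nhds hp3)] with q hq
        rw [if_pos hq]
      · push Not at hp3
        have hn := hsq p.2 hp2 hp3
        have h6 : AnalyticAt ℂ (fun p : ℂ × ℂ => (p.2 - p.1, p.1)) p :=
          (analyticAt_snd.sub analyticAt_fst).prod analyticAt_fst
        have h7 : AnalyticAt ℂ (fun p : ℂ × ℂ => g (p.2 - p.1, p.1)) p :=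
          AnalyticAt.comp (g := g) (f := fun p : ℂ × ℂ => (p.2 - p.1, p.1)) (x := p)
            (hg1 _ (hin p hp1 hn)) h6
        refine h7.congr ?_
        have hcon : ContinuousAt (fun q : ℂ × ℂ => ‖q.2‖) p := by fun_prop
        have hcon2 : ContinuousAt (fun q : ℂ × ℂ => q.1) p := by fun_prop
        filter_upwards [hcon.eventually (gt_mem_nhds hn),
          hcon2.eventually (isOpen_ball.mem_nhds hp1)] with q hq1 hq2
        by_cases hq3 : q.2.im < 0
        · rw [if_pos hq3]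
          exact hagree q hq2 hq1 hq3
        · rw [if_neg hq3]
    · rintro p ⟨hp1, hp2⟩
      by_cases hp3 : p.2.im < 0
      · show (if p.2.im < 0 then Φ p else g (p.2 - p.1, p.1)) ∈ Hm
        rw [if_pos hp3]
        exact hm (dcL (hball _ hp1) hp3)
      · show (if p.2.im < 0 then Φ p else g (p.2 - p.1, p.1)) ∈ Hm
        rw [if_neg hp3]
        push Not at hp3
        exact hg2 (hin p hp1 (hsq p.2 hp2 hp3))
    · intro t' _
      have hcon : ContinuousAt (fun q : ℂ × ℂ => q.2.im) (t', η₀) := by fun_prop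
      filter_upwards [hcon.eventually (gt_mem_nhds hη₀im)] with q hq
      show (if q.2.im < 0 then Φ q else g (q.2 - q.1, q.1)) = Φ q
      rw [if_pos hq]
  -- step 3
  have hle : ∀ t ∈ V, e ≤ hrad Φ η₀ Hm (2 * e) t := fun t ht =>
    Pool.Agent.Lib.MP_ae5b4e_an_LL.le_hrad he0 (by linarith) (hE1 t ht)
  have hsub := Pool.Agent.Lib.MP_ae5b4e_an_LL.subH_neg_log_hrad (Φ := Φ) (η₀ := η₀) (Ω := Hm)
    (Y := 2 * e) hVo (by positivity) (fun t ht => ⟨e, he0, hE1 t ht⟩)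
  have hgt : e < hrad Φ η₀ Hm (2 * e) γ₂ := by
    by_contra hcon
    push Not at hcon
    have h3 : hrad Φ η₀ Hm (2 * e) γ₂ = e := le_antisymm hcon (hle γ₂ h2)
    have h4 := hsub.eq_of_isMax hVo hVc.isPreconnected (z := γ₂) h2 (fun w hw => by
      show -Real.log (hrad Φ η₀ Hm (2 * e) w) ≤ -Real.log (hrad Φ η₀ Hm (2 * e) γ₂)
      rw [h3]
      exact neg_le_neg (Real.log_le_log he0 (hle w hw))) γ₁ h1
    have h5 : 2 * e ≤ hrad Φ η₀ Hm (2 * e) γ₁ :=
      Pool.Agent.Lib.MP_ae5b4e_an_LL.le_hrad (by positivity) le_rfl hE2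
    have h6 : Real.log (hrad Φ η₀ Hm (2 * e) γ₁) = Real.log e := by
      have h7 : -Real.log (hrad Φ η₀ Hm (2 * e) γ₁) = -Real.log (hrad Φ η₀ Hm (2 * e) γ₂) := h4
      rw [h3] at h7
      linarith
    have h8 : Real.log e < Real.log (hrad Φ η₀ Hm (2 * e) γ₁) :=
      Real.log_lt_log he0 (by linarith)
    linarith
  -- step 4
  obtain ⟨s, hs1, hs2⟩ := exists_between hgt
  obtain ⟨ε₂, hε₂, G, hG1, hG2, hG3⟩ :=
    Pool.Agent.Lib.MP_ae5b4e_an_LL.extH_of_lt (he0.trans hs1) hs2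
  have hkey : ∀ p : ℂ × ℂ, p.1 ∈ ball γ₂ ε₂ → 0 < p.1.im → p.2 ∈ ball η₀ s → p.2.im < 0 →
      G p = Φ p := by
    intro p hp1 hp2 hp3 hp4
    set D : Set (ℂ × ℂ) := (ball γ₂ ε₂ ∩ V) ×ˢ (ball η₀ s ∩ Hm) with hD
    have hDc : IsPreconnected D :=
      (((convex_ball _ _).inter hVc).prod ((convex_ball _ _).inter hHc)).isPreconnected
    have hGD : AnalyticOnNhd ℂ G D := hG1.mono (prod_mono inter_subset_left inter_subset_left)
    have hPD : AnalyticOnNhd ℂ Φ D := fun q hq => anPhi ha hq.1.2 hq.2.2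
    have hq : (p.1, η₀) ∈ D :=
      ⟨⟨hp1, hp2⟩, ⟨mem_ball_self (he0.trans hs1), hη₀im⟩⟩
    exact hGD.eqOn_of_preconnected_of_eventuallyEq hPD hDc hq (hG3 p.1 hp1)
      (show p ∈ D from ⟨⟨hp1, hp2⟩, ⟨hp3, hp4⟩⟩)
  set ε₃ : ℝ := min (min ε₂ ((s - e) / 2)) γ₂.im with hε₃
  have hε₃0 : 0 < ε₃ := lt_min (lt_min hε₂ (by linarith)) h2
  have hc1 : ε₃ ≤ ε₂ := (min_le_left _ _).trans (min_le_left _ _)
  have hc2 : ε₃ ≤ (s - e) / 2 := (min_le_left _ _).trans (min_le_right _ _)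
  have hc3 : ε₃ ≤ γ₂.im := min_le_right _ _
  have hmem : ∀ r ∈ ball ((-γ₂, γ₂) : ℂ × ℂ) ε₃,
      (r.2, r.1 + r.2) ∈ ball γ₂ ε₂ ×ˢ ball η₀ s := by
    intro r hr
    rw [← ball_prod_same] at hr
    obtain ⟨hr1, hr2⟩ := hr
    rw [mem_ball, dist_eq_norm] at hr1 hr2
    refine ⟨?_, ?_⟩
    · rw [mem_ball, dist_eq_norm]
      exact hr2.trans_le hc1
    · rw [mem_ball, dist_eq_norm]
      show ‖r.1 + r.2 - η₀‖ < s
      have h6 : r.1 + r.2 - η₀ = (r.1 - -γ₂) + (r.2 - γ₂) - η₀ := by ring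
      have h7 : ‖η₀‖ = e := by
        rw [hη₀, norm_neg, norm_mul, norm_I, mul_one, norm_real, Real.norm_of_nonneg he0.le]
      have h8 := norm_sub_le ((r.1 - -γ₂) + (r.2 - γ₂)) η₀
      have h9 := norm_add_le (r.1 - -γ₂) (r.2 - γ₂)
      rw [h6]
      linarith
  refine ⟨ε₃, hε₃0, fun r => G (r.2, r.1 + r.2), ?_, ?_, ?_⟩
  · intro r hr
    have h6 : AnalyticAt ℂ (fun r : ℂ × ℂ => (r.2, r.1 + r.2)) r :=
      analyticAt_snd.prod (analyticAt_fst.add analyticAt_snd)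
    exact AnalyticAt.comp (g := G) (f := fun r : ℂ × ℂ => (r.2, r.1 + r.2)) (x := r)
      (hG1 _ (hmem r hr)) h6
  · intro r hr
    exact hG2 (hmem r hr)
  · rintro r ⟨hr, hrD⟩
    have hm1 := hmem r hr
    have him : 0 < r.2.im := by
      rw [← ball_prod_same] at hr
      have hr2 := hr.2
      rw [mem_ball, dist_eq_norm] at hr2
      have h3 := abs_im_le_norm (r.2 - γ₂)
      have h4 := neg_abs_le (r.2 - γ₂).im
      rw [sub_im] at h3 h4
      linarith
    have him2 : (r.1 + r.2).im < 0 := by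
      have h3 : r.1.im < -|r.2.im| := hrD
      rw [abs_of_pos him] at h3
      rw [add_im]
      linarith
    have h5 := hkey (r.2, r.1 + r.2) hm1.1 him hm1.2 him2
    show G (r.2, r.1 + r.2) = L r
    rw [h5]
    show L (r.1 + r.2 - r.2, r.2) = L r
    rw [add_sub_cancel_right]

end Pool.Agent.MP_ae5b4e_an_N3
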