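import Pool.Agent.Lib.MP_ae5b4e_an_N3.PickD

/-! # Section N3: the monotone function `phi (y) = y Im G (- i y)`; rigidity -/

noncomputable section

namespace Pool.Agent.MP_ae5b4e_an_N3

open Complex Set Filter Topology Metric
open PorTR (Hm)

private theorem negI_mem {y : ℝ} (hy : 0 < y) : -((y:ℂ) * I) ∈ Hm := by
  change (-((y:ℂ) * I)).im < 0
  simpa using hy

private theorem hm_open : IsOpen Hm := isOpen_lt Complex.continuous_im continuous_const

private theorem phi_hasDeriv {G : ℂ → ℂ} (hG : DifferentiableOn ℂ G Hm) {y : ℝ} (hy : 0 < y) :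
    HasDerivAt (phi G) ((G (-(y * I))).im - y * (deriv G (-(y * I))).re) y := by
  have hz := negI_mem hy
  have h1 : HasDerivAt G (deriv G (-((y:ℂ) * I))) (-((y:ℂ) * I)) :=
    ((hG _ hz).differentiableAt (hm_open.mem_nhds hz)).hasDerivAt
  have h2 : HasDerivAt (fun t : ℝ => -((t:ℂ) * I)) (-(1 * I)) y :=
    ((Complex.ofRealCLM.hasDerivAt (x := y)).mul_const I).neg
  have h3 : HasDerivAt (fun t : ℝ => G (-((t:ℂ) * I)))
      (deriv G (-((y:ℂ) * I)) * (-(1 * I))) y := by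
    have := HasDerivAt.scomp y h1 h2
    rw [smul_eq_mul, mul_comm] at this
    exact this
  have h4 : HasDerivAt (fun t : ℝ => (G (-((t:ℂ) * I))).im)
      ((deriv G (-((y:ℂ) * I)) * (-(1 * I))).im) y :=
    Complex.imCLM.hasFDerivAt.comp_hasDerivAt y h3
  have h5 := (hasDerivAt_id y).mul h4
  have h6 : (1 * (G (-((y:ℂ) * I))).im + id y * (deriv G (-((y:ℂ) * I)) * (-(1 * I))).im) =
      (G (-(y * I))).im - y * (deriv G (-(y * I))).re := by
    simp [sub_eq_add_neg]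
  rw [← h6]
  exact h5

private theorem pick0 {G : ℂ → ℂ} (hG : DifferentiableOn ℂ G Hm) (hp : ∀ z ∈ Hm, 0 ≤ (G z).im)
    {y : ℝ} (hy : 0 < y) : ‖deriv G (-(y * I))‖ ≤ (G (-(y * I))).im / y := by
  have h := pick_deriv (b := 0) (f := G) hG hp (z := -((y:ℂ) * I)) (negI_mem hy)
  have h1 : (0:ℝ) - (-((y:ℂ) * I)).im = y := by simp
  rw [h1] at h
  exact h

/-- `phi` is nondecreasing. Proof. `phi' = Im G - y Re G' (- i y) ≥ Im G - y |G'| ≥ 0` by `pick_deriv`
with `b = 0` (derivative of `y ↦ Im G (- i y)` is `Im (- i G') = - Re G'`). -/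
theorem phi_mono {G : ℂ → ℂ} (hG : DifferentiableOn ℂ G Hm) (hp : ∀ z ∈ Hm, 0 ≤ (G z).im)
    {y1 y2 : ℝ} (h1 : 0 < y1) (h2 : y1 ≤ y2) : phi G y1 ≤ phi G y2 := by
  have hm : MonotoneOn (phi G) (Ioi 0) := by
    refine monotoneOn_of_deriv_nonneg (convex_Ioi 0) ?_ ?_ ?_
    · intro y hy
      exact (phi_hasDeriv hG hy).continuousAt.continuousWithinAt
    · intro y hy
      rw [interior_Ioi] at hy
      exact (phi_hasDeriv hG hy).differentiableAt.differentiableWithinAt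
    · intro y hy
      rw [interior_Ioi] at hy
      have hy' : 0 < y := hy
      rw [(phi_hasDeriv hG hy').deriv]
      have h3 := pick0 hG hp hy'
      rw [le_div_iff₀ hy'] at h3
      have h4 := Complex.re_le_norm (deriv G (-(y * I)))
      nlinarith
  exact hm h1 (lt_of_lt_of_le h1 h2) h2

/-- Limits of `phi` at `0` and at `∞` (`phi` is monotone, `0 ≤ phi ≤ C`). -/
theorem phi_limits {G : ℂ → ℂ} {C : ℝ} (hG : DifferentiableOn ℂ G Hm)
    (hp : ∀ z ∈ Hm, 0 ≤ (G z).im) (hb : ∀ z ∈ Hm, ‖G z‖ ≤ C / (-z.im)) :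
    ∃ m0 m1 : ℝ, 0 ≤ m0 ∧ m0 ≤ m1 ∧ Tendsto (phi G) (𝓝[>] 0) (𝓝 m0) ∧
      Tendsto (phi G) atTop (𝓝 m1) ∧ ∀ y, 0 < y → m0 ≤ phi G y ∧ phi G y ≤ m1 := by
  have hmono : MonotoneOn (phi G) (Ioi 0) := fun y hy z _ hyz => phi_mono hG hp hy hyz
  have hlo : ∀ y, 0 < y → 0 ≤ phi G y := fun y hy => mul_nonneg hy.le (hp _ (negI_mem hy))
  have hhi : ∀ y, 0 < y → phi G y ≤ C := by
    intro y hy
    have h1 := hb _ (negI_mem hy)
    have h2 : -(-((y:ℂ) * I)).im = y := by simp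
    rw [h2, le_div_iff₀ hy] at h1
    have h3 := Complex.im_le_norm (G (-((y:ℂ) * I)))
    have h4 : phi G y = y * (G (-((y:ℂ) * I))).im := rfl
    rw [h4]
    nlinarith
  have hbb : BddBelow (phi G '' Ioi 0) := ⟨0, by rintro _ ⟨y, hy, rfl⟩; exact hlo y hy⟩
  have hba : BddAbove (phi G '' Ioi 0) := ⟨C, by rintro _ ⟨y, hy, rfl⟩; exact hhi y hy⟩
  have hne : (phi G '' Ioi 0).Nonempty := ⟨_, 1, (one_pos : (0:ℝ) < 1), rfl⟩
  have hb2 : ∀ y, 0 < y → sInf (phi G '' Ioi 0) ≤ phi G y ∧ phi G y ≤ sSup (phi G '' Ioi 0) :=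
    fun y hy => ⟨csInf_le hbb ⟨y, hy, rfl⟩, le_csSup hba ⟨y, hy, rfl⟩⟩
  refine ⟨sInf (phi G '' Ioi 0), sSup (phi G '' Ioi 0), ?_, ?_, ?_, ?_, hb2⟩
  · refine le_csInf hne ?_
    rintro _ ⟨y, hy, rfl⟩
    exact hlo y hy
  · exact (hb2 1 one_pos).1.trans (hb2 1 one_pos).2
  · exact hmono.tendsto_nhdsGT hbb
  · refine tendsto_order.2 ⟨fun a ha => ?_, fun a ha => ?_⟩
    · obtain ⟨_, ⟨y, hy, rfl⟩, hy2⟩ := exists_lt_of_lt_csSup hne ha
      filter_upwards [eventually_ge_atTop y] with z hz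
      exact lt_of_lt_of_le hy2 (phi_mono hG hp hy hz)
    · filter_upwards [eventually_gt_atTop 0] with z hz
      exact lt_of_le_of_lt (hb2 z hz).2 ha

/-- RIGIDITY. If `phi` is constant then `G' = - m / z ^ 2`.

Proof. `phi' = 0` gives `Im G (- i y) = y Re G' (- i y)`; with `|G'| ≤ Im G / y = Re G'` the derivative
`G' (- i y)` is real, `= Im G / y = m / y² = - m / (- i y)²`. Identity theorem on `Hm` (the points
`- i y` accumulate at `- i`). -/
theorem rigid {G : ℂ → ℂ} {m : ℝ} (hG : DifferentiableOn ℂ G Hm) (hp : ∀ z ∈ Hm, 0 ≤ (G z).im)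
    (h : ∀ y : ℝ, 0 < y → phi G y = m) : ∀ z ∈ Hm, deriv G z = cq m z := by
  have key : ∀ y : ℝ, 0 < y → deriv G (-(y * I)) = cq m (-(y * I)) := by
    intro y hy
    have h1 := phi_hasDeriv hG hy
    have h2 : HasDerivAt (phi G) 0 y := by
      refine (hasDerivAt_const y m).congr_of_eventuallyEq ?_
      filter_upwards [lt_mem_nhds hy] with t ht
      exact h t ht
    have h3 := h1.unique h2
    have h4 := pick0 hG hp hy
    have h5 : (G (-(y * I))).im = y * (deriv G (-(y * I))).re := by linarith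
    have h6 : ‖deriv G (-(y * I))‖ ≤ (deriv G (-(y * I))).re := by
      rw [h5, mul_div_cancel_left₀ _ hy.ne'] at h4
      exact h4
    have h7 : (deriv G (-(y * I))).im = 0 := by
      have h8 := Complex.sq_norm (deriv G (-(y * I)))
      rw [Complex.normSq_apply] at h8
      have h9 := norm_nonneg (deriv G (-(y * I)))
      nlinarith [mul_self_nonneg (deriv G (-(y * I))).im]
    have h10 : phi G y = y * (G (-(y * I))).im := rfl
    have h11 : (deriv G (-(y * I))).re = m / y ^ 2 := by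
      rw [eq_div_iff (by positivity), ← h y hy, h10, h5]
      ring
    have h12 : cq m (-(y * I)) = ((m / y ^ 2 : ℝ) : ℂ) := by
      have hy' : (y:ℂ) ≠ 0 := by exact_mod_cast hy.ne'
      unfold cq
      rw [neg_sq, mul_pow, I_sq]
      push_cast
      field_simp
    rw [h12]
    apply Complex.ext
    · rw [h11, Complex.ofReal_re]
    · rw [h7, Complex.ofReal_im]
  have hGa : AnalyticOnNhd ℂ (deriv G) Hm := (hG.analyticOnNhd hm_open).deriv
  have hca : AnalyticOnNhd ℂ (cq m) Hm := by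
    refine DifferentiableOn.analyticOnNhd ?_ hm_open
    intro z hz
    have hz0 : z ≠ 0 := by
      rintro rfl
      exact lt_irrefl _ (show ((0:ℂ)).im < 0 from hz)
    have hd : DifferentiableAt ℂ (fun w : ℂ => -(m:ℂ) / w ^ 2) z :=
      (differentiableAt_const _).div (differentiableAt_id.pow 2) (pow_ne_zero 2 hz0)
    exact hd.differentiableWithinAt
  have hpre : IsPreconnected Hm := (convex_halfSpace_im_lt 0).isPreconnected
  have h1m : -(((1:ℝ):ℂ) * I) ∈ Hm := negI_mem one_pos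
  have hfreq : ∃ᶠ z in 𝓝[≠] (-(((1:ℝ):ℂ) * I)), deriv G z = cq m z := by
    have ht : Tendsto (fun y : ℝ => -((y:ℂ) * I)) (𝓝[≠] 1) (𝓝[≠] (-(((1:ℝ):ℂ) * I))) := by
      refine tendsto_nhdsWithin_iff.2 ⟨?_, ?_⟩
      · have hc : Continuous fun y : ℝ => -((y:ℂ) * I) := by fun_prop
        exact (hc.tendsto 1).mono_left nhdsWithin_le_nhds
      · filter_upwards [self_mem_nhdsWithin] with y hy
        intro h0
        apply hy
        have h0' : -((y:ℂ) * I) = -(((1:ℝ):ℂ) * I) := h0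
        have h1 := mul_right_cancel₀ I_ne_zero (neg_inj.1 h0')
        exact_mod_cast h1
    refine ht.frequently (Eventually.frequently ?_)
    filter_upwards [nhdsWithin_le_nhds (lt_mem_nhds (show (0:ℝ) < 1 from one_pos))] with y hy
    exact key y hy
  exact hGa.eqOn_of_preconnected_of_frequently_eq hca hpre h1m hfreq

end Pool.Agent.MP_ae5b4e_an_N3
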