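import Pool.Agent.Lib.MP_ae5b4e_an_N3.Lim
import Pool.Agent.Lib.MP_ae5b4e_an_N3.PickM

/-! # Section N3: limits of zooms are exact cones -/

noncomputable section

namespace Pool.Agent.MP_ae5b4e_an_N3

open Complex Set Filter Topology Metric
open PorTR (Hm)

/-- Proof. `exists_lim` for the zooms (`CL.zoom`); `phi` of the limit of the `zG (s n) G` is
`lim phi (zG (s n) G) y = lim phi G (s n y) = m` (`phi_zG`), so `rigid` gives `q' = deriv G' = cq m` on
`Hm`; `CL.congr`; the limit function of the `q`'s may be replaced by `cq m` (they agree on `Hm`: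
`TendstoLocallyUniformlyOn.congr_right`). -/
theorem exists_zoom_lim (U : Ultrafilter ℕ) {C m : ℝ} {q G : ℂ → ℂ} {L : ℂ × ℂ → ℂ}
    (h : CL C q G L) {s : ℕ → ℝ} (hs : ∀ n, 0 < s n)
    (hm : ∀ y : ℝ, 0 < y → Tendsto (fun n => phi G (s n * y)) U (𝓝 m)) :
    ∃ (G' : ℂ → ℂ) (L' : ℂ × ℂ → ℂ), CL C (cq m) G' L' ∧
      TendstoLocallyUniformlyOn (fun n => zq (s n) q) (cq m) U Hm ∧
      TendstoLocallyUniformlyOn (fun n => zL (s n) L) L' U DC := by
  obtain ⟨q', G', L', hCL, hq, hG, hL⟩ := exists_lim U (fun n => h.zoom (hs n))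
  have hphi : ∀ y : ℝ, 0 < y → phi G' y = m := by
    intro y hy
    have hmem : (-((y : ℂ) * I)) ∈ Hm := by
      show (-((y : ℂ) * I)).im < 0
      simp [hy]
    have h1 := hG.tendsto_at hmem
    have h2 : Tendsto (fun n => phi (zG (s n) G) y) U (𝓝 (phi G' y)) :=
      tendsto_const_nhds.mul ((Complex.continuous_im.tendsto _).comp h1)
    have h3 : Tendsto (fun n => phi (zG (s n) G) y) U (𝓝 m) := by
      refine (hm y hy).congr fun n => ?_
      rw [phi_zG]
    exact tendsto_nhds_unique h2 h3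
  have hr := rigid hCL.gd hCL.gpos hphi
  have he : EqOn q' (cq m) Hm := fun z hz => by rw [← hCL.gq z hz, hr z hz]
  exact ⟨G', L', hCL.congr he, hq.congr_right he, hL⟩

end Pool.Agent.MP_ae5b4e_an_N3
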