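import Pool.Agent.Lib.MP_ae5b4e_an_N3.Ext
import Pool.Agent.Lib.MP_ae5b4e_an_N3.Leaf
import Pool.Agent.Lib.MP_ae5b4e_an_N3.ZLim

/-! # Section N3: exact cones -/

noncomputable section

namespace Pool.Agent.MP_ae5b4e_an_N3

open Complex Set Filter Topology Metric
open PorTR (Hm)

variable {C : ℝ} {q G : ℂ → ℂ} {L : ℂ × ℂ → ℂ}

private theorem ExtB_mono {L : ℂ × ℂ → ℂ} {p : ℂ × ℂ} {ε ε' : ℝ} (h : ExtB L p ε)
    (he : ε' ≤ ε) : ExtB L p ε' := by
  obtain ⟨g, h1, h2, h3⟩ := h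
  have hb : ball p ε' ⊆ ball p ε := ball_subset_ball he
  exact ⟨g, h1.mono hb, h2.mono_left hb, fun r hr => h3 r ⟨hb hr.1, hr.2⟩⟩

/-- `lim phi ≤ 1` at `∞`: `exists_zoom_lim` with `s n = n + 1` and any free ultrafilter
(`Filter.hyperfilter ℕ`), then `mass_le`. -/
theorem phi_le_one (h : CL C q G L) {y : ℝ} (hy : 0 < y) : phi G y ≤ 1 := by
  obtain ⟨m0, m1, -, -, -, h1, hb⟩ := phi_limits h.gd h.gpos h.gbd
  have hs : ∀ n : ℕ, 0 < (n : ℝ) + 1 := fun n => by positivity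
  have hm : ∀ y : ℝ, 0 < y →
      Tendsto (fun n : ℕ => phi G (((n : ℝ) + 1) * y)) (hyperfilter ℕ) (𝓝 m1) := by
    intro y hy
    have h2 : Tendsto (fun n : ℕ => ((n : ℝ) + 1) * y) atTop atTop :=
      (tendsto_atTop_add_const_right _ 1 tendsto_natCast_atTop_atTop).atTop_mul_const hy
    exact (h1.comp h2).mono_left Nat.hyperfilter_le_atTop
  obtain ⟨G', L', hC, -, -⟩ := exists_zoom_lim (hyperfilter ℕ) h hs hm
  exact (hb y hy).2.trans (mass_le hC)

/-- Many nonextendable zooms: the mass at `0` is at least `1`, so the cone is exact.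

Proof. `phi_limits`: `m0 = lim phi` at `0`. Suppose `m0 < 1`, `k := √m0`. For every `n` take
`s n ∈ (0, 1 / (n + 1))` with `¬ ExtB (zL (s n) L) (-I, I) (1 / (n + 1))`. `exists_zoom_lim` along
`U := Filter.hyperfilter ℕ` (an `Ultrafilter ℕ`): the zooms converge to the cone of mass `k ^ 2`;
`ext_of_close`: some `ε > 0` with `ExtB (zL (s n) L) (-I, I) ε` for almost all `n`; take such an `n`
with `1 / (n + 1) ≤ ε` (`ExtB` is monotone in `ε`): contradiction. So `m0 ≥ 1`, and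
`1 ≤ m0 ≤ phi ≤ 1`: `phi = 1` on `(0, ∞)`, `rigid` with `m = 1`, `gq`. -/
theorem exact_of_zooms (h : CL C q G L)
    (hne : ∀ ε : ℝ, 0 < ε → ∃ s : ℝ, 0 < s ∧ s < ε ∧ ¬ ExtB (zL s L) (-I, I) ε) :
    ∀ z ∈ Hm, q z = cq 1 z := by
  obtain ⟨m0, m1, hm0, -, h0, -, hb⟩ := phi_limits h.gd h.gpos h.gbd
  have hpos : ∀ n : ℕ, 0 < 1 / ((n : ℝ) + 1) := fun n => by positivity
  rcases lt_or_ge m0 1 with hlt | hge
  · exfalso
    choose s hs1 hs2 hs3 using fun n : ℕ => hne (1 / ((n : ℝ) + 1)) (hpos n)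
    have hk0 : 0 ≤ Real.sqrt m0 := Real.sqrt_nonneg _
    have hk1 : Real.sqrt m0 < 1 := by
      rw [Real.sqrt_lt' one_pos]
      simpa using hlt
    have hk2 : Real.sqrt m0 ^ 2 = m0 := Real.sq_sqrt hm0
    have hs0 : Tendsto s atTop (𝓝 0) :=
      squeeze_zero (fun n => (hs1 n).le) (fun n => (hs2 n).le)
        tendsto_one_div_add_atTop_nhds_zero_nat
    have hm : ∀ y : ℝ, 0 < y →
        Tendsto (fun n : ℕ => phi G (s n * y)) (hyperfilter ℕ) (𝓝 (Real.sqrt m0 ^ 2)) := by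
      intro y hy
      rw [hk2]
      have h2 : Tendsto (fun n : ℕ => s n * y) atTop (𝓝[>] 0) := by
        refine tendsto_nhdsWithin_of_tendsto_nhds_of_eventually_within _ ?_ ?_
        · simpa using hs0.mul_const y
        · exact .of_forall fun n => mul_pos (hs1 n) hy
      exact (h0.comp h2).mono_left Nat.hyperfilter_le_atTop
    obtain ⟨G', L', hC, hq, hL⟩ := exists_zoom_lim (hyperfilter ℕ) h hs1 hm
    obtain ⟨ε, hε, hev⟩ := ext_of_close hk0 hk1 hC (fun n => h.zoom (hs1 n)) hq hL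
    have hev2 : ∀ᶠ n : ℕ in (hyperfilter ℕ : Filter ℕ), 1 / ((n : ℝ) + 1) < ε :=
      (tendsto_one_div_add_atTop_nhds_zero_nat.eventually (gt_mem_nhds hε)).filter_mono
        Nat.hyperfilter_le_atTop
    obtain ⟨n, hn1, hn2⟩ := (hev.and hev2).exists
    exact hs3 n (ExtB_mono hn1 hn2.le)
  · have hphi : ∀ y : ℝ, 0 < y → phi G y = 1 := fun y hy =>
      le_antisymm (phi_le_one h hy) (hge.trans (hb y hy).1)
    intro z hz
    rw [← h.gq z hz]
    exact rigid h.gd h.gpos hphi z hz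

/-- EXACT CONE. Proof. `leaf` with `γ₁ = s i`, `γ₂ = i` and `extB_zoom`: no zoom extends near
`(- i, i)`; `exact_of_zooms`. -/
theorem exact_of_nonext (h : CL C q G L) (hne : ∀ ε : ℝ, 0 < ε → ¬ ExtB L (-I, I) ε) :
    ∀ z ∈ Hm, q z = cq 1 z := by
  refine exact_of_zooms h fun ε hε => ⟨ε / 2, half_pos hε, half_lt_self hε, fun he => ?_⟩
  have h1 := extB_zoom (half_pos hε) he
  have h2 : 0 < (((ε / 2 : ℝ) : ℂ) * I).im := by
    rw [Complex.im_ofReal_mul, I_im, mul_one]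
    exact half_pos hε
  have h3 : 0 < (I : ℂ).im := by simp
  obtain ⟨ε', hε', h4⟩ := leaf h.an h.maps h2 h3
    ⟨ε / 2 * ε, mul_pos (half_pos hε) hε, h1⟩
  exact hne ε' hε' h4

end Pool.Agent.MP_ae5b4e_an_N3
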