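import Pool.Agent.Lib.SCV.Osgood
import Pool.Agent.Lib.MP_ae5b4e_an_WB.ParamInt

/-! # Section N3: local solutions of `γ² l'' = b (l, γ l')` with a parameter, uniform radius -/

noncomputable section

namespace Pool.Agent.MP_ae5b4e_an_N3

open Complex Set Filter Topology Metric

/-- the primitive in the first variable -/
private def Flow_J (τ0 : ℂ) (F : ℂ × ℂ → ℂ) (p : ℂ × ℂ) : ℂ :=
  (p.1 - τ0) * ∫ t in (0:ℝ)..1, F (τ0 + (t : ℂ) * (p.1 - τ0), p.2)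

private theorem Flow_mv {τ0 : ℂ} {r c : ℝ} {g f : ℂ → ℂ}
    (hg : ∀ τ ∈ ball τ0 r, HasDerivAt g (f τ) τ) (hf : ∀ τ ∈ ball τ0 r, ‖f τ‖ ≤ c) {σ τ : ℂ}
    (hσ : σ ∈ ball τ0 r) (hτ : τ ∈ ball τ0 r) : ‖g τ - g σ‖ ≤ c * ‖τ - σ‖ :=
  Convex.norm_image_sub_le_of_norm_hasDerivWithin_le
    (fun x hx => (hg x hx).hasDerivWithinAt) hf (convex_ball τ0 r) hσ hτ

private theorem Flow_bd {τ0 : ℂ} {r c : ℝ} {g f : ℂ → ℂ} (hc : 0 ≤ c)
    (hg : ∀ τ ∈ ball τ0 r, HasDerivAt g (f τ) τ) (hf : ∀ τ ∈ ball τ0 r, ‖f τ‖ ≤ c) {τ : ℂ}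
    (hτ : τ ∈ ball τ0 r) : ‖g τ - g τ0‖ ≤ r * c := by
  have hr : 0 < r := pos_of_mem_ball hτ
  have h1 := Flow_mv hg hf (mem_ball_self hr) hτ
  have h2 : ‖τ - τ0‖ ≤ r := by
    rw [← dist_eq_norm]
    exact (mem_ball.1 hτ).le
  calc ‖g τ - g τ0‖ ≤ c * ‖τ - τ0‖ := h1
    _ ≤ c * r := mul_le_mul_of_nonneg_left h2 hc
    _ = r * c := mul_comm _ _

private theorem Flow_seg {τ0 τ : ℂ} {r : ℝ} (hτ : τ ∈ ball τ0 r) {t : ℝ}
    (ht : t ∈ Icc (0:ℝ) 1) : τ0 + (t : ℂ) * (τ - τ0) ∈ ball τ0 r := by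
  rw [mem_ball, dist_self_add_left, norm_mul, Complex.norm_real, Real.norm_eq_abs,
    abs_of_nonneg ht.1, ← dist_eq_norm]
  exact lt_of_le_of_lt (mul_le_of_le_one_left dist_nonneg ht.2) (mem_ball.1 hτ)

private theorem Flow_prim {τ0 : ℂ} {r : ℝ} {h : ℂ → ℂ} (hd : DifferentiableOn ℂ h (ball τ0 r))
    {τ : ℂ} (hτ : τ ∈ ball τ0 r) :
    HasDerivAt (fun s => (s - τ0) * ∫ t in (0:ℝ)..1, h (τ0 + (t : ℂ) * (s - τ0))) (h τ) τ := by
  obtain ⟨g, hg⟩ := hd.isExactOn_ball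
  have h1 : ∀ s ∈ ball τ0 r,
      (s - τ0) * ∫ t in (0:ℝ)..1, h (τ0 + (t : ℂ) * (s - τ0)) = g s - g τ0 := by
    intro s hs
    have h2 : ∀ t ∈ uIcc (0:ℝ) 1, HasDerivAt (fun t : ℝ => g (τ0 + (t : ℂ) * (s - τ0)))
        (h (τ0 + (t : ℂ) * (s - τ0)) * (s - τ0)) t := by
      intro t ht
      rw [uIcc_of_le zero_le_one] at ht
      have h3 : HasDerivAt (fun t : ℝ => τ0 + (t : ℂ) * (s - τ0)) (s - τ0) t := by
        have h4 := (((hasDerivAt_id t).ofReal_comp).mul_const (s - τ0)).const_add τ0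
        rw [Complex.ofReal_one, one_mul] at h4
        exact h4
      exact HasDerivAt.comp t (hg _ (Flow_seg hs ht)) h3
    have h5 : ContinuousOn (fun t : ℝ => h (τ0 + (t : ℂ) * (s - τ0)) * (s - τ0))
        (uIcc (0:ℝ) 1) := by
      refine ContinuousOn.mul ?_ continuousOn_const
      refine hd.continuousOn.comp (by fun_prop) fun t ht => ?_
      rw [uIcc_of_le zero_le_one] at ht
      exact Flow_seg hs ht
    have h6 := intervalIntegral.integral_eq_sub_of_hasDerivAt h2 h5.intervalIntegrable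
    rw [intervalIntegral.integral_mul_const, Complex.ofReal_one, Complex.ofReal_zero, one_mul,
      zero_mul, add_zero, add_sub_cancel] at h6
    rw [mul_comm]
    exact h6
  have h7 : HasDerivAt (fun s => g s - g τ0) (h τ) τ := (hg τ hτ).sub_const _
  refine h7.congr_of_eventuallyEq ?_
  filter_upwards [isOpen_ball.mem_nhds hτ] with s hs
  exact h1 s hs

section
variable {τ0 γ1 : ℂ} {r ρ c : ℝ} {F : ℂ × ℂ → ℂ}

private theorem Flow_J_zero (γ : ℂ) : Flow_J τ0 F (τ0, γ) = 0 := by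
  unfold Flow_J
  rw [sub_self, zero_mul]

private theorem Flow_fst (hF : AnalyticOnNhd ℂ F (ball τ0 r ×ˢ ball γ1 ρ)) {γ : ℂ}
    (hγ : γ ∈ ball γ1 ρ) : DifferentiableOn ℂ (fun s => F (s, γ)) (ball τ0 r) := by
  intro s hs
  have h1 := (hF (s, γ) ⟨hs, hγ⟩).differentiableAt
  exact (DifferentiableAt.comp s (g := F) (f := fun s : ℂ => (s, γ)) h1
    (by fun_prop)).differentiableWithinAt

private theorem Flow_snd (hF : AnalyticOnNhd ℂ F (ball τ0 r ×ˢ ball γ1 ρ)) {τ : ℂ}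
    (hτ : τ ∈ ball τ0 r) : DifferentiableOn ℂ (fun s => F (τ, s)) (ball γ1 ρ) := by
  intro s hs
  have h1 := (hF (τ, s) ⟨hτ, hs⟩).differentiableAt
  exact (DifferentiableAt.comp s (g := F) (f := fun s : ℂ => (τ, s)) h1
    (by fun_prop)).differentiableWithinAt

private theorem Flow_J_deriv (hF : AnalyticOnNhd ℂ F (ball τ0 r ×ˢ ball γ1 ρ)) {γ τ : ℂ}
    (hγ : γ ∈ ball γ1 ρ) (hτ : τ ∈ ball τ0 r) :
    HasDerivAt (fun s => Flow_J τ0 F (s, γ)) (F (τ, γ)) τ :=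
  Flow_prim (Flow_fst hF hγ) hτ

private theorem Flow_J_an (hF : AnalyticOnNhd ℂ F (ball τ0 r ×ˢ ball γ1 ρ))
    (hc : ∀ p ∈ ball τ0 r ×ˢ ball γ1 ρ, ‖F p‖ ≤ c) :
    AnalyticOnNhd ℂ (Flow_J τ0 F) (ball τ0 r ×ˢ ball γ1 ρ) := by
  have hD : IsOpen (ball τ0 r ×ˢ ball γ1 ρ) := isOpen_ball.prod isOpen_ball
  have h2 : ∀ p ∈ ball τ0 r ×ˢ ball γ1 ρ,
      DifferentiableAt ℂ (fun w => Flow_J τ0 F (p.1, w)) p.2 := by
    intro p hp
    have h3 := MP_ae5b4e_an_WB.differentiableOn_paramInt (U := ball γ1 ρ) isOpen_ball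
      (zero_le_one (α := ℝ)) (f := fun w t => F (τ0 + (t : ℂ) * (p.1 - τ0), w))
      (fun t ht => Flow_snd hF (Flow_seg hp.1 (Ioo_subset_Icc_self ht)))
      (fun w hw => by
        refine hF.continuousOn.comp (by fun_prop) fun t ht => ?_
        exact ⟨Flow_seg hp.1 (Ioo_subset_Icc_self ht), hw⟩)
      (fun w hw => ⟨c, by
        filter_upwards [isOpen_ball.mem_nhds hw] with z hz t ht
        exact hc _ ⟨Flow_seg hp.1 (Ioo_subset_Icc_self ht), hz⟩⟩)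
    have h5 := (h3.differentiableAt (isOpen_ball.mem_nhds hp.2)).const_mul (p.1 - τ0)
    exact h5
  refine SCV.osgood _ hD _ ?_ (fun p hp => (Flow_J_deriv hF hp.2 hp.1).differentiableAt) h2
  intro p hp
  refine ContinuousAt.continuousWithinAt ?_
  rw [ContinuousAt, tendsto_iff_norm_sub_tendsto_zero]
  have h4 : Tendsto (fun q : ℂ × ℂ => c * ‖q.1 - p.1‖ +
      ‖Flow_J τ0 F (p.1, q.2) - Flow_J τ0 F (p.1, p.2)‖) (𝓝 p) (𝓝 0) := by
    have h5 : Tendsto (fun q : ℂ × ℂ => c * ‖q.1 - p.1‖) (𝓝 p) (𝓝 (c * ‖p.1 - p.1‖)) :=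
      (by fun_prop : Continuous fun q : ℂ × ℂ => c * ‖q.1 - p.1‖).tendsto p
    have h6 : Tendsto (fun q : ℂ × ℂ => Flow_J τ0 F (p.1, q.2)) (𝓝 p)
        (𝓝 (Flow_J τ0 F (p.1, p.2))) :=
      (h2 p hp).continuousAt.tendsto.comp continuous_snd.continuousAt.tendsto
    have h7 := h5.add (tendsto_iff_norm_sub_tendsto_zero.1 h6)
    rw [sub_self, norm_zero, mul_zero, add_zero] at h7
    exact h7
  refine squeeze_zero' (Eventually.of_forall fun _ => norm_nonneg _) ?_ h4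
  filter_upwards [hD.mem_nhds hp] with q hq
  have h8 : ‖Flow_J τ0 F (q.1, q.2) - Flow_J τ0 F (p.1, q.2)‖ ≤ c * ‖q.1 - p.1‖ :=
    Flow_mv (g := fun s => Flow_J τ0 F (s, q.2)) (f := fun s => F (s, q.2))
      (fun τ hτ => Flow_J_deriv hF hq.2 hτ) (fun τ hτ => hc _ ⟨hτ, hq.2⟩) hp.1 hq.1
  have h9 : Flow_J τ0 F q - Flow_J τ0 F p =
      (Flow_J τ0 F (q.1, q.2) - Flow_J τ0 F (p.1, q.2)) +
        (Flow_J τ0 F (p.1, q.2) - Flow_J τ0 F (p.1, p.2)) := by ring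
  rw [h9]
  exact (norm_add_le _ _).trans (add_le_add h8 le_rfl)

end

private theorem Flow_lip {b : ℂ × ℂ → ℂ} {Ω : Set (ℂ × ℂ)} {B R : ℝ} (hR : 0 < R)
    (hb : AnalyticOnNhd ℂ b Ω) (hB : ∀ p ∈ Ω, ‖b p‖ ≤ B) (hB0 : 0 ≤ B) {X0 X X' : ℂ × ℂ}
    (hΩ : ball X0 (2 * R) ⊆ Ω) (hX : X ∈ ball X0 R) (hX' : X' ∈ ball X0 R) :
    ‖b X' - b X‖ ≤ 2 * B / R * ‖X' - X‖ := by
  have hsub : ∀ Y ∈ ball X0 R, ball Y R ⊆ Ω := by
    intro Y hY Z hZ
    refine hΩ ?_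
    rw [mem_ball] at hY hZ ⊢
    have := dist_triangle Z Y X0
    linarith
  have hXΩ : X ∈ Ω := hsub X hX (mem_ball_self hR)
  have hXΩ' : X' ∈ Ω := hsub X' hX' (mem_ball_self hR)
  have h2 : ∀ Z ∈ Ω, dist (b Z) (b X) ≤ 2 * B := by
    intro Z hZ
    rw [dist_eq_norm]
    have h3 := norm_sub_le (b Z) (b X)
    have h4 := hB Z hZ
    have h5 := hB X hXΩ
    linarith
  rw [← dist_eq_norm, ← dist_eq_norm]
  by_cases h : X' ∈ ball X R
  · exact Complex.dist_le_div_mul_dist_of_mapsTo_ball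
      (fun Z hZ => (hb Z (hsub X hX hZ)).differentiableAt.differentiableWithinAt)
      (fun Z hZ => mem_closedBall.2 (h2 Z (hsub X hX hZ))) h
  · rw [mem_ball, not_lt] at h
    refine (h2 X' hXΩ').trans ?_
    rw [div_mul_eq_mul_div, le_div_iff₀ hR]
    exact mul_le_mul_of_nonneg_left h (by positivity)

private theorem Flow_unif {X : Type*} {f : ℕ → X → ℂ} {g : X → ℂ} {S : Set X} {C : ℝ}
    (h : ∀ j, ∀ x ∈ S, dist (f j x) (g x) ≤ C * (1 / 2) ^ j) :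
    TendstoUniformlyOn f g atTop S := by
  rw [Metric.tendstoUniformlyOn_iff]
  intro ε hε
  have h1 : Tendsto (fun j : ℕ => C * (1 / 2 : ℝ) ^ j) atTop (𝓝 (C * 0)) :=
    (tendsto_pow_atTop_nhds_zero_of_lt_one (by norm_num) (by norm_num)).const_mul C
  rw [mul_zero] at h1
  filter_upwards [h1.eventually (gt_mem_nhds hε)] with j hj x hx
  rw [dist_comm]
  exact lt_of_le_of_lt (h j x hx) hj

/-- the iterates -/
private def Flow_X (τ0 : ℂ) (b : ℂ × ℂ → ℂ) (l0 a0 : ℂ → ℂ) :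
    ℕ → (ℂ × ℂ → ℂ) × (ℂ × ℂ → ℂ)
  | 0 => (fun p => l0 p.2, fun p => a0 p.2)
  | j + 1 => (fun p => l0 p.2 + Flow_J τ0 (fun q => (Flow_X τ0 b l0 a0 j).2 q / q.2) p,
      fun p => a0 p.2 + Flow_J τ0 (fun q => b ((Flow_X τ0 b l0 a0 j).1 q,
        (Flow_X τ0 b l0 a0 j).2 q) / q.2) p)

private theorem Flow_core {R B M r : ℝ} (hR : 0 < R) (hB0 : 0 ≤ B) (hM0 : 0 ≤ M)
    (hr1 : r * (2 * (M + R)) ≤ R / 2) (hr2 : r * (2 * B) ≤ R / 2) (hr3 : r * 2 ≤ 1 / 2)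
    (hr4 : r * (2 * (2 * B / R)) ≤ 1 / 2) (hr : 0 < r)
    {b : ℂ × ℂ → ℂ} {Ω : Set (ℂ × ℂ)} (hb : AnalyticOnNhd ℂ b Ω)
    (hB : ∀ p ∈ Ω, ‖b p‖ ≤ B) {τ0 γ1 : ℂ} {ρ : ℝ} {l0 a0 : ℂ → ℂ}
    (hl0 : DifferentiableOn ℂ l0 (ball γ1 ρ)) (ha0 : DifferentiableOn ℂ a0 (ball γ1 ρ))
    (h0 : ∀ γ ∈ ball γ1 ρ, 1 / 2 ≤ ‖γ‖ ∧ ‖a0 γ‖ ≤ M ∧ ball (l0 γ, a0 γ) (2 * R) ⊆ Ω) :
    ∃ l a : ℂ × ℂ → ℂ, AnalyticOnNhd ℂ l (ball τ0 r ×ˢ ball γ1 ρ) ∧
      AnalyticOnNhd ℂ a (ball τ0 r ×ˢ ball γ1 ρ) ∧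
      (∀ γ ∈ ball γ1 ρ, l (τ0, γ) = l0 γ ∧ a (τ0, γ) = a0 γ) ∧
      ∀ γ ∈ ball γ1 ρ, ∀ τ ∈ ball τ0 r, (l (τ, γ), a (τ, γ)) ∈ ball (l0 γ, a0 γ) R ∧
        deriv (fun s => l (s, γ)) τ = a (τ, γ) / γ ∧
        deriv (fun s => a (s, γ)) τ = b (l (τ, γ), a (τ, γ)) / γ := by
  have hD : IsOpen (ball τ0 r ×ˢ ball γ1 ρ) := isOpen_ball.prod isOpen_ball
  set D : Set (ℂ × ℂ) := ball τ0 r ×ˢ ball γ1 ρ with hDdef
  have hγ0 : ∀ γ ∈ ball γ1 ρ, γ ≠ 0 := by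
    intro γ hγ h
    have h1 := (h0 γ hγ).1
    rw [h, norm_zero] at h1
    norm_num at h1
  have hdiv : ∀ γ ∈ ball γ1 ρ, ∀ (z : ℂ) (C : ℝ), ‖z‖ ≤ C → ‖z / γ‖ ≤ 2 * C := by
    intro γ hγ z C hz
    have h1 := (h0 γ hγ).1
    have h2 : 0 < ‖γ‖ := norm_pos_iff.2 (hγ0 γ hγ)
    rw [norm_div, div_le_iff₀ h2]
    have hC : 0 ≤ C := (norm_nonneg _).trans hz
    nlinarith
  have hl0' : AnalyticOnNhd ℂ (fun p : ℂ × ℂ => l0 p.2) D := fun p hp =>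
    AnalyticAt.fun_comp (f := fun p : ℂ × ℂ => p.2) (hl0.analyticOnNhd isOpen_ball p.2 hp.2)
      analyticAt_snd
  have ha0' : AnalyticOnNhd ℂ (fun p : ℂ × ℂ => a0 p.2) D := fun p hp =>
    AnalyticAt.fun_comp (f := fun p : ℂ × ℂ => p.2) (ha0.analyticOnNhd isOpen_ball p.2 hp.2)
      analyticAt_snd
  -- the ball
  have hin : ∀ p ∈ D, ∀ x y : ℂ, ‖x - l0 p.2‖ ≤ R / 2 → ‖y - a0 p.2‖ ≤ R / 2 →
      (x, y) ∈ ball (l0 p.2, a0 p.2) R := by
    intro p _ x y hx hy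
    rw [mem_ball, Prod.dist_eq, max_lt_iff, dist_eq_norm, dist_eq_norm]
    simp only
    constructor <;> linarith
  have hΩR : ∀ p ∈ D, ball (l0 p.2, a0 p.2) R ⊆ Ω := fun p hp =>
    (ball_subset_ball (by linarith)).trans (h0 p.2 hp.2).2.2
  let L : ℕ → ℂ × ℂ → ℂ := fun j => (Flow_X τ0 b l0 a0 j).1
  let A : ℕ → ℂ × ℂ → ℂ := fun j => (Flow_X τ0 b l0 a0 j).2
  let F : ℕ → ℂ × ℂ → ℂ := fun j q => A j q / q.2
  let G : ℕ → ℂ × ℂ → ℂ := fun j q => b (L j q, A j q) / q.2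
  have hL0 : ∀ p, L 0 p = l0 p.2 := fun p => rfl
  have hA0 : ∀ p, A 0 p = a0 p.2 := fun p => rfl
  have hLs : ∀ j p, L (j + 1) p = l0 p.2 + Flow_J τ0 (F j) p := fun j p => rfl
  have hAs : ∀ j p, A (j + 1) p = a0 p.2 + Flow_J τ0 (G j) p := fun j p => rfl
  -- consequences of the invariant
  have hcons : ∀ j, AnalyticOnNhd ℂ (L j) D → AnalyticOnNhd ℂ (A j) D →
      (∀ p ∈ D, ‖L j p - l0 p.2‖ ≤ R / 2 ∧ ‖A j p - a0 p.2‖ ≤ R / 2) →
      AnalyticOnNhd ℂ (F j) D ∧ AnalyticOnNhd ℂ (G j) D ∧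
        (∀ p ∈ D, ‖F j p‖ ≤ 2 * (M + R)) ∧ ∀ p ∈ D, ‖G j p‖ ≤ 2 * B := by
    intro j h1 h2 h3
    refine ⟨fun p hp => ?_, fun p hp => ?_, fun p hp => ?_, fun p hp => ?_⟩
    · exact (h2 p hp).div analyticAt_snd (hγ0 p.2 hp.2)
    · refine AnalyticAt.div ?_ analyticAt_snd (hγ0 p.2 hp.2)
      exact AnalyticAt.fun_comp (f := fun q => (L j q, A j q))
        (hb _ (hΩR p hp (hin p hp _ _ (h3 p hp).1 (h3 p hp).2))) ((h1 p hp).prod (h2 p hp))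
    · refine hdiv p.2 hp.2 _ _ ?_
      have h4 := norm_sub_norm_le (A j p) (a0 p.2)
      have h5 := (h3 p hp).2
      have h6 := (h0 p.2 hp.2).2.1
      linarith
    · exact hdiv p.2 hp.2 _ _ (hB _ (hΩR p hp (hin p hp _ _ (h3 p hp).1 (h3 p hp).2)))
  have hJb : ∀ (H : ℂ × ℂ → ℂ) (C : ℝ), 0 ≤ C → AnalyticOnNhd ℂ H D → (∀ p ∈ D, ‖H p‖ ≤ C) →
      ∀ p ∈ D, ‖Flow_J τ0 H p‖ ≤ r * C := by
    intro H C hC hH hHC p hp
    have h1 := Flow_bd (g := fun s => Flow_J τ0 H (s, p.2)) (f := fun s => H (s, p.2)) hC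
      (fun τ hτ => Flow_J_deriv hH hp.2 hτ) (fun τ hτ => hHC _ ⟨hτ, hp.2⟩) hp.1
    simp only [Flow_J_zero, sub_zero] at h1
    exact h1
  have hinv : ∀ j, AnalyticOnNhd ℂ (L j) D ∧ AnalyticOnNhd ℂ (A j) D ∧
      ∀ p ∈ D, ‖L j p - l0 p.2‖ ≤ R / 2 ∧ ‖A j p - a0 p.2‖ ≤ R / 2 := by
    intro j
    induction j with
    | zero =>
      refine ⟨hl0', ha0', fun p _ => ?_⟩
      rw [hL0, hA0, sub_self, sub_self, norm_zero]
      constructor <;> linarith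
    | succ j ih =>
      obtain ⟨h1, h2, h3⟩ := ih
      obtain ⟨k1, k2, k3, k4⟩ := hcons j h1 h2 h3
      refine ⟨?_, ?_, fun p hp => ⟨?_, ?_⟩⟩
      · exact hl0'.add (Flow_J_an k1 k3)
      · exact ha0'.add (Flow_J_an k2 k4)
      · rw [hLs, add_sub_cancel_left]
        exact (hJb _ _ (by positivity) k1 k3 p hp).trans hr1
      · rw [hAs, add_sub_cancel_left]
        exact (hJb _ _ (by positivity) k2 k4 p hp).trans hr2
  have hFG : ∀ j, AnalyticOnNhd ℂ (F j) D ∧ AnalyticOnNhd ℂ (G j) D ∧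
        (∀ p ∈ D, ‖F j p‖ ≤ 2 * (M + R)) ∧ ∀ p ∈ D, ‖G j p‖ ≤ 2 * B := fun j =>
    hcons j (hinv j).1 (hinv j).2.1 (hinv j).2.2
  have hball : ∀ j, ∀ p ∈ D, (L j p, A j p) ∈ ball (l0 p.2, a0 p.2) R := fun j p hp =>
    hin p hp _ _ ((hinv j).2.2 p hp).1 ((hinv j).2.2 p hp).2
  -- differences
  have hJd : ∀ (H H' : ℂ × ℂ → ℂ) (C : ℝ), 0 ≤ C → AnalyticOnNhd ℂ H D →
      AnalyticOnNhd ℂ H' D → (∀ p ∈ D, ‖H p - H' p‖ ≤ C) →
      ∀ p ∈ D, ‖Flow_J τ0 H p - Flow_J τ0 H' p‖ ≤ r * C := by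
    intro H H' C hC hH hH' hHC p hp
    have h1 := Flow_bd (g := fun s => Flow_J τ0 H (s, p.2) - Flow_J τ0 H' (s, p.2))
      (f := fun s => H (s, p.2) - H' (s, p.2)) hC
      (fun τ hτ => (Flow_J_deriv hH hp.2 hτ).sub (Flow_J_deriv hH' hp.2 hτ))
      (fun τ hτ => hHC _ ⟨hτ, hp.2⟩) hp.1
    simp only [Flow_J_zero, sub_zero] at h1
    exact h1
  have hdiff : ∀ j, ∀ p ∈ D, ‖L (j + 1) p - L j p‖ ≤ R * (1 / 2) ^ j ∧
      ‖A (j + 1) p - A j p‖ ≤ R * (1 / 2) ^ j := by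
    intro j
    induction j with
    | zero =>
      intro p hp
      obtain ⟨k1, k2, k3, k4⟩ := hFG 0
      rw [hLs, hAs, hL0, hA0, add_sub_cancel_left, add_sub_cancel_left, pow_zero, mul_one]
      have h1 := hJb _ _ (by positivity) k1 k3 p hp
      have h2 := hJb _ _ (by positivity) k2 k4 p hp
      constructor <;> linarith
    | succ j ih =>
      intro p hp
      have hC : 0 ≤ R * (1 / 2) ^ j := by positivity
      have h1 := hJd (F (j + 1)) (F j) (2 * (R * (1 / 2) ^ j)) (by positivity) (hFG (j + 1)).1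
        (hFG j).1 (fun q hq => by
          have h2 : F (j + 1) q - F j q = (A (j + 1) q - A j q) / q.2 := by
            simp only [F]
            ring
          rw [h2]
          exact hdiv q.2 hq.2 _ _ (ih q hq).2) p hp
      have h3 := hJd (G (j + 1)) (G j) (2 * (2 * B / R * (R * (1 / 2) ^ j))) (by positivity)
        (hFG (j + 1)).2.1 (hFG j).2.1 (fun q hq => by
          have h2 : G (j + 1) q - G j q =
              (b (L (j + 1) q, A (j + 1) q) - b (L j q, A j q)) / q.2 := by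
            simp only [G]
            ring
          rw [h2]
          refine hdiv q.2 hq.2 _ _ ?_
          refine (Flow_lip hR hb hB hB0 (h0 q.2 hq.2).2.2 (hball j q hq)
            (hball (j + 1) q hq)).trans ?_
          refine mul_le_mul_of_nonneg_left ?_ (by positivity)
          rw [Prod.mk_sub_mk, Prod.norm_mk]
          exact max_le (ih q hq).1 (ih q hq).2) p hp
      constructor
      · have h4 : L (j + 1 + 1) p - L (j + 1) p = Flow_J τ0 (F (j + 1)) p - Flow_J τ0 (F j) p := by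
          rw [hLs, hLs]
          ring
        rw [h4]
        refine h1.trans ?_
        calc r * (2 * (R * (1 / 2) ^ j)) = (r * 2) * (R * (1 / 2) ^ j) := by ring
          _ ≤ 1 / 2 * (R * (1 / 2) ^ j) := mul_le_mul_of_nonneg_right hr3 hC
          _ = R * (1 / 2) ^ (j + 1) := by ring
      · have h4 : A (j + 1 + 1) p - A (j + 1) p = Flow_J τ0 (G (j + 1)) p - Flow_J τ0 (G j) p := by
          rw [hAs, hAs]
          ring
        rw [h4]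
        refine h3.trans ?_
        calc r * (2 * (2 * B / R * (R * (1 / 2) ^ j)))
            = (r * (2 * (2 * B / R))) * (R * (1 / 2) ^ j) := by ring
          _ ≤ 1 / 2 * (R * (1 / 2) ^ j) := mul_le_mul_of_nonneg_right hr4 hC
          _ = R * (1 / 2) ^ (j + 1) := by ring
  -- limits
  have hLd : ∀ p ∈ D, ∀ j, dist (L j p) (L (j + 1) p) ≤ R * (1 / 2) ^ j := fun p hp j => by
    rw [dist_comm, dist_eq_norm]
    exact (hdiff j p hp).1
  have hAd : ∀ p ∈ D, ∀ j, dist (A j p) (A (j + 1) p) ≤ R * (1 / 2) ^ j := fun p hp j => by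
    rw [dist_comm, dist_eq_norm]
    exact (hdiff j p hp).2
  let l : ℂ × ℂ → ℂ := fun p => limUnder atTop fun j => L j p
  let a : ℂ × ℂ → ℂ := fun p => limUnder atTop fun j => A j p
  have hlt : ∀ p ∈ D, Tendsto (fun j => L j p) atTop (𝓝 (l p)) := fun p hp =>
    CauchySeq.tendsto_limUnder (cauchySeq_of_le_geometric (1 / 2) R (by norm_num) (hLd p hp))
  have hat : ∀ p ∈ D, Tendsto (fun j => A j p) atTop (𝓝 (a p)) := fun p hp =>
    CauchySeq.tendsto_limUnder (cauchySeq_of_le_geometric (1 / 2) R (by norm_num) (hAd p hp))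
  have hlb : ∀ j, ∀ p ∈ D, dist (L j p) (l p) ≤ 2 * R * (1 / 2) ^ j := by
    intro j p hp
    have h1 := dist_le_of_le_geometric_of_tendsto (1 / 2) R (by norm_num) (hLd p hp) (hlt p hp) j
    refine h1.trans (le_of_eq ?_)
    ring
  have hab : ∀ j, ∀ p ∈ D, dist (A j p) (a p) ≤ 2 * R * (1 / 2) ^ j := by
    intro j p hp
    have h1 := dist_le_of_le_geometric_of_tendsto (1 / 2) R (by norm_num) (hAd p hp) (hat p hp) j
    refine h1.trans (le_of_eq ?_)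
    ring
  have hlin : ∀ p ∈ D, ‖l p - l0 p.2‖ ≤ R / 2 := fun p hp =>
    le_of_tendsto ((hlt p hp).sub_const (l0 p.2)).norm
      (Eventually.of_forall fun j => ((hinv j).2.2 p hp).1)
  have hain : ∀ p ∈ D, ‖a p - a0 p.2‖ ≤ R / 2 := fun p hp =>
    le_of_tendsto ((hat p hp).sub_const (a0 p.2)).norm
      (Eventually.of_forall fun j => ((hinv j).2.2 p hp).2)
  refine ⟨l, a, ?_, ?_, ?_, ?_⟩
  · exact SCV.analyticOnNhd_of_tendstoLocallyUniformlyOn D hD L l (fun j => (hinv j).1)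
      (Flow_unif hlb).tendstoLocallyUniformlyOn
  · exact SCV.analyticOnNhd_of_tendstoLocallyUniformlyOn D hD A a (fun j => (hinv j).2.1)
      (Flow_unif hab).tendstoLocallyUniformlyOn
  · intro γ hγ
    have hp : (τ0, γ) ∈ D := ⟨mem_ball_self hr, hγ⟩
    constructor
    · refine tendsto_nhds_unique (hlt _ hp) ?_
      refine tendsto_const_nhds.congr fun j => ?_
      cases j with
      | zero => rfl
      | succ j => rw [hLs, Flow_J_zero, add_zero]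
    · refine tendsto_nhds_unique (hat _ hp) ?_
      refine tendsto_const_nhds.congr fun j => ?_
      cases j with
      | zero => rfl
      | succ j => rw [hAs, Flow_J_zero, add_zero]
  · intro γ hγ τ hτ
    have hp : (τ, γ) ∈ D := ⟨hτ, hγ⟩
    have hmem := hin _ hp _ _ (hlin _ hp) (hain _ hp)
    refine ⟨hmem, ?_, ?_⟩
    · have h1 : TendstoUniformlyOn (fun j s => L j (s, γ)) (fun s => l (s, γ)) atTop
          (ball τ0 r) := Flow_unif (C := 2 * R) fun j s hs => hlb j (s, γ) ⟨hs, hγ⟩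
      have h2 := (h1.tendstoLocallyUniformlyOn.deriv (Eventually.of_forall fun j =>
        Flow_fst (hinv j).1 hγ) isOpen_ball).tendsto_at hτ
      have h3 : Tendsto (fun j => deriv (fun s => L (j + 1) (s, γ)) τ) atTop
          (𝓝 (deriv (fun s => l (s, γ)) τ)) := h2.comp (tendsto_add_atTop_nat 1)
      refine tendsto_nhds_unique h3 ?_
      have h4 : ∀ j, A j (τ, γ) / γ = deriv (fun s => L (j + 1) (s, γ)) τ := by
        intro j
        have h5 := (Flow_J_deriv (hFG j).1 hγ hτ).const_add (l0 γ)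
        exact h5.deriv.symm
      exact ((hat _ hp).div_const γ).congr h4
    · have h1 : TendstoUniformlyOn (fun j s => A j (s, γ)) (fun s => a (s, γ)) atTop
          (ball τ0 r) := Flow_unif (C := 2 * R) fun j s hs => hab j (s, γ) ⟨hs, hγ⟩
      have h2 := (h1.tendstoLocallyUniformlyOn.deriv (Eventually.of_forall fun j =>
        Flow_fst (hinv j).2.1 hγ) isOpen_ball).tendsto_at hτ
      have h3 : Tendsto (fun j => deriv (fun s => A (j + 1) (s, γ)) τ) atTop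
          (𝓝 (deriv (fun s => a (s, γ)) τ)) := h2.comp (tendsto_add_atTop_nat 1)
      refine tendsto_nhds_unique h3 ?_
      have h4 : ∀ j, b (L j (τ, γ), A j (τ, γ)) / γ = deriv (fun s => A (j + 1) (s, γ)) τ := by
        intro j
        have h5 := (Flow_J_deriv (hFG j).2.1 hγ hτ).const_add (a0 γ)
        exact h5.deriv.symm
      have h6 : ContinuousAt b (l (τ, γ), a (τ, γ)) := (hb _ (hΩR _ hp hmem)).continuousAt
      have h7 : Tendsto (fun j => b (L j (τ, γ), A j (τ, γ))) atTop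
          (𝓝 (b (l (τ, γ), a (τ, γ)))) :=
        h6.tendsto.comp ((hlt _ hp).prodMk_nhds (hat _ hp))
      exact (h7.div_const γ).congr h4

/-- PICARD'S THEOREM with a holomorphic parameter and a uniform radius. `l' = a / γ`,
`a' = b (l, a) / γ`, initial values `l0 γ`, `a0 γ` at `τ0`.

Proof. We may assume `B, M ≥ 0`. Norm: maximum norm on `ℂ × ℂ`.
(1) Lipschitz: for `γ ∈ ball γ1 ρ`, `X0 := (l0 γ, a0 γ)`, `b` is `(2 B / R)`-Lipschitz on `ball X0 R`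
(for `X, X'` there consider `ζ ↦ b (X + ζ (X' - X))`, or the Cauchy estimate
`‖fderiv b‖ ≤ 2 B / R` from lines, on the convex ball `ball X0 R`; the balls of radius `R` about its
points lie in `ball X0 (2 R) ⊆ Ω`).
(2) `r := 1 / (8 (1 + 2 B / R) ) ⊓ R / (8 (B + M + R + 1))`. Iterates `X_0 := (l0 γ, a0 γ)`,
`X_{j+1} (τ, γ) := X_0 (γ) + (τ - τ0) ∫_0^1 W (X_j (τ0 + t (τ - τ0), γ)) dt`, `W (l, a) := (a, b (l, a)) / γ`,
`|1 / γ| ≤ 2`. Inductively `‖X_j - X_0‖ < R` on `ball τ0 r × ball γ1 ρ` (`‖W‖ ≤ 2 max (M + R) B`), `X_j`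
is continuous and separately holomorphic (parameter integrals over `[0, 1]`;
`hasDerivAt_integral_of_dominated_loc_of_deriv_le`, or Riemann sums), hence analytic (`osgood`); and
`‖X_{j+1} - X_j‖ ≤ 2^(-j) R` (Lipschitz constant of `W` is `≤ 2 (1 + 2 B / R)`). So `X_j → X = (l, a)`
uniformly, `X` analytic (`analyticOnNhd_of_tendstoLocallyUniformlyOn`), `‖X - X_0‖ ≤ R`.
(3) `X (τ, γ) = X_0 + (τ - τ0) ∫_0^1 W (X (τ0 + t (τ - τ0), γ)) dt`. For fixed `γ` the function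
`σ ↦ W (X (σ, γ))` is holomorphic on the disc and has a primitive there; the right side is
`X_0 + ` its primitive; so `∂τ X = W (X)`: `γ ∂τ l = a`, `γ ∂τ a = b (l, a)`. -/
theorem exists_flow (R B M : ℝ) (hR : 0 < R) :
    ∃ r > 0, ∀ (b : ℂ × ℂ → ℂ) (Ω : Set (ℂ × ℂ)), IsOpen Ω → AnalyticOnNhd ℂ b Ω →
      (∀ p ∈ Ω, ‖b p‖ ≤ B) → ∀ (τ0 γ1 : ℂ) (ρ : ℝ) (l0 a0 : ℂ → ℂ),
      DifferentiableOn ℂ l0 (ball γ1 ρ) → DifferentiableOn ℂ a0 (ball γ1 ρ) →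
      (∀ γ ∈ ball γ1 ρ, 1 / 2 ≤ ‖γ‖ ∧ ‖a0 γ‖ ≤ M ∧ ball (l0 γ, a0 γ) (2 * R) ⊆ Ω) →
      ∃ l : ℂ × ℂ → ℂ, AnalyticOnNhd ℂ l (ball τ0 r ×ˢ ball γ1 ρ) ∧
        (∀ γ ∈ ball γ1 ρ, l (τ0, γ) = l0 γ ∧ γ * deriv (fun s => l (s, γ)) τ0 = a0 γ) ∧
        ∀ γ ∈ ball γ1 ρ, ∀ τ ∈ ball τ0 r,
          (l (τ, γ), γ * deriv (fun s => l (s, γ)) τ) ∈ ball (l0 γ, a0 γ) (2 * R) ∧
          γ ^ 2 * deriv (deriv fun s => l (s, γ)) τ =
            b (l (τ, γ), γ * deriv (fun s => l (s, γ)) τ) := by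
  have hr0 : 0 < min (R / (4 * (|M| + R + |B| + 1))) (1 / (4 * (1 + 2 * |B| / R))) := by
    positivity
  refine ⟨_, hr0, ?_⟩
  intro b Ω _ hb hB τ0 γ1 ρ l0 a0 hl0 ha0 h0
  set r : ℝ := min (R / (4 * (|M| + R + |B| + 1))) (1 / (4 * (1 + 2 * |B| / R))) with hrdef
  have e1 : r * (4 * (|M| + R + |B| + 1)) ≤ R := by
    have h1 : r ≤ R / (4 * (|M| + R + |B| + 1)) := min_le_left _ _
    rwa [le_div_iff₀ (by positivity)] at h1
  have e2 : r * (4 * (1 + 2 * |B| / R)) ≤ 1 := by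
    have h1 : r ≤ 1 / (4 * (1 + 2 * |B| / R)) := min_le_right _ _
    rwa [le_div_iff₀ (by positivity)] at h1
  have hBn := abs_nonneg B
  have hMn := abs_nonneg M
  have hK : 0 ≤ 2 * |B| / R := by positivity
  have m1 := mul_nonneg hr0.le hBn
  have m2 := mul_nonneg hr0.le hMn
  have m3 := mul_nonneg hr0.le hR.le
  have m4 := mul_nonneg hr0.le hK
  obtain ⟨l, a, hl, ha, hi, hs⟩ := Flow_core (τ0 := τ0) (r := r) hR hBn hMn (by nlinarith)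
    (by nlinarith) (by nlinarith) (by nlinarith) hr0 hb (fun p hp => (hB p hp).trans (le_abs_self B))
    hl0 ha0 (fun γ hγ => ⟨(h0 γ hγ).1, (h0 γ hγ).2.1.trans (le_abs_self M), (h0 γ hγ).2.2⟩)
  have hγ0 : ∀ γ ∈ ball γ1 ρ, γ ≠ 0 := by
    intro γ hγ h
    have h1 := (h0 γ hγ).1
    rw [h, norm_zero] at h1
    norm_num at h1
  have hd : ∀ γ ∈ ball γ1 ρ, ∀ τ ∈ ball τ0 r, γ * deriv (fun s => l (s, γ)) τ = a (τ, γ) := by
    intro γ hγ τ hτ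
    rw [(hs γ hγ τ hτ).2.1, mul_div_cancel₀ _ (hγ0 γ hγ)]
  refine ⟨l, hl, fun γ hγ => ⟨(hi γ hγ).1, ?_⟩, fun γ hγ τ hτ => ⟨?_, ?_⟩⟩
  · rw [hd γ hγ τ0 (mem_ball_self hr0)]
    exact (hi γ hγ).2
  · rw [hd γ hγ τ hτ]
    exact ball_subset_ball (by linarith) (hs γ hγ τ hτ).1
  · rw [hd γ hγ τ hτ]
    have h1 : deriv (fun s => l (s, γ)) =ᶠ[𝓝 τ] fun s => a (s, γ) / γ := by
      filter_upwards [isOpen_ball.mem_nhds hτ] with s hs'
      exact (hs γ hγ s hs').2.1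
    rw [h1.deriv_eq, deriv_div_const, (hs γ hγ τ hτ).2.2]
    have := hγ0 γ hγ
    field_simp

end Pool.Agent.MP_ae5b4e_an_N3
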