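import Pool.Agent.Lib.MP_ae5b4e_an_N3.Defs
import Pool.Agent.Lib.MP_ae5b4e_an_MET.Pick

/-! # Section N3: the derivative form of the Schwarz - Pick lemma -/

noncomputable section

namespace Pool.Agent.MP_ae5b4e_an_N3

open Complex Set Filter Topology Metric
open PorTR (Hm)

private theorem PickD_two {b : ℝ} {f : ℂ → ℂ} (hf : DifferentiableOn ℂ f {z | z.im < b})
    (hm : ∀ z : ℂ, z.im < b → 0 ≤ (f z).im) {z w : ℂ} (hz : z.im < b) (hw : w.im < b) :
    (b - w.im) * (b - z.im) * normSq (f w - f z) ≤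
      (f w).im * (f z).im * normSq (w - z) := by
  have key : ∀ ε : ℝ, 0 < ε → (b - w.im) * (b - z.im) * normSq (f w - f z) ≤
      ((f w).im + ε) * ((f z).im + ε) * normSq (w - z) := by
    intro ε hε
    have him : ∀ ζ : ℂ, (b * I - ζ).im = b - ζ.im := fun ζ => by simp
    have hd : DifferentiableOn ℂ (fun ζ => f (b * I - ζ) + ε * I)
        Pool.Agent.MP_ae5b4e_an_ALG.UP := by
      refine DifferentiableOn.add_const _ ?_
      refine hf.comp ((differentiableOn_const _).sub differentiableOn_id) fun ζ hζ => ?_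
      have h1 : 0 < ζ.im := hζ
      change (b * I - ζ).im < b
      rw [him]
      linarith
    have hmap : MapsTo (fun ζ => f (b * I - ζ) + ε * I) Pool.Agent.MP_ae5b4e_an_ALG.UP
        Pool.Agent.MP_ae5b4e_an_ALG.UP := by
      intro ζ hζ
      have h1 : 0 < ζ.im := hζ
      have h2 := hm (b * I - ζ) (by rw [him]; linarith)
      change 0 < (f (b * I - ζ) + ε * I).im
      have h3 : (f (b * I - ζ) + ε * I).im = (f (b * I - ζ)).im + ε := by simp
      rw [h3]
      linarith
    have hz' : (b * I - z) ∈ Pool.Agent.MP_ae5b4e_an_ALG.UP := by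
      change 0 < (b * I - z).im
      rw [him]
      linarith
    have hw' : (b * I - w) ∈ Pool.Agent.MP_ae5b4e_an_ALG.UP := by
      change 0 < (b * I - w).im
      rw [him]
      linarith
    have h := Pool.Agent.MP_ae5b4e_an_MET.schwarz_pick hd hmap hw' hz'
    simp only [sub_sub_cancel] at h
    have e1 := Pool.Agent.MP_ae5b4e_an_MET.Pick.normSq_num (f z + ε * I) (f w + ε * I)
    have e2 := Pool.Agent.MP_ae5b4e_an_MET.Pick.normSq_num (b * I - z) (b * I - w)
    have e3 : (f z + ε * I).im = (f z).im + ε := by simp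
    have e4 : (f w + ε * I).im = (f w).im + ε := by simp
    have e5 : f w + ε * I - (f z + ε * I) = f w - f z := by ring
    have e6 : b * I - w - (b * I - z) = -(w - z) := by ring
    rw [e5, e3, e4] at e1
    rw [e6, him, him, Complex.normSq_neg] at e2
    rw [him, him, e3, e4] at h
    have e7 : normSq (f w + ε * I - (starRingEnd ℂ) (f z + ε * I)) =
        normSq (f w - f z) + 4 * (((f w).im + ε) * ((f z).im + ε)) := by linarith
    have e8 : normSq (b * I - w - (starRingEnd ℂ) (b * I - z)) =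
        normSq (w - z) + 4 * ((b - w.im) * (b - z.im)) := by linarith
    rw [e7, e8] at h
    linarith [h]
  have hc : Tendsto (fun ε : ℝ => ((f w).im + ε) * ((f z).im + ε) * normSq (w - z)) (𝓝[>] 0)
      (𝓝 (((f w).im + 0) * ((f z).im + 0) * normSq (w - z))) := by
    have h1 : Continuous fun ε : ℝ => ((f w).im + ε) * ((f z).im + ε) * normSq (w - z) := by
      fun_prop
    exact (h1.tendsto 0).mono_left nhdsWithin_le_nhds
  rw [add_zero, add_zero] at hc
  refine ge_of_tendsto hc ?_
  filter_upwards [self_mem_nhdsWithin] with ε hε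
  exact key ε hε

/-- Schwarz - Pick, derivative form, from the half plane `Im z < b` to the closed upper half plane.

Proof. For `ε > 0` put `F ζ := f (b i - ζ) + i ε` on `UP = {0 < im}`: differentiable,
`UP → UP`. `schwarz_pick` of MET/Pick at `z`, `w`, with `normSq (a - conj b) = normSq (a - b) +
4 im a im b`: `im z im w |F z - F w|² ≤ im (F z) im (F w) |z - w|²`. Divide by `|z - w|²`, `w → z`:
`|F' z| ≤ im (F z) / im z`. Put `ζ = b i - z` and let `ε → 0`. -/
theorem pick_deriv {b : ℝ} {f : ℂ → ℂ} (hf : DifferentiableOn ℂ f {z | z.im < b})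
    (hm : ∀ z : ℂ, z.im < b → 0 ≤ (f z).im) {z : ℂ} (hz : z.im < b) :
    ‖deriv f z‖ ≤ (f z).im / (b - z.im) := by
  have hopen : IsOpen {z : ℂ | z.im < b} := isOpen_lt Complex.continuous_im continuous_const
  have hnh : {z : ℂ | z.im < b} ∈ 𝓝 z := hopen.mem_nhds hz
  have hda : DifferentiableAt ℂ f z := (hf z hz).differentiableAt hnh
  have hs := hasDerivAt_iff_tendsto_slope.1 hda.hasDerivAt
  have hL : Tendsto (fun w => (b - w.im) * (b - z.im) * normSq (slope f z w)) (𝓝[≠] z)
      (𝓝 ((b - z.im) * (b - z.im) * normSq (deriv f z))) := by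
    refine Tendsto.mul ?_ ((Complex.continuous_normSq.tendsto _).comp hs)
    have h1 : Continuous fun w : ℂ => (b - w.im) * (b - z.im) := by fun_prop
    exact (h1.tendsto z).mono_left nhdsWithin_le_nhds
  have hR : Tendsto (fun w => (f w).im * (f z).im) (𝓝[≠] z) (𝓝 ((f z).im * (f z).im)) := by
    have h1 : Tendsto (fun w => (f w).im) (𝓝 z) (𝓝 (f z).im) :=
      (Complex.continuous_im.tendsto _).comp hda.continuousAt
    exact (h1.mul_const _).mono_left nhdsWithin_le_nhds
  have hle := le_of_tendsto_of_tendsto hL hR (by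
    filter_upwards [self_mem_nhdsWithin, mem_nhdsWithin_of_mem_nhds hnh] with w hw hw2
    have h1 := PickD_two hf hm hz hw2
    have h2 : 0 < normSq (w - z) := normSq_pos.2 (sub_ne_zero.2 hw)
    rw [slope_def_field, map_div₀, ← mul_div_assoc, div_le_iff₀ h2]
    exact h1)
  have hb : 0 < b - z.im := by linarith
  rw [le_div_iff₀ hb]
  rw [Complex.normSq_eq_norm_sq] at hle
  refine (pow_le_pow_iff_left₀ (by positivity) (hm z hz) two_ne_zero).1 ?_
  nlinarith [hle]

/-- the same for functions with values in the lower half plane (apply `pick_deriv` to `- f`) -/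
theorem pick_deriv' {b : ℝ} {f : ℂ → ℂ} (hf : DifferentiableOn ℂ f {z | z.im < b})
    (hm : ∀ z : ℂ, z.im < b → (f z).im ≤ 0) {z : ℂ} (hz : z.im < b) :
    ‖deriv f z‖ ≤ -(f z).im / (b - z.im) := by
  have h := pick_deriv (f := fun z => -f z) hf.neg (fun z hz => by
    rw [Complex.neg_im]
    linarith [hm z hz]) hz
  have e : deriv (fun z => -f z) z = -deriv f z := deriv.fun_neg
  rw [e, norm_neg, Complex.neg_im] at h
  exact h

private theorem PickD_curve {b : ℝ} {f : ℂ → ℂ} (hf : DifferentiableOn ℂ f {z | z.im < b})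
    {x y : ℝ} (h : -b < y) :
    HasDerivAt (fun t : ℝ => f (x - t * I)) (deriv f (x - y * I) * (-I)) y := by
  have hopen : IsOpen {z : ℂ | z.im < b} := isOpen_lt Complex.continuous_im continuous_const
  have hz : ((x - y * I : ℂ)).im < b := by
    simp
    linarith
  have hda : DifferentiableAt ℂ f (x - y * I) := (hf _ hz).differentiableAt (hopen.mem_nhds hz)
  have h1 : HasDerivAt (fun t : ℝ => (x - t * I : ℂ)) (-I) y := by
    have h2 : HasDerivAt (fun t : ℝ => (t : ℂ) * I) (1 * I) y :=
      (Complex.ofRealCLM.hasDerivAt (x := y)).mul_const I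
    have h3 := h2.const_sub (x : ℂ)
    rwa [one_mul] at h3
  exact HasDerivAt.comp (h₂ := f) y hda.hasDerivAt h1

private theorem PickD_P {b : ℝ} {f : ℂ → ℂ} (hf : DifferentiableOn ℂ f {z | z.im < b})
    {x y : ℝ} (h : -b < y) :
    HasDerivAt (fun t : ℝ => -(f (x - t * I)).im) (deriv f (x - y * I)).re y := by
  have h1 := Complex.imCLM.hasFDerivAt.comp_hasDerivAt y (PickD_curve hf (x := x) h)
  have h2 := h1.neg
  have e : -(Complex.imCLM (deriv f (x - y * I) * (-I))) = (deriv f (x - y * I)).re := by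
    simp
  rw [e] at h2
  exact h2

private theorem PickD_bd {b : ℝ} {f : ℂ → ℂ} (hf : DifferentiableOn ℂ f {z | z.im < b})
    (hm : ∀ z : ℂ, z.im < b → (f z).im ≤ 0) {x y : ℝ} (h : -b < y) :
    ‖deriv f (x - y * I)‖ ≤ -(f (x - y * I)).im / (y + b) := by
  have hz : ((x - y * I : ℂ)).im < b := by
    simp
    linarith
  have h1 := pick_deriv' hf hm hz
  have e : b - ((x - y * I : ℂ)).im = y + b := by
    simp
    ring
  rwa [e] at h1

private theorem PickD_mono {b : ℝ} {f : ℂ → ℂ} (hf : DifferentiableOn ℂ f {z | z.im < b})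
    (hm : ∀ z : ℂ, z.im < b → (f z).im ≤ 0) (x : ℝ) :
    MonotoneOn (fun t : ℝ => -(f (x - t * I)).im * (t + b)) (Ioi (-b)) := by
  have hd : ∀ t ∈ Ioi (-b), HasDerivAt (fun t : ℝ => -(f (x - t * I)).im * (t + b))
      ((deriv f (x - t * I)).re * (t + b) + -(f (x - t * I)).im * 1) t := fun t ht =>
    (PickD_P hf ht).mul ((hasDerivAt_id t).add_const b)
  refine monotoneOn_of_deriv_nonneg (convex_Ioi _)
    (fun t ht => (hd t ht).continuousAt.continuousWithinAt) ?_ ?_
  · rw [interior_Ioi]
    exact fun t ht => (hd t ht).differentiableAt.differentiableWithinAt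
  · rw [interior_Ioi]
    intro t ht
    rw [(hd t ht).deriv]
    have ht' : 0 < t + b := by
      have h1 : -b < t := ht
      linarith
    have h1 := PickD_bd hf hm (x := x) ht
    rw [le_div_iff₀ ht'] at h1
    have h2 := abs_le.1 (Complex.abs_re_le_norm (deriv f (x - t * I)))
    nlinarith [h2.1]

private theorem PickD_anti {b : ℝ} {f : ℂ → ℂ} (hf : DifferentiableOn ℂ f {z | z.im < b})
    (hm : ∀ z : ℂ, z.im < b → (f z).im ≤ 0) (x : ℝ) :
    AntitoneOn (fun t : ℝ => -(f (x - t * I)).im / (t + b)) (Ioi (-b)) := by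
  have hd : ∀ t ∈ Ioi (-b), HasDerivAt (fun t : ℝ => -(f (x - t * I)).im / (t + b))
      (((deriv f (x - t * I)).re * (t + b) - -(f (x - t * I)).im * 1) / (t + b) ^ 2) t := by
    intro t ht
    have ht' : t + b ≠ 0 := by
      have h1 : -b < t := ht
      exact (by linarith : 0 < t + b).ne'
    exact (PickD_P hf ht).div ((hasDerivAt_id t).add_const b) ht'
  refine antitoneOn_of_deriv_nonpos (convex_Ioi _)
    (fun t ht => (hd t ht).continuousAt.continuousWithinAt) ?_ ?_
  · rw [interior_Ioi]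
    exact fun t ht => (hd t ht).differentiableAt.differentiableWithinAt
  · rw [interior_Ioi]
    intro t ht
    rw [(hd t ht).deriv]
    have ht' : 0 < t + b := by
      have h1 : -b < t := ht
      linarith
    have h1 := PickD_bd hf hm (x := x) ht
    rw [le_div_iff₀ ht'] at h1
    have h2 := abs_le.1 (Complex.abs_re_le_norm (deriv f (x - t * I)))
    refine div_nonpos_of_nonpos_of_nonneg ?_ (by positivity)
    nlinarith [h2.2]

/-- Growth downwards: with `P (y) := - Im f (x - i y) ≥ 0`, `y > - b`: `|P'| ≤ |f'| ≤ P / (y + b)`,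
so `P (y) / (y + b)` is nonincreasing and `P (y) (y + b)` is nondecreasing. Hence for
`- b < y ≤ y0`: `P y ≤ P y0 (y0 + b) / (y + b)`, `|f' (x - i y)| ≤ P y0 (y0 + b) / (y + b)²` and
`|f (x - i y)| ≤ |f (x - i y0)| + ∫_y^y0 |f'| ≤ |f (x - i y0)| (1 + (y0 + b) / (y + b))`. -/
theorem growth {b : ℝ} {f : ℂ → ℂ} (hf : DifferentiableOn ℂ f {z | z.im < b})
    (hm : ∀ z : ℂ, z.im < b → (f z).im ≤ 0) {x y y0 : ℝ} (h1 : -b < y) (h2 : y ≤ y0) :
    ‖f (x - y * I)‖ ≤ ‖f (x - y0 * I)‖ * (1 + (y0 + b) / (y + b)) := by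
  have hyb : 0 < y + b := by linarith
  have hy0b : 0 < y0 + b := by linarith
  set K : ℝ := -(f (x - y0 * I)).im * (y0 + b) with hK
  have hP0 : 0 ≤ -(f (x - y0 * I)).im := by
    have hz : ((x - y0 * I : ℂ)).im < b := by
      simp
      linarith
    linarith [hm _ hz]
  have hK0 : 0 ≤ K := mul_nonneg hP0 hy0b.le
  have hbd : ∀ t, y ≤ t → t ≤ y0 → ‖deriv f (x - t * I) * (-I)‖ ≤ K / (t + b) ^ 2 := by
    intro t ht ht0
    have htb : 0 < t + b := by linarith
    have h3 := PickD_bd hf hm (x := x) (y := t) (by linarith)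
    have h4 : -(f (x - t * I)).im * (t + b) ≤ K :=
      PickD_mono hf hm x (show -b < t by linarith) (show -b < y0 by linarith) ht0
    rw [norm_mul, norm_neg, Complex.norm_I, mul_one]
    refine h3.trans ?_
    rw [div_le_div_iff₀ htb (by positivity)]
    nlinarith [mul_le_mul_of_nonneg_right h4 htb.le]
  have key := image_norm_le_of_norm_deriv_right_le_deriv_boundary' (a := y) (b := y0)
    (f := fun t : ℝ => f (x - t * I) - f (x - y * I))
    (f' := fun t : ℝ => deriv f (x - t * I) * (-I))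
    (B := fun t : ℝ => K * ((y + b)⁻¹ - (t + b)⁻¹)) (B' := fun t : ℝ => K / (t + b) ^ 2)
    (fun t ht => ((PickD_curve hf (x := x) (y := t)
      (by linarith [ht.1])).continuousAt.continuousWithinAt).sub continuousWithinAt_const)
    (fun t ht => ((PickD_curve hf (x := x) (y := t)
      (by linarith [ht.1])).sub_const _).hasDerivWithinAt) (by simp) ?_ ?_
    (fun t ht => hbd t ht.1 ht.2.le) (right_mem_Icc.2 h2)
  · have h3 : K * ((y + b)⁻¹ - (y0 + b)⁻¹) ≤ ‖f (x - y0 * I)‖ * ((y0 + b) / (y + b)) := by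
      have h4 : K * ((y + b)⁻¹ - (y0 + b)⁻¹) ≤ K * (y + b)⁻¹ := by
        refine mul_le_mul_of_nonneg_left ?_ hK0
        have h5 : 0 < (y0 + b)⁻¹ := inv_pos.2 hy0b
        linarith
      refine h4.trans ?_
      rw [hK, mul_assoc, ← div_eq_mul_inv]
      refine mul_le_mul_of_nonneg_right ?_ (by positivity)
      have h5 := abs_le.1 (Complex.abs_im_le_norm (f (x - y0 * I)))
      linarith [h5.1]
    have h4 : ‖f (x - y0 * I) - f (x - y * I)‖ ≤ K * ((y + b)⁻¹ - (y0 + b)⁻¹) := key
    have h5 : ‖f (x - y * I)‖ ≤ ‖f (x - y0 * I)‖ + ‖f (x - y0 * I) - f (x - y * I)‖ := by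
      have h6 := norm_sub_le (f (x - y0 * I)) (f (x - y0 * I) - f (x - y * I))
      rwa [sub_sub_cancel] at h6
    rw [mul_add, mul_one]
    linarith
  · intro t ht
    have htb : t + b ≠ 0 := (by linarith [ht.1] : 0 < t + b).ne'
    exact (continuousWithinAt_const.mul (continuousWithinAt_const.sub
      ((continuousWithinAt_id.add continuousWithinAt_const).inv₀ htb)))
  · intro t ht
    have htb : t + b ≠ 0 := (by linarith [ht.1] : 0 < t + b).ne'
    have h3 : HasDerivAt (fun t : ℝ => (t + b)⁻¹) (-1 / (t + b) ^ 2) t :=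
      ((hasDerivAt_id t).add_const b).inv htb
    have h4 := (h3.const_sub (y + b)⁻¹).const_mul K
    have e : K * -(-1 / (t + b) ^ 2) = K / (t + b) ^ 2 := by ring
    rw [e] at h4
    exact h4.hasDerivWithinAt

/-- Julia's lemma in the form needed here: `f` maps `{Im z < b}` to the closed lower half plane and
`f (- i y) / (- i y) → 1` as `y → ∞`; then `b - Im z ≤ - Im f z`.

Proof. `P (y) := - Im f (x - i y) ≥ 0`; as in `growth` the quotient `P (y) / (y + b)` is
nonincreasing
(`|P'| ≤ |f'| ≤ P / (y + b)`), and its limit for `y → ∞` is `1` (`y / (y + b) → 1`). -/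
theorem depth_of_base {b : ℝ} {f : ℂ → ℂ} (hf : DifferentiableOn ℂ f {z | z.im < b})
    (hm : ∀ z : ℂ, z.im < b → (f z).im ≤ 0)
    (h : ∀ x : ℝ, Tendsto (fun y : ℝ => (f (x - y * I)).im / (-y)) atTop (𝓝 1)) {z : ℂ}
    (hz : z.im < b) : b - z.im ≤ -(f z).im := by
  have hzy : -b < -z.im := by linarith
  have e1 : ((z.re : ℂ) - ((-z.im : ℝ) : ℂ) * I) = z := by
    apply Complex.ext <;> simp
  have hpos : 0 < -z.im + b := by linarith
  have hlim : Tendsto (fun y : ℝ => -(f ((z.re : ℂ) - y * I)).im / (y + b)) atTop (𝓝 1) := by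
    have h1 : Tendsto (fun y : ℝ => y / (y + b)) atTop (𝓝 1) := by
      have h2 : Tendsto (fun y : ℝ => 1 - b / (y + b)) atTop (𝓝 (1 - 0)) :=
        tendsto_const_nhds.sub ((tendsto_const_nhds (x := b)).div_atTop
          (tendsto_atTop_add_const_right _ b tendsto_id))
      rw [sub_zero] at h2
      refine h2.congr' ?_
      filter_upwards [eventually_gt_atTop (-b)] with y hy
      have hyb : y + b ≠ 0 := (by linarith : 0 < y + b).ne'
      field_simp
      ring
    have h2 := (h z.re).mul h1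
    rw [mul_one] at h2
    refine h2.congr' ?_
    filter_upwards [eventually_gt_atTop (-b), eventually_gt_atTop 0] with y hy hy0
    have hyb : y + b ≠ 0 := (by linarith : 0 < y + b).ne'
    field_simp
  have h1 : 1 ≤ -(f ((z.re : ℂ) - ((-z.im : ℝ) : ℂ) * I)).im / (-z.im + b) := by
    refine le_of_tendsto hlim ?_
    filter_upwards [eventually_ge_atTop (-z.im)] with y hy
    exact PickD_anti hf hm z.re hzy (show -b < y by linarith) hy
  rw [e1, le_div_iff₀ hpos] at h1
  linarith

end Pool.Agent.MP_ae5b4e_an_N3
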