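import Pool.Agent.Lib.MP_ae5b4e_an_N3.Zoom
import Pool.Agent.Lib.MP_ae5b4e_an_N3.PickD
import Pool.Agent.Lib.MP_ae5b4e_an_M.Mont
import Pool.Agent.Lib.MP_ae5b4e_an_M.FnB

/-! # Section N3: the set of conical limits is compact -/

noncomputable section

namespace Pool.Agent.MP_ae5b4e_an_N3

open Complex Set Filter Topology Metric
open PorTR (Hm)
open Pool.Agent.MP_ae5b4e_an_M (bb ulimC LB)

variable {C : ℝ} {q G : ℂ → ℂ} {L : ℂ × ℂ → ℂ}

private theorem Lim_open : IsOpen Hm := by
  unfold Hm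
  exact isOpen_lt Complex.continuous_im continuous_const

/-- `|q| ≤ C / |Im z| ^ 2` (`q = G'`, `pick_deriv`, `Im G ≤ |G|`). -/
theorem CL.qbd (h : CL C q G L) {z : ℂ} (hz : z ∈ Hm) : ‖q z‖ ≤ C / z.im ^ 2 := by
  have hz' : z.im < 0 := hz
  have h1 := pick_deriv (b := 0) (f := G) h.gd (fun z hz => h.gpos z hz) hz'
  rw [h.gq z hz, zero_sub] at h1
  have h2 : (G z).im ≤ C / -z.im := (Complex.im_le_norm _).trans (h.gbd z hz)
  refine h1.trans ((div_le_div_of_nonneg_right h2 (by linarith)).trans (le_of_eq ?_))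
  have h3 : z.im ≠ 0 := hz'.ne
  field_simp

private theorem Lim_slice (h : CL C q G L) (γ : ℂ) :
    DifferentiableOn ℂ (fun τ => L (τ, γ)) {z : ℂ | z.im < -|γ.im|} := by
  intro z hz
  have h1 : AnalyticAt ℂ L (z, γ) := h.an (z, γ) hz
  have h2 : AnalyticAt ℂ (fun τ : ℂ => L (τ, γ)) z :=
    AnalyticAt.comp' (f := fun τ : ℂ => (τ, γ)) h1 (analyticAt_id.prod analyticAt_const)
  exact h2.differentiableAt.differentiableWithinAt

private theorem Lim_neg (h : CL C q G L) (γ : ℂ) (z : ℂ) (hz : z.im < -|γ.im|) :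
    (L (z, γ)).im ≤ 0 := by
  have h1 : L (z, γ) ∈ Hm := h.maps (show (z, γ) ∈ DC from hz)
  exact le_of_lt h1

/-- Depth of the label. Proof. `depth_of_base` for `τ ↦ L (τ, γ)` with `b = - |Im γ|`; the limit is
`1` by `base` (`|L - τ| ≤ C |γ|² / y` for `τ = x - i y`, `y ≥ C |γ|`). -/
theorem CL.depth (h : CL C q G L) {p : ℂ × ℂ} (hp : p ∈ DC) :
    -p.1.im - |p.2.im| ≤ -(L p).im := by
  have h1 := depth_of_base (b := -|p.2.im|) (f := fun τ => L (τ, p.2)) (Lim_slice h p.2)
    (Lim_neg h p.2) ?_ (z := p.1) hp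
  · have h2 : L (p.1, p.2) = L p := rfl
    simp only [h2] at h1
    linarith
  · intro x
    have hC : 0 ≤ C := by linarith [h.C_two]
    have h3 : Tendsto (fun y : ℝ => C * ‖p.2‖ ^ 2 / y / y) atTop (𝓝 0) := by
      have h4 : Tendsto (fun y : ℝ => C * ‖p.2‖ ^ 2 / y) atTop (𝓝 0) :=
        tendsto_const_nhds.div_atTop tendsto_id
      exact h4.div_atTop tendsto_id
    have h4 : Tendsto (fun y : ℝ => (L ((x - y * I), p.2)).im / (-y) - 1) atTop (𝓝 0) := by
      refine squeeze_zero_norm' ?_ h3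
      filter_upwards [eventually_ge_atTop (C * ‖p.2‖ + 1)] with y hy
      have hy0 : 0 < y := by
        have := mul_nonneg hC (norm_nonneg p.2)
        linarith
      have e1 : ((x - y * I : ℂ)).im = -y := by simp
      have h5 := h.base (x - y * I) p.2 (by rw [e1]; linarith) (by rw [e1]; linarith)
      rw [e1, neg_neg] at h5
      have h6 := (Complex.abs_im_le_norm _).trans h5
      rw [Complex.sub_im, e1] at h6
      have e2 : (L ((x - y * I), p.2)).im / (-y) - 1 =
          -(((L ((x - y * I), p.2)).im - -y) / y) := by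
        field_simp
        ring
      rw [e2, norm_neg, norm_div, Real.norm_eq_abs, Real.norm_eq_abs, abs_of_pos hy0]
      exact div_le_div_of_nonneg_right h6 hy0.le
    have h5 := h4.add_const 1
    rw [zero_add] at h5
    refine h5.congr fun y => ?_
    ring

/-- Growth. `M` depends on `C` and the compact set only. Proof. `growth` for `τ ↦ L (τ, γ)`,
`b = - |Im γ|`, with `y0 := ` a large constant (`≥ C |γ|`, `≥ 1`, `≥ y` on the compact set), where
`|L (x - i y0, γ)| ≤ |x - i y0| + C |γ|² / y0` by `base`; `y - |Im γ|` is bounded below on the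
compact set. -/
theorem exists_bound (C : ℝ) (hC : 2 ≤ C) {K : Set (ℂ × ℂ)} (hK : IsCompact K) (hKD : K ⊆ DC) :
    ∃ M : ℝ, ∀ (q G : ℂ → ℂ) (L : ℂ × ℂ → ℂ), CL C q G L → ∀ p ∈ K, ‖L p‖ ≤ M := by
  obtain ⟨R, hR0, hR⟩ : ∃ R : ℝ, 0 ≤ R ∧ ∀ p ∈ K, ‖p‖ ≤ R := by
    obtain ⟨R, hR⟩ := hK.isBounded.exists_norm_le
    exact ⟨max R 0, le_max_right _ _, fun p hp => (hR p hp).trans (le_max_left _ _)⟩
  obtain ⟨δ, hδ0, hδ⟩ : ∃ δ : ℝ, 0 < δ ∧ ∀ p ∈ K, δ ≤ -p.1.im - |p.2.im| := by
    rcases K.eq_empty_or_nonempty with hE | hE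
    · exact ⟨1, one_pos, fun p hp => by rw [hE] at hp; exact absurd hp (by simp)⟩
    · have hc : ContinuousOn (fun p : ℂ × ℂ => -p.1.im - |p.2.im|) K := by
        fun_prop
      obtain ⟨p0, hp0, hm⟩ := hK.exists_isMinOn hE hc
      refine ⟨-p0.1.im - |p0.2.im|, ?_, fun p hp => hm hp⟩
      have h1 : p0.1.im < -|p0.2.im| := hKD hp0
      linarith
  set y0 : ℝ := C * R + R + 1 with hy0
  have hCR : 0 ≤ C * R := mul_nonneg (by linarith) hR0
  have hy1 : 1 ≤ y0 := by linarith
  refine ⟨(R + y0 + C * R ^ 2) * (1 + y0 / δ), fun q G L h p hp => ?_⟩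
  have hp1 : ‖p.1‖ ≤ R := (norm_fst_le p).trans (hR p hp)
  have hp2 : ‖p.2‖ ≤ R := (norm_snd_le p).trans (hR p hp)
  have hd := hδ p hp
  have him : -p.1.im ≤ R := (neg_le_abs _).trans ((Complex.abs_im_le_norm _).trans hp1)
  have ha := abs_nonneg p.2.im
  have h1 := growth (b := -|p.2.im|) (f := fun τ => L (τ, p.2)) (Lim_slice h p.2)
    (Lim_neg h p.2) (x := p.1.re) (y := -p.1.im) (y0 := y0) (by linarith) (by linarith)
  have e1 : ((p.1.re : ℂ) - ((-p.1.im : ℝ) : ℂ) * I) = p.1 := by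
    apply Complex.ext <;> simp
  rw [e1] at h1
  have h2 : L (p.1, p.2) = L p := rfl
  simp only [h2] at h1
  refine h1.trans ?_
  have e2 : ((p.1.re - y0 * I : ℂ)).im = -y0 := by simp
  have h3 := h.base (p.1.re - y0 * I) p.2 (by rw [e2]; linarith) (by
    rw [e2, neg_neg]
    have := mul_le_mul_of_nonneg_left hp2 (by linarith : 0 ≤ C)
    linarith)
  rw [e2, neg_neg] at h3
  have h4 : C * ‖p.2‖ ^ 2 / y0 ≤ C * R ^ 2 := by
    have h5 : C * ‖p.2‖ ^ 2 ≤ C * R ^ 2 := by
      have := pow_le_pow_left₀ (norm_nonneg p.2) hp2 2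
      exact mul_le_mul_of_nonneg_left this (by linarith)
    have h6 : 0 ≤ C * R ^ 2 := by positivity
    rw [div_le_iff₀ (by linarith)]
    nlinarith
  have h5 : ‖(p.1.re - y0 * I : ℂ)‖ ≤ R + y0 := by
    refine (norm_sub_le _ _).trans (add_le_add ?_ ?_)
    · rw [Complex.norm_real, Real.norm_eq_abs]
      exact (Complex.abs_re_le_norm _).trans hp1
    · rw [norm_mul, Complex.norm_I, mul_one, Complex.norm_real, Real.norm_eq_abs,
        abs_of_pos (by linarith)]
  have h6 : ‖L (p.1.re - y0 * I, p.2)‖ ≤ R + y0 + C * R ^ 2 := by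
    have h7 : L (p.1.re - y0 * I, p.2) =
        (L (p.1.re - y0 * I, p.2) - (p.1.re - y0 * I)) + (p.1.re - y0 * I) := by ring
    rw [h7]
    refine (norm_add_le _ _).trans ?_
    linarith
  have h7 : (y0 + -|p.2.im|) / (-p.1.im + -|p.2.im|) ≤ y0 / δ := by
    refine div_le_div₀ (by linarith) (by linarith) hδ0 (by linarith)
  have h8 : 0 ≤ (y0 + -|p.2.im|) / (-p.1.im + -|p.2.im|) :=
    div_nonneg (by linarith) (by linarith)
  exact mul_le_mul h6 (by linarith) (by linarith) (by positivity)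

/-- COMPACTNESS. Every sequence of conical limits (with the same constant) converges along the
ultrafilter to a conical limit.

Proof. `montel1` (M/Mont) for `G n` and `q n` on `Hm` (locally bounded by `gbd`, `qbd`),
`montel2` for `L n` on `DC` (`exists_bound`). Define the limits by `ulimC`. `gq`: derivatives
converge (`TendstoLocallyUniformlyOn.deriv`). `gpos`, `gbd`, `base`: pointwise limits.
`maps`: `CL.depth` passes to the limit and `-p.1.im - |p.2.im| > 0` on `DC`.
`ode`: by `unif_deriv` the first and second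
`τ`-derivatives converge; `q n (L n p) → q (L p)` and `deriv (q n) (L n p) → deriv q (L p)` (locally
uniform convergence near `L p ∈ Hm` of `q n` and of the derivatives), `E2` is continuous
(`E2_diff`, M/FnA), so `bb (q n) (L n p) (α n) → bb q (L p) α`. -/
theorem exists_lim (U : Ultrafilter ℕ) {q G : ℕ → ℂ → ℂ} {L : ℕ → ℂ × ℂ → ℂ}
    (h : ∀ n, CL C (q n) (G n) (L n)) :
    ∃ (q' G' : ℂ → ℂ) (L' : ℂ × ℂ → ℂ), CL C q' G' L' ∧
      TendstoLocallyUniformlyOn q q' U Hm ∧ TendstoLocallyUniformlyOn G G' U Hm ∧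
      TendstoLocallyUniformlyOn L L' U DC := by
  have hC2 : 2 ≤ C := (h 0).C_two
  have hball : ∀ p ∈ Hm, ball p (-p.im / 2) ⊆ {z : ℂ | z.im < p.im / 2} := by
    intro p hp z hz
    have h1 : ‖z - p‖ < -p.im / 2 := by rwa [← dist_eq_norm]
    have h2 : (z - p).im ≤ ‖z - p‖ := Complex.im_le_norm _
    rw [Complex.sub_im] at h2
    simp only [mem_setOf_eq]
    linarith
  have hGLB : ∀ p ∈ Hm, LB U G p := by
    intro p hp
    have hp' : p.im < 0 := hp
    refine ⟨-p.im / 2, by linarith, C / (-p.im / 2), Eventually.of_forall fun n => ⟨?_, ?_⟩⟩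
    · intro z hz
      have h1 : z.im < p.im / 2 := hball p hp hz
      exact (h n).gd.analyticOnNhd Lim_open z (show z.im < 0 by linarith)
    · intro z hz
      have h1 : z.im < p.im / 2 := hball p hp hz
      refine ((h n).gbd z (show z.im < 0 by linarith)).trans ?_
      exact div_le_div_of_nonneg_left (by linarith) (by linarith) (by linarith)
  have hqLB : ∀ p ∈ Hm, LB U q p := by
    intro p hp
    have hp' : p.im < 0 := hp
    refine ⟨-p.im / 2, by linarith, C / (-p.im / 2) ^ 2, Eventually.of_forall fun n => ⟨?_, ?_⟩⟩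
    · intro z hz
      have h1 : z.im < p.im / 2 := hball p hp hz
      exact (h n).qd.analyticOnNhd Lim_open z (show z.im < 0 by linarith)
    · intro z hz
      have h1 : z.im < p.im / 2 := hball p hp hz
      refine ((h n).qbd (show z.im < 0 by linarith)).trans ?_
      refine div_le_div_of_nonneg_left (by linarith) (by nlinarith) ?_
      nlinarith
  have hLLB : ∀ p ∈ DC, LB U L p := by
    intro p hp
    obtain ⟨δ, hδ, hδD⟩ := Metric.nhds_basis_closedBall.mem_iff.1 (isOpen_DC.mem_nhds hp)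
    obtain ⟨M, hM⟩ := exists_bound C hC2 (isCompact_closedBall p δ) hδD
    refine ⟨δ, hδ, M, Eventually.of_forall fun n => ⟨?_, ?_⟩⟩
    · intro z hz
      exact (h n).an z (hδD (ball_subset_closedBall hz))
    · intro z hz
      exact hM _ _ _ (h n) z (ball_subset_closedBall hz)
  obtain ⟨hqD, hqT⟩ := Pool.Agent.MP_ae5b4e_an_M.montel1 Lim_open hqLB
  obtain ⟨hGD, hGT⟩ := Pool.Agent.MP_ae5b4e_an_M.montel1 Lim_open hGLB
  obtain ⟨hLA, hLT⟩ := Pool.Agent.MP_ae5b4e_an_M.montel2 isOpen_DC hLLB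
  set q' : ℂ → ℂ := fun p => ulimC U fun n => q n p with hq'
  set G' : ℂ → ℂ := fun p => ulimC U fun n => G n p with hG'
  set L' : ℂ × ℂ → ℂ := fun p => ulimC U fun n => L n p with hL'
  have hqp : ∀ z ∈ Hm, Tendsto (fun n => q n z) U (𝓝 (q' z)) := fun z hz => hqT.tendsto_at hz
  have hGp : ∀ z ∈ Hm, Tendsto (fun n => G n z) U (𝓝 (G' z)) := fun z hz => hGT.tendsto_at hz
  have hLp : ∀ z ∈ DC, Tendsto (fun n => L n z) U (𝓝 (L' z)) := fun z hz => hLT.tendsto_at hz
  have hmaps : MapsTo L' DC Hm := by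
    intro p hp
    have h1 : Tendsto (fun n => -(L n p).im) U (𝓝 (-(L' p).im)) :=
      ((Complex.continuous_im.tendsto _).comp (hLp p hp)).neg
    have h2 : -p.1.im - |p.2.im| ≤ -(L' p).im :=
      ge_of_tendsto h1 (Eventually.of_forall fun n => (h n).depth hp)
    have h3 : p.1.im < -|p.2.im| := hp
    show (L' p).im < 0
    linarith
  refine ⟨q', G', L', ?_, hqT, hGT, hLT⟩
  refine
    { C_two := hC2
      gd := hGD
      gq := ?_
      gpos := ?_
      gbd := ?_
      an := hLA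
      maps := hmaps
      base := ?_
      ode := ?_ }
  · intro z hz
    have h1 := hGT.deriv (Eventually.of_forall fun n => (h n).gd) Lim_open
    have h2 : Tendsto (fun n => deriv (G n) z) U (𝓝 (deriv G' z)) := h1.tendsto_at hz
    refine tendsto_nhds_unique h2 ((hqp z hz).congr fun n => ((h n).gq z hz).symm)
  · intro z hz
    have h1 : Tendsto (fun n => (G n z).im) U (𝓝 (G' z).im) :=
      (Complex.continuous_im.tendsto _).comp (hGp z hz)
    exact ge_of_tendsto h1 (Eventually.of_forall fun n => (h n).gpos z hz)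
  · intro z hz
    exact le_of_tendsto (hGp z hz).norm (Eventually.of_forall fun n => (h n).gbd z hz)
  · intro τ γ hτ hγ
    have hD : (τ, γ) ∈ DC := by
      show τ.im < -|γ.im|
      have h1 := Complex.abs_im_le_norm γ
      have h2 := abs_nonneg γ.im
      rcases h2.eq_or_lt with h3 | h3
      · rw [← h3]
        linarith
      · have h4 : 2 * ‖γ‖ ≤ C * ‖γ‖ := mul_le_mul_of_nonneg_right hC2 (norm_nonneg _)
        linarith
    exact le_of_tendsto ((hLp _ hD).sub_const τ).norm
      (Eventually.of_forall fun n => (h n).base τ γ hτ hγ)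
  · intro p hp
    have hU := fun ε (hε : 0 < ε) => Pool.Agent.MP_ae5b4e_an_M.unif_deriv isOpen_DC hLA hLLB hLT
      (isCompact_singleton (x := p)) (singleton_subset_iff.2 hp) (ε := ε) hε
    have h1 : Tendsto (fun n => deriv (fun s => L n (s, p.2)) p.1) U
        (𝓝 (deriv (fun s => L' (s, p.2)) p.1)) := by
      rw [Metric.tendsto_nhds]
      intro ε hε
      filter_upwards [hU ε hε] with n hn
      rw [dist_eq_norm]
      exact (hn p rfl).1
    have h2 : Tendsto (fun n => deriv (deriv fun s => L n (s, p.2)) p.1) U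
        (𝓝 (deriv (deriv fun s => L' (s, p.2)) p.1)) := by
      rw [Metric.tendsto_nhds]
      intro ε hε
      filter_upwards [hU ε hε] with n hn
      rw [dist_eq_norm]
      exact (hn p rfl).2.1
    have hl : L' p ∈ Hm := hmaps hp
    have hlw : Tendsto (fun n => L n p) U (𝓝[Hm] (L' p)) := by
      rw [tendsto_nhdsWithin_iff]
      exact ⟨hLp p hp, Eventually.of_forall fun n => (h n).maps hp⟩
    have h3 : Tendsto (fun n => q n (L n p)) U (𝓝 (q' (L' p))) :=
      hqT.tendsto_comp (hqD.continuousOn _ hl) hl hlw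
    have hqdT := hqT.deriv (Eventually.of_forall fun n => (h n).qd) Lim_open
    have h4 : Tendsto (fun n => deriv (q n) (L n p)) U (𝓝 (deriv q' (L' p))) :=
      hqdT.tendsto_comp ((hqD.deriv Lim_open).continuousOn _ hl) hl hlw
    have h5 := h1.const_mul p.2
    have hE : Continuous Pool.Agent.MP_ae5b4e_an_M.E2 :=
      Pool.Agent.MP_ae5b4e_an_M.E2_diff.continuous
    have h6 : Tendsto (fun n => bb (q n) (L n p) (p.2 * deriv (fun s => L n (s, p.2)) p.1)) U
        (𝓝 (bb q' (L' p) (p.2 * deriv (fun s => L' (s, p.2)) p.1))) := by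
      unfold bb
      exact (((h4.div_const 2).neg).mul (h5.pow 4)).mul
        ((hE.tendsto _).comp (h3.mul (h5.pow 2)))
    exact tendsto_nhds_unique (h2.const_mul (p.2 ^ 2)) (h6.congr fun n => ((h n).ode p hp).symm)

end Pool.Agent.MP_ae5b4e_an_N3
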