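import Pool.Agent.Lib.MP_ae5b4e_an_N3.ConeC
import Pool.Agent.Lib.MP_ae5b4e_an_N3.Flow
import Pool.Agent.Lib.MP_ae5b4e_an_N3.Lim

/-! # Section N3: labels close to the label of a cone of mass `< 1` extend near `(- i, i)` -/

noncomputable section

namespace Pool.Agent.MP_ae5b4e_an_N3

open Complex Set Filter Topology Metric
open PorTR (Hm)
open Pool.Agent.MP_ae5b4e_an_M (bb)

private theorem Ext_Hm_open : IsOpen Hm := isOpen_lt Complex.continuous_im continuous_const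

/-- `bb (q n) → bb q` uniformly on compact subsets of `Hm × ℂ`, as an eventual bound.

Proof. `q n → q` and `deriv (q n) → deriv q` uniformly on the compact projection
(`TendstoLocallyUniformlyOn.deriv`), `E2` is continuous (`E2_diff`), so `bb (q n)` is eventually
bounded on `K`. -/
theorem exists_bb_bound {U : Ultrafilter ℕ} {q : ℕ → ℂ → ℂ} {q' : ℂ → ℂ}
    (hq : ∀ n, DifferentiableOn ℂ (q n) Hm) (hq' : DifferentiableOn ℂ q' Hm)
    (hlim : TendstoLocallyUniformlyOn q q' U Hm) {K : Set (ℂ × ℂ)} (hK : IsCompact K)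
    (hKH : K ⊆ Hm ×ˢ univ) :
    ∃ B : ℝ, ∀ᶠ n in (U : Filter ℕ), ∀ p ∈ K, ‖bb (q n) p.1 p.2‖ ≤ B := by
  have hK1 : IsCompact (Prod.fst '' K) := hK.image continuous_fst
  have hK2 : IsCompact (Prod.snd '' K) := hK.image continuous_snd
  have hK1H : Prod.fst '' K ⊆ Hm := by
    rintro _ ⟨p, hp, rfl⟩
    exact (hKH hp).1
  obtain ⟨A, hA⟩ := hK1.exists_bound_of_continuousOn (hq'.continuousOn.mono hK1H)
  have hd : DifferentiableOn ℂ (deriv q') Hm := hq'.deriv Ext_Hm_open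
  obtain ⟨A', hA'⟩ := hK1.exists_bound_of_continuousOn (hd.continuousOn.mono hK1H)
  obtain ⟨M, hM⟩ := hK2.exists_bound_of_continuousOn (f := fun z : ℂ => z)
    continuous_id.continuousOn
  obtain ⟨E, hE⟩ := (isCompact_closedBall (0:ℂ) ((|A| + 1) * |M| ^ 2)).exists_bound_of_continuousOn
    (f := Pool.Agent.MP_ae5b4e_an_M.E2)
    Pool.Agent.MP_ae5b4e_an_M.E2_diff.continuous.continuousOn
  have hlim' : TendstoLocallyUniformlyOn (fun n => deriv (q n)) (deriv q') U Hm :=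
    hlim.deriv (Filter.Eventually.of_forall hq) Ext_Hm_open
  have h1 := Pool.Agent.MP_ae5b4e_an_M.unif_compact hlim hK1 hK1H one_pos
  have h2 := Pool.Agent.MP_ae5b4e_an_M.unif_compact hlim' hK1 hK1H one_pos
  refine ⟨(|A'| + 1) / 2 * |M| ^ 4 * |E|, ?_⟩
  filter_upwards [h1, h2] with n hn1 hn2 p hp
  have hp1 : p.1 ∈ Prod.fst '' K := ⟨p, hp, rfl⟩
  have hp2 : p.2 ∈ Prod.snd '' K := ⟨p, hp, rfl⟩
  have e1 : ‖q n p.1‖ ≤ |A| + 1 := by
    have a1 := hn1 _ hp1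
    have a2 := hA _ hp1
    have a3 := norm_sub_norm_le (q n p.1) (q' p.1)
    have a4 := le_abs_self A
    linarith
  have e2 : ‖deriv (q n) p.1‖ ≤ |A'| + 1 := by
    have a1 := hn2 _ hp1
    have a2 := hA' _ hp1
    have a3 := norm_sub_norm_le (deriv (q n) p.1) (deriv q' p.1)
    have a4 := le_abs_self A'
    linarith
  have e3 : ‖p.2‖ ≤ |M| := (hM _ hp2).trans (le_abs_self M)
  have e4 : ‖q n p.1 * p.2 ^ 2‖ ≤ (|A| + 1) * |M| ^ 2 := by
    rw [norm_mul, norm_pow]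
    exact mul_le_mul e1 (pow_le_pow_left₀ (norm_nonneg _) e3 2) (by positivity) (by positivity)
  have e5 : ‖Pool.Agent.MP_ae5b4e_an_M.E2 (q n p.1 * p.2 ^ 2)‖ ≤ |E| :=
    (hE _ (mem_closedBall_zero_iff.2 e4)).trans (le_abs_self E)
  unfold bb
  rw [norm_mul, norm_mul, norm_neg, norm_div, norm_pow]
  have e6 : ‖(2:ℂ)‖ = 2 := by simp
  rw [e6]
  gcongr

private theorem Ext_deriv_eq {L : ℂ × ℂ → ℂ} {p : ℂ × ℂ} (h : AnalyticAt ℂ L p) :
    deriv (fun s => L (s, p.2)) p.1 = fderiv ℂ L p (1, 0) := by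
  have h1 : HasDerivAt (fun s : ℂ => (s, p.2)) ((1, 0) : ℂ × ℂ) p.1 :=
    (hasDerivAt_id p.1).prodMk (hasDerivAt_const p.1 p.2)
  have h2 : HasFDerivAt L (fderiv ℂ L p) (p.1, p.2) := h.differentiableAt.hasFDerivAt
  exact (h2.comp_hasDerivAt p.1 h1).deriv

private theorem Ext_deriv_an {L : ℂ × ℂ → ℂ} {Ω : Set (ℂ × ℂ)} (hΩ : IsOpen Ω)
    (h : AnalyticOnNhd ℂ L Ω) :
    AnalyticOnNhd ℂ (fun p : ℂ × ℂ => p.2 * deriv (fun s => L (s, p.2)) p.1) Ω := by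
  intro p hp
  have h0 : AnalyticAt ℂ (fun p : ℂ × ℂ => fderiv ℂ L p (1, 0)) p :=
    AnalyticAt.fun_comp (g := fun T : (ℂ × ℂ) →L[ℂ] ℂ => T (1, 0))
      ((ContinuousLinearMap.apply ℂ ℂ ((1, 0) : ℂ × ℂ)).analyticAt _) (h.fderiv p hp)
  have h1 : AnalyticAt ℂ (fun p : ℂ × ℂ => p.2 * fderiv ℂ L p (1, 0)) p := analyticAt_snd.mul h0
  refine h1.congr ?_
  filter_upwards [hΩ.mem_nhds hp] with r hr
  rw [Ext_deriv_eq (h r hr)]

private theorem Ext_slice {L : ℂ × ℂ → ℂ} {τ0 γ1 : ℂ} {ρ : ℝ}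
    (h : ∀ γ ∈ ball γ1 ρ, AnalyticAt ℂ L (τ0, γ)) :
    DifferentiableOn ℂ (fun γ => L (τ0, γ)) (ball γ1 ρ) := by
  intro γ hγ
  exact (DifferentiableAt.comp γ (g := L) (f := fun x : ℂ => (τ0, x))
    (h γ hγ).differentiableAt (by fun_prop)).differentiableWithinAt

private theorem Ext_LB {U : Ultrafilter ℕ} {C : ℝ} {q G : ℕ → ℂ → ℂ} {L : ℕ → ℂ × ℂ → ℂ}
    (h : ∀ n, CL C (q n) (G n) (L n)) (p : ℂ × ℂ) (hp : p ∈ DC) :
    Pool.Agent.MP_ae5b4e_an_M.LB U L p := by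
  obtain ⟨δ, hδ, hb⟩ := Metric.nhds_basis_closedBall.mem_iff.1 (isOpen_DC.mem_nhds hp)
  obtain ⟨M, hM⟩ := exists_bound C (h 0).C_two (isCompact_closedBall p δ) hb
  refine ⟨δ, hδ, M, Filter.Eventually.of_forall fun n => ⟨?_, ?_⟩⟩
  · exact (h n).an.mono (ball_subset_closedBall.trans hb)
  · intro r hr
    exact hM _ _ _ (h n) r (ball_subset_closedBall hr)

/-- the set of admissible states -/
private def Ext_Om (δ M : ℝ) : Set (ℂ × ℂ) := {p | p.1.im < -(δ / 4) ∧ ‖p.1‖ < M ∧ ‖p.2‖ < M}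

private theorem Ext_Om_open (δ M : ℝ) : IsOpen (Ext_Om δ M) := by
  refine IsOpen.inter ?_ (IsOpen.inter ?_ ?_)
  · exact isOpen_lt (Complex.continuous_im.comp continuous_fst) continuous_const
  · exact isOpen_lt (continuous_norm.comp continuous_fst) continuous_const
  · exact isOpen_lt (continuous_norm.comp continuous_snd) continuous_const

/-- its closure -/
private def Ext_Oc (δ M : ℝ) : Set (ℂ × ℂ) := {p | p.1.im ≤ -(δ / 4) ∧ ‖p.1‖ ≤ M ∧ ‖p.2‖ ≤ M}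

private theorem Ext_Oc_compact (δ M : ℝ) : IsCompact (Ext_Oc δ M) := by
  refine (isCompact_closedBall (0 : ℂ × ℂ) |M|).of_isClosed_subset ?_ ?_
  · refine IsClosed.inter ?_ (IsClosed.inter ?_ ?_)
    · exact isClosed_le (Complex.continuous_im.comp continuous_fst) continuous_const
    · exact isClosed_le (continuous_norm.comp continuous_fst) continuous_const
    · exact isClosed_le (continuous_norm.comp continuous_snd) continuous_const
  · rintro p ⟨-, h1, h2⟩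
    rw [mem_closedBall_zero_iff, Prod.norm_def]
    exact max_le (h1.trans (le_abs_self M)) (h2.trans (le_abs_self M))

private theorem Ext_ball {δ M : ℝ} (hδ1 : δ ≤ 1) {l a : ℂ} (h1 : l.im ≤ -(δ / 2))
    (h2 : ‖l‖ ≤ M + 1) (h3 : ‖a‖ ≤ M + 1) : ball (l, a) (δ / 4) ⊆ Ext_Om δ (M + 2) := by
  rintro ⟨x, y⟩ hp
  rw [mem_ball, Prod.dist_eq, max_lt_iff, dist_eq_norm, dist_eq_norm] at hp
  obtain ⟨h4, h5⟩ := hp
  dsimp only at h4 h5
  refine ⟨?_, ?_, ?_⟩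
  · have h6 := (Complex.abs_im_le_norm (x - l)).trans_lt h4
    rw [Complex.sub_im, abs_lt] at h6
    change x.im < -(δ / 4)
    linarith [h6.2]
  · have h6 := norm_sub_norm_le x l
    change ‖x‖ < M + 2
    linarith
  · have h6 := norm_sub_norm_le y a
    change ‖y‖ < M + 2
    linarith

/-- STABILITY.

Proof. `δ ≤ 1`, `M ≥ 1` from `cone_cpt` for `L'`. `Ω := {(l, a) | Im l < - δ / 4, |l| < M + 2, |a| < M + 2}`,
`R := δ / 8`; `B` from `exists_bb_bound` on the closure of `Ω` (`⊆ Hm × ℂ`, compact). `r` from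
`exists_flow R B (M + 1)`. Put `r' := min (r / 4) 1`, `τ0 := - (1 + r') i`; the state
`(L', γ ∂τ L')` at `(τ0, i)` has `Im l ≤ - δ`, `|l|, |a| ≤ M`. By continuity there is `ρ ≤ 1 / 2` such that
for `γ` in the closed ball of radius `ρ` about `i`: `(τ0, γ) ∈ DC` and the state of `L'` at `(τ0, γ)` has
`Im l ≤ - 3 δ / 4`, `|l|, |a| ≤ M + 1 / 2`. Uniform convergence of `L n` and `∂τ L n` on the compact
`{τ0} × closedBall i ρ` (M/Mont `unif_compact`, `unif_deriv`, local bounds from `exists_bound`): for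
almost all `n` the state of `L n` has `Im l ≤ - δ / 2`, `|l|, |a| ≤ M + 1`, so its ball of radius
`2 R = δ / 4` is in `Ω`. `exists_flow` with `b := bb (q n)` (analytic on `Ω`: `bb_an`),
`l0 γ := L n (τ0, γ)`, `a0 γ := γ ∂τ L n (τ0, γ)` gives `g` on `ball τ0 r × ball i ρ` with values in
`Hm`; this contains the ball of radius `ε := min (r / 2) ρ` about `(- i, i)` (`r' + ε < r`). For
`γ ∈ ball i ρ` the functions `g (·, γ)` and `L n (·, γ)` solve the same equation on the convex open set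
`ball τ0 r ∩ {Im τ < - |Im γ|} ∋ τ0` with the same data at `τ0`: they agree (`bb_unique`, M/FnB). -/
theorem ext_of_close {U : Ultrafilter ℕ} {C k : ℝ} (hk : 0 ≤ k) (hk1 : k < 1) {G' : ℂ → ℂ}
    {L' : ℂ × ℂ → ℂ} (h' : CL C (cq (k ^ 2)) G' L') {q G : ℕ → ℂ → ℂ} {L : ℕ → ℂ × ℂ → ℂ}
    (h : ∀ n, CL C (q n) (G n) (L n)) (hq : TendstoLocallyUniformlyOn q (cq (k ^ 2)) U Hm)
    (hL : TendstoLocallyUniformlyOn L L' U DC) :
    ∃ ε > 0, ∀ᶠ n in (U : Filter ℕ), ExtB (L n) (-I, I) ε := by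
  obtain ⟨δ0, hδ0, M0, hM0⟩ := cone_cpt hk hk1 h'
  obtain ⟨δ, hδdef⟩ : ∃ δ, δ = min δ0 1 := ⟨_, rfl⟩
  obtain ⟨M, hMdef⟩ : ∃ M, M = max M0 1 := ⟨_, rfl⟩
  have hδ : 0 < δ := by rw [hδdef]; exact lt_min hδ0 one_pos
  have hδ1 : δ ≤ 1 := by rw [hδdef]; exact min_le_right _ _
  have hδδ : δ ≤ δ0 := by rw [hδdef]; exact min_le_left _ _
  have hM1 : 1 ≤ M := by rw [hMdef]; exact le_max_right _ _
  have hMM : M0 ≤ M := by rw [hMdef]; exact le_max_left _ _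
  -- the bound for `bb`
  have hOcH : Ext_Oc δ (M + 2) ⊆ Hm ×ˢ univ := by
    rintro p ⟨h1, -, -⟩
    refine ⟨?_, trivial⟩
    change p.1.im < 0
    linarith
  obtain ⟨B, hB⟩ := exists_bb_bound (fun n => (h n).qd) h'.qd hq (Ext_Oc_compact δ (M + 2)) hOcH
  obtain ⟨r, hr, hflow⟩ := exists_flow (δ / 8) B (M + 1) (by positivity)
  obtain ⟨r', hr'def⟩ : ∃ r', r' = min (r / 4) 1 := ⟨_, rfl⟩
  have hr' : 0 < r' := by rw [hr'def]; exact lt_min (by positivity) one_pos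
  have hr'1 : r' ≤ 1 := by rw [hr'def]; exact min_le_right _ _
  have hr'r : r' ≤ r / 4 := by rw [hr'def]; exact min_le_left _ _
  obtain ⟨τ0, hτ0⟩ : ∃ τ0 : ℂ, τ0 = -(((1 + r' : ℝ) : ℂ) * I) := ⟨_, rfl⟩
  have hτim : τ0.im = -(1 + r') := by rw [hτ0]; simp
  obtain ⟨c1, c2, c3⟩ := hM0 (1 + r') (by linarith) (by linarith)
  rw [← hτ0] at c1 c2 c3
  have hDI : ((τ0, I) : ℂ × ℂ) ∈ DC := by
    change τ0.im < -|I.im|
    rw [hτim, Complex.I_im, abs_one]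
    linarith
  -- continuity of the state of `L'`
  have hcL : ContinuousAt (fun γ : ℂ => L' (τ0, γ)) I :=
    ContinuousAt.comp (g := L') (f := fun γ : ℂ => (τ0, γ)) (x := I)
      (h'.an _ hDI).continuousAt (by fun_prop)
  have hda := Ext_deriv_an isOpen_DC h'.an
  have hcA : ContinuousAt (fun γ : ℂ => γ * deriv (fun s => L' (s, γ)) τ0) I :=
    ContinuousAt.comp (g := fun p : ℂ × ℂ => p.2 * deriv (fun s => L' (s, p.2)) p.1)
      (f := fun γ : ℂ => (τ0, γ)) (x := I) (hda _ hDI).continuousAt (by fun_prop)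
  have n1 : ∀ᶠ γ in 𝓝 I, ((τ0, γ) : ℂ × ℂ) ∈ DC :=
    (show Continuous fun γ : ℂ => ((τ0, γ) : ℂ × ℂ) by fun_prop).continuousAt.preimage_mem_nhds
      (isOpen_DC.mem_nhds hDI)
  have n2 : ∀ᶠ γ in 𝓝 I, ‖L' (τ0, γ) - L' (τ0, I)‖ < δ / 4 := by
    have := Metric.tendsto_nhds.1 hcL.tendsto (δ / 4) (by positivity)
    filter_upwards [this] with γ hγ
    rwa [dist_eq_norm] at hγ
  have n3 : ∀ᶠ γ in 𝓝 I, ‖γ * deriv (fun s => L' (s, γ)) τ0 -
      I * deriv (fun s => L' (s, I)) τ0‖ < δ / 4 := by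
    have := Metric.tendsto_nhds.1 hcA.tendsto (δ / 4) (by positivity)
    filter_upwards [this] with γ hγ
    rwa [dist_eq_norm] at hγ
  obtain ⟨ρ0, hρ0, hρb⟩ := Metric.nhds_basis_closedBall.mem_iff.1 (n1.and (n2.and n3))
  obtain ⟨ρ, hρdef⟩ : ∃ ρ, ρ = min ρ0 (1 / 2) := ⟨_, rfl⟩
  have hρ : 0 < ρ := by rw [hρdef]; exact lt_min hρ0 (by norm_num)
  have hρ2 : ρ ≤ 1 / 2 := by rw [hρdef]; exact min_le_right _ _
  have hρρ : ρ ≤ ρ0 := by rw [hρdef]; exact min_le_left _ _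
  have hst : ∀ γ ∈ closedBall I ρ, ((τ0, γ) : ℂ × ℂ) ∈ DC ∧
      ‖L' (τ0, γ) - L' (τ0, I)‖ < δ / 4 ∧
      ‖γ * deriv (fun s => L' (s, γ)) τ0 - I * deriv (fun s => L' (s, I)) τ0‖ < δ / 4 :=
    fun γ hγ => hρb (closedBall_subset_closedBall hρρ hγ)
  -- uniform convergence
  have hK0 : IsCompact (({τ0} : Set ℂ) ×ˢ closedBall I ρ) :=
    isCompact_singleton.prod (isCompact_closedBall I ρ)
  have hK0D : (({τ0} : Set ℂ) ×ˢ closedBall I ρ) ⊆ DC := by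
    rintro ⟨x, y⟩ ⟨hx, hy⟩
    rw [mem_singleton_iff] at hx
    dsimp only at hx hy
    rw [hx]
    exact (hst y hy).1
  have u1 := Pool.Agent.MP_ae5b4e_an_M.unif_compact hL hK0 hK0D (show 0 < δ / 8 by positivity)
  have u2 := Pool.Agent.MP_ae5b4e_an_M.unif_deriv isOpen_DC h'.an (fun p hp => Ext_LB h p hp) hL
    hK0 hK0D (show 0 < δ / 8 by positivity)
  refine ⟨min (r / 2) ρ, lt_min (by positivity) hρ, ?_⟩
  filter_upwards [hB, u1, u2] with n hnB hn1 hn2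
  have hI : ‖I‖ = 1 := Complex.norm_I
  -- the state of `L n`
  have hstn : ∀ γ ∈ closedBall I ρ, (L n (τ0, γ)).im ≤ -(δ / 2) ∧ ‖L n (τ0, γ)‖ ≤ M + 1 ∧
      ‖γ * deriv (fun s => L n (s, γ)) τ0‖ ≤ M + 1 := by
    intro γ hγ
    obtain ⟨-, s2, s3⟩ := hst γ hγ
    have m1 := hn1 (τ0, γ) ⟨rfl, hγ⟩
    have m2 := (hn2 (τ0, γ) ⟨rfl, hγ⟩).1
    dsimp only at m2
    have e1 : ‖L n (τ0, γ) - L' (τ0, I)‖ < δ / 2 := by
      have := norm_add_le (L n (τ0, γ) - L' (τ0, γ)) (L' (τ0, γ) - L' (τ0, I))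
      rw [sub_add_sub_cancel] at this
      linarith
    refine ⟨?_, ?_, ?_⟩
    · have e2 := (Complex.abs_im_le_norm (L n (τ0, γ) - L' (τ0, I))).trans_lt e1
      rw [Complex.sub_im, abs_lt] at e2
      linarith [e2.2]
    · have e2 := norm_sub_norm_le (L n (τ0, γ)) (L' (τ0, I))
      linarith
    · have hγn : ‖γ‖ ≤ 3 / 2 := by
        rw [mem_closedBall, dist_eq_norm] at hγ
        have := norm_sub_norm_le γ I
        linarith
      have e2 : ‖γ * deriv (fun s => L n (s, γ)) τ0 - γ * deriv (fun s => L' (s, γ)) τ0‖ ≤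
          3 / 2 * (δ / 8) := by
        rw [← mul_sub, norm_mul]
        exact mul_le_mul hγn m2.le (norm_nonneg _) (by norm_num)
      have e3 : ‖I * deriv (fun s => L' (s, I)) τ0‖ ≤ M := by
        rw [norm_mul, hI, one_mul]
        linarith
      have e4 := norm_sub_norm_le (γ * deriv (fun s => L n (s, γ)) τ0)
        (γ * deriv (fun s => L' (s, γ)) τ0)
      have e5 := norm_sub_norm_le (γ * deriv (fun s => L' (s, γ)) τ0)
        (I * deriv (fun s => L' (s, I)) τ0)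
      linarith
  have hanL : ∀ γ ∈ ball I ρ, AnalyticAt ℂ (L n) (τ0, γ) := fun γ hγ =>
    (h n).an _ (hst γ (ball_subset_closedBall hγ)).1
  have hanA : ∀ γ ∈ ball I ρ, AnalyticAt ℂ
      (fun p : ℂ × ℂ => p.2 * deriv (fun s => L n (s, p.2)) p.1) (τ0, γ) := fun γ hγ =>
    Ext_deriv_an isOpen_DC (h n).an _ (hst γ (ball_subset_closedBall hγ)).1
  have hRR : 2 * (δ / 8) = δ / 4 := by ring
  have hsub : ∀ γ ∈ ball I ρ,
      ball (L n (τ0, γ), γ * deriv (fun s => L n (s, γ)) τ0) (2 * (δ / 8)) ⊆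
        Ext_Om δ (M + 2) := by
    intro γ hγ
    obtain ⟨s1, s2, s3⟩ := hstn γ (ball_subset_closedBall hγ)
    rw [hRR]
    exact Ext_ball hδ1 s1 s2 s3
  have hOmH : Ext_Om δ (M + 2) ⊆ Hm ×ˢ univ := by
    rintro p ⟨h1, -, -⟩
    refine ⟨?_, trivial⟩
    change p.1.im < 0
    linarith
  obtain ⟨l, hla, hl0, hl1⟩ := hflow (fun p => bb (q n) p.1 p.2) (Ext_Om δ (M + 2))
    (Ext_Om_open _ _) ((Pool.Agent.MP_ae5b4e_an_M.bb_an (h n).qd).mono hOmH)
    (fun p hp => hnB p ⟨hp.1.le, hp.2.1.le, hp.2.2.le⟩) τ0 I ρ (fun γ => L n (τ0, γ))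
    (fun γ => γ * deriv (fun s => L n (s, γ)) τ0) (Ext_slice hanL)
    (Ext_slice (L := fun p : ℂ × ℂ => p.2 * deriv (fun s => L n (s, p.2)) p.1) hanA)
    (fun γ hγ => ⟨by
      rw [mem_ball, dist_eq_norm] at hγ
      have := norm_sub_norm_le I γ
      rw [norm_sub_rev] at this
      linarith, (hstn γ (ball_subset_closedBall hγ)).2.2, hsub γ hγ⟩)
  have hbb : ball ((-I, I) : ℂ × ℂ) (min (r / 2) ρ) ⊆ ball τ0 r ×ˢ ball I ρ := by
    rintro ⟨x, y⟩ hp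
    rw [mem_ball, Prod.dist_eq, max_lt_iff] at hp
    obtain ⟨h4, h5⟩ := hp
    dsimp only at h4 h5
    refine ⟨?_, h5.trans_le (min_le_right _ _)⟩
    rw [mem_ball]
    have h6 : dist (-I) τ0 = r' := by
      rw [dist_eq_norm, hτ0]
      have h7 : -I - -(((1 + r' : ℝ) : ℂ) * I) = (r' : ℂ) * I := by
        push_cast
        ring
      rw [h7, norm_mul, hI, mul_one, Complex.norm_real, Real.norm_eq_abs, abs_of_pos hr']
    have h8 := dist_triangle x (-I) τ0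
    have h9 := h4.trans_le (min_le_left _ _)
    linarith
  have hlH : ∀ γ ∈ ball I ρ, ∀ τ ∈ ball τ0 r, l (τ, γ) ∈ Hm := fun γ hγ τ hτ =>
    (hOmH (hsub γ hγ (hl1 γ hγ τ hτ).1)).1
  refine ⟨l, hla.mono hbb, ?_, ?_⟩
  · intro p hp
    obtain ⟨h4, h5⟩ := hbb hp
    exact hlH p.2 h5 p.1 h4
  · rintro p ⟨hp, hpD⟩
    obtain ⟨h4, h5⟩ := hbb hp
    have hγ0 : p.2 ≠ 0 := by
      intro h0
      rw [h0, mem_ball, dist_eq_norm, zero_sub, norm_neg, hI] at h5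
      linarith
    have hSo : IsOpen (ball τ0 r ∩ {τ : ℂ | τ.im < -|p.2.im|}) :=
      isOpen_ball.inter (isOpen_lt Complex.continuous_im continuous_const)
    have hSc : IsPreconnected (ball τ0 r ∩ {τ : ℂ | τ.im < -|p.2.im|}) :=
      ((convex_ball τ0 r).inter (convex_halfSpace_im_lt _)).isPreconnected
    have hsl : ∀ (f : ℂ × ℂ → ℂ) (s : ℂ), AnalyticAt ℂ f (s, p.2) →
        AnalyticAt ℂ (fun s => f (s, p.2)) s := fun f s hf =>
      AnalyticAt.fun_comp (f := fun s : ℂ => (s, p.2)) hf (analyticAt_id.prod analyticAt_const)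
    have hE := Pool.Agent.MP_ae5b4e_an_M.bb_unique (h n).qd (l₁ := fun s => l (s, p.2))
      (l₂ := fun s => L n (s, p.2)) hγ0 hSo hSc
      (fun s hs => hsl l s (hla _ ⟨hs.1, h5⟩))
      (fun s hs => hsl (L n) s ((h n).an _ hs.2))
      (fun s hs => hlH p.2 h5 s hs.1)
      (fun s hs => (h n).maps (show ((s, p.2) : ℂ × ℂ) ∈ DC from hs.2))
      (fun s hs => (hl1 p.2 h5 s hs.1).2)
      (fun s hs => (h n).ode (s, p.2) hs.2)
      (s₀ := τ0) ⟨mem_ball_self hr, (hst p.2 (ball_subset_closedBall h5)).1⟩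
      (hl0 p.2 h5).1 (mul_left_cancel₀ hγ0 (hl0 p.2 h5).2)
    exact hE ⟨h4, hpD⟩

end Pool.Agent.MP_ae5b4e_an_N3
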