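import Pool.Agent.Lib.MP_ae5b4e_an_N3.Boot

/-! # Section N3: the interface (N4) of the global argument, from the core theorem of section N4 -/

noncomputable section

namespace Pool.Agent.MP_ae5b4e_an_N3

open Complex Set Filter Topology Metric
open Pool.Agent.MP_ae5b4e_an_NB2 (Sys)
open Pool.Agent.MP_ae5b4e_an_N5 (NV Con N4)
open Pool.Agent.MP_ae5b4e_an_PB
open Pool.Agent.MP_ae5b4e_an_N4 (Hyp Sg)

variable {Y : Sys} {h R C0 : ℝ} {v : ℂ → ℝ} {G L : ℂ × ℂ → ℂ}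

/-- `L x ^ (1 / 4) ≥ 1` for `x ≥ 1 / L`, `L ≥ 1` -/
private theorem Fin_pow {L x : ℝ} (hL : 1 ≤ L) (hx : 1 / L ≤ x) :
    1 ≤ L * x ^ (1 / 4 : ℝ) := by
  have hL0 : 0 < L := by linarith
  have h1 : 0 < 1 / L := by positivity
  have h2 : 1 / L ≤ 1 := by
    rw [div_le_one hL0]
    exact hL
  have h3 : (1 / L) ^ (1 : ℝ) ≤ (1 / L) ^ (1 / 4 : ℝ) :=
    Real.rpow_le_rpow_of_exponent_ge h1 h2 (by norm_num)
  rw [Real.rpow_one] at h3
  have h4 : (1 / L) ^ (1 / 4 : ℝ) ≤ x ^ (1 / 4 : ℝ) :=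
    Real.rpow_le_rpow h1.le hx (by norm_num)
  have h5 : L * (1 / L) ≤ L * x ^ (1 / 4 : ℝ) :=
    mul_le_mul_of_nonneg_left (h3.trans h4) hL0.le
  rwa [mul_one_div_cancel hL0.ne'] at h5

private theorem Fin_mul {L y : ℝ} (hL : 1 ≤ L) (hy : 0 ≤ y) :
    (L * y) ^ (1 / 4 : ℝ) ≤ L * y ^ (1 / 4 : ℝ) := by
  rw [Real.mul_rpow (by linarith) hy]
  have h1 : L ^ (1 / 4 : ℝ) ≤ L ^ (1 : ℝ) :=
    Real.rpow_le_rpow_of_exponent_le hL (by norm_num)
  rw [Real.rpow_one] at h1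
  exact mul_le_mul_of_nonneg_right h1 (Real.rpow_nonneg hy _)

/-- the closest point of an interval -/
private theorem Fin_clamp {x a b : ℝ} (h : a ≤ b) :
    ∃ r, a ≤ r ∧ r ≤ b ∧ ((x < a ∧ r = a) ∨ (b < x ∧ r = b) ∨ r = x) := by
  rcases lt_or_ge x a with h1 | h1
  · exact ⟨a, le_rfl, h, Or.inl ⟨h1, rfl⟩⟩
  · rcases lt_or_ge b x with h2 | h2
    · exact ⟨b, h, le_rfl, Or.inr (Or.inl ⟨h2, rfl⟩)⟩
    · exact ⟨x, h1, h2, Or.inr (Or.inr rfl)⟩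

private theorem Fin_hyp {η η₁ lam a Λ₀ rf re κ x0 : ℝ} (hη₁0 : 0 < η₁)
    (hη₁ : η₁ ≤ η / 4) (hl : 0 < lam) (hΛ : 1 ≤ Λ₀) (hrf : 0 < rf)
    (hre : Λ₀ ^ 2 * rf ≤ re) (hR : re ≤ R / 8) (hκ : 0 < κ) (hsm : κ * re ≤ lam ^ 2 * h)
    (hcon : ∀ r, rf ≤ r → r ≤ re → Con v η₁ κ r)
    (hx0 : ∀ r, Λ₀ * rf ≤ r → r ≤ re / Λ₀ → ConeAt Y h η (min lam 1) a κ r x0) :
    Hyp Y h R v η lam a (Λ₀ * rf) (re / Λ₀) κ x0 := by
  have hΛ0 : 0 < Λ₀ := by linarith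
  have hre0 : 0 < re := lt_of_lt_of_le (by positivity) hre
  have hrle : Λ₀ * rf ≤ re / Λ₀ := by
    rw [le_div_iff₀ hΛ0]
    nlinarith
  have hrf1 : rf ≤ Λ₀ * rf := by nlinarith
  have hre1 : re / Λ₀ ≤ re := by
    rw [div_le_iff₀ hΛ0]
    nlinarith
  have hrf' : 0 < Λ₀ * rf := by positivity
  refine ⟨hrf', hrle, by linarith, ?_, ?_, ?_⟩
  · exact (mul_le_mul_of_nonneg_left hre1 hκ.le).trans hsm
  · intro ρ h1 h2
    obtain ⟨r, hr1, hr2, hr3⟩ := Fin_clamp (x := ‖ρ‖) hrle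
    have hr0 : 0 < r := lt_of_lt_of_le hrf' hr1
    have h3 : r / 4 ≤ ‖ρ‖ ∧ ‖ρ‖ ≤ 4 * r := by
      rcases hr3 with ⟨h4, h5⟩ | ⟨h4, h5⟩ | h5
      · constructor <;> linarith
      · constructor <;> linarith
      · constructor <;> linarith
    have h6 := (hcon r (hrf1.trans hr1) (hr2.trans hre1)).1 ρ h3.1 h3.2
    refine h6.trans (mul_le_mul_of_nonneg_left ?_ hκ.le)
    have h7 : 0 ≤ |ρ.im| := abs_nonneg _
    have h8 : η₁ * r ≤ η * ‖ρ‖ := by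
      have h9 : η₁ * r ≤ η₁ * (4 * ‖ρ‖) := mul_le_mul_of_nonneg_left (by linarith [h3.1]) hη₁0.le
      have h10 : η₁ * (4 * ‖ρ‖) ≤ η / 4 * (4 * ‖ρ‖) :=
        mul_le_mul_of_nonneg_right hη₁ (by positivity)
      linarith
    have h11 : (1 + η₁) * |ρ.im| ≤ (1 + η) * |ρ.im| := by
      refine mul_le_mul_of_nonneg_right ?_ h7
      linarith
    linarith
  · intro z h1 h2 h3
    obtain ⟨r, hr1, hr2, hr3⟩ := Fin_clamp (x := ‖z‖ / κ) hrle
    have hr0 : 0 < r := lt_of_lt_of_le hrf' hr1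
    have hl1 : min lam 1 ≤ lam := min_le_left _ _
    have hl2 : min lam 1 ≤ 1 := min_le_right _ _
    have hl0 : 0 < min lam 1 := lt_min hl one_pos
    have hz0 : 0 ≤ ‖z‖ := norm_nonneg z
    have hκr : 0 < κ * r := by positivity
    have a1 : min lam 1 * (κ * r) ≤ lam * (κ * r) := mul_le_mul_of_nonneg_right hl1 hκr.le
    have a2 : min lam 1 * (κ * r) ≤ 1 * (κ * r) := mul_le_mul_of_nonneg_right hl2 hκr.le
    have a3 : min lam 1 * ‖z‖ ≤ lam * ‖z‖ := mul_le_mul_of_nonneg_right hl1 hz0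
    have a4 : min lam 1 * ‖z‖ ≤ 1 * ‖z‖ := mul_le_mul_of_nonneg_right hl2 hz0
    refine hx0 r hr1 hr2 z ?_ ?_ h3
    · rcases hr3 with ⟨h4, h5⟩ | ⟨h4, h5⟩ | h5
      · rw [h5] at a1 ⊢
        linarith
      · rw [lt_div_iff₀ hκ] at h4
        rw [h5] at a2 ⊢
        linarith
      · have h6 : κ * r = ‖z‖ := by rw [h5]; field_simp
        rw [h6] at a2 ⊢
        linarith
    · rcases hr3 with ⟨h4, h5⟩ | ⟨h4, h5⟩ | h5
      · rw [div_lt_iff₀ hκ] at h4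
        rw [h5]
        linarith
      · rw [h5]
        linarith
      · have h6 : κ * r = ‖z‖ := by rw [h5]; field_simp
        rw [h6]
        linarith

/-- THE INTERFACE (N4) from the core theorem.

Proof. `boot`: `η₀, Λ₀, M₀`. `r0` := `min (R / 8)` and the number of `small_of_con` for
`ε := min (lam ^ 2) 1 * h` (so `κ re ≤ lam² h` for conical scales `re ≤ r0`). The constant `η` of (N4) is
`η₁ := min η₀ (η / 4) ⊓ 1 / 2`, `a := 1 / 4`. Given `rf, re, κ`: if `re < Λ₀² rf`: for `r ∈ [rf, re]`,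
`v r ≤ κ η₁ r` (`Con` at the scale `r`, `Im r = 0`) and `rf / r ≥ Λ₀ ^ (-2)`, so
`v r ≤ C₄ r κ (rf / r) ^ (1/4)` for `C₄ ≥ Λ₀`; `log (re / rf) ≤ 2 log Λ₀ ≤ C₄ log κ` for `κ ≥ e`.
Otherwise `boot` gives `x0`; put `rf' := Λ₀ rf`, `re' := re / Λ₀`. `Hyp` on `[rf', re']`: `con`: for
`rf' / 4 ≤ ‖ρ‖ ≤ 4 re'` take the scale `r` in `[rf, re]` closest to `‖ρ‖` (ratio `≤ 4`):
`v ρ ≤ κ ((1 + η₁) |Im ρ| + η₁ r) ≤ κ ((1 + η) |Im ρ| + η ‖ρ‖)`; `cone`: as in `exists_hyp`, the point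
`r` of `[rf', re']` closest to `‖z‖ / κ`. The core theorem: for `r ∈ [rf', re']`:
`v r ≤ C r (1 + κ ((r / re') ^ (1/4) + (rf' / r) ^ (1/4))) ≤ C Λ₀ r (1 + κ ((r / re) ^ (1/4) + (rf / r) ^ (1/4)))`;
for `r ∈ [rf, rf']` and `r ∈ [re', re]`: `v r ≤ κ η₁ r` as before; `log (re / rf) =
log (re' / rf') + 2 log Λ₀ ≤ C₄ log κ`. -/
theorem n4_of_core (hB : Base Y h R C0 v G L) {η lam a A C M : ℝ} (hη : 0 < η)
    (hl : 0 < lam) (ha : 0 < a) (hA : 10 ^ 10 ≤ A) (hC : 1 ≤ C)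
    (hcore : CoreP Y h R v G η lam a A C M) : ∃ r0 > 0, N4 v r0 := by
  obtain ⟨η₀, hη₀, Λ₀, hΛ, M₀, hboot⟩ := boot hB hη hl ha hA hC hcore
  have hh := hB.h_pos
  have hR := hB.R_pos
  have hε : 0 < min (lam ^ 2) 1 * h := mul_pos (lt_min (by positivity) one_pos) hh
  obtain ⟨r₀, hr₀, hsm⟩ := small_of_con hB.nv hR hε
  refine ⟨min (R / 8) r₀, lt_min (by positivity) hr₀, ?_⟩
  obtain ⟨η₁, hη₁⟩ : ∃ η₁ : ℝ, η₁ = min (min η₀ (η / 4)) (1 / 2) := ⟨_, rfl⟩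
  have hη₁0 : 0 < η₁ := by
    rw [hη₁]
    exact lt_min (lt_min hη₀ (by positivity)) (by norm_num)
  have hη₁a : η₁ ≤ η₀ := by
    rw [hη₁]
    exact (min_le_left _ _).trans (min_le_left _ _)
  have hη₁b : η₁ ≤ η / 4 := by
    rw [hη₁]
    exact (min_le_left _ _).trans (min_le_right _ _)
  have hη₁c : η₁ ≤ 1 / 2 := by
    rw [hη₁]
    exact min_le_right _ _
  have hΛ0 : 0 < Λ₀ := by linarith
  have hmono : ∀ {η η' κ r : ℝ}, Con v η κ r → η ≤ η' → 0 ≤ κ → 0 ≤ r → Con v η' κ r := by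
    intro η η' κ r hc h1 h2 h3
    refine ⟨fun ρ h4 h5 => (hc.1 ρ h4 h5).trans (mul_le_mul_of_nonneg_left ?_ h2),
      hc.2.trans (mul_le_mul_of_nonneg_right h1 h2)⟩
    have h6 : 0 ≤ |ρ.im| := abs_nonneg _
    nlinarith
  refine ⟨η₁, hη₁0, 1 / 4, by norm_num, C * Λ₀ + 2 * Λ₀ + Λ₀ ^ 2, by positivity,
    max (max M₀ M) (Real.exp 1), ?_⟩
  intro rf re κ hrf hle hre hκM hcon
  have hκ1 : M₀ ≤ κ := (le_max_left _ _).trans ((le_max_left _ _).trans hκM)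
  have hκ2 : M ≤ κ := (le_max_right _ _).trans ((le_max_left _ _).trans hκM)
  have hκ3 : Real.exp 1 ≤ κ := (le_max_right _ _).trans hκM
  have hκ0 : 0 < κ := lt_of_lt_of_le (Real.exp_pos 1) hκ3
  have hlog : 1 ≤ Real.log κ := by
    rw [Real.le_log_iff_exp_le hκ0]
    exact hκ3
  have hlogΛ : Real.log Λ₀ ≤ Λ₀ := (Real.log_le_sub_one_of_pos hΛ0).trans (by linarith)
  have hre0 : 0 < re := lt_of_lt_of_le hrf hle
  have hreR : re ≤ R / 8 := hre.trans (min_le_left _ _)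
  have hrer : re ≤ r₀ := hre.trans (min_le_right _ _)
  have hCΛ : C ≤ C * Λ₀ := le_mul_of_one_le_right (by linarith) hΛ
  have hΛ2 : 1 ≤ Λ₀ ^ 2 := one_le_pow₀ hΛ
  -- the crude estimate
  have hcr : ∀ r, rf ≤ r → r ≤ re → v (r : ℂ) ≤ κ * r := by
    intro r h1 h2
    have hr0 : 0 < r := lt_of_lt_of_le hrf h1
    have hn : ‖(r : ℂ)‖ = r := by rw [Complex.norm_real, Real.norm_of_nonneg hr0.le]
    have h3 := (hcon r h1 h2).1 (r : ℂ) (by rw [hn]; linarith) (by rw [hn]; linarith)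
    rw [ofReal_im, abs_zero, mul_zero, zero_add] at h3
    refine h3.trans (mul_le_mul_of_nonneg_left ?_ hκ0.le)
    nlinarith
  -- the crude estimate suffices near the ends
  have hend : ∀ {L r x y : ℝ}, 1 ≤ L → L ≤ C * Λ₀ + 2 * Λ₀ + Λ₀ ^ 2 → 0 < r → 1 / L ≤ x → 0 ≤ y →
      κ * r ≤ (C * Λ₀ + 2 * Λ₀ + Λ₀ ^ 2) * r * (1 + κ * (x ^ (1 / 4 : ℝ) + y ^ (1 / 4 : ℝ))) := by
    intro L r x y hL hLC hr hx hy
    have h1 := Fin_pow hL hx
    have hL0 : 0 < L := by linarith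
    have hx0 : 0 ≤ x := le_trans (by positivity) hx
    have h2 : 0 ≤ x ^ (1 / 4 : ℝ) := Real.rpow_nonneg hx0 _
    have h3 : 0 ≤ y ^ (1 / 4 : ℝ) := Real.rpow_nonneg hy _
    calc κ * r = κ * r * 1 := (mul_one _).symm
      _ ≤ κ * r * (L * x ^ (1 / 4 : ℝ)) := mul_le_mul_of_nonneg_left h1 (by positivity)
      _ = L * r * (κ * x ^ (1 / 4 : ℝ)) := by ring
      _ ≤ (C * Λ₀ + 2 * Λ₀ + Λ₀ ^ 2) * r * (κ * x ^ (1 / 4 : ℝ)) := by gcongr
      _ ≤ (C * Λ₀ + 2 * Λ₀ + Λ₀ ^ 2) * r *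
          (1 + κ * (x ^ (1 / 4 : ℝ) + y ^ (1 / 4 : ℝ))) := by
        refine mul_le_mul_of_nonneg_left ?_ (by positivity)
        have h4 : 0 ≤ κ * y ^ (1 / 4 : ℝ) := by positivity
        linarith
  rcases lt_or_ge re (Λ₀ ^ 2 * rf) with hcase | hcase
  · constructor
    · intro r h1 h2
      have hr0 : 0 < r := lt_of_lt_of_le hrf h1
      refine (hcr r h1 h2).trans ?_
      have h3 := hend (L := Λ₀ ^ 2) (r := r) (x := rf / r) (y := r / re) hΛ2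
        (by nlinarith) hr0 (by
          rw [div_le_div_iff₀ (by positivity) hr0]
          linarith) (by positivity)
      rw [add_comm ((r / re) ^ (1 / 4 : ℝ))]
      exact h3
    · have h3 : re / rf ≤ Λ₀ ^ 2 := by
        rw [div_le_iff₀ hrf]
        exact hcase.le
      have h4 : Real.log (re / rf) ≤ Real.log (Λ₀ ^ 2) := Real.log_le_log (by positivity) h3
      rw [Real.log_pow] at h4
      push_cast at h4
      have h5 : 2 * Λ₀ ≤ (C * Λ₀ + 2 * Λ₀ + Λ₀ ^ 2) * 1 := by nlinarith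
      have h6 : (C * Λ₀ + 2 * Λ₀ + Λ₀ ^ 2) * 1 ≤
          (C * Λ₀ + 2 * Λ₀ + Λ₀ ^ 2) * Real.log κ :=
        mul_le_mul_of_nonneg_left hlog (by positivity)
      linarith
  · obtain ⟨x0, hx0⟩ := hboot rf re κ hrf hcase hreR hκ1
      fun r h1 h2 => hmono (hcon r h1 h2) hη₁a hκ0.le (hrf.le.trans h1)
    have hsm' : κ * re ≤ lam ^ 2 * h := by
      have h1 := hsm re κ hre0 hrer (hmono (hcon re hle le_rfl) hη₁c hκ0.le hre0.le)
      exact h1.trans (mul_le_mul_of_nonneg_right (min_le_left _ _) hh.le)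
    have hH := Fin_hyp (Y := Y) (h := h) (R := R) (v := v) hη₁0 hη₁b hl hΛ hrf hcase hreR hκ0
      hsm' hcon hx0
    obtain ⟨c1, c2, -⟩ := hcore _ _ _ _ hκ2 hH
    constructor
    · intro r h1 h2
      have hr0 : 0 < r := lt_of_lt_of_le hrf h1
      rcases lt_or_ge r (Λ₀ * rf) with h3 | h3
      · refine (hcr r h1 h2).trans ?_
        have h4 := hend (L := Λ₀) (r := r) (x := rf / r) (y := r / re) hΛ
          (by nlinarith) hr0 (by
            rw [div_le_div_iff₀ hΛ0 hr0]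
            linarith) (by positivity)
        rw [add_comm ((r / re) ^ (1 / 4 : ℝ))]
        exact h4
      · rcases lt_or_ge (re / Λ₀) r with h4 | h4
        · refine (hcr r h1 h2).trans ?_
          exact hend (L := Λ₀) (r := r) (x := r / re) (y := rf / r) hΛ
            (by nlinarith) hr0 (by
              rw [div_lt_iff₀ hΛ0] at h4
              rw [div_le_div_iff₀ hΛ0 hre0]
              linarith) (by positivity)
        · refine (c1 r h3 h4).trans ?_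
          have h5 : r / (re / Λ₀) = Λ₀ * (r / re) := by field_simp
          have h6 : Λ₀ * rf / r = Λ₀ * (rf / r) := by ring
          have h7 := Fin_mul hΛ (show 0 ≤ r / re by positivity)
          have h8 := Fin_mul hΛ (show 0 ≤ rf / r by positivity)
          rw [h5, h6]
          have h9 : 0 ≤ (r / re) ^ (1 / 4 : ℝ) := Real.rpow_nonneg (by positivity) _
          have h10 : 0 ≤ (rf / r) ^ (1 / 4 : ℝ) := Real.rpow_nonneg (by positivity) _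
          calc C * r * (1 + κ * ((Λ₀ * (r / re)) ^ (1 / 4 : ℝ) +
                (Λ₀ * (rf / r)) ^ (1 / 4 : ℝ)))
              ≤ C * r * (Λ₀ + κ * (Λ₀ * (r / re) ^ (1 / 4 : ℝ) +
                Λ₀ * (rf / r) ^ (1 / 4 : ℝ))) := by gcongr
            _ = C * Λ₀ * r * (1 + κ * ((r / re) ^ (1 / 4 : ℝ) + (rf / r) ^ (1 / 4 : ℝ))) := by
              ring
            _ ≤ (C * Λ₀ + 2 * Λ₀ + Λ₀ ^ 2) * r *
                (1 + κ * ((r / re) ^ (1 / 4 : ℝ) + (rf / r) ^ (1 / 4 : ℝ))) := by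
              have h11 : C * Λ₀ ≤ C * Λ₀ + 2 * Λ₀ + Λ₀ ^ 2 := by nlinarith
              gcongr
    · have h3 : re / rf = (re / Λ₀) / (Λ₀ * rf) * Λ₀ ^ 2 := by field_simp
      have h4 : Real.log (re / rf) = Real.log ((re / Λ₀) / (Λ₀ * rf)) + 2 * Real.log Λ₀ := by
        rw [h3, Real.log_mul (by positivity) (by positivity), Real.log_pow]
        push_cast
        ring
      rw [h4]
      have h5 : C * Real.log κ + 2 * Λ₀ * 1 ≤ C * Real.log κ + 2 * Λ₀ * Real.log κ := by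
        have := mul_le_mul_of_nonneg_left hlog (show 0 ≤ 2 * Λ₀ by positivity)
        linarith
      have h6 : (C + 2 * Λ₀) * Real.log κ ≤ (C * Λ₀ + 2 * Λ₀ + Λ₀ ^ 2) * Real.log κ := by
        refine mul_le_mul_of_nonneg_right ?_ (by linarith)
        nlinarith
      nlinarith

end Pool.Agent.MP_ae5b4e_an_N3
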