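import Pool.Agent.Lib.MP_ae5b4e_an_N3.Zoom
import Pool.Agent.Lib.MP_ae5b4e_an_M.FnB

/-! # Section N3: the primitive `G` of the potential from the label -/

noncomputable section

namespace Pool.Agent.MP_ae5b4e_an_N3

open Complex Set Filter Topology Metric
open PorTR (Hm)
open Pool.Agent.MP_ae5b4e_an_M (bb E2)

private def GFun_D (v : ℂ × ℂ) (F : ℂ × ℂ → ℂ) (p : ℂ × ℂ) : ℂ := fderiv ℂ F p v

private theorem GFun_an (v : ℂ × ℂ) {F : ℂ × ℂ → ℂ} {U : Set (ℂ × ℂ)} (h : AnalyticOnNhd ℂ F U) :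
    AnalyticOnNhd ℂ (GFun_D v F) U := fun p hp =>
  ((ContinuousLinearMap.apply ℂ ℂ v).analyticAt _).comp (h p hp).fderiv

private theorem GFun_comm (v w : ℂ × ℂ) {F : ℂ × ℂ → ℂ} {U : Set (ℂ × ℂ)}
    (h : AnalyticOnNhd ℂ F U) : EqOn (GFun_D v (GFun_D w F)) (GFun_D w (GFun_D v F)) U := by
  intro p hp
  have h1 : HasFDerivAt (fderiv ℂ F) (fderiv ℂ (fderiv ℂ F) p) p :=
    (h p hp).fderiv.differentiableAt.hasFDerivAt
  have h2 : ∀ u, fderiv ℂ (fun p => fderiv ℂ F p u) p =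
      (ContinuousLinearMap.apply ℂ ℂ u).comp (fderiv ℂ (fderiv ℂ F) p) := fun u =>
    ((ContinuousLinearMap.apply ℂ ℂ u).hasFDerivAt.comp p h1).fderiv
  have h3 : IsSymmSndFDerivAt ℂ F p := (h p hp).contDiffAt.isSymmSndFDerivAt_of_omega
  change fderiv ℂ (fun p => fderiv ℂ F p w) p v = fderiv ℂ (fun p => fderiv ℂ F p v) p w
  rw [h2, h2]
  exact h3.eq v w

private theorem GFun_congr (v : ℂ × ℂ) {F G : ℂ × ℂ → ℂ} {U : Set (ℂ × ℂ)} (hU : IsOpen U)
    (h : EqOn F G U) : EqOn (GFun_D v F) (GFun_D v G) U := by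
  intro p hp
  have h1 : F =ᶠ[𝓝 p] G := h.eventuallyEq_of_mem (hU.mem_nhds hp)
  unfold GFun_D
  rw [h1.fderiv_eq]

private theorem GFun_d1 {F : ℂ × ℂ → ℂ} {a b : ℂ} (h : AnalyticAt ℂ F (a, b)) :
    HasDerivAt (fun s => F (s, b)) (GFun_D (1, 0) F (a, b)) a := by
  have h1 : HasDerivAt (fun s : ℂ => (s, b)) ((1 : ℂ), (0 : ℂ)) a :=
    (hasDerivAt_id a).prodMk (hasDerivAt_const a b)
  exact h.differentiableAt.hasFDerivAt.comp_hasDerivAt a h1

private theorem GFun_d2 {F : ℂ × ℂ → ℂ} {a b : ℂ} (h : AnalyticAt ℂ F (a, b)) :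
    HasDerivAt (fun s => F (a, s)) (GFun_D (0, 1) F (a, b)) b := by
  have h1 : HasDerivAt (fun s : ℂ => (a, s)) ((0 : ℂ), (1 : ℂ)) b :=
    (hasDerivAt_const b a).prodMk (hasDerivAt_id b)
  exact h.differentiableAt.hasFDerivAt.comp_hasDerivAt b h1

private theorem GFun_taylor {g : ℂ → ℂ} {c : ℂ} {M : ℝ} (hg : AnalyticAt ℂ g 0)
    (hb : ∀ᶠ z in 𝓝[≠] (0:ℂ), ‖g z - c‖ ≤ M * ‖z‖ ^ 2) :
    ∃ h : ℂ → ℂ, ContinuousAt h 0 ∧ (∀ z, g z = c + z ^ 2 * h z) ∧
      deriv (deriv g) 0 = 2 * h 0 := by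
  obtain ⟨P, hP⟩ := hg
  have a1 : AnalyticAt ℂ (dslope g 0) 0 := ⟨_, hP.has_fpower_series_dslope_fslope⟩
  have a2 : AnalyticAt ℂ (dslope (dslope g 0) 0) 0 :=
    ⟨_, hP.has_fpower_series_dslope_fslope.has_fpower_series_dslope_fslope⟩
  have hg : AnalyticAt ℂ g 0 := ⟨P, hP⟩
  have e1 : ∀ z, g z = g 0 + z * dslope g 0 z := fun z => by
    have h := sub_smul_dslope g 0 z
    rw [sub_zero, smul_eq_mul] at h
    rw [h]; ring
  have e2 : ∀ z, dslope g 0 z = dslope g 0 0 + z * dslope (dslope g 0) 0 z := fun z => by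
    have h := sub_smul_dslope (dslope g 0) 0 z
    rw [sub_zero, smul_eq_mul] at h
    rw [h]; ring
  have t0 : Tendsto (fun z : ℂ => M * ‖z‖ ^ 2) (𝓝[≠] 0) (𝓝 0) := by
    have h : Continuous (fun z : ℂ => M * ‖z‖ ^ 2) := by fun_prop
    have h2 := h.tendsto 0
    simp only [norm_zero, ne_eq, OfNat.ofNat_ne_zero, not_false_eq_true, zero_pow, mul_zero] at h2
    exact h2.mono_left nhdsWithin_le_nhds
  have g0 : g 0 = c := by
    have h1 : Tendsto g (𝓝[≠] 0) (𝓝 (g 0)) := hg.continuousAt.tendsto.mono_left nhdsWithin_le_nhds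
    have h2 : Tendsto (fun z => g z - c) (𝓝[≠] 0) (𝓝 0) := squeeze_zero_norm' hb t0
    have h3 : Tendsto (fun z => g z - c) (𝓝[≠] 0) (𝓝 (g 0 - c)) := h1.sub_const c
    exact sub_eq_zero.1 (tendsto_nhds_unique h3 h2)
  have s0 : dslope g 0 0 = 0 := by
    have h1 : Tendsto (dslope g 0) (𝓝[≠] 0) (𝓝 (dslope g 0 0)) :=
      a1.continuousAt.tendsto.mono_left nhdsWithin_le_nhds
    have t1 : Tendsto (fun z : ℂ => M * ‖z‖) (𝓝[≠] 0) (𝓝 0) := by
      have h : Continuous (fun z : ℂ => M * ‖z‖) := by fun_prop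
      have h2 := h.tendsto 0
      simp only [norm_zero, mul_zero] at h2
      exact h2.mono_left nhdsWithin_le_nhds
    have h2 : Tendsto (dslope g 0) (𝓝[≠] 0) (𝓝 0) := by
      refine squeeze_zero_norm' ?_ t1
      filter_upwards [hb, self_mem_nhdsWithin] with z hz hz0
      have hz1 : z ≠ 0 := hz0
      have h3 : g z - c = z * dslope g 0 z := by rw [e1 z, g0]; ring
      rw [h3, norm_mul] at hz
      have h4 : 0 < ‖z‖ := norm_pos_iff.2 hz1
      by_contra hcon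
      push Not at hcon
      have h5 : ‖z‖ * (M * ‖z‖) < ‖z‖ * ‖dslope g 0 z‖ := mul_lt_mul_of_pos_left hcon h4
      nlinarith
    exact tendsto_nhds_unique h1 h2
  have e3 : ∀ z, g z = c + z ^ 2 * dslope (dslope g 0) 0 z := fun z => by
    rw [e1 z, e2 z, g0, s0]; ring
  refine ⟨dslope (dslope g 0) 0, a2.continuousAt, e3, ?_⟩
  set h := dslope (dslope g 0) 0 with hh
  have d1 : ∀ᶠ z in 𝓝 (0:ℂ), deriv g z = 2 * z * h z + z ^ 2 * deriv h z := by
    filter_upwards [a2.eventually_analyticAt] with z hz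
    have h1 : HasDerivAt h (deriv h z) z := hz.differentiableAt.hasDerivAt
    have h2 : HasDerivAt (fun z => c + z ^ 2 * h z) (2 * z * h z + z ^ 2 * deriv h z) z := by
      have h3 := ((hasDerivAt_pow 2 z).mul h1).const_add c
      refine h3.congr_deriv ?_
      norm_num
    have h4 : g = fun z => c + z ^ 2 * h z := funext e3
    rw [h4]
    exact h2.deriv
  have d2 : deriv (deriv g) 0 = deriv (fun z => 2 * z * h z + z ^ 2 * deriv h z) 0 :=
    Filter.EventuallyEq.deriv_eq d1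
  rw [d2]
  have h1 : HasDerivAt h (deriv h 0) 0 := a2.differentiableAt.hasDerivAt
  have h2 : HasDerivAt (deriv h) (deriv (deriv h) 0) 0 := a2.deriv.differentiableAt.hasDerivAt
  have h3 : HasDerivAt (fun z : ℂ => 2 * z) 2 0 := by
    simpa using (hasDerivAt_id (0:ℂ)).const_mul 2
  have h4 := (h3.mul h1).add ((hasDerivAt_pow 2 (0:ℂ)).mul h2)
  have h5 : HasDerivAt (fun z : ℂ => 2 * z * h z + z ^ 2 * deriv h z)
      (2 * h 0 + 2 * 0 * deriv h 0 + ((2:ℕ) * 0 ^ (2 - 1) * deriv h 0 + 0 ^ 2 * deriv (deriv h) 0)) 0 := h4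
  rw [h5.deriv]
  simp

private theorem GFun_E2 : E2 0 = 1 / 3 := by
  unfold E2
  rw [tsum_eq_single 0]
  · norm_num [Nat.factorial]
  · intro k hk
    simp [hk]

/-- POSITIVITY. From the label with the limit equation and `Im L ≤ Im τ` for real `γ`.

Proof. `G τ := - 3 ∂γ² L (τ, ·) (0)`. With `a := ∂γ² L (τ, 0) / 2`, analytic on `Hm`: by `base`
`L (τ, 0) = τ`, `∂γ L (τ, 0) = 0` and `L = τ + a (τ) γ² + O (γ³)`, `|a| ≤ C / (- Im τ)`, so
`|G| ≤ 6 C / (- Im τ)`. Fix `τ`; for `γ → 0`, `γ ≠ 0`: `∂τ² (L - τ) / γ² → a'' (τ)` (the function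
`(L (τ, γ) - τ) / γ²` is analytic near `(τ, 0)`, or: uniform convergence to `a` on a disc about `τ`),
and `bb q L (γ L_τ) / γ⁴ = - (q' (L) / 2) L_τ⁴ E2 (..) → - (q' (τ) / 2) E2 0 = - q' (τ) / 6`
(`E2 0 = 2 ^ 3 / 4 ! = 1 / 3`). So `a'' = - q' / 6` and `6 a' + q` is constant on `Hm`. At
`τ = - i y`, `y → ∞`: `q → 0` and `a' → 0` (Cauchy from `|a| ≤ C / y`): the constant is `0`, so
`G' = - 6 a' = q`. Real `γ → 0`: `Im (L - τ) / γ² ≤ 0` gives `Im a ≤ 0`, `Im G = - 6 Im a ≥ 0`. -/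
theorem exists_CL {C : ℝ} (hC : 2 ≤ C) {q : ℂ → ℂ} {L : ℂ × ℂ → ℂ}
    (hq : DifferentiableOn ℂ q Hm) (hqb : ∀ z ∈ Hm, ‖q z‖ ≤ C / z.im ^ 2)
    (an : AnalyticOnNhd ℂ L DC) (maps : MapsTo L DC Hm)
    (base : ∀ τ γ : ℂ, τ.im < 0 → C * ‖γ‖ ≤ -τ.im → ‖L (τ, γ) - τ‖ ≤ C * ‖γ‖ ^ 2 / (-τ.im))
    (ode : ∀ p ∈ DC, p.2 ^ 2 * deriv (deriv fun s => L (s, p.2)) p.1 =
      bb q (L p) (p.2 * deriv (fun s => L (s, p.2)) p.1))
    (real : ∀ τ : ℂ, τ.im < 0 → ∀ g : ℝ, (L (τ, g)).im ≤ τ.im) :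
    ∃ G : ℂ → ℂ, CL (6 * C) q G L := by
  have hDo : IsOpen DC := isOpen_DC
  have hHo : IsOpen Hm := isOpen_lt Complex.continuous_im continuous_const
  have hHc : Convex ℝ Hm := by
    intro x hx y hy a b ha hb hab
    have hx' : x.im < 0 := hx
    have hy' : y.im < 0 := hy
    change (a • x + b • y).im < 0
    simp only [add_im, real_smul, mul_im, ofReal_re, ofReal_im, zero_mul, add_zero]
    rcases eq_or_lt_of_le ha with h | h
    · have hb1 : b = 1 := by rw [← h] at hab; linarith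
      rw [← h, hb1]; linarith
    · nlinarith [mul_nonneg hb (neg_nonneg.2 hy'.le), mul_pos h (neg_pos.2 hx')]
  have hmem : ∀ τ : ℂ, τ ∈ Hm → (τ, (0:ℂ)) ∈ DC := by
    intro τ hτ
    have hτ' : τ.im < 0 := hτ
    change τ.im < -|(0:ℂ).im|
    simpa using hτ'
  -- the second coefficient
  set A : ℂ × ℂ → ℂ := GFun_D (0, 1) (GFun_D (0, 1) L) with hA
  have anD2 : AnalyticOnNhd ℂ (GFun_D (0, 1) L) DC := GFun_an _ an
  have anA : AnalyticOnNhd ℂ A DC := GFun_an _ anD2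
  have anD1 : AnalyticOnNhd ℂ (GFun_D (1, 0) L) DC := GFun_an _ an
  have anD11 : AnalyticOnNhd ℂ (GFun_D (1, 0) (GFun_D (1, 0) L)) DC := GFun_an _ anD1
  have emb : ∀ (F : ℂ × ℂ → ℂ), AnalyticOnNhd ℂ F DC → ∀ τ ∈ Hm,
      AnalyticAt ℂ (fun γ : ℂ => F (τ, γ)) 0 := by
    intro F hF τ hτ
    exact AnalyticAt.fun_comp (f := fun γ : ℂ => (τ, γ)) (hF _ (hmem τ hτ))
      (analyticAt_const.prod analyticAt_id)
  have nb : ∀ τ ∈ Hm, ∀ᶠ γ in 𝓝 (0:ℂ), (τ, γ) ∈ DC := by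
    intro τ hτ
    have h1 : ContinuousAt (fun γ : ℂ => (τ, γ)) 0 := by fun_prop
    exact h1.preimage_mem_nhds (hDo.mem_nhds (hmem τ hτ))
  have dd2 : ∀ (F : ℂ × ℂ → ℂ), AnalyticOnNhd ℂ F DC → ∀ τ ∈ Hm,
      deriv (deriv fun γ : ℂ => F (τ, γ)) 0 =
        GFun_D (0, 1) (GFun_D (0, 1) F) (τ, 0) := by
    intro F hF τ hτ
    have h1 : (deriv fun γ : ℂ => F (τ, γ)) =ᶠ[𝓝 0] fun γ => GFun_D (0, 1) F (τ, γ) := by
      filter_upwards [nb τ hτ] with γ hγ
      exact (GFun_d2 (hF _ hγ)).deriv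
    rw [h1.deriv_eq]
    exact (GFun_d2 (GFun_an _ hF _ (hmem τ hτ))).deriv
  -- bound near `γ = 0`
  have bnd : ∀ τ ∈ Hm, ∀ᶠ γ in 𝓝 (0:ℂ), ‖L (τ, γ) - τ‖ ≤ C / (-τ.im) * ‖γ‖ ^ 2 := by
    intro τ hτ
    have hτ' : τ.im < 0 := hτ
    have h1 : ContinuousAt (fun γ : ℂ => C * ‖γ‖) 0 := by fun_prop
    have h2 : ∀ᶠ γ in 𝓝 (0:ℂ), C * ‖γ‖ < -τ.im := by
      refine h1.eventually_lt_const ?_
      simpa using hτ'
    filter_upwards [h2] with γ hγ
    have h3 := base τ γ hτ' hγ.le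
    calc _ ≤ _ := h3
      _ = _ := by ring
  have key : ∀ τ ∈ Hm, ∃ h : ℂ → ℂ, ContinuousAt h 0 ∧ (∀ γ, L (τ, γ) = τ + γ ^ 2 * h γ) ∧
      A (τ, 0) = 2 * h 0 := by
    intro τ hτ
    obtain ⟨h, h1, h2, h3⟩ := GFun_taylor (emb L an τ hτ)
      ((bnd τ hτ).filter_mono nhdsWithin_le_nhds)
    exact ⟨h, h1, h2, by rw [hA, ← dd2 L an τ hτ, h3]⟩
  have L0 : ∀ τ ∈ Hm, L (τ, 0) = τ := by
    intro τ hτ
    obtain ⟨h, -, h2, -⟩ := key τ hτ
    rw [h2 0]; ring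
  have D1L0 : ∀ τ ∈ Hm, GFun_D (1, 0) L (τ, 0) = 1 := by
    intro τ hτ
    have h1 := (GFun_d1 (an _ (hmem τ hτ))).deriv
    have h2 : (fun s : ℂ => L (s, 0)) =ᶠ[𝓝 τ] fun s => s := by
      filter_upwards [hHo.mem_nhds hτ] with s hs
      exact L0 s hs
    rw [← h1, h2.deriv_eq]
    exact deriv_id _
  -- bound of the coefficient
  have hAb : ∀ τ ∈ Hm, ‖A (τ, 0)‖ ≤ 2 * (C / (-τ.im)) := by
    intro τ hτ
    obtain ⟨h, h1, h2, h3⟩ := key τ hτ
    rw [h3, norm_mul, Complex.norm_ofNat]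
    refine mul_le_mul_of_nonneg_left ?_ (by norm_num)
    have h4 : Tendsto (fun γ => ‖h γ‖) (𝓝[≠] 0) (𝓝 ‖h 0‖) :=
      h1.tendsto.norm.mono_left nhdsWithin_le_nhds
    refine le_of_tendsto h4 ?_
    filter_upwards [(bnd τ hτ).filter_mono nhdsWithin_le_nhds, self_mem_nhdsWithin] with γ hγ hγ0
    have hγ1 : γ ≠ 0 := hγ0
    have h5 : 0 < ‖γ‖ ^ 2 := by positivity
    rw [h2 γ, add_sub_cancel_left, norm_mul, norm_pow, mul_comm] at hγ
    exact le_of_mul_le_mul_right hγ h5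
  have hAim : ∀ τ ∈ Hm, (A (τ, 0)).im ≤ 0 := by
    intro τ hτ
    obtain ⟨h, h1, h2, h3⟩ := key τ hτ
    rw [h3]
    have h4 : Tendsto (fun g : ℝ => (h (g:ℂ)).im) (𝓝[≠] 0) (𝓝 (h 0).im) := by
      have h5 : Tendsto (fun g : ℝ => (g:ℂ)) (𝓝[≠] 0) (𝓝 0) := by
        have h6 := Complex.continuous_ofReal.tendsto 0
        rw [Complex.ofReal_zero] at h6
        exact h6.mono_left nhdsWithin_le_nhds
      exact (Complex.continuous_im.continuousAt.comp_of_eq h1 rfl).tendsto.comp h5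
    have h5 : (h 0).im ≤ 0 := by
      refine le_of_tendsto h4 ?_
      filter_upwards [self_mem_nhdsWithin] with g hg
      have hg0 : g ≠ 0 := hg
      have h6 := real τ hτ g
      rw [h2 g] at h6
      have h7 : ((g:ℂ) ^ 2 * h g).im = g ^ 2 * (h g).im := by
        rw [← Complex.ofReal_pow, Complex.im_ofReal_mul]
      rw [add_im, h7] at h6
      have h8 : 0 < g ^ 2 := by positivity
      by_contra hcon
      push Not at hcon
      nlinarith [mul_pos h8 hcon]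
    have h6 : (2 * h 0).im = 2 * (h 0).im := by simp
    rw [h6]
    linarith
  -- second derivative of the coefficient
  have hA2 : ∀ τ ∈ Hm, GFun_D (1, 0) (GFun_D (1, 0) A) (τ, 0) = -(deriv q τ / 3) := by
    intro τ hτ
    have hτ' : τ.im < 0 := hτ
    -- commutation
    have c1 : EqOn (GFun_D (1, 0) A) (GFun_D (0, 1) (GFun_D (0, 1) (GFun_D (1, 0) L))) DC := by
      intro p hp
      rw [hA, GFun_comm (1, 0) (0, 1) anD2 hp]
      exact GFun_congr _ hDo (GFun_comm (1, 0) (0, 1) an) hp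
    have c2 : GFun_D (1, 0) (GFun_D (1, 0) A) (τ, 0) =
        GFun_D (0, 1) (GFun_D (0, 1) (GFun_D (1, 0) (GFun_D (1, 0) L))) (τ, 0) := by
      rw [GFun_congr _ hDo c1 (hmem τ hτ),
        GFun_comm (1, 0) (0, 1) (GFun_an (0, 1) anD1) (hmem τ hτ)]
      exact GFun_congr _ hDo (GFun_comm (1, 0) (0, 1) anD1) (hmem τ hτ)
    rw [c2, ← dd2 _ anD11 τ hτ]
    -- the equation divided by `γ ^ 2`
    set R : ℂ → ℂ := fun γ => -(deriv q (L (τ, γ)) / 2) * GFun_D (1, 0) L (τ, γ) ^ 4 *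
      E2 (q (L (τ, γ)) * (γ * GFun_D (1, 0) L (τ, γ)) ^ 2) with hR
    have hK : ∀ᶠ γ in 𝓝[≠] (0:ℂ), GFun_D (1, 0) (GFun_D (1, 0) L) (τ, γ) = γ ^ 2 * R γ := by
      filter_upwards [(nb τ hτ).filter_mono nhdsWithin_le_nhds, self_mem_nhdsWithin] with γ hγ hγ0
      have hγ1 : γ ≠ 0 := hγ0
      have h1 := ode (τ, γ) hγ
      have h2 : deriv (deriv fun s => L (s, γ)) τ =
          GFun_D (1, 0) (GFun_D (1, 0) L) (τ, γ) := by
        have h3 : (deriv fun s : ℂ => L (s, γ)) =ᶠ[𝓝 τ] fun s => GFun_D (1, 0) L (s, γ) := by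
          have h4 : ContinuousAt (fun s : ℂ => (s, γ)) τ := by fun_prop
          filter_upwards [h4.preimage_mem_nhds (hDo.mem_nhds hγ)] with s hs
          exact (GFun_d1 (an _ hs)).deriv
        rw [h3.deriv_eq]
        exact (GFun_d1 (anD1 _ hγ)).deriv
      have h5 : deriv (fun s => L (s, γ)) τ = GFun_D (1, 0) L (τ, γ) := (GFun_d1 (an _ hγ)).deriv
      simp only at h1
      rw [h2, h5] at h1
      have h6 : γ ^ 2 * GFun_D (1, 0) (GFun_D (1, 0) L) (τ, γ) = γ ^ 2 * (γ ^ 2 * R γ) := by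
        rw [h1, hR]
        unfold bb
        ring
      exact mul_left_cancel₀ (pow_ne_zero 2 hγ1) h6
    have hq1 : AnalyticAt ℂ q τ := hq.analyticOnNhd hHo τ hτ
    have hLc : ContinuousAt (fun γ : ℂ => L (τ, γ)) 0 := (emb L an τ hτ).continuousAt
    have hD1c : ContinuousAt (fun γ : ℂ => GFun_D (1, 0) L (τ, γ)) 0 :=
      (emb _ anD1 τ hτ).continuousAt
    have hRc : ContinuousAt R 0 := by
      have h1 : ContinuousAt (fun γ : ℂ => q (L (τ, γ))) 0 :=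
        ContinuousAt.comp' (by rw [L0 τ hτ]; exact hq1.continuousAt) hLc
      have h2 : ContinuousAt (fun γ : ℂ => deriv q (L (τ, γ))) 0 :=
        ContinuousAt.comp' (by rw [L0 τ hτ]; exact hq1.deriv.continuousAt) hLc
      have h3 : ContinuousAt (fun γ : ℂ => E2 (q (L (τ, γ)) * (γ * GFun_D (1, 0) L (τ, γ)) ^ 2)) 0 :=
        ContinuousAt.comp' (Pool.Agent.MP_ae5b4e_an_M.E2_diff.continuous.continuousAt)
          (h1.mul ((continuousAt_id.mul hD1c).pow 2))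
      exact ((h2.div_const 2).neg.mul (hD1c.pow 4)).mul h3
    have hR0 : R 0 = -(deriv q τ / 6) := by
      rw [hR]
      simp only
      rw [L0 τ hτ, D1L0 τ hτ, zero_mul, zero_pow two_ne_zero, mul_zero, GFun_E2]
      ring
    have hRb : ∀ᶠ γ in 𝓝[≠] (0:ℂ),
        ‖GFun_D (1, 0) (GFun_D (1, 0) L) (τ, γ) - 0‖ ≤ (‖R 0‖ + 1) * ‖γ‖ ^ 2 := by
      have h1 : ∀ᶠ γ in 𝓝 (0:ℂ), ‖R γ‖ < ‖R 0‖ + 1 :=
        hRc.norm.eventually_lt_const (by simp)
      filter_upwards [hK, h1.filter_mono nhdsWithin_le_nhds] with γ h2 h3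
      rw [h2, sub_zero, norm_mul, norm_pow, mul_comm]
      exact mul_le_mul_of_nonneg_right h3.le (by positivity)
    obtain ⟨h, h1, h2, h3⟩ := GFun_taylor (emb _ anD11 τ hτ) hRb
    have h4 : h 0 = R 0 := by
      have t1 : Tendsto h (𝓝[≠] 0) (𝓝 (h 0)) := h1.tendsto.mono_left nhdsWithin_le_nhds
      have t2 : Tendsto R (𝓝[≠] 0) (𝓝 (R 0)) := hRc.tendsto.mono_left nhdsWithin_le_nhds
      have t3 : h =ᶠ[𝓝[≠] 0] R := by
        filter_upwards [hK, self_mem_nhdsWithin] with γ hγ hγ0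
        have hγ1 : γ ≠ 0 := hγ0
        rw [h2 γ, zero_add] at hγ
        exact mul_left_cancel₀ (pow_ne_zero 2 hγ1) hγ
      exact tendsto_nhds_unique t1 (t2.congr' t3.symm)
    rw [h3, h4, hR0]
    ring
  -- the primitive
  have Gder : ∀ τ ∈ Hm, HasDerivAt (fun τ => -3 * A (τ, 0)) (-3 * GFun_D (1, 0) A (τ, 0)) τ :=
    fun τ hτ => (GFun_d1 (anA _ (hmem τ hτ))).const_mul (-3)
  have Gder2 : ∀ τ ∈ Hm, HasDerivAt (fun τ => -3 * GFun_D (1, 0) A (τ, 0)) (deriv q τ) τ := by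
    intro τ hτ
    have h1 := (GFun_d1 (GFun_an (1, 0) anA _ (hmem τ hτ))).const_mul (-3)
    rw [hA2 τ hτ] at h1
    refine h1.congr_deriv ?_
    ring
  have hG : DifferentiableOn ℂ (fun τ => -3 * A (τ, 0)) Hm := fun τ hτ =>
    (Gder τ hτ).differentiableAt.differentiableWithinAt
  have gbd : ∀ z ∈ Hm, ‖(fun τ => -3 * A (τ, 0)) z‖ ≤ 6 * C / (-z.im) := by
    intro z hz
    have h1 := hAb z hz
    simp only [norm_mul, norm_neg, Complex.norm_ofNat]
    calc 3 * ‖A (z, 0)‖ ≤ 3 * (2 * (C / (-z.im))) := by linarith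
      _ = 6 * C / (-z.im) := by ring
  have hconst : ∃ c : ℂ, ∀ τ ∈ Hm, -3 * GFun_D (1, 0) A (τ, 0) - q τ = c := by
    have h1 : ∀ τ ∈ Hm, HasDerivAt (fun τ => -3 * GFun_D (1, 0) A (τ, 0) - q τ) 0 τ := by
      intro τ hτ
      have h2 := (Gder2 τ hτ).sub ((hq.differentiableAt (hHo.mem_nhds hτ)).hasDerivAt)
      rwa [sub_self] at h2
    have hI : (-I : ℂ) ∈ Hm := by
      change (-I : ℂ).im < 0
      simp
    refine ⟨-3 * GFun_D (1, 0) A (-I, 0) - q (-I), fun τ hτ => ?_⟩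
    exact hHc.is_const_of_fderivWithin_eq_zero (𝕜 := ℂ)
      (f := fun τ => -3 * GFun_D (1, 0) A (τ, 0) - q τ)
      (fun x hx => (h1 x hx).differentiableAt.differentiableWithinAt)
      (fun x hx => by
        rw [fderivWithin_of_isOpen hHo hx]
        have h3 := (h1 x hx).hasFDerivAt.fderiv
        rw [h3]
        ext
        simp) hτ hI
  obtain ⟨c, hc⟩ := hconst
  have hc0 : c = 0 := by
    have h1 : ∀ y : ℝ, 0 < y → ‖c‖ ≤ 25 * C / y ^ 2 := by
      intro y hy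
      have hmy : (-(y * I) : ℂ) ∈ Hm := by
        change (-(y * I) : ℂ).im < 0
        simpa using hy
      have h2 := hc _ hmy
      have h3 : ‖-3 * GFun_D (1, 0) A (-(y * I), 0)‖ ≤ (6 * C / (y / 2)) / (y / 2) := by
        rw [← (Gder _ hmy).deriv]
        refine Complex.norm_deriv_le_of_forall_mem_sphere_norm_le (half_pos hy) ?_ ?_
        · apply DifferentiableOn.diffContOnCl
          rw [closure_ball _ (half_pos hy).ne']
          refine hG.mono fun z hz => ?_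
          have h4 : |(z - (-(y * I))).im| ≤ y / 2 :=
            (Complex.abs_im_le_norm _).trans (by rw [← dist_eq_norm]; exact mem_closedBall.1 hz)
          change z.im < 0
          simp only [sub_neg_eq_add, add_im, mul_im, ofReal_re, I_im, mul_one, ofReal_im, I_re,
            mul_zero, add_zero] at h4
          rw [abs_le] at h4
          linarith
        · intro z hz
          have h4 : |(z - (-(y * I))).im| ≤ y / 2 :=
            (Complex.abs_im_le_norm _).trans (by rw [← dist_eq_norm]; exact (mem_sphere.1 hz).le)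
          simp only [sub_neg_eq_add, add_im, mul_im, ofReal_re, I_im, mul_one, ofReal_im, I_re,
            mul_zero, add_zero] at h4
          rw [abs_le] at h4
          have h5 : y / 2 ≤ -z.im := by linarith
          have hz' : z ∈ Hm := by
            change z.im < 0
            linarith
          refine (gbd z hz').trans ?_
          exact div_le_div_of_nonneg_left (by linarith) (half_pos hy) h5
      have h4 : ‖q (-(y * I))‖ ≤ C / y ^ 2 := by
        have h5 := hqb _ hmy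
        have h6 : (-(y * I) : ℂ).im = -y := by simp
        rw [h6, neg_sq] at h5
        exact h5
      have h5 : ‖c‖ ≤ (6 * C / (y / 2)) / (y / 2) + C / y ^ 2 := by
        rw [← h2]
        exact (norm_sub_le _ _).trans (add_le_add h3 h4)
      calc ‖c‖ ≤ _ := h5
        _ = 25 * C / y ^ 2 := by field_simp; ring
    have h2 : Tendsto (fun y : ℝ => 25 * C / y ^ 2) atTop (𝓝 0) :=
      tendsto_const_nhds.div_atTop (tendsto_pow_atTop two_ne_zero)
    have h3 : ‖c‖ ≤ 0 := by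
      refine ge_of_tendsto h2 ?_
      filter_upwards [eventually_gt_atTop 0] with y hy
      exact h1 y hy
    exact norm_le_zero_iff.1 h3
  refine ⟨fun τ => -3 * A (τ, 0), by linarith, hG, ?_, ?_, gbd, an, maps, ?_, ode⟩
  · intro z hz
    rw [(Gder z hz).deriv]
    have h1 := hc z hz
    rw [hc0] at h1
    exact sub_eq_zero.1 h1
  · intro z hz
    have h1 := hAim z hz
    have h2 : (-3 * A (z, 0)).im = -3 * (A (z, 0)).im := by simp
    change 0 ≤ (-3 * A (z, 0)).im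
    rw [h2]
    linarith
  · intro τ γ hτ hγ
    have h0 : 0 ≤ C * ‖γ‖ := mul_nonneg (by linarith) (norm_nonneg _)
    refine (base τ γ hτ (by nlinarith)).trans ?_
    have h1 : 0 < -τ.im := by linarith
    have h2 : 0 ≤ C * ‖γ‖ ^ 2 := mul_nonneg (by linarith) (sq_nonneg _)
    exact div_le_div_of_nonneg_right (by nlinarith) h1.le

end Pool.Agent.MP_ae5b4e_an_N3
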