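import Pool.Agent.Lib.MP_ae5b4e_an_N3.Reg
import Pool.Agent.Lib.MP_ae5b4e_an_N3.Exact

/-! # Section N3, window level: singular places; the cone is exact there -/

noncomputable section

namespace Pool.Agent.MP_ae5b4e_an_N3

open Complex Set Filter Topology Metric
open PorTR (Hm)
open Pool.Agent.MP_ae5b4e_an_NBT (St Mer MerAt EqM)
open Pool.Agent.MP_ae5b4e_an_NB2 (Sys)
open Pool.Agent.MP_ae5b4e_an_N5 (NV Con)
open Pool.Agent.MP_ae5b4e_an_PB
open Pool.Agent.MP_ae5b4e_an_M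

variable {Y : Sys} {h R C0 : ℝ} {v : ℂ → ℝ} {G L : ℂ × ℂ → ℂ} {U : Ultrafilter ℕ} {c κ : ℕ → ℝ}

private theorem Place_open {h : ℝ} {x : ℕ → ℝ} {n : ℕ} (hc : 0 < c n) (hκ : 0 < κ n)
    {p : ℂ × ℂ} {ε : ℝ} : IsOpen (wmap h x c (Vc c κ) n '' ball p ε) := by
  have hcc : (c n : ℂ) ≠ 0 := by exact_mod_cast hc.ne'
  have hV : ((Vc c κ n : ℝ) : ℂ) ≠ 0 := by
    unfold Vc
    exact_mod_cast (mul_pos hκ hc).ne'
  have h1 : wmap h x c (Vc c κ) n '' ball p ε =
      (fun q : ℂ × ℂ => ((q.1 - (x n + h * I)) / (Vc c κ n : ℝ), q.2 / (c n : ℂ))) ⁻¹'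
        ball p ε := by
    apply congrFun
    apply Set.image_eq_preimage_of_inverse
    · intro q
      unfold wmap Pool.Agent.MP_ae5b4e_an_M.pt
      refine Prod.ext ?_ ?_
      · dsimp only
        rw [add_sub_cancel_left, mul_div_cancel_left₀ _ hV]
      · dsimp only
        rw [mul_div_cancel_left₀ _ hcc]
    · intro q
      unfold wmap Pool.Agent.MP_ae5b4e_an_M.pt
      refine Prod.ext ?_ ?_
      · dsimp only
        rw [mul_div_cancel₀ _ hV]
        ring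
      · dsimp only
        rw [mul_div_cancel₀ _ hcc]
  rw [h1]
  apply isOpen_ball.preimage
  fun_prop

/-- SINGULAR PLACES. Proof. `vI_att` at `γ = i` (`vI = 1` by `vI_eq`): `g n → i`, `vn (g n) → 1`.
For
almost all `n`, `c n g n ∈ ball 0 R` (`c n → 0`), and `hB.sing` gives `x n` (for the other `n` take
`x n = 0`). -/
theorem exists_place (hB : Base Y h R C0 v G L) (HW : CW v U c κ) :
    ∃ (x : ℕ → ℝ) (g : ℕ → ℂ), Tendsto g U (𝓝 I) ∧
      Tendsto (fun n => vn v c (Vc c κ) n (g n)) U (𝓝 1) ∧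
      ∀ᶠ n in (U : Filter ℕ), ¬ RegF v h R G
        ((x n : ℂ) + ((h - v ((c n : ℂ) * g n) : ℝ) : ℂ) * I, (c n : ℂ) * g n) := by
  classical
  have hW := HW.win hB.nv hB.R_pos
  obtain ⟨g, hg, hv⟩ := vI_att hB.nv hB.R_pos hW I
  rw [HW.vI_eq hB.nv hB.R_pos, I_im, abs_one] at hv
  have hmem : ∀ᶠ n in (U : Filter ℕ), (c n : ℂ) * g n ∈ ball (0:ℂ) R := by
    have h1 : ∀ᶠ n in (U : Filter ℕ), ‖g n‖ < 2 := by
      apply hg.norm.eventually (gt_mem_nhds _)
      rw [norm_I]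
      norm_num
    filter_upwards [h1, lim_lt hW.c_lim 2 hB.R_pos] with n hn1 hn2
    apply mem_scaled hW n
    have := mul_lt_mul_of_pos_left hn1 (hW.c_pos n)
    linarith
  have hex : ∀ n, ∃ x : ℝ, (c n : ℂ) * g n ∈ ball (0:ℂ) R → ¬ RegF v h R G
      ((x : ℂ) + ((h - v ((c n : ℂ) * g n) : ℝ) : ℂ) * I, (c n : ℂ) * g n) := by
    intro n
    by_cases hn : (c n : ℂ) * g n ∈ ball (0:ℂ) R
    · obtain ⟨x, hx⟩ := hB.sing _ hn
      exact ⟨x, fun _ => hx⟩
    · exact ⟨0, fun h1 => absurd h1 hn⟩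
  choose x hx using hex
  refine ⟨x, g, hg, hv, ?_⟩
  filter_upwards [hmem] with n hn
  exact hx n hn

/-- At singular places the limit label does not extend near `(- i, i)`. Proof. `ExtB.mono` to
`ε ≤ 1 / 4`; `reg_of_ext`: for almost all `n` the point of the line is
`wmap n (- i vn (g n), g n)`, which is in the image of the ball of radius `ε / 16`
(`vn (g n) → 1`, `g n → i`), an open set (`wmap n` is an affine homeomorphism), so `RegF` holds
there. -/
theorem not_extB (hB : Base Y h R C0 v G L) (HW : CW v U c κ) {x : ℕ → ℝ} {g : ℕ → ℂ}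
    (hg : Tendsto g U (𝓝 I)) (hv : Tendsto (fun n => vn v c (Vc c κ) n (g n)) U (𝓝 1))
    (hs : ∀ᶠ n in (U : Filter ℕ), ¬ RegF v h R G
        ((x n : ℂ) + ((h - v ((c n : ℂ) * g n) : ℝ) : ℂ) * I, (c n : ℂ) * g n)) {ε : ℝ}
    (hε : 0 < ε) : ¬ ExtB (LI L h U x c (Vc c κ)) (-I, I) ε := by
  intro hext
  have hε' : 0 < min ε (1 / 4) := lt_min hε (by norm_num)
  have h1 := reg_of_ext hB HW x hε' (min_le_right _ _) (hext.mono (min_le_left _ _))
  have h2 : Tendsto (fun n => ((-(I * (vn v c (Vc c κ) n (g n) : ℝ)), g n) : ℂ × ℂ)) U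
      (𝓝 (-I, I)) := by
    have h3 : Tendsto (fun n => -(I * ((vn v c (Vc c κ) n (g n) : ℝ) : ℂ))) U (𝓝 (-I)) := by
      have h4 := (((Complex.continuous_ofReal.tendsto 1).comp hv).const_mul I).neg
      rw [ofReal_one, mul_one] at h4
      exact h4
    exact h3.prodMk_nhds hg
  have h16 : 0 < min ε (1 / 4) / 16 := by positivity
  obtain ⟨n, ⟨g', hg1, hg2⟩, hn2, hn3⟩ := (h1.and ((h2.eventually (ball_mem_nhds _ h16)).and
    hs)).exists
  apply hn3
  have hc := HW.c_pos n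
  have hκ := HW.κ_pos n
  have hp : ((x n : ℂ) + ((h - v ((c n : ℂ) * g n) : ℝ) : ℂ) * I, (c n : ℂ) * g n) =
      wmap h x c (Vc c κ) n (-(I * (vn v c (Vc c κ) n (g n) : ℝ)), g n) := by
    unfold wmap
    refine Prod.ext ?_ rfl
    dsimp only
    unfold Pool.Agent.MP_ae5b4e_an_M.pt vn
    have hV : ((Vc c κ n : ℝ) : ℂ) ≠ 0 := by
      unfold Vc
      exact_mod_cast (mul_pos hκ hc).ne'
    push_cast
    field_simp
    ring
  refine ⟨wmap h x c (Vc c κ) n '' ball (-I, I) (min ε (1 / 4) / 16), ?_, g', hg1, hg2⟩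
  rw [hp]
  exact (Place_open hc hκ).mem_nhds (mem_image_of_mem _ hn2)

/-- Uniform convergence `qn → cq 1` on the compact set
`{lam / Λ ≤ |l| ≤ Λ / lam, a |l| ≤ - Im l}` of `Hm`: `z = κ c l`, `z² Q (x + i h + z) = κ² l² qn
(l)`, so
`‖z² Q + κ²‖ = κ² ‖l² qn l + 1‖ = κ² ‖l² (qn l - cq 1 l)‖`. For `r ∈ [c / Λ, c Λ]`,
`lam κ r ≤ ‖z‖ ≤ κ r / lam` gives `lam / Λ ≤ |l| ≤ Λ / lam`. -/
theorem coneAt_of_exact (hB : Base Y h R C0 v G L) (HW : CW v U c κ) {x : ℕ → ℝ}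
    (hq : ∀ z ∈ Hm, qI Y h U x c (Vc c κ) z = cq 1 z) {e lam a Λ : ℝ} (he : 0 < e)
    (hl : 0 < lam) (ha : 0 < a) (hΛ : 1 ≤ Λ) :
    ∀ᶠ n in (U : Filter ℕ), ∀ r : ℝ, c n / Λ ≤ r → r ≤ c n * Λ →
      ConeAt Y h e lam a (κ n) r (x n) := by
  have hW := HW.win hB.nv hB.R_pos
  set K : Set ℂ := {l : ℂ | lam / Λ ≤ ‖l‖ ∧ ‖l‖ ≤ Λ / lam ∧ a * ‖l‖ ≤ -l.im} with hKd
  have hΛ0 : 0 < Λ := by linarith
  have hKc : IsCompact K := by
    apply (isCompact_closedBall (0:ℂ) (Λ / lam)).of_isClosed_subset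
    · exact (isClosed_le continuous_const continuous_norm).inter
        ((isClosed_le continuous_norm continuous_const).inter
          (isClosed_le (continuous_const.mul continuous_norm) continuous_im.neg))
    · intro z hz
      exact mem_closedBall_zero_iff.2 hz.2.1
  have hKH : K ⊆ Hm := by
    intro z hz
    have h1 : 0 < ‖z‖ := lt_of_lt_of_le (by positivity) hz.1
    have h2 := hz.2.2
    show z.im < 0
    nlinarith [mul_pos ha h1]
  have hε : 0 < e / (Λ / lam) ^ 2 := by positivity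
  filter_upwards [unif_compact (qI_unif hB hW x) hKc hKH hε] with n hn r hr1 hr2 z hz1 hz2 hz3
  have hc := HW.c_pos n
  have hκ := HW.κ_pos n
  have hV : 0 < Vc c κ n := mul_pos hκ hc
  have hVc : ((Vc c κ n : ℝ) : ℂ) ≠ 0 := by exact_mod_cast hV.ne'
  have hr0 : 0 < r := lt_of_lt_of_le (by positivity) hr1
  set l : ℂ := z / (Vc c κ n : ℝ) with hl0
  have hzl : z = (Vc c κ n : ℝ) * l := by rw [hl0]; field_simp
  have hnl : ‖z‖ = Vc c κ n * ‖l‖ := by
    rw [hzl, norm_mul, Complex.norm_real, Real.norm_of_nonneg hV.le]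
  have hVe : Vc c κ n = κ n * c n := rfl
  have hlK : l ∈ K := by
    refine ⟨?_, ?_, ?_⟩
    · rw [hnl, hVe] at hz1
      rw [div_le_iff₀ hΛ0]
      rw [div_le_iff₀ hΛ0] at hr1
      have h1 : lam * r ≤ c n * ‖l‖ := by
        have : κ n * (lam * r) ≤ κ n * (c n * ‖l‖) := by linarith
        exact le_of_mul_le_mul_left this hκ
      have h2 : lam * c n ≤ lam * (r * Λ) := mul_le_mul_of_nonneg_left hr1 hl.le
      have h3 : c n * lam ≤ c n * (‖l‖ * Λ) := by nlinarith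
      exact le_of_mul_le_mul_left h3 hc
    · rw [hnl, hVe] at hz2
      rw [le_div_iff₀ hl]
      have h1 : lam * (c n * ‖l‖) ≤ r := by
        have : κ n * (lam * (c n * ‖l‖)) ≤ κ n * r := by linarith
        exact le_of_mul_le_mul_left this hκ
      have h3 : c n * (‖l‖ * lam) ≤ c n * Λ := by linarith
      exact le_of_mul_le_mul_left h3 hc
    · have h1 : z.im = Vc c κ n * l.im := by
        rw [hzl]; simp
      rw [hnl, h1] at hz3
      have h3 : Vc c κ n * (a * ‖l‖) ≤ Vc c κ n * (-l.im) := by linarith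
      exact le_of_mul_le_mul_left h3 hV
  have hl1 : l ≠ 0 := by
    intro h0
    have h1 := hlK.1
    rw [h0, norm_zero] at h1
    have : 0 < lam / Λ := by positivity
    linarith
  have h1 := (hn l hlK).le
  rw [hq l (hKH hlK)] at h1
  have h2 : z ^ 2 * Y.Q ((x n : ℂ) + (h : ℂ) * I + z) + (κ n : ℂ) ^ 2 =
      (κ n : ℂ) ^ 2 * (l ^ 2 * (qn Y h x c (Vc c κ) n l - cq 1 l)) := by
    have h3 : Pool.Agent.MP_ae5b4e_an_M.pt h x (Vc c κ) n l = (x n : ℂ) + (h : ℂ) * I + z := by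
      unfold Pool.Agent.MP_ae5b4e_an_M.pt
      rw [← hzl]
    unfold qn cq
    rw [h3]
    nth_rewrite 1 [hzl]
    rw [hVe]
    push_cast
    field_simp
    ring
  rw [h2, norm_mul, norm_pow, Complex.norm_real, Real.norm_of_nonneg hκ.le, norm_mul, norm_pow,
    mul_comm e]
  apply mul_le_mul_of_nonneg_left _ (by positivity)
  have h3 : ‖l‖ ^ 2 ≤ (Λ / lam) ^ 2 := pow_le_pow_left₀ (norm_nonneg _) hlK.2.1 2
  calc ‖l‖ ^ 2 * ‖qn Y h x c (Vc c κ) n l - cq 1 l‖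
      ≤ (Λ / lam) ^ 2 * (e / (Λ / lam) ^ 2) := mul_le_mul h3 h1 (norm_nonneg _) (by positivity)
    _ = e := by field_simp

end Pool.Agent.MP_ae5b4e_an_N3
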