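import Pool.Agent.Lib.MP_ae5b4e_an_N3.WinL
import Pool.Agent.Lib.MP_ae5b4e_an_MT.M9B

/-! # Section N3, window level: an extension of the limit label makes `G` regular (transport) -/

noncomputable section

namespace Pool.Agent.MP_ae5b4e_an_N3

open Complex Set Filter Topology Metric
open PorTR (Hm)
open Pool.Agent.MP_ae5b4e_an_NBT (St Mer MerAt EqM)
open Pool.Agent.MP_ae5b4e_an_NB2 (Sys)
open Pool.Agent.MP_ae5b4e_an_N5 (NV Con)
open Pool.Agent.MP_ae5b4e_an_PB
open Pool.Agent.MP_ae5b4e_an_M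
open Pool.Agent.MP_ae5b4e_an_MT (Sh Sh_fst Sh_snd mreg_ball_mer wp)

variable {Y : Sys} {h R C0 : ℝ} {v : ℂ → ℝ} {G L : ℂ × ℂ → ℂ} {U : Ultrafilter ℕ} {c κ : ℕ → ℝ}

/-- TRANSPORT (part MT, helper63). Let the limit label of a conical window extend to the bidisc of
radius `ε ≤ 1 / 4` about `(- i, i)`, with values in `Hm`. Then for almost all `n` the function `G`
extends meromorphically to the image of the bidisc of radius `ε / 16`.

Proof. `E := {(τ - s₀ γ, γ) | (τ, γ) ∈ closedBall (-i, i) (ε / 12)}`, `s₀ = 1`, compact, convex, in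
`DC = DI`. `Λ := ` the extension `g` on `ball (-i, i) ε`, `LI` on `DC` (they agree on the overlap),
analytic on `Ω := ball (-i, i) ε ∪ DC` with values in `Hm`. The paths `(τ - s γ, γ)`, `0 ≤ s ≤ 1`, stay in
`Ω`: for `s ≥ ε / 2` in `DC` (`Im (τ - s γ) + Im γ ≤ - 1 + ε / 12 + (1 - s) (1 + ε / 12) < 0`), for
`s ≤ ε / 2` in the ball (`|τ + i| + s |γ| ≤ ε / 12 + (ε / 2) (1 + ε / 12) < ε`). Transport theorem of MT:
the chain of labels from `E` follows `Λ`, so all labels stay in a compact subset of `Hm`, and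
`G (t + j ρ, ρ) = y2 / y1` of the label: `G` is regular at all points of the chain (one step: `K` and
`G` regular at the node and `G` regular at the previous point give `G` regular at the next point),
meromorphic continuation of `G` along the chain; on the part of the bidisc in `DFU` it agrees with
`G` (the intersection with `DFU` is fibrewise convex and contains a common part). -/
theorem reg_of_ext (hB : Base Y h R C0 v G L) (HW : CW v U c κ) (x : ℕ → ℝ) {ε : ℝ} (hε : 0 < ε)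
    (hε1 : ε ≤ 1 / 4) (he : ExtB (LI L h U x c (Vc c κ)) (-I, I) ε) :
    ∀ᶠ n in (U : Filter ℕ), ∃ g : ℂ × ℂ → ℂ,
      Mer g (wmap h x c (Vc c κ) n '' ball (-I, I) (ε / 16)) ∧
      ∀ q ∈ wmap h x c (Vc c κ) n '' ball (-I, I) (ε / 16) ∩ DFU v h R, EqM g G q := by
  obtain ⟨g, hg1, hg2, hg3⟩ := he
  have hWin := HW.win hB.nv hB.R_pos
  have hDI := HW.DI_eq hB.nv hB.R_pos
  have hDCo : IsOpen DC := by
    rw [← hDI]
    exact DI_open hB.nv hB.R_pos hWin
  set p₀ : ℂ × ℂ := (-I, I) with hp₀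
  set LL := LI L h U x c (Vc c κ) with hLL
  classical
  set Λ : ℂ × ℂ → ℂ := fun p => if p ∈ ball p₀ ε then g p else LL p with hΛ
  have hΛD : ∀ p ∈ DC, Λ =ᶠ[𝓝 p] LL := by
    intro p hp
    filter_upwards [hDCo.mem_nhds hp] with q hq
    rw [hΛ]
    show (if q ∈ ball p₀ ε then g q else LL q) = LL q
    split_ifs with h1
    · exact hg3 q ⟨h1, hq⟩
    · rfl
  have hΛB : ∀ p ∈ ball p₀ ε, Λ =ᶠ[𝓝 p] g := by
    intro p hp
    filter_upwards [isOpen_ball.mem_nhds hp] with q hq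
    rw [hΛ]
    show (if q ∈ ball p₀ ε then g q else LL q) = g q
    rw [if_pos hq]
  have hLan : AnalyticOnNhd ℂ LL DC := by
    rw [← hDI]
    exact LI_an hB hWin x
  have hLm : ∀ p ∈ DC, (LL p).im < 0 := by
    intro p hp
    rw [← hDI] at hp
    exact LI_Hm hB hWin x hp
  have hcomp : ∀ p ∈ closedBall p₀ (ε / 12), -1 - ε / 12 ≤ p.1.im ∧ p.1.im ≤ -1 + ε / 12 ∧
      1 - ε / 12 ≤ p.2.im ∧ p.2.im ≤ 1 + ε / 12 ∧ ‖p.1 + I‖ ≤ ε / 12 ∧ ‖p.2 - I‖ ≤ ε / 12 ∧
      ‖p.2‖ ≤ 1 + ε / 12 := by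
    intro p hp
    rw [mem_closedBall, Prod.dist_eq, max_le_iff, dist_eq_norm, dist_eq_norm] at hp
    have h1 : p.1 - p₀.1 = p.1 + I := by rw [hp₀]; simp
    have h2 : p.2 - p₀.2 = p.2 - I := by rw [hp₀]
    rw [h1, h2] at hp
    have h3 := abs_le.1 ((abs_im_le_norm (p.1 + I)).trans hp.1)
    have h4 := abs_le.1 ((abs_im_le_norm (p.2 - I)).trans hp.2)
    simp only [add_im, sub_im, I_im] at h3 h4
    have h5 : ‖p.2‖ ≤ ‖(I:ℂ)‖ + ‖p.2 - I‖ := by
      have := norm_add_le (I:ℂ) (p.2 - I)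
      rwa [add_sub_cancel] at this
    rw [norm_I] at h5
    exact ⟨by linarith, by linarith, by linarith, by linarith, hp.1, hp.2, by linarith [hp.2]⟩
  have hshim : ∀ (s : ℝ) (p : ℂ × ℂ), (Sh (-s) p).1.im = p.1.im - s * p.2.im := by
    intro s p
    simp [Sh]
    ring
  have hdeep : ∀ p ∈ closedBall p₀ (ε / 12), ∀ s : ℝ, ε / 2 ≤ s → s ≤ 1 → Sh (-s) p ∈ DC := by
    intro p hp s hs1 hs2
    obtain ⟨h1, h2, h3, h4, h5, h6, h7⟩ := hcomp p hp
    show (Sh (-s) p).1.im < -|(Sh (-s) p).2.im|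
    rw [hshim, Sh_snd, abs_of_pos (by linarith)]
    nlinarith
  have hshal : ∀ p ∈ closedBall p₀ (ε / 12), ∀ s : ℝ, 0 ≤ s → s ≤ ε / 2 →
      Sh (-s) p ∈ ball p₀ ε := by
    intro p hp s hs1 hs2
    obtain ⟨h1, h2, h3, h4, h5, h6, h7⟩ := hcomp p hp
    rw [mem_ball, Prod.dist_eq, max_lt_iff, dist_eq_norm, dist_eq_norm]
    constructor
    · have e1 : (Sh (-s) p).1 - p₀.1 = (p.1 + I) + ((-s : ℝ) : ℂ) * p.2 := by
        rw [hp₀, Sh_fst]
        ring
      rw [e1]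
      refine lt_of_le_of_lt (norm_add_le _ _) ?_
      rw [norm_mul, Complex.norm_real, Real.norm_eq_abs, abs_neg, abs_of_nonneg hs1]
      have e2 : s * ‖p.2‖ ≤ ε / 2 * (1 + ε / 12) :=
        mul_le_mul hs2 h7 (norm_nonneg _) (by linarith)
      nlinarith
    · rw [Sh_snd]
      show ‖p.2 - I‖ < ε
      linarith
  have hΩo : IsOpen (ball p₀ ε ∪ DC) := isOpen_ball.union hDCo
  have key := mreg_ball_mer hB hWin x (p₀ := p₀) (Λ := Λ) (s₀ := 1) (r₁ := ε / 12)
    (r := ε / 16) (Ω := ball p₀ ε ∪ DC) (by rw [hp₀]; simp; linarith) zero_le_one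
    (by linarith) (by linarith) hΩo ?_ ?_ ?_ ?_ ?_
  · filter_upwards [key] with n hn
    exact hn
  · rintro p (hp | hp)
    · exact (hg1 p hp).congr (hΛB p hp).symm
    · exact (hLan p hp).congr (hΛD p hp).symm
  · rintro p (hp | hp)
    · rw [(hΛB p hp).self_of_nhds]
      exact hg2 hp
    · rw [(hΛD p hp).self_of_nhds]
      exact hLm p hp
  · intro p hp s hs
    rcases le_total s (ε / 2) with h1 | h1
    · exact Or.inl (hshal p hp s hs.1 h1)
    · exact Or.inr (hdeep p hp s h1 hs.2)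
  · intro p hp
    rw [hDI]
    exact hdeep p hp 1 (by linarith) le_rfl
  · intro p hp
    exact hΛD _ (hdeep p hp 1 (by linarith) le_rfl)

end Pool.Agent.MP_ae5b4e_an_N3
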