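import Pool.Agent.Lib.MP_ae5b4e_an_N3.Defs
import Pool.Agent.Lib.MP_ae5b4e_an_N4.Itf

/-!
# Section N3, window level: definitions

`CW v U c κ`: a sequence of conical scales (scale `c n`, constant `κ n`, unit `V n = κ n * c n`).
`ConeAt`: the estimate of the potential at one scale.  `CoreP`: the statement of the theorem
`n4core` (section N4) for one surface, with its constants.
-/

noncomputable section

namespace Pool.Agent.MP_ae5b4e_an_N3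

open Complex Set Filter Topology Metric
open PorTR (Hm)
open Pool.Agent.MP_ae5b4e_an_NBT (St Mer MerAt EqM)
open Pool.Agent.MP_ae5b4e_an_NB2 (Sys)
open Pool.Agent.MP_ae5b4e_an_N5 (NV Con VV AA)
open Pool.Agent.MP_ae5b4e_an_PB
open Pool.Agent.MP_ae5b4e_an_N4 (Hyp Sg Gz)

/-- a sequence of conical scales -/
structure CW (v : ℂ → ℝ) (U : Ultrafilter ℕ) (c κ : ℕ → ℝ) : Prop where
  c_pos : ∀ n, 0 < c n
  κ_pos : ∀ n, 0 < κ n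
  c_lim : Tendsto c U (𝓝 0)
  κ_lim : Tendsto κ U atTop
  con : ∀ Λ : ℝ, 1 ≤ Λ → ∀ η : ℝ, 0 < η → ∀ᶠ n in (U : Filter ℕ), ∀ r : ℝ,
    c n / Λ ≤ r → r ≤ c n * Λ → Con v η (κ n) r

/-- the unit of a conical window -/
def Vc (c κ : ℕ → ℝ) (n : ℕ) : ℝ := κ n * c n

/-- the potential is close to the cone with centre `x0` at the scale `r` -/
def ConeAt (Y : Sys) (h e lam a κ r x0 : ℝ) : Prop :=
  ∀ z : ℂ, lam * (κ * r) ≤ ‖z‖ → lam * ‖z‖ ≤ κ * r → a * ‖z‖ ≤ -z.im →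
    ‖z ^ 2 * Y.Q ((x0:ℂ) + (h:ℂ) * I + z) + (κ:ℂ) ^ 2‖ ≤ e * κ ^ 2

/-- the window map -/
def wmap (h : ℝ) (x c V : ℕ → ℝ) (n : ℕ) (p : ℂ × ℂ) : ℂ × ℂ :=
  (Pool.Agent.MP_ae5b4e_an_M.pt h x V n p.1, (c n : ℂ) * p.2)

/-- the theorem `n4core` for one surface, with the constants `η lam a A C M` -/
def CoreP (Y : Sys) (h R : ℝ) (v : ℂ → ℝ) (G : ℂ × ℂ → ℂ) (η lam a A C M : ℝ) : Prop :=
  ∀ rf re κ x0 : ℝ, M ≤ κ → Hyp Y h R v η lam a rf re κ x0 →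
    (∀ r : ℝ, rf ≤ r → r ≤ re →
      v r ≤ C * r * (1 + κ * ((r / re) ^ (1 / 4 : ℝ) + (rf / r) ^ (1 / 4 : ℝ)))) ∧
    Real.log (re / rf) ≤ C * Real.log κ ∧
    ∃ κ1 : ℝ, |κ1 - κ| ≤ κ / 10 ∧ ∀ l : ℝ, C ≤ l → ∀ r : ℝ, rf * Real.exp l ≤ r →
      r ≤ re * Real.exp (-l) → ∀ ρ : ℂ, ‖ρ - r * I‖ ≤ r / 10 →
        Sg G x0 h A κ κ1 (C * (Real.exp (-(l / 4)) + Real.log κ / κ)) ρ

end Pool.Agent.MP_ae5b4e_an_N3
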