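import Pool.Agent.Lib.MP_ae5b4e_an_N3.WDefs
import Pool.Agent.Lib.MP_ae5b4e_an_M.VB
import Pool.Agent.Lib.MP_ae5b4e_an_LL.Int

/-! # Section N3, window level: conical scales are windows, `v_∞ = |Im|` -/

noncomputable section

namespace Pool.Agent.MP_ae5b4e_an_N3

open Complex Set Filter Topology Metric
open Real (circleAverage)
open Pool.Agent.MP_ae5b4e_an_N5 (NV Con VV AA)
open Pool.Agent.MP_ae5b4e_an_M
open Pool.Agent.Lib.MP_ae5b4e_an_LL (SubH eq_of_le_circleAverage)

variable {v : ℂ → ℝ} {R C0 : ℝ} {U : Ultrafilter ℕ} {c κ : ℕ → ℝ}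

private theorem WinC_mul {f : ℂ → ℝ} {r : ℝ} (hf : CircleIntegrable f 0 r) :
    CircleIntegrable (fun z => f z * |z.im|) 0 r := by
  have hc : Continuous (fun θ : ℝ => |(circleMap (0:ℂ) r θ).im|) :=
    (continuous_im.comp (continuous_circleMap 0 r)).abs
  exact IntervalIntegrable.mul_continuousOn hf hc.continuousOn

private theorem WinC_int (hv : NV v R C0) {r : ℝ} (hr : 0 < r) (hr2 : r < R) :
    CircleIntegrable (fun z => v z * |z.im|) 0 r :=
  WinC_mul (hv.sub.circleIntegrable' hr (closedBall_subset_ball hr2))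

private theorem WinC_im_sq (r : ℝ) :
    circleAverage (fun z : ℂ => |z.im| * |z.im|) 0 r = r ^ 2 / 2 := by
  have e : ∀ θ : ℝ, |(circleMap (0:ℂ) r θ).im| * |(circleMap (0:ℂ) r θ).im| =
      r ^ 2 * Real.sin θ ^ 2 := by
    intro θ
    have h1 : (circleMap (0:ℂ) r θ).im = r * Real.sin θ := by
      simp [circleMap, Complex.exp_ofReal_mul_I_im]
    rw [abs_mul_abs_self, h1]
    ring
  rw [Real.circleAverage]
  simp only [e]
  rw [intervalIntegral.integral_const_mul, integral_sin_sq]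
  have hpi := Real.pi_ne_zero
  simp only [Real.sin_zero, Real.cos_zero, Real.sin_two_pi, Real.cos_two_pi, smul_eq_mul]
  field_simp
  ring

/-- `κ r → 0` at conical scales `r → 0`, quantitatively: for every `ε > 0` there is `r₀ > 0` such
that
a `(1 / 2, κ)`-conical scale `r ≤ r₀` has `κ r ≤ ε`.

Proof. `v 0 = 0` and `v` is upper semicontinuous (`hv.sub`), so `v ≤ ε / 8` on `closedBall 0 r₀`.
Then
`AA v r = (2 / r²) circleAverage (v |Im|) 0 r ≤ (2 / r²) (ε / 8) r` (`v |Im| ≤ (ε / 8) r` pointwise;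
circle integrability of `v` from `SubH.circleIntegrable'`, times the bounded continuous `|Im|`; or
`max v 0`), so `κ / 2 ≤ AA v r ≤ ε / (4 r)`. -/
theorem small_of_con (hv : NV v R C0) (hR : 0 < R) {ε : ℝ} (hε : 0 < ε) :
    ∃ r₀ > 0, ∀ r κ : ℝ, 0 < r → r ≤ r₀ → Con v (1 / 2) κ r → κ * r ≤ ε := by
  have h0 : (0:ℂ) ∈ ball (0:ℂ) R := mem_ball_self hR
  have h1 : ∀ᶠ z in 𝓝 (0:ℂ), v z < ε / 8 := by
    have h2 := hv.sub.usc 0 h0 (ε / 8) (by show v 0 < ε / 8; rw [hv.zero]; positivity)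
    rwa [isOpen_ball.nhdsWithin_eq h0] at h2
  obtain ⟨r₁, hr₁, hr₁'⟩ := Metric.eventually_nhds_iff_ball.1 h1
  refine ⟨min (r₁ / 2) (R / 2), lt_min (by positivity) (by positivity), ?_⟩
  intro r κ hr hrr hcon
  have hr1 : r < r₁ := by have := hrr.trans (min_le_left _ _); linarith
  have hr2 : r < R := by have := hrr.trans (min_le_right _ _); linarith
  have hint := WinC_int hv hr hr2
  have hav : circleAverage (fun z => v z * |z.im|) 0 r ≤ ε / 8 * r := by
    refine Real.circleAverage_mono_on_of_le_circle hint fun z hz => ?_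
    rw [mem_sphere_zero_iff_norm, abs_of_pos hr] at hz
    have h2 : v z < ε / 8 := hr₁' z (by rw [mem_ball_zero_iff, hz]; exact hr1)
    have h3 : |z.im| ≤ r := (abs_im_le_norm z).trans hz.le
    have h4 := abs_nonneg z.im
    calc v z * |z.im| ≤ ε / 8 * |z.im| := mul_le_mul_of_nonneg_right h2.le h4
      _ ≤ ε / 8 * r := mul_le_mul_of_nonneg_left h3 (by positivity)
  have hAA : AA v r ≤ ε / (4 * r) := by
    unfold AA
    calc 2 / r ^ 2 * circleAverage (fun z => v z * |z.im|) 0 r ≤ 2 / r ^ 2 * (ε / 8 * r) :=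
          mul_le_mul_of_nonneg_left hav (by positivity)
      _ = ε / (4 * r) := by field_simp; ring
  have h5 := (abs_le.1 hcon.2).1
  have h6 : κ / 2 ≤ ε / (4 * r) := by linarith
  rw [le_div_iff₀ (by positivity)] at h6
  nlinarith

theorem CW.V_lim (hv : NV v R C0) (hR : 0 < R) (HW : CW v U c κ) :
    Tendsto (Vc c κ) U (𝓝 0) := by
  rw [Metric.tendsto_nhds]
  intro ε hε
  obtain ⟨r₀, hr₀, h1⟩ := small_of_con hv hR (half_pos hε)
  filter_upwards [HW.c_lim.eventually (gt_mem_nhds hr₀), HW.con 1 le_rfl (1 / 2) (by norm_num)]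
    with n hn1 hn2
  have hc := HW.c_pos n
  have h2 := h1 (c n) (κ n) hc hn1.le (hn2 (c n) (by rw [div_one]) (by rw [mul_one]))
  rw [dist_zero_right, Real.norm_eq_abs]
  unfold Vc
  rw [abs_of_pos (mul_pos (HW.κ_pos n) hc)]
  linarith

/-- Proof. `adm`: for `1 / K ≤ ‖γ‖ ≤ K` the scale `r = c n ‖γ‖` is `(1 / 2, κ n)`-conical (`con`
with
`Λ = K`), so `v (c n γ) ≤ κ (3 / 2 |Im (c n γ)| + r / 2) ≤ 2 κ c n ‖γ‖`. -/
theorem CW.win (hv : NV v R C0) (hR : 0 < R) (HW : CW v U c κ) : Win v U 1 2 c (Vc c κ) := by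
  refine ⟨one_pos, le_rfl, one_le_two, HW.c_pos, fun n => mul_pos (HW.κ_pos n) (HW.c_pos n),
    HW.c_lim, HW.V_lim hv hR, ?_, ?_⟩
  · refine HW.κ_lim.congr fun n => ?_
    unfold Vc
    rw [mul_div_cancel_right₀ _ (HW.c_pos n).ne']
  · intro K hK
    filter_upwards [HW.con (max K 1) (le_max_right _ _) (1 / 2) (by norm_num)] with n hn γ h1 h2
    have hc := HW.c_pos n
    have hκ := HW.κ_pos n
    have hγ0 : 0 < ‖γ‖ := lt_of_lt_of_le (by positivity) h1
    have h3 : ‖(c n : ℂ) * γ‖ = c n * ‖γ‖ := by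
      rw [norm_mul, Complex.norm_real, Real.norm_eq_abs, abs_of_pos hc]
    have hcon := hn (c n * ‖γ‖) (by
      rw [div_eq_mul_one_div]
      apply mul_le_mul_of_nonneg_left _ hc.le
      exact (one_div_le_one_div_of_le hK (le_max_left _ _)).trans h1)
      (mul_le_mul_of_nonneg_left (h2.trans (le_max_left _ _)) hc.le)
    have h4 := hcon.1 ((c n : ℂ) * γ) (by rw [h3]; nlinarith) (by rw [h3]; nlinarith)
    refine h4.trans ?_
    rw [Real.rpow_one, max_self]
    have h5 : |((c n : ℂ) * γ).im| ≤ c n * ‖γ‖ := (abs_im_le_norm _).trans h3.le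
    have h6 : (1 + 1 / 2) * |((c n : ℂ) * γ).im| + 1 / 2 * (c n * ‖γ‖) ≤ 2 * (c n * ‖γ‖) := by
      linarith
    calc κ n * ((1 + 1 / 2) * |((c n : ℂ) * γ).im| + 1 / 2 * (c n * ‖γ‖))
        ≤ κ n * (2 * (c n * ‖γ‖)) := mul_le_mul_of_nonneg_left h6 hκ.le
      _ = 2 * ‖γ‖ * Vc c κ n := by unfold Vc; ring

/-- scaled conical scales are conical scales -/
theorem CW.scale (HW : CW v U c κ) {s : ℝ} (hs : 0 < s) : CW v U (fun n => s * c n) κ := by
  refine ⟨fun n => mul_pos hs (HW.c_pos n), HW.κ_pos, ?_, HW.κ_lim, ?_⟩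
  · have := HW.c_lim.const_mul s
    rwa [mul_zero] at this
  · intro Λ hΛ η hη
    have hm : 1 ≤ max s (1 / s) := by
      rcases le_total 1 s with h1 | h1
      · exact le_max_of_le_left h1
      · exact le_max_of_le_right (by rw [le_div_iff₀ hs]; linarith)
    have hΛ' : 1 ≤ Λ * max s (1 / s) := one_le_mul_of_one_le_of_one_le hΛ hm
    filter_upwards [HW.con _ hΛ' η hη] with n hn r h1 h2
    have hc := HW.c_pos n
    have hΛ0 : 0 < Λ := by linarith
    apply hn r
    · refine le_trans ?_ h1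
      show c n / (Λ * max s (1 / s)) ≤ s * c n / Λ
      rw [div_le_div_iff₀ (by positivity) hΛ0]
      have h3 : 1 ≤ s * max s (1 / s) := by
        have h4 : s * (1 / s) ≤ s * max s (1 / s) :=
          mul_le_mul_of_nonneg_left (le_max_right _ _) hs.le
        rwa [mul_one_div_cancel hs.ne'] at h4
      have h5 : 0 < c n * Λ := by positivity
      nlinarith
    · refine h2.trans ?_
      show s * c n * Λ ≤ c n * (Λ * max s (1 / s))
      have h3 : s * (c n * Λ) ≤ max s (1 / s) * (c n * Λ) :=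
        mul_le_mul_of_nonneg_right (le_max_left _ _) (by positivity)
      nlinarith

/-- the conical estimate in the window -/
private theorem WinC_con (HW : CW v U c κ) {s η : ℝ} (hs : 0 < s) (hη : 0 < η) :
    ∀ᶠ n in (U : Filter ℕ), (∀ γ' : ℂ, s / 4 ≤ ‖γ'‖ → ‖γ'‖ ≤ 4 * s →
      vn v c (Vc c κ) n γ' ≤ (1 + η) * |γ'.im| + η * s) ∧
      |AA v (c n * s) - κ n| ≤ η * κ n := by
  have hm : 1 ≤ max s (1 / s) := by
    rcases le_total 1 s with h1 | h1
    · exact le_max_of_le_left h1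
    · exact le_max_of_le_right (by rw [le_div_iff₀ hs]; linarith)
  filter_upwards [HW.con _ hm η hη] with n hn
  have hc := HW.c_pos n
  have hκ := HW.κ_pos n
  have hcon := hn (c n * s) (by
    rw [div_eq_mul_one_div]
    apply mul_le_mul_of_nonneg_left _ hc.le
    have h4 : 1 / max s (1 / s) ≤ 1 / (1 / s) :=
      one_div_le_one_div_of_le (by positivity) (le_max_right _ _)
    rwa [one_div_one_div] at h4) (mul_le_mul_of_nonneg_left (le_max_left _ _) hc.le)
  refine ⟨fun γ' h1 h2 => ?_, hcon.2⟩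
  have h3 : ‖(c n : ℂ) * γ'‖ = c n * ‖γ'‖ := by
    rw [norm_mul, Complex.norm_real, Real.norm_eq_abs, abs_of_pos hc]
  have h4 := hcon.1 ((c n : ℂ) * γ') (by rw [h3]; nlinarith) (by rw [h3]; nlinarith)
  have h5 : |((c n : ℂ) * γ').im| = c n * |γ'.im| := by
    rw [← abs_of_pos hc, ← abs_mul, abs_of_pos hc]
    congr 1
    simp
  rw [h5] at h4
  unfold vn Vc
  rw [div_le_iff₀ (by positivity)]
  refine h4.trans (le_of_eq ?_)
  ring

/-- the sine mean in the window -/
private theorem WinC_avg (HW : CW v U c κ) {s : ℝ} (hs : 0 < s) (n : ℕ) :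
    circleAverage (fun z => vn v c (Vc c κ) n z * |z.im|) 0 s =
      s ^ 2 / 2 * (AA v (c n * s) / κ n) := by
  have hc := HW.c_pos n
  have hκ := HW.κ_pos n
  have h1 : circleAverage (fun z => v z * |z.im|) 0 (c n * s) =
      κ n * c n ^ 2 * circleAverage (fun z => vn v c (Vc c κ) n z * |z.im|) 0 s := by
    have h2 := Real.circleAverage_fun_smul (a := κ n * c n ^ 2) (c := 0) (R := s)
      (f := fun z : ℂ => vn v c (Vc c κ) n z * |z.im|)
    simp only [smul_eq_mul] at h2
    rw [← h2, Real.circleAverage_def, Real.circleAverage_def]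
    congr 1
    apply intervalIntegral.integral_congr
    intro θ _
    have h3 : circleMap (0:ℂ) (c n * s) θ = (c n : ℂ) * circleMap (0:ℂ) s θ := by
      unfold circleMap
      push_cast
      ring
    have h5 : |((c n : ℂ) * circleMap (0:ℂ) s θ).im| = c n * |(circleMap (0:ℂ) s θ).im| := by
      rw [← abs_of_pos hc, ← abs_mul, abs_of_pos hc]
      congr 1
      simp
    show v (circleMap (0:ℂ) (c n * s) θ) * |(circleMap (0:ℂ) (c n * s) θ).im| =
      κ n * c n ^ 2 * (vn v c (Vc c κ) n (circleMap (0:ℂ) s θ) * |(circleMap (0:ℂ) s θ).im|)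
    rw [h3, h5]
    unfold vn Vc
    field_simp
  unfold AA
  rw [h1]
  field_simp

/-- `v_∞ (γ) = |Im γ|`.

Proof. Upper bound: `γ = 0`: `vI_zero`. `γ ≠ 0`: for `δ < ‖γ‖ / 2`, `η > 0` and almost all `n`, on
`ball γ δ`: `vn γ' ≤ (1 + η) |Im γ'| + η ‖γ'‖`; so `vI γ ≤ (1 + η) (|Im γ| + δ) + η (‖γ‖ + δ)` (the
number
is in the set whose infimum is `vI γ`); let `δ, η → 0`. Lower bound: suppose `vI γ < |Im γ|`; by
`vI_nonneg` `Im γ ≠ 0`. By `ev_of_vI_lt` there are `δ > 0`, `m > 0` with `vn γ' ≤ |Im γ'| - m` for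
`γ' ∈ ball γ δ`, almost all `n`. With `s = ‖γ‖`, for every `η > 0` and almost all `n`, on the circle
`‖γ'‖ = s`: `vn γ' ≤ |Im γ'| + 2 η s - m 1_{ball γ δ} (γ')` (take `η s` small). So
`AA (vn) s = (2 / s²) circleAverage (vn |Im|) ≤ 1 + 4 η - m'` where `m' > 0` does not depend on `η,
n`
(`m' = (2 / s²) m` times the average of `|Im|` over the arc, positive since `Im γ ≠ 0`; to avoid
indicator functions use a continuous bump `0 ≤ φ ≤ 1` supported in the ball with `φ γ = 1`;
`circleAverage (|Im|²) = s² / 2`). On the other hand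
`AA (vn) s = AA v (c n s) / κ n → 1` (`circleAverage` of the dilated function; `con`):
contradiction. Circle integrability: `vn` is subharmonic (`vn_subH`, `SubH.circleIntegrable'`). -/
theorem CW.vI_eq (hv : NV v R C0) (hR : 0 < R) (HW : CW v U c κ) (γ : ℂ) :
    vI v U c (Vc c κ) γ = |γ.im| := by
  have hW := HW.win hv hR
  rcases eq_or_ne γ 0 with rfl | hγ
  · rw [vI_zero hv hR hW]; simp
  have hs : 0 < ‖γ‖ := norm_pos_iff.2 hγ
  apply le_antisymm
  · -- upper bound
    have hcont : Tendsto (fun δ : ℝ => (1 + δ) * (|γ.im| + δ) + δ * ‖γ‖) (𝓝[>] 0)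
        (𝓝 ((1 + 0) * (|γ.im| + 0) + 0 * ‖γ‖)) := by
      have h1 : Continuous fun δ : ℝ => (1 + δ) * (|γ.im| + δ) + δ * ‖γ‖ := by fun_prop
      exact (h1.tendsto 0).mono_left nhdsWithin_le_nhds
    have hlim : (1 + 0) * (|γ.im| + 0) + 0 * ‖γ‖ = |γ.im| := by ring
    rw [hlim] at hcont
    refine ge_of_tendsto hcont ?_
    have h01 : ∀ᶠ δ : ℝ in 𝓝[>] 0, δ ∈ Ioo (0:ℝ) (‖γ‖ / 2) := Ioo_mem_nhdsGT (by positivity)
    filter_upwards [h01] with δ hδ
    apply csInf_le (vI_set hv hR hW γ).1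
    refine ⟨δ, hδ.1, ?_⟩
    filter_upwards [WinC_con HW hs hδ.1] with n hn γ' hγ'
    rw [mem_ball, dist_eq_norm] at hγ'
    have h1 := norm_sub_norm_le γ γ'
    rw [norm_sub_rev] at h1
    have h2 := norm_sub_norm_le γ' γ
    have h3 := (hn.1 γ' (by linarith [hδ.2]) (by linarith [hδ.2]))
    have h4 : |γ'.im| ≤ |γ.im| + δ := by
      have h5 := abs_im_le_norm (γ' - γ)
      rw [sub_im] at h5
      have h6 := abs_sub_abs_le_abs_sub γ'.im γ.im
      linarith
    refine h3.trans ?_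
    have h5 : (1 + δ) * |γ'.im| ≤ (1 + δ) * (|γ.im| + δ) :=
      mul_le_mul_of_nonneg_left h4 (by linarith [hδ.1])
    linarith
  · -- lower bound
    by_contra hcon
    push Not at hcon
    obtain ⟨b, hb1, hb2⟩ := exists_between hcon
    obtain ⟨δ₁, hδ₁, hev⟩ := ev_of_vI_lt hv hR hW hb1
    have hb0 : 0 ≤ vI v U c (Vc c κ) γ := vI_nonneg hv hR hW γ
    have him : 0 < |γ.im| := by linarith
    set m : ℝ := (|γ.im| - b) / 2 with hm
    have hm0 : 0 < m := by rw [hm]; linarith
    set δ : ℝ := min δ₁ m with hδd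
    have hδ : 0 < δ := lt_min hδ₁ hm0
    -- the bump function
    set φ : ℂ → ℝ := fun z => max 0 (1 - ‖z - γ‖ / δ) with hφd
    have hφc : Continuous φ := by
      have : Continuous fun z : ℂ => 1 - ‖z - γ‖ / δ := by fun_prop
      exact continuous_const.max this
    have hφ0 : ∀ z, 0 ≤ φ z := fun z => le_max_left _ _
    have hφ1 : ∀ z, φ z ≤ 1 := fun z => max_le zero_le_one (by
      have : 0 ≤ ‖z - γ‖ / δ := by positivity
      linarith)
    have hφγ : φ γ = 1 := by simp [hφd]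
    have hφout : ∀ z, z ∉ ball γ δ → φ z = 0 := by
      intro z hz
      rw [mem_ball, dist_eq_norm, not_lt] at hz
      apply max_eq_left
      have : 1 ≤ ‖z - γ‖ / δ := by rw [le_div_iff₀ hδ]; linarith
      linarith
    set a : ℝ := circleAverage (fun z => φ z * |z.im|) 0 ‖γ‖ with had
    have hφim : Continuous fun z : ℂ => φ z * |z.im| := hφc.mul continuous_im.abs
    have ha : 0 < a := by
      by_contra hna
      push Not at hna
      have h1 : circleAverage (fun z => -(φ z * |z.im|)) 0 ‖γ‖ = -a := by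
        have h2 := Real.circleAverage_fun_smul (a := (-1:ℝ)) (c := 0) (R := ‖γ‖)
          (f := fun z : ℂ => φ z * |z.im|)
        simp only [smul_eq_mul, neg_mul, one_mul] at h2
        simpa using h2
      have h2 := eq_of_le_circleAverage (g := fun z => -(φ z * |z.im|)) (c := 0) (r := ‖γ‖)
        (M := 0) hφim.neg.continuousOn hs
        (fun z _ => neg_nonpos.2 (mul_nonneg (hφ0 z) (abs_nonneg _)))
        (by rw [h1]; linarith) γ (by rw [mem_sphere_zero_iff_norm])
      rw [hφγ, one_mul] at h2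
      linarith
    set η : ℝ := m * a / (5 * ‖γ‖ ^ 2) with hηd
    have hη : 0 < η := by positivity
    obtain ⟨n, hn1, hn2, hn3⟩ := (hev.and ((WinC_con HW hs hη).and
      (ball_sub_scaled hR hW ‖γ‖))).exists
    have hc := HW.c_pos n
    have hκ := HW.κ_pos n
    have hint : CircleIntegrable (fun z => vn v c (Vc c κ) n z * |z.im|) 0 ‖γ‖ := by
      have h1 : CircleIntegrable (vn v c (Vc c κ) n) 0 ‖γ‖ :=
        (vn_subH hv hW n).circleIntegrable' hs hn3
      exact WinC_mul h1
    have h1 : circleAverage (fun z => vn v c (Vc c κ) n z * |z.im|) 0 ‖γ‖ ≤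
        circleAverage (fun z : ℂ => |z.im| * |z.im| + (2 * η * ‖γ‖ ^ 2 + -m * (φ z * |z.im|)))
          0 ‖γ‖ := by
      refine Real.circleAverage_mono hint ?_ fun z hz => ?_
      · apply ContinuousOn.circleIntegrable'
        apply Continuous.continuousOn
        exact (continuous_im.abs.mul continuous_im.abs).add
          (continuous_const.add (continuous_const.mul hφim))
      · rw [mem_sphere_zero_iff_norm, abs_of_pos hs] at hz
        have h2 := hn2.1 z (by linarith) (by linarith)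
        have h3 : |z.im| ≤ ‖γ‖ := (abs_im_le_norm z).trans hz.le
        have h4 := abs_nonneg z.im
        have h5 : vn v c (Vc c κ) n z ≤ |z.im| + 2 * η * ‖γ‖ - m * φ z := by
          by_cases hzb : z ∈ ball γ δ
          · have h6 := hn1 z (ball_subset_ball (min_le_left _ _) hzb)
            have h7 : ‖z - γ‖ < m := by
              rw [← dist_eq_norm]
              exact (mem_ball.1 hzb).trans_le (min_le_right _ _)
            have h8 := abs_im_le_norm (z - γ)
            rw [sub_im] at h8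
            have h9 := abs_sub_abs_le_abs_sub γ.im z.im
            rw [abs_sub_comm] at h9
            have h10 : m * φ z ≤ m := by
              have := mul_le_mul_of_nonneg_left (hφ1 z) hm0.le
              linarith
            have h11 : 0 ≤ 2 * η * ‖γ‖ := by positivity
            have h12 : b = |γ.im| - 2 * m := by rw [hm]; ring
            linarith
          · rw [hφout z hzb, mul_zero, sub_zero]
            have h6 : η * |z.im| ≤ η * ‖γ‖ := mul_le_mul_of_nonneg_left h3 hη.le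
            linarith
        calc vn v c (Vc c κ) n z * |z.im| ≤ (|z.im| + 2 * η * ‖γ‖ - m * φ z) * |z.im| :=
              mul_le_mul_of_nonneg_right h5 h4
          _ = |z.im| * |z.im| + (2 * η * ‖γ‖ * |z.im| + -m * (φ z * |z.im|)) := by ring
          _ ≤ |z.im| * |z.im| + (2 * η * ‖γ‖ ^ 2 + -m * (φ z * |z.im|)) := by
              have h6 : 2 * η * ‖γ‖ * |z.im| ≤ 2 * η * ‖γ‖ * ‖γ‖ :=
                mul_le_mul_of_nonneg_left h3 (by positivity)
              nlinarith
    have h2 : circleAverage (fun z : ℂ => |z.im| * |z.im| +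
        (2 * η * ‖γ‖ ^ 2 + -m * (φ z * |z.im|))) 0 ‖γ‖ =
        ‖γ‖ ^ 2 / 2 + (2 * η * ‖γ‖ ^ 2 + -m * a) := by
      have i1 : CircleIntegrable (fun z : ℂ => |z.im| * |z.im|) 0 ‖γ‖ :=
        (continuous_im.abs.mul continuous_im.abs).continuousOn.circleIntegrable'
      have i2 : CircleIntegrable (fun _ : ℂ => 2 * η * ‖γ‖ ^ 2) 0 ‖γ‖ :=
        continuous_const.continuousOn.circleIntegrable'
      have i3 : CircleIntegrable (fun z : ℂ => -m * (φ z * |z.im|)) 0 ‖γ‖ :=
        (continuous_const.mul hφim).continuousOn.circleIntegrable'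
      have i23 : CircleIntegrable (fun z : ℂ => 2 * η * ‖γ‖ ^ 2 + -m * (φ z * |z.im|)) 0 ‖γ‖ :=
        i2.add i3
      rw [Real.circleAverage_fun_add i1 i23, Real.circleAverage_fun_add i2 i3,
        Real.circleAverage_const, WinC_im_sq]
      congr 2
      have h3 := Real.circleAverage_fun_smul (a := -m) (c := 0) (R := ‖γ‖)
        (f := fun z : ℂ => φ z * |z.im|)
      simp only [smul_eq_mul] at h3
      exact h3
    rw [h2, WinC_avg HW hs n] at h1
    have h3 := (abs_le.1 hn2.2).1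
    have h4 : (1 - η) * κ n ≤ AA v (c n * ‖γ‖) := by linarith
    have h5 : ‖γ‖ ^ 2 / 2 * (1 - η) ≤ ‖γ‖ ^ 2 / 2 * (AA v (c n * ‖γ‖) / κ n) := by
      apply mul_le_mul_of_nonneg_left _ (by positivity)
      rw [le_div_iff₀ hκ]
      exact h4
    have h6 : 5 * ‖γ‖ ^ 2 * η = m * a := by
      rw [hηd]
      field_simp
    nlinarith [mul_pos hm0 ha]

theorem CW.DI_eq (hv : NV v R C0) (hR : 0 < R) (HW : CW v U c κ) :
    DI v U c (Vc c κ) = DC := by
  ext p
  show p.1.im < -vI v U c (Vc c κ) p.2 ↔ p.1.im < -|p.2.im|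
  rw [HW.vI_eq hv hR]

end Pool.Agent.MP_ae5b4e_an_N3
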