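import Pool.Agent.Lib.MP_ae5b4e_an_N3.WinC
import Pool.Agent.Lib.MP_ae5b4e_an_N3.GFun
import Pool.Agent.Lib.MP_ae5b4e_an_M.EqA
import Pool.Agent.Lib.MP_ae5b4e_an_M.Sc

/-! # Section N3, window level: limits of conical windows are conical limits -/

noncomputable section

namespace Pool.Agent.MP_ae5b4e_an_N3

open Complex Set Filter Topology Metric
open PorTR (Hm)
open Pool.Agent.MP_ae5b4e_an_NB2 (Sys)
open Pool.Agent.MP_ae5b4e_an_N5 (NV Con)
open Pool.Agent.MP_ae5b4e_an_PB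
open Pool.Agent.MP_ae5b4e_an_M

variable {Y : Sys} {h R C0 : ℝ} {v : ℂ → ℝ} {G L : ℂ × ℂ → ℂ} {U : Ultrafilter ℕ} {c κ : ℕ → ℝ}

/-- Proof. `exists_CL` (GFun) for `q := qI`, `L := LI`, with `HW.win`, `β = 1`, `C1 = 2`, and a
large
constant `C` (`C ≥ C3f 1 2`, `C ≥ 128`, `C ≥ 9`): `hq`: `qI_hol`; `hqb`: `qI_bound`, `gr 1 C3 y =
C3 y ^ (-2)`; `an`, `maps`: `LI_an`, `LI_Hm`, `DI_eq`; `base`: `LI_est` with `Rg 1 2 y = y / 4`
(`‖γ‖ ≤ y / C < y / 8`): `‖LI - τ‖ ≤ 8 y ‖γ‖² / (y / 4)² = 128 ‖γ‖² / y`; `ode`: `LI_eq` (`al`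
unfolded);
`real`: `LI_dep` with `vI g = |Im g| = 0` for real `g`. -/
theorem CW.cl (hB : Base Y h R C0 v G L) (HW : CW v U c κ) (x : ℕ → ℝ) :
    ∃ (C : ℝ) (G' : ℂ → ℂ), CL C (qI Y h U x c (Vc c κ)) G' (LI L h U x c (Vc c κ)) := by
  have hW := HW.win hB.nv hB.R_pos
  have hDI := HW.DI_eq hB.nv hB.R_pos
  have hC3 : 0 < C3f 1 2 := by unfold C3f; positivity
  obtain ⟨G', hG'⟩ := exists_CL (C := C3f 1 2 + 128) (by linarith) (q := qI Y h U x c (Vc c κ))
    (L := LI L h U x c (Vc c κ)) (qI_hol hB hW x) (by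
      intro z hz
      have h1 : 0 < -z.im := by
        have : z.im < 0 := hz
        linarith
      have h2 := qI_bound hB hW x hz
      unfold gr at h2
      rw [div_one, max_self, Real.rpow_neg h1.le, ← div_eq_mul_inv] at h2
      have h3 : (-z.im) ^ (2:ℝ) = z.im ^ 2 := by
        rw [← neg_sq z.im]
        norm_cast
      rw [h3] at h2
      refine h2.trans ?_
      have h4 : 0 < z.im ^ 2 := by rw [← neg_sq]; positivity
      exact div_le_div_of_nonneg_right (by linarith) h4.le)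
    (by rw [← hDI]; exact LI_an hB hW x)
    (by
      intro p hp
      rw [← hDI] at hp
      exact LI_Hm hB hW x hp)
    (by
      intro τ γ hτ hγ
      have hy : 0 < -τ.im := by linarith
      have hRg : Rg 1 2 (-τ.im) = -τ.im / 4 := by
        unfold Rg
        rw [one_div_one, Real.rpow_one, min_self]
        norm_num
      have h0 := norm_nonneg γ
      have h1 : ‖γ‖ < Rg 1 2 (-τ.im) / 2 := by
        rw [hRg]
        rcases h0.eq_or_lt with h2 | h2
        · rw [← h2]; positivity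
        · nlinarith
      have h2 := (LI_est hB hW x hτ h1).2
      rw [hRg] at h2
      refine h2.trans ?_
      have h3 : 8 * (-τ.im) * ‖γ‖ ^ 2 / (-τ.im / 4) ^ 2 = 128 * ‖γ‖ ^ 2 / (-τ.im) := by
        field_simp
        ring
      rw [h3]
      apply div_le_div_of_nonneg_right _ hy.le
      nlinarith [sq_nonneg ‖γ‖])
    (by
      intro p hp
      rw [← hDI] at hp
      exact LI_eq hB hW x hp)
    (by
      intro τ hτ g
      have hp : (τ, (g:ℂ)) ∈ DC := by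
        show τ.im < -|((g:ℝ):ℂ).im|
        rw [ofReal_im, abs_zero, neg_zero]
        exact hτ
      rw [← hDI] at hp
      have h1 := LI_dep hB hW x hp
      dsimp only at h1
      rw [HW.vI_eq hB.nv hB.R_pos, ofReal_im, abs_zero] at h1
      linarith)
  exact ⟨_, G', hG'⟩

/-- the scaled window: `LI_scale`, `qI_scale` with `t = s` (`Vc (s c) κ = s Vc c κ`) -/
theorem CW.zL_eq (hB : Base Y h R C0 v G L) (HW : CW v U c κ) (x : ℕ → ℝ) {s : ℝ} (hs : 0 < s) :
    EqOn (LI L h U x (fun n => s * c n) (Vc (fun n => s * c n) κ))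
      (zL s (LI L h U x c (Vc c κ))) DC := by
  intro p hp
  have hV : Vc (fun n => s * c n) κ = fun n => s * Vc c κ n := by
    funext n
    unfold Vc
    ring
  have hm : ((s:ℂ) * p.1, (s:ℂ) * p.2) ∈ DI v U c (Vc c κ) := by
    rw [HW.DI_eq hB.nv hB.R_pos]
    have h1 : p.1.im < -|p.2.im| := hp
    show ((s:ℂ) * p.1).im < -|((s:ℂ) * p.2).im|
    have h2 : ((s:ℂ) * p.1).im = s * p.1.im := by simp
    have h3 : ((s:ℂ) * p.2).im = s * p.2.im := by simp
    rw [h2, h3, abs_mul, abs_of_pos hs]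
    nlinarith
  rw [hV, LI_scale hB (HW.win hB.nv hB.R_pos) hs hs x hm]
  rfl

theorem CW.zq_eq (hB : Base Y h R C0 v G L) (HW : CW v U c κ) (x : ℕ → ℝ) {s : ℝ} (hs : 0 < s) :
    EqOn (qI Y h U x (fun n => s * c n) (Vc (fun n => s * c n) κ))
      (zq s (qI Y h U x c (Vc c κ))) Hm := by
  intro z _
  have hV : Vc (fun n => s * c n) κ = fun n => s * Vc c κ n := by
    funext n
    unfold Vc
    ring
  rw [hV, qI_scale hB (HW.win hB.nv hB.R_pos) hs hs x z]
  rfl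

/-- `ExtB` depends only on the values on `DC` -/
theorem ExtB.congr {L L' : ℂ × ℂ → ℂ} {p : ℂ × ℂ} {ε : ℝ} (h : ExtB L p ε) (hL : EqOn L L' DC) :
    ExtB L' p ε := by
  obtain ⟨g, h1, h2, h3⟩ := h
  exact ⟨g, h1, h2, fun r hr => (h3 r hr).trans (hL hr.2)⟩

theorem ExtB.mono {L : ℂ × ℂ → ℂ} {p : ℂ × ℂ} {ε ε' : ℝ} (h : ExtB L p ε) (hε : ε' ≤ ε) :
    ExtB L p ε' := by
  obtain ⟨g, h1, h2, h3⟩ := h
  have hb : ball p ε' ⊆ ball p ε := ball_subset_ball hε
  exact ⟨g, h1.mono hb, h2.mono_left hb, fun r hr => h3 r ⟨hb hr.1, hr.2⟩⟩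

end Pool.Agent.MP_ae5b4e_an_N3
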