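import Pool.Agent.Lib.MP_ae5b4e_an_N3.Defs

/-! # Section N3: zooms of conical limits -/

noncomputable section

namespace Pool.Agent.MP_ae5b4e_an_N3

open Complex Set Filter Topology Metric
open PorTR (Hm)
open Pool.Agent.MP_ae5b4e_an_M (bb)

private theorem Zoom_open : IsOpen Hm := by
  unfold Hm
  exact isOpen_lt Complex.continuous_im continuous_const

theorem isOpen_DC : IsOpen DC := by
  unfold DC
  exact isOpen_lt (by fun_prop) (by fun_prop)

/-- `DC` is convex (`|Im|` is convex), hence preconnected. -/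
theorem convex_DC : Convex ℝ DC := by
  intro p hp q hq a b ha hb hab
  simp only [DC, mem_setOf_eq] at hp hq ⊢
  have e1 : (a • p + b • q).1.im = a * p.1.im + b * q.1.im := by
    simp [Complex.add_im, Complex.real_smul, Complex.mul_im]
  have e2 : (a • p + b • q).2.im = a * p.2.im + b * q.2.im := by
    simp [Complex.add_im, Complex.real_smul, Complex.mul_im]
  rw [e1, e2]
  have h1 : |a * p.2.im + b * q.2.im| ≤ a * |p.2.im| + b * |q.2.im| := by
    refine (abs_add_le _ _).trans ?_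
    rw [abs_mul, abs_mul, abs_of_nonneg ha, abs_of_nonneg hb]
  have h2 : a * p.1.im + b * q.1.im < a * (-|p.2.im|) + b * (-|q.2.im|) := by
    rcases ha.eq_or_lt with h | h
    · have hb1 : b = 1 := by linarith
      subst h
      rw [hb1]
      linarith
    · have h3 : a * p.1.im < a * (-|p.2.im|) := mul_lt_mul_of_pos_left hp h
      have h4 : b * q.1.im ≤ b * (-|q.2.im|) := mul_le_mul_of_nonneg_left hq.le hb
      linarith
  linarith

theorem smul_mem_DC {s : ℝ} (hs : 0 < s) {p : ℂ × ℂ} (hp : p ∈ DC) :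
    ((s:ℂ) * p.1, (s:ℂ) * p.2) ∈ DC := by
  simp only [DC, mem_setOf_eq] at hp ⊢
  have e1 : ∀ z : ℂ, ((s:ℂ) * z).im = s * z.im := fun z => by simp [Complex.mul_im]
  rw [e1, e1, abs_mul, abs_of_pos hs]
  have := mul_lt_mul_of_pos_left hp hs
  linarith

theorem smul_mem_Hm {s : ℝ} (hs : 0 < s) {z : ℂ} (hz : z ∈ Hm) : (s:ℂ) * z ∈ Hm := by
  simp only [Hm, mem_setOf_eq] at hz ⊢
  have e1 : ((s:ℂ) * z).im = s * z.im := by simp [Complex.mul_im]
  rw [e1]
  exact mul_neg_of_pos_of_neg hs hz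

/-- homogeneity of the right side of the limit equation:
`(zq s q)' (l) = s ^ 3 q' (s l)`, `zq s q l * a ^ 2 = q (s l) * (s a) ^ 2`. -/
theorem bb_zq {q : ℂ → ℂ} (hq : DifferentiableOn ℂ q Hm) {s : ℝ} (hs : 0 < s) {l a : ℂ}
    (hl : l ∈ Hm) : bb (zq s q) l a = bb q ((s:ℂ) * l) ((s:ℂ) * a) / s := by
  have _ := hq
  have _ := hl
  have hs0 : (s:ℂ) ≠ 0 := by exact_mod_cast hs.ne'
  have hd : deriv (zq s q) l = (s:ℂ) ^ 2 * ((s:ℂ) * deriv q ((s:ℂ) * l)) := by
    have h1 : deriv (fun x => q ((s:ℂ) * x)) l = (s:ℂ) • deriv q ((s:ℂ) * l) :=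
      deriv_comp_mul_left _ _ _
    have h2 : zq s q = fun z => (s:ℂ) ^ 2 * (fun x => q ((s:ℂ) * x)) z := rfl
    rw [h2, deriv_const_mul_field, h1, smul_eq_mul]
  have he : zq s q l * a ^ 2 = q ((s:ℂ) * l) * ((s:ℂ) * a) ^ 2 := by
    unfold zq
    ring
  unfold bb
  rw [hd, he]
  field_simp

/-- A zoom of a conical limit is a conical limit with the same constant.

Proof. `gd, gq, gpos`: chain rule. `gbd`: `|s G (s z)| ≤ s C / (- s Im z)`. `an, maps`: composition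
with `smul_mem_DC`; `base`: `|L (sτ, sγ) / s - τ| = |L (sτ, sγ) - sτ| / s ≤ C s² |γ|² / (s · s (- Im τ))`.
`ode` at `p`: with `l := L (s p)`, `∂τ (zL s L) (p) = L_τ (s p)`, `∂τ² (zL s L) (p) = s L_ττ (s p)`
(on the open half plane of the `τ` with `(τ, p.2) ∈ DC`), so the left side is
`p.2² s L_ττ (s p) = (s p.2)² L_ττ (s p) / s = bb q l (s p.2 L_τ (s p)) / s` and this is
`bb (zq s q) (l / s) (p.2 L_τ (s p))` by `bb_zq` with `l / s ∈ Hm`. `DifferentiableOn ℂ q Hm`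
follows from `gd`, `gq` (`Hm` is open; `q = deriv G` on `Hm`). -/
theorem CL.zoom {C : ℝ} {q G : ℂ → ℂ} {L : ℂ × ℂ → ℂ} (h : CL C q G L) {s : ℝ} (hs : 0 < s) :
    CL C (zq s q) (zG s G) (zL s L) := by
  have hs0 : (s:ℂ) ≠ 0 := by exact_mod_cast hs.ne'
  have hq : DifferentiableOn ℂ q Hm := by
    have ho : IsOpen Hm := Zoom_open
    exact (h.gd.deriv ho).congr fun z hz => (h.gq z hz).symm
  refine
    { C_two := h.C_two
      gd := ?_
      gq := ?_
      gpos := ?_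
      gbd := ?_
      an := ?_
      maps := ?_
      base := ?_
      ode := ?_ }
  · unfold zG
    refine DifferentiableOn.const_mul ?_ _
    refine h.gd.comp (f := fun z : ℂ => (s:ℂ) * z) (by fun_prop) ?_
    intro z hz
    exact smul_mem_Hm hs hz
  · intro z hz
    have h1 : deriv (fun x => G ((s:ℂ) * x)) z = (s:ℂ) • deriv G ((s:ℂ) * z) :=
      deriv_comp_mul_left _ _ _
    have h2 : zG s G = fun z => (s:ℂ) * (fun x => G ((s:ℂ) * x)) z := rfl
    rw [h2, deriv_const_mul_field, h1, smul_eq_mul, h.gq _ (smul_mem_Hm hs hz)]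
    unfold zq
    ring
  · intro z hz
    have h1 := h.gpos _ (smul_mem_Hm hs hz)
    have e1 : (zG s G z).im = s * (G ((s:ℂ) * z)).im := by
      unfold zG
      simp [Complex.mul_im]
    rw [e1]
    positivity
  · intro z hz
    have h1 := h.gbd _ (smul_mem_Hm hs hz)
    have e2 : ((s:ℂ) * z).im = s * z.im := by simp [Complex.mul_im]
    have hz' : z.im < 0 := hz
    have e1 : ‖zG s G z‖ = s * ‖G ((s:ℂ) * z)‖ := by
      unfold zG
      rw [norm_mul, Complex.norm_real, Real.norm_of_nonneg hs.le]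
    rw [e1]
    rw [e2] at h1
    calc s * ‖G ((s:ℂ) * z)‖ ≤ s * (C / -(s * z.im)) := mul_le_mul_of_nonneg_left h1 hs.le
      _ = C / -z.im := by
        have : z.im ≠ 0 := hz'.ne
        field_simp
  · intro p hp
    have h1 := h.an _ (smul_mem_DC hs hp)
    unfold zL
    refine AnalyticAt.div ?_ analyticAt_const hs0
    exact AnalyticAt.comp' (f := fun p : ℂ × ℂ => ((s:ℂ) * p.1, (s:ℂ) * p.2)) h1
      ((analyticAt_const.mul analyticAt_fst).prod (analyticAt_const.mul analyticAt_snd))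
  · intro p hp
    have h1 := h.maps (smul_mem_DC hs hp)
    have h2 : zL s L p = ((s⁻¹ : ℝ) : ℂ) * L ((s:ℂ) * p.1, (s:ℂ) * p.2) := by
      unfold zL
      push_cast
      field_simp
    rw [h2]
    exact smul_mem_Hm (inv_pos.2 hs) h1
  · intro τ γ hτ hγ
    have e2 : ((s:ℂ) * τ).im = s * τ.im := by simp [Complex.mul_im]
    have e3 : ‖(s:ℂ) * γ‖ = s * ‖γ‖ := by
      rw [norm_mul, Complex.norm_real, Real.norm_of_nonneg hs.le]
    have h1 := h.base ((s:ℂ) * τ) ((s:ℂ) * γ) (by rw [e2]; exact mul_neg_of_pos_of_neg hs hτ)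
      (by
        rw [e2, e3]
        have := mul_le_mul_of_nonneg_left hγ hs.le
        linarith)
    rw [e2, e3] at h1
    have e4 : zL s L (τ, γ) - τ = (L ((s:ℂ) * τ, (s:ℂ) * γ) - (s:ℂ) * τ) / (s:ℂ) := by
      unfold zL
      field_simp
    rw [e4, norm_div, Complex.norm_real, Real.norm_of_nonneg hs.le, div_le_iff₀ hs]
    refine h1.trans (le_of_eq ?_)
    have : τ.im ≠ 0 := hτ.ne
    field_simp
  · intro p hp
    have hd1 : ∀ t : ℂ, deriv (fun t => zL s L (t, p.2)) t =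
        deriv (fun t' => L (t', (s:ℂ) * p.2)) ((s:ℂ) * t) := by
      intro t
      have h1 : deriv (fun x => (fun t' => L (t', (s:ℂ) * p.2)) ((s:ℂ) * x)) t =
          (s:ℂ) • deriv (fun t' => L (t', (s:ℂ) * p.2)) ((s:ℂ) * t) :=
        deriv_comp_mul_left (s:ℂ) (fun t' => L (t', (s:ℂ) * p.2)) t
      have h2 : (fun t => zL s L (t, p.2)) =
          fun t => (fun x => (fun t' => L (t', (s:ℂ) * p.2)) ((s:ℂ) * x)) t / (s:ℂ) := rfl
      rw [h2, deriv_div_const, h1, smul_eq_mul]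
      field_simp
    have hd2 : deriv (deriv fun t => zL s L (t, p.2)) p.1 =
        (s:ℂ) * deriv (deriv fun t' => L (t', (s:ℂ) * p.2)) ((s:ℂ) * p.1) := by
      have h1 : (deriv fun t => zL s L (t, p.2)) =
          fun t => (deriv fun t' => L (t', (s:ℂ) * p.2)) ((s:ℂ) * t) := funext hd1
      rw [h1]
      have h2 := deriv_comp_mul_left (s:ℂ) (deriv fun t' => L (t', (s:ℂ) * p.2)) p.1
      rw [smul_eq_mul] at h2
      exact h2
    rw [hd2, hd1 p.1]
    have ho := h.ode _ (smul_mem_DC hs hp)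
    have hm := h.maps (smul_mem_DC hs hp)
    have hl : zL s L p ∈ Hm := by
      have h2 : zL s L p = ((s⁻¹ : ℝ) : ℂ) * L ((s:ℂ) * p.1, (s:ℂ) * p.2) := by
        unfold zL
        push_cast
        field_simp
      rw [h2]
      exact smul_mem_Hm (inv_pos.2 hs) hm
    rw [bb_zq hq hs hl]
    have e1 : (s:ℂ) * zL s L p = L ((s:ℂ) * p.1, (s:ℂ) * p.2) := by
      unfold zL
      field_simp
    have e2 : (s:ℂ) * (p.2 * deriv (fun t' => L (t', (s:ℂ) * p.2)) ((s:ℂ) * p.1)) =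
        (s:ℂ) * p.2 * deriv (fun t' => L (t', (s:ℂ) * p.2)) ((s:ℂ) * p.1) := by ring
    rw [e1, e2]
    simp only at ho
    rw [← ho]
    field_simp

theorem CL.qd {C : ℝ} {q G : ℂ → ℂ} {L : ℂ × ℂ → ℂ} (h : CL C q G L) :
    DifferentiableOn ℂ q Hm := by
  exact (h.gd.deriv Zoom_open).congr fun z hz => (h.gq z hz).symm

/-- only the values of `q` on `Hm` matter (`bb q l` depends on `q` and `deriv q` at `l ∈ Hm`, and
`Hm` is open) -/
theorem CL.congr {C : ℝ} {q q' G : ℂ → ℂ} {L : ℂ × ℂ → ℂ} (h : CL C q G L)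
    (hq : EqOn q q' Hm) : CL C q' G L := by
  refine
    { C_two := h.C_two
      gd := h.gd
      gq := fun z hz => (h.gq z hz).trans (hq hz)
      gpos := h.gpos
      gbd := h.gbd
      an := h.an
      maps := h.maps
      base := h.base
      ode := ?_ }
  intro p hp
  rw [h.ode p hp]
  have hm := h.maps hp
  unfold bb
  rw [hq hm, Filter.EventuallyEq.deriv_eq (hq.eventuallyEq_of_mem (Zoom_open.mem_nhds hm))]

theorem phi_zG (G : ℂ → ℂ) {s : ℝ} (y : ℝ) : phi (zG s G) y = phi G (s * y) := by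
  have e1 : (s:ℂ) * (-((y:ℂ) * I)) = -(((s * y : ℝ) : ℂ) * I) := by
    push_cast
    ring
  unfold phi zG
  rw [e1]
  have e2 : ∀ z : ℂ, ((s:ℂ) * z).im = s * z.im := fun z => by simp [Complex.mul_im]
  rw [e2]
  ring

/-- if the zoom extends near `(-i, i)` then `L` extends near `(- s i, s i)`:
`g (p) = s g₁ (p / s)` on the bidisc of radius `s ε`. -/
theorem extB_zoom {L : ℂ × ℂ → ℂ} {s ε : ℝ} (hs : 0 < s) (h : ExtB (zL s L) (-I, I) ε) :
    ExtB L (-(s * I), s * I) (s * ε) := by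
  obtain ⟨g, hg, hgm, hge⟩ := h
  have hs0 : (s:ℂ) ≠ 0 := by exact_mod_cast hs.ne'
  have hb : ∀ r ∈ ball ((-(s * I), s * I) : ℂ × ℂ) (s * ε),
      (((s⁻¹ : ℝ) : ℂ) * r.1, ((s⁻¹ : ℝ) : ℂ) * r.2) ∈ ball ((-I, I) : ℂ × ℂ) ε := by
    intro r hr
    rw [mem_ball, Prod.dist_eq, max_lt_iff] at hr ⊢
    simp only [dist_eq_norm] at hr ⊢
    have e : ∀ z w : ℂ, ‖((s⁻¹ : ℝ) : ℂ) * z - w‖ = s⁻¹ * ‖z - (s:ℂ) * w‖ := by
      intro z w
      have e1 : ((s⁻¹ : ℝ) : ℂ) * z - w = ((s⁻¹ : ℝ) : ℂ) * (z - (s:ℂ) * w) := by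
        push_cast
        field_simp
      rw [e1, norm_mul, Complex.norm_real, Real.norm_of_nonneg (inv_pos.2 hs).le]
    refine ⟨?_, ?_⟩
    · rw [e]
      have h1 : r.1 - (s:ℂ) * -I = r.1 - -((s:ℂ) * I) := by ring
      rw [h1, inv_mul_lt_iff₀ hs]
      exact hr.1
    · rw [e, inv_mul_lt_iff₀ hs]
      exact hr.2
  refine ⟨fun r => (s:ℂ) * g (((s⁻¹ : ℝ) : ℂ) * r.1, ((s⁻¹ : ℝ) : ℂ) * r.2), ?_, ?_, ?_⟩
  · intro r hr
    refine analyticAt_const.mul ?_
    exact AnalyticAt.comp' (f := fun p : ℂ × ℂ => (((s⁻¹ : ℝ) : ℂ) * p.1, ((s⁻¹ : ℝ) : ℂ) * p.2))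
      (hg _ (hb r hr))
      ((analyticAt_const.mul analyticAt_fst).prod (analyticAt_const.mul analyticAt_snd))
  · intro r hr
    exact smul_mem_Hm hs (hgm (hb r hr))
  · intro r hr
    have h1 := hge _ ⟨hb r hr.1, smul_mem_DC (inv_pos.2 hs) hr.2⟩
    simp only
    rw [h1]
    unfold zL
    have e : ∀ z : ℂ, (s:ℂ) * (((s⁻¹ : ℝ) : ℂ) * z) = z := by
      intro z
      push_cast
      field_simp
    simp only [e]
    field_simp

end Pool.Agent.MP_ae5b4e_an_N3
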